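import Pool.Agent.KS6_89.PP.Cfg

set_option autoImplicit false

/-! Mean values with an additional factor at the primes of `S` (project PP). -/

namespace Pool.Agent.KS6_89.PP

open Finset Filter Topology MeasureTheory MonoidAlgebra
open Pool.Agent.W184.NZ
open Pool.Agent.TH806 Pool.Agent.TH806.LK
open Pool.Agent.H306R2.SM (om cl Yf)
open Pool.Agent.H262R4.TM (Rng Ck)
open Pool.Agent.TH263.LK_AV1 (int_Fc sq_le_four_pow Fc_eq prod_bound one_elt int_om ev_cont ev_le)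
open Pool.Agent.TH626.LK_EXP (avgOc)

noncomputable section

/-- expansion data for a weight -/
def ExW (w : ℕ × ℕ → ℝ) (N L : ℝ) (P : Finset ℕ) (F : ℝ → ℂ) (A : ℂ) : Prop :=
  ∃ (ι : Type) (s : Finset ι) (a : ι → ℂ) (M : ι → DA),
    (∀ x ∈ s, M x ∈ SA (MI P) ∧ Bd N (M x)) ∧
    (∀ t, F t = ∑ x ∈ s, a x * ev t (M x)) ∧
    A = ∑ x ∈ s, a x * ((lam w (M x) : ℝ) : ℂ) ∧
    ∑ x ∈ s, ‖a x‖ * l1 (M x) ≤ L

theorem ExW.block {w : ℕ × ℕ → ℝ} (hF : Mlt w) {N L : ℝ} {P : Finset ℕ} {F : ℝ → ℂ} {A : ℂ}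
    (h : ExW w N L P F A) {I : Finset ℕ} (hd : Disjoint P I) {b : ℝ} (hb : 10 ≤ b)
    (hI : ∀ p ∈ I, p.Prime ∧ (p:ℝ) ≤ b) {K : ℕ} (hK : 1 ≤ K) {f : ℂ → ℂ}
    (hf : PB K f) {ν : Measure (ℂ × ℂ)} {κ₁ κ₂ Q C : ℝ} (hν : LW w κ₁ κ₂ Q C I ν) :
    ExW w (N * b ^ (2 * K)) (L * b ^ (3 * K)) (P ∪ I)
      (fun t => F t * f (PI I (1 / 2 + t * Complex.I))) (A * ∫ q, q.2 * f q.1 ∂ν) := by
  classical
  obtain ⟨ι, s, a, M, h1, h2, h3, h4⟩ := h
  obtain ⟨c, hc, hfc⟩ := hf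
  have hb0 : 0 ≤ b := by linarith
  have hb1 : 1 ≤ b := by linarith
  have hI' : ∀ p ∈ I, p.Prime := fun p hp => (hI p hp).1
  set R := range (K + 1) ×ˢ range (K + 1) with hR
  have hm : ∀ q : ℕ × ℕ, xI I ^ q.1 * yI I ^ q.2 ∈ SA (MI I) := fun q =>
    Subalgebra.mul_mem _ (Subalgebra.pow_mem _ (xI_mem hI') _) (Subalgebra.pow_mem _ (yI_mem hI') _)
  refine ⟨ι × (ℕ × ℕ), s ×ˢ R, fun y => a y.1 * c y.2.1 y.2.2,
    fun y => M y.1 * (xI I ^ y.2.1 * yI I ^ y.2.2), ?_, ?_, ?_, ?_⟩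
  · intro y hy
    rw [mem_product] at hy
    obtain ⟨hy1, hy2⟩ := hy
    rw [hR, mem_product, mem_range, mem_range] at hy2
    refine ⟨Subalgebra.mul_mem _ (SA_mono subset_union_left (h1 _ hy1).1)
      (SA_mono subset_union_right (hm y.2)), ?_⟩
    refine (h1 _ hy1).2.mul ?_
    refine (((xI_Bd hI).pow y.2.1).mul ((yI_Bd hI).pow y.2.2)).mono ?_
    rw [← pow_add]
    exact pow_le_pow_right₀ hb1 (by omega)
  · intro t
    simp only
    rw [h2, hfc, Fc_eq, sum_mul_sum, sum_product]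
    refine sum_congr rfl fun x _ => sum_congr rfl fun q _ => ?_
    simp only
    rw [map_mul, map_mul, map_pow, map_pow, ev_xI, ev_yI t hI']
    ring
  · have e1 : ∫ q, q.2 * f q.1 ∂ν = ∑ q ∈ R, c q.1 q.2 *
        ((lam w (xI I ^ q.1 * yI I ^ q.2) : ℝ) : ℂ) := by
      rw [← int_Fc hν K c]
      refine integral_congr_ae (Eventually.of_forall fun q => ?_)
      simp only
      rw [hfc]
    rw [h3, e1, sum_mul_sum, sum_product]
    refine sum_congr rfl fun x hx => sum_congr rfl fun q _ => ?_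
    simp only
    rw [hF.mul hd (h1 x hx).1 (hm q)]
    push_cast
    ring
  · have e1 : ∀ q ∈ R, ‖c q.1 q.2‖ * l1 (xI I ^ q.1 * yI I ^ q.2) ≤ 2 ^ K * b ^ (2 * K) := by
      intro q hq
      rw [hR, mem_product, mem_range, mem_range] at hq
      refine mul_le_mul (hc _ _) ?_ (l1_nonneg _) (by positivity)
      refine (l1_mul _ _).trans ?_
      calc l1 (xI I ^ q.1) * l1 (yI I ^ q.2) ≤ b ^ q.1 * b ^ q.2 := by
            refine mul_le_mul ((l1_pow _ _).trans ?_) ((l1_pow _ _).trans ?_) (l1_nonneg _)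
              (by positivity)
            · exact pow_le_pow_left₀ (l1_nonneg _) (xI_l1 hb0 hI) _
            · exact pow_le_pow_left₀ (l1_nonneg _) (yI_l1 hb0 hI) _
        _ = b ^ (q.1 + q.2) := (pow_add _ _ _).symm
        _ ≤ b ^ (2 * K) := pow_le_pow_right₀ hb1 (by omega)
    have e2 : ∑ q ∈ R, ‖c q.1 q.2‖ * l1 (xI I ^ q.1 * yI I ^ q.2) ≤ b ^ (3 * K) := by
      refine (sum_le_sum e1).trans ?_
      rw [sum_const, nsmul_eq_mul, hR, card_product, card_range]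
      have h5 := sq_le_four_pow hK
      have h6 : (8:ℝ) ^ K ≤ b ^ K := pow_le_pow_left₀ (by norm_num) (by linarith) K
      calc (((K + 1) * (K + 1) : ℕ) : ℝ) * (2 ^ K * b ^ (2 * K))
          = ((K : ℝ) + 1) ^ 2 * (2 ^ K * b ^ (2 * K)) := by push_cast; ring
        _ ≤ 4 ^ K * (2 ^ K * b ^ (2 * K)) := by gcongr
        _ = 8 ^ K * b ^ (2 * K) := by
            rw [← mul_assoc, ← mul_pow]; norm_num
        _ ≤ b ^ K * b ^ (2 * K) := by gcongr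
        _ = b ^ (3 * K) := by rw [← pow_add]; congr 1; ring
    have e3 : ∑ y ∈ s ×ˢ R, ‖a y.1 * c y.2.1 y.2.2‖ * l1 (M y.1 * (xI I ^ y.2.1 * yI I ^ y.2.2)) ≤
        (∑ x ∈ s, ‖a x‖ * l1 (M x)) * ∑ q ∈ R, ‖c q.1 q.2‖ * l1 (xI I ^ q.1 * yI I ^ q.2) := by
      rw [sum_mul_sum, sum_product]
      refine sum_le_sum fun x _ => sum_le_sum fun q _ => ?_
      simp only
      rw [norm_mul]
      calc ‖a x‖ * ‖c q.1 q.2‖ * l1 (M x * (xI I ^ q.1 * yI I ^ q.2))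
          ≤ ‖a x‖ * ‖c q.1 q.2‖ * (l1 (M x) * l1 (xI I ^ q.1 * yI I ^ q.2)) :=
            mul_le_mul_of_nonneg_left (l1_mul _ _) (by positivity)
        _ = _ := by ring
    refine e3.trans ?_
    exact mul_le_mul h4 e2 (sum_nonneg fun q _ => mul_nonneg (norm_nonneg _) (l1_nonneg _))
      (le_trans (sum_nonneg fun x _ => mul_nonneg (norm_nonneg _) (l1_nonneg _)) h4)

theorem exw_prod {w : ℕ × ℕ → ℝ} (hF : Mlt w) {κ₁ κ₂ c Q C : ℝ} {J : ℕ} {I : ℕ → Finset ℕ} {b : ℕ → ℝ}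
    {K : ℕ → ℕ} {f : ℕ → ℂ → ℂ} {ν : ℕ → Measure (ℂ × ℂ)} (hR : Rg c J I b)
    {N L : ℝ} {S : Finset ℕ} {F : ℝ → ℂ} {A : ℂ} (h0 : ExW w N L S F A)
    (hSI : ∀ i, Disjoint S (I i))
    (hν : ∀ i < J, LW w κ₁ κ₂ Q C (I i) (ν i)) (hf : ∀ i < J, 1 ≤ K i ∧ PB (K i) (f i))
    (m : ℕ) (hm : m ≤ J) :
    ExW w (N * ∏ i ∈ range m, b i ^ (2 * K i)) (L * ∏ i ∈ range m, b i ^ (3 * K i))
      (S ∪ (range m).biUnion I) (fun t => F t * ∏ i ∈ range m, f i (zz I t i))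
      (A * ∏ i ∈ range m, ∫ q, q.2 * f i q.1 ∂(ν i)) := by
  classical
  induction m with
  | zero =>
    simp only [range_zero, prod_empty, biUnion_empty, mul_one, union_empty]
    exact h0
  | succ m ih =>
    have hmJ : m < J := hm
    have hd : Disjoint (S ∪ (range m).biUnion I) (I m) :=
      disjoint_union_left.mpr ⟨hSI m, disj_union m hR.dj⟩
    have h := (ih (by omega)).block hF hd (hR.b10 m hmJ)
      (fun p hp => ⟨(hR.pr m p hp).1, (hR.pr m p hp).2.2⟩) (hf m hmJ).1 (hf m hmJ).2 (hν m hmJ)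
    have e : S ∪ (range (m + 1)).biUnion I = (S ∪ (range m).biUnion I) ∪ I m := by
      rw [range_add_one, biUnion_insert, union_comm (I m), union_assoc]
    rw [e]
    simp only [prod_range_succ, ← mul_assoc]
    exact h

/-- mean values of zeta times block polynomials, with a factor at the primes of `S` -/
theorem av1g {S : Finset ℕ} {N L : ℝ} {F : ℝ → ℂ} {A : ℂ} (h0 : ExW wF N L S F A) :
    ∀ᶠ T : ℝ in atTop, ∀ κ : ℕ, Rng T κ →
    ∀ (c Q C : ℝ) (J : ℕ) (I : ℕ → Finset ℕ) (b : ℕ → ℝ) (K : ℕ → ℕ) (f : ℕ → ℂ → ℂ) (ν : ℕ → Measure (ℂ × ℂ)),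
    Rg c J I b → (∀ i, Disjoint S (I i)) → (∀ i < J, LW wF 0 1 Q C (I i) (ν i)) →
    (∀ i < J, 1 ≤ K i ∧ PB (K i) (f i)) →
    ∑ i ∈ range J, (K i : ℝ) * Real.log (b i) ≤ 1 / 100 * Real.log T →
    ‖(∫ t in Set.Ioi (0:ℝ), ((om κ (κ / T) t : ℝ) : ℂ) *
        (riemannZeta (cl t) * (F t * ∏ i ∈ range J, f i (zz I t i)))) -
      A * ∏ i ∈ range J, ∫ q, q.2 * f i q.1 ∂(ν i)‖ ≤ T ^ (-(1 / 2) : ℝ) := by
  have hN : ∀ᶠ T : ℝ in atTop, |N| ≤ T ^ (1 / 100 : ℝ) := by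
    exact (tendsto_rpow_atTop (by norm_num)).eventually_ge_atTop _
  have hL : ∀ᶠ T : ℝ in atTop, |L| ≤ T ^ (1 / 100 : ℝ) := by
    exact (tendsto_rpow_atTop (by norm_num)).eventually_ge_atTop _
  filter_upwards [Pool.Agent.TH959.LK_ZM.t_ZM, eventually_gt_atTop (Real.exp 1), hN, hL] with T hZT hT1 hNT hLT
  intro κ hκ c Q C J I b K f ν hR hSI hν hf hsum
  have hT0 : 1 < T := lt_trans (Real.one_lt_exp_iff.2 one_pos) hT1
  have hlog : 1 < Real.log T := by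
    rw [Real.lt_log_iff_exp_lt (by linarith)]; exact hT1
  have hκ0 : (0 : ℝ) < κ := by
    have := hκ.1
    nlinarith
  have hδ : 0 < (κ : ℝ) / T := div_pos hκ0 (by linarith)
  have hZ' := hZT κ hκ
  obtain ⟨ι, s, a, M, h1, h2, h3, h4⟩ := exw_prod mltF hR h0 hSI hν hf J le_rfl
  have hb0 : 0 ≤ ∏ i ∈ range J, b i ^ (2 * K i) := prod_nonneg fun i hi => by
    have := hR.b10 i (mem_range.mp hi); positivity
  have hb0' : 0 ≤ ∏ i ∈ range J, b i ^ (3 * K i) := prod_nonneg fun i hi => by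
    have := hR.b10 i (mem_range.mp hi); positivity
  have hN : N * ∏ i ∈ range J, b i ^ (2 * K i) ≤ T ^ (1 / 4 : ℝ) := by
    calc N * ∏ i ∈ range J, b i ^ (2 * K i) ≤ T ^ (1 / 100 : ℝ) * T ^ (((2:ℕ) : ℝ) / 100) :=
          mul_le_mul ((le_abs_self N).trans hNT) (prod_bound hR.b10 K 2 hT0 hsum) hb0 (by positivity)
      _ ≤ T ^ (1 / 4 : ℝ) := by
          rw [← Real.rpow_add (by linarith)]
          exact Real.rpow_le_rpow_of_exponent_le hT0.le (by norm_num)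
  have hL : L * ∏ i ∈ range J, b i ^ (3 * K i) ≤ T ^ (4 / 100 : ℝ) := by
    calc L * ∏ i ∈ range J, b i ^ (3 * K i) ≤ T ^ (1 / 100 : ℝ) * T ^ (((3:ℕ) : ℝ) / 100) :=
          mul_le_mul ((le_abs_self L).trans hLT) (prod_bound hR.b10 K 3 hT0 hsum) hb0' (by positivity)
      _ = T ^ (4 / 100 : ℝ) := by
          rw [← Real.rpow_add (by linarith)]
          norm_num
  have e1 : ∀ t : ℝ, ((om κ (κ / T) t : ℝ) : ℂ) *
        (riemannZeta (cl t) * (F t * ∏ i ∈ range J, f i (zz I t i))) =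
      ∑ x ∈ s, a x * (((om κ (κ / T) t : ℝ) : ℂ) * (riemannZeta (cl t) * ev t (M x))) := by
    intro t
    rw [show F t * ∏ i ∈ range J, f i (zz I t i) = ∑ x ∈ s, a x * ev t (M x) from h2 t, mul_sum, mul_sum]
    refine sum_congr rfl fun x _ => ?_
    ring
  have hi : ∀ x ∈ s, Integrable (fun t : ℝ => a x *
        (((om κ (κ / T) t : ℝ) : ℂ) * (riemannZeta (cl t) * ev t (M x))))
        (volume.restrict (Set.Ioi 0)) := by
    intro x hx
    refine Integrable.const_mul ?_ _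
    exact int_om κ hδ (ev_cont (h1 x hx).2) (B := l1 (M x)) fun t => ev_le (h1 x hx).2 t
  rw [integral_congr_ae (Eventually.of_forall e1), integral_finsetSum _ hi, h3, ← sum_sub_distrib]
  calc ‖∑ x ∈ s, ((∫ t in Set.Ioi (0:ℝ), a x *
        (((om κ (κ / T) t : ℝ) : ℂ) * (riemannZeta (cl t) * ev t (M x)))) -
        a x * ((lam wF (M x) : ℝ) : ℂ))‖
      ≤ ∑ x ∈ s, ‖a x‖ * (T ^ (-1 : ℝ) * l1 (M x)) := by
        refine (norm_sum_le _ _).trans (sum_le_sum fun x hx => ?_)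
        rw [integral_const_mul, ← mul_sub, norm_mul]
        exact mul_le_mul_of_nonneg_left (one_elt hδ hZ' hN (h1 x hx).2) (norm_nonneg _)
    _ = T ^ (-1 : ℝ) * ∑ x ∈ s, ‖a x‖ * l1 (M x) := by
        rw [mul_sum]
        refine sum_congr rfl fun x _ => ?_
        ring
    _ ≤ T ^ (-1 : ℝ) * T ^ (4 / 100 : ℝ) := by
        refine mul_le_mul_of_nonneg_left (h4.trans hL) (by positivity)
    _ ≤ T ^ (-(1 / 2) : ℝ) := by
        rw [← Real.rpow_add (by linarith)]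
        refine Real.rpow_le_rpow_of_exponent_le hT0.le ?_
        norm_num

/-- mean values of block polynomials, with a factor at the primes of `S` -/
theorem av0g {S : Finset ℕ} {N L : ℝ} {F : ℝ → ℂ} {A : ℂ} (h0 : ExW w0 N L S F A) :
    ∀ᶠ T : ℝ in atTop, ∀ κ : ℕ, Rng T κ →
    ∀ (c Q C : ℝ) (J : ℕ) (I : ℕ → Finset ℕ) (b : ℕ → ℝ) (K : ℕ → ℕ) (f : ℕ → ℂ → ℂ) (ν : ℕ → Measure (ℂ × ℂ)),
    Rg c J I b → (∀ i, Disjoint S (I i)) → (∀ i < J, LW w0 0 0 Q C (I i) (ν i)) →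
    (∀ i < J, 1 ≤ K i ∧ PB (K i) (f i)) →
    ∑ i ∈ range J, (K i : ℝ) * Real.log (b i) ≤ 1 / 100 * Real.log T →
    ‖(∫ t in Set.Ioi (0:ℝ), ((om κ (κ / T) t : ℝ) : ℂ) * (F t * ∏ i ∈ range J, f i (zz I t i))) -
      A * ∏ i ∈ range J, ∫ q, q.2 * f i q.1 ∂(ν i)‖ ≤ T ^ (-(1 / 2) : ℝ) := by
  have hN : ∀ᶠ T : ℝ in atTop, max 1 |N| ≤ T ^ (1 / 100 : ℝ) := by
    exact (tendsto_rpow_atTop (by norm_num)).eventually_ge_atTop _
  have hL : ∀ᶠ T : ℝ in atTop, |L| ≤ T ^ (1 / 100 : ℝ) := by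
    exact (tendsto_rpow_atTop (by norm_num)).eventually_ge_atTop _
  have hsm : ∀ᶠ T : ℝ in atTop, 4 * Real.log T ^ 2 ≤ T ^ (2 / 5 : ℝ) := by
    have h := (isLittleO_log_rpow_atTop (show (0:ℝ) < 1 / 10 by norm_num)).bound
      (show (0:ℝ) < 1 / 2 by norm_num)
    filter_upwards [h, eventually_ge_atTop (1:ℝ)] with T h1 hT1
    have hT0 : 0 < T := by linarith
    have hL : 0 ≤ Real.log T := Real.log_nonneg hT1
    rw [Real.norm_eq_abs, Real.norm_eq_abs, abs_of_nonneg hL, abs_of_nonneg (by positivity)] at h1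
    have h2 : (1:ℝ) ≤ T ^ (1 / 5 : ℝ) := Real.one_le_rpow hT1 (by norm_num)
    have h3 : T ^ (1 / 10 : ℝ) * T ^ (1 / 10 : ℝ) = T ^ (1 / 5 : ℝ) := by
      rw [← Real.rpow_add hT0]; norm_num
    have h4 : T ^ (1 / 5 : ℝ) * T ^ (1 / 5 : ℝ) = T ^ (2 / 5 : ℝ) := by
      rw [← Real.rpow_add hT0]; norm_num
    have h5 : 4 * Real.log T ^ 2 ≤ T ^ (1 / 5 : ℝ) := by
      have : Real.log T ^ 2 ≤ (1 / 2 * T ^ (1 / 10 : ℝ)) ^ 2 := pow_le_pow_left₀ hL h1 2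
      nlinarith
    nlinarith
  filter_upwards [hsm, eventually_gt_atTop (Real.exp 1), hN, hL] with T hsm hT1 hNT hLT
  intro κ hκ c Q C J I b K f ν hR hSI hν hf hsum
  have hT0 : 1 < T := lt_trans (Real.one_lt_exp_iff.2 one_pos) hT1
  have hT00 : 0 < T := by linarith
  have hlog : 1 < Real.log T := by
    rw [Real.lt_log_iff_exp_lt (by linarith)]; exact hT1
  have hκ1R : (1:ℝ) ≤ κ := by
    have := hκ.1
    nlinarith
  have hκ1 : 1 ≤ κ := by exact_mod_cast hκ1R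
  have hκ4 : (κ:ℝ) ≤ T ^ (2 / 5 : ℝ) := hκ.2.trans hsm
  obtain ⟨ι, s, a, M, h1, h2, h3, h4⟩ := exw_prod mlt0 hR h0 hSI hν hf J le_rfl
  have hb0 : 0 ≤ ∏ i ∈ range J, b i ^ (2 * K i) := prod_nonneg fun i hi => by
    have := hR.b10 i (mem_range.mp hi); positivity
  have hb0' : 0 ≤ ∏ i ∈ range J, b i ^ (3 * K i) := prod_nonneg fun i hi => by
    have := hR.b10 i (mem_range.mp hi); positivity
  have hb1 : 1 ≤ ∏ i ∈ range J, b i ^ (2 * K i) := by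
    have : ∀ i ∈ range J, (1:ℝ) ≤ b i ^ (2 * K i) := fun i hi =>
      one_le_pow₀ (by linarith [hR.b10 i (mem_range.1 hi)])
    calc (1:ℝ) = ∏ _i ∈ range J, (1:ℝ) := by rw [prod_const_one]
      _ ≤ _ := prod_le_prod (fun _ _ => zero_le_one) this
  set N1 : ℝ := max 1 |N| * ∏ i ∈ range J, b i ^ (2 * K i) with hN1
  have hN11 : 1 ≤ N1 := by
    calc (1:ℝ) = 1 * 1 := (one_mul 1).symm
      _ ≤ N1 := mul_le_mul (le_max_left _ _) hb1 zero_le_one (le_trans zero_le_one (le_max_left _ _))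
  have hNN : N * ∏ i ∈ range J, b i ^ (2 * K i) ≤ N1 :=
    mul_le_mul_of_nonneg_right ((le_abs_self N).trans (le_max_right _ _)) hb0
  have hN1T : N1 ≤ T ^ (3 / 100 : ℝ) := by
    calc N1 ≤ T ^ (1 / 100 : ℝ) * T ^ (((2:ℕ) : ℝ) / 100) :=
          mul_le_mul hNT (prod_bound hR.b10 K 2 hT0 hsum) hb0 (by positivity)
      _ = T ^ (3 / 100 : ℝ) := by
          rw [← Real.rpow_add hT00]
          norm_num
  have hL : L * ∏ i ∈ range J, b i ^ (3 * K i) ≤ T ^ (4 / 100 : ℝ) := by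
    calc L * ∏ i ∈ range J, b i ^ (3 * K i) ≤ T ^ (1 / 100 : ℝ) * T ^ (((3:ℕ) : ℝ) / 100) :=
          mul_le_mul ((le_abs_self L).trans hLT) (prod_bound hR.b10 K 3 hT0 hsum) hb0' (by positivity)
      _ = T ^ (4 / 100 : ℝ) := by
          rw [← Real.rpow_add hT00]
          norm_num
  have hcN : N1 * κ / T ≤ T ^ (-(57 / 100) : ℝ) := by
    have h1 : N1 * κ ≤ T ^ (3 / 100 : ℝ) * T ^ (2 / 5 : ℝ) := by
      have : (0:ℝ) ≤ κ := by linarith
      gcongr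
    have h2 : T ^ (3 / 100 : ℝ) * T ^ (2 / 5 : ℝ) = T ^ (-(57 / 100) : ℝ) * T := by
      rw [← Real.rpow_add hT00]
      nth_rewrite 3 [← Real.rpow_one T]
      rw [← Real.rpow_add hT00]
      norm_num
    rw [div_le_iff₀ hT00, ← h2]
    exact h1
  have hcN1 : N1 * κ / T ≤ 1 := hcN.trans (Real.rpow_le_one_of_one_le_of_nonpos hT0.le (by norm_num))
  have hav := fun x (hx : x ∈ s) => avgOc (f := M x) ((h1 x hx).2.mono hNN) hT00 hκ1 hN11 hcN1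
  have e1 : ∀ t : ℝ, ((om κ (κ / T) t : ℝ) : ℂ) * (F t * ∏ i ∈ range J, f i (zz I t i)) =
      ∑ x ∈ s, a x * (((om κ (κ / T) t : ℝ) : ℂ) * ev t (M x)) := by
    intro t
    rw [show F t * ∏ i ∈ range J, f i (zz I t i) = ∑ x ∈ s, a x * ev t (M x) from h2 t, mul_sum]
    refine sum_congr rfl fun x _ => ?_
    ring
  rw [integral_congr_ae (Eventually.of_forall e1),
    integral_finsetSum _ fun x hx => (hav x hx).1.const_mul _, h3, ← sum_sub_distrib]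
  calc ‖∑ x ∈ s, ((∫ t in Set.Ioi (0:ℝ), a x *
        (((om κ (κ / T) t : ℝ) : ℂ) * ev t (M x))) - a x * ((lam w0 (M x) : ℝ) : ℂ))‖
      ≤ ∑ x ∈ s, ‖a x‖ * (T ^ (-(57 / 100) : ℝ) * l1 (M x)) := by
        refine (norm_sum_le _ _).trans (sum_le_sum fun x hx => ?_)
        rw [integral_const_mul, ← mul_sub, norm_mul]
        refine mul_le_mul_of_nonneg_left ((hav x hx).2.trans ?_) (norm_nonneg _)
        exact mul_le_mul_of_nonneg_right hcN (l1_nonneg _)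
    _ = T ^ (-(57 / 100) : ℝ) * ∑ x ∈ s, ‖a x‖ * l1 (M x) := by
        rw [mul_sum]
        refine sum_congr rfl fun x _ => ?_
        ring
    _ ≤ T ^ (-(57 / 100) : ℝ) * T ^ (4 / 100 : ℝ) := by
        refine mul_le_mul_of_nonneg_left (h4.trans hL) (by positivity)
    _ ≤ T ^ (-(1 / 2) : ℝ) := by
        rw [← Real.rpow_add hT00]
        refine Real.rpow_le_rpow_of_exponent_le hT0.le ?_
        norm_num

/-- every element supported on `S` is bounded -/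
lemma Bd_ex {S : Finset ℕ} {f : DA} (hf : f ∈ SA (MI S)) : ∃ N : ℝ, 1 ≤ N ∧ Bd N f := by
  refine ⟨1 + ∑ x ∈ f.coeff.support, ((x.1 : ℝ) + x.2), ?_, fun x hx => ?_⟩
  · have : 0 ≤ ∑ x ∈ f.coeff.support, ((x.1 : ℝ) + x.2) := sum_nonneg fun _ _ => by positivity
    linarith
  · have h1 := mem_MI.1 (mem_SA.1 hf x hx)
    have h2 := single_le_sum (f := fun x : ℕ × ℕ => (x.1 : ℝ) + x.2) (fun _ _ => by positivity) hx
    have h3 : (0:ℝ) ≤ x.1 := Nat.cast_nonneg _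
    have h4 : (0:ℝ) ≤ x.2 := Nat.cast_nonneg _
    exact ⟨⟨h1.1, h1.2.1⟩, by linarith, by linarith⟩

/-- expansion data from a finite combination -/
lemma exw_start {w : ℕ × ℕ → ℝ} {S : Finset ℕ} {ι : Type} (s : Finset ι) (a : ι → ℂ) (M : ι → DA)
    (hM : ∀ x ∈ s, M x ∈ SA (MI S)) :
    ∃ N L : ℝ, ExW w N L S (fun t => ∑ x ∈ s, a x * ev t (M x)) (∑ x ∈ s, a x * ((lam w (M x) : ℝ) : ℂ)) := by
  classical
  have hN : ∀ x, ∃ N : ℝ, x ∈ s → 1 ≤ N ∧ Bd N (M x) := by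
    intro x
    by_cases hx : x ∈ s
    · obtain ⟨N, h⟩ := Bd_ex (hM x hx)
      exact ⟨N, fun _ => h⟩
    · exact ⟨0, fun h => absurd h hx⟩
  choose N hN using hN
  refine ⟨∑ x ∈ s, N x, ∑ x ∈ s, ‖a x‖ * l1 (M x), ι, s, a, M, fun x hx => ⟨hM x hx, ?_⟩, fun t => rfl, rfl, le_rfl⟩
  refine (hN x hx).2.mono ?_
  exact single_le_sum (f := N) (fun y hy => by linarith [(hN y hy).1]) hx

end

end Pool.Agent.KS6_89.PP
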