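import Pool.Agent.KS6_89.PP.Av

set_option autoImplicit false

/-! The twisted second moment with an additional factor at the primes of `S` (project PP). -/

namespace Pool.Agent.KS6_89.PP

open Finset Filter Topology MeasureTheory MonoidAlgebra
open Pool.Agent.W184.NZ
open Pool.Agent.TH806 Pool.Agent.TH806.LK
open Pool.Agent.H306R2.SM (om cl Yf)
open Pool.Agent.H262R4.TM (Rng Ck)
open Pool.Agent.TH838.LK

noncomputable section

/-- a symmetric product times the real part of `ev t g` -/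
lemma prod_reg {J : ℕ} {I : ℕ → Finset ℕ} (hI : ∀ i, ∀ p ∈ I i, p.Prime) {K : ℕ → ℕ} {c : ℕ → ℕ → ℕ → ℂ}
    {f : ℕ → ℂ → ℂ} (hf : ∀ i < J, ∀ z, f i z = Fc (K i) (c i) z) (hs : ∀ i < J, Sym (f i)) (g : DA) (t : ℝ) :
    (((ev t g).re : ℝ) : ℂ) * ∏ i ∈ range J, f i (zz I t i) =
      ∑ φ ∈ PH J K, WC J c (ext φ) * (((ev t (MM J I (ext φ) * g)).re : ℝ) : ℂ) := by
  have h1 := prod_ev hI hf t
  have h2 : ∏ i ∈ range J, f i (zz I t i) =
      ∑ φ ∈ PH J K, WC J c (ext φ) * starRingEnd ℂ (ev t (MM J I (ext φ))) := by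
    rw [prod_congr rfl fun i hi => (hs i (mem_range.mp hi) (zz I t i)).symm,
      prod_congr rfl fun i hi => hf i (mem_range.mp hi) (starRingEnd ℂ (zz I t i)), prod_Fc]
    refine sum_congr rfl fun φ _ => ?_
    rw [ev_MM t hI, map_prod]
    congr 1
    refine prod_congr rfl fun i _ => ?_
    rw [map_mul, map_pow, map_pow]
  set γ := ev t g with hγ
  have h3 : (2 : ℂ) * ((((ev t g).re : ℝ) : ℂ) * ∏ i ∈ range J, f i (zz I t i)) =
      2 * ∑ φ ∈ PH J K, WC J c (ext φ) * (((ev t (MM J I (ext φ) * g)).re : ℝ) : ℂ) := by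
    have e1 : (2 : ℂ) * ((((ev t g).re : ℝ) : ℂ) * ∏ i ∈ range J, f i (zz I t i)) =
        γ * ∏ i ∈ range J, f i (zz I t i) + starRingEnd ℂ γ * ∏ i ∈ range J, f i (zz I t i) := by
      have := Complex.add_conj γ
      rw [← add_mul, this]
      push_cast; ring
    rw [e1]
    nth_rewrite 1 [h1]
    rw [h2, mul_sum, mul_sum, ← sum_add_distrib, mul_sum]
    refine sum_congr rfl fun φ _ => ?_
    have := Complex.add_conj (ev t (MM J I (ext φ) * g))
    rw [map_mul, map_mul] at this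
    rw [map_mul]
    push_cast at this ⊢
    linear_combination (WC J c (ext φ)) * this
  exact mul_left_cancel₀ two_ne_zero h3

/-- the twisted second moment with the factor `g` -/
theorem av2g : ∃ η₀ : ℝ, 0 < η₀ ∧ η₀ ≤ 1 / 100 ∧ ∀ c Q C S : ℝ, 0 ≤ c → 0 ≤ S → 4 * S ≤ Q →
  ∃ C₂ : ℝ, 0 < C₂ ∧ ∀ (U : Finset ℕ) (g : DA), g ∈ SA (MI U) → 0 < lam w1 g →
  ∀ᶠ T : ℝ in atTop, ∀ κ : ℕ, Rng T κ →
  ∀ (J : ℕ) (I : ℕ → Finset ℕ) (b : ℕ → ℝ) (K : ℕ → ℕ) (f : ℕ → ℂ → ℂ) (ν : ℕ → Measure (ℂ × ℂ)),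
    Rg c J I b → (∀ i, Disjoint (I i) U) → (∀ i < J, LW w1 1 1 Q C (I i) (ν i)) →
    (∀ i < J, 1 ≤ K i ∧ 3 * S ≤ K i ∧ EB (K i) S (f i) ∧ Sym (f i)) →
    ∑ i ∈ range J, (K i : ℝ) * Real.log (b i) ≤ η₀ * Real.log T →
    ‖∫ t in Set.Ioi (0:ℝ), ((wz κ T t : ℝ) : ℂ) * ((((ev t g).re : ℝ) : ℂ) * ∏ i ∈ range J, f i (zz I t i))‖ ≤
      C₂ * lam w1 g * (Real.log T * ∏ i ∈ range J, ‖∫ q, q.2 * f i q.1 ∂(ν i)‖ +
        ∑ i ∈ range J, (K i : ℝ) * Real.log (b i) *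
          ∏ j ∈ (range J).erase i, ‖∫ q, q.2 * f j q.1 ∂(ν j)‖) + T ^ (-η₀) := by
  obtain ⟨η, hη, hT⟩ := two_avg
  refine ⟨min (η / 8) (1 / 100), by positivity, min_le_right _ _, fun cc Q C S hcc hS hQ => ?_⟩
  refine ⟨4 + 4 * (|C| * Real.exp (|C| * (cc + cc))), by positivity, fun U g hgU hg0 => ?_⟩
  obtain ⟨Ng, hNg1, hNg⟩ := Bd_ex hgU
  have hsm : ∀ᶠ T : ℝ in atTop, (2 * l1 g) * T ^ (-(η / 4)) ≤ 1 := by
    have h1 := (tendsto_rpow_neg_atTop (y := η / 4) (by positivity)).const_mul (2 * l1 g)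
    rw [mul_zero] at h1
    exact h1.eventually_le_const (by positivity)
  have hgN : ∀ᶠ T : ℝ in atTop, Ng ≤ T ^ (1 / 100 : ℝ) := by
    exact (tendsto_rpow_atTop (by norm_num)).eventually_ge_atTop _
  have hgl : ∀ᶠ T : ℝ in atTop, |lam wl g| / lam w1 g ≤ Real.log T :=
    Real.tendsto_log_atTop.eventually_ge_atTop _
  filter_upwards [hT, hsm, hgN, hgl, eventually_ge_atTop (1:ℝ), Real.tendsto_log_atTop.eventually_ge_atTop 1] with
    T hT hsm hgN hgl hT1 hL κ hκ J I b K f ν hR hIU hν hf hsum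
  have hT0 : 0 < T := by linarith
  have hk1 : 1 ≤ κ := by
    have := hκ.1
    have h2 : (0:ℝ) < κ := lt_of_lt_of_le (by positivity) this
    exact_mod_cast h2
  have hδ : 0 < (κ:ℝ) / T := by
    have : (0:ℝ) < κ := by exact_mod_cast hk1
    positivity
  set η₀ := min (η / 8) (1 / 100) with hη₀
  have hη₀0 : 0 < η₀ := by positivity
  have hη₀1 : η₀ ≤ η / 8 := min_le_left _ _
  have hη₀2 : η₀ ≤ 1 / 100 := min_le_right _ _
  set L := Real.log T with hLd
  rw [div_le_iff₀ hg0] at hgl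
  have hc : ∀ i, ∃ c : ℕ → ℕ → ℂ, i < J →
      (∀ k l, ‖c k l‖ ≤ S ^ k / (k.factorial : ℝ) * (S ^ l / (l.factorial : ℝ))) ∧ ∀ z, f i z = Fc (K i) c z := by
    intro i
    by_cases hi : i < J
    · obtain ⟨c, h1, h2⟩ := (hf i hi).2.2.1
      exact ⟨c, fun _ => ⟨h1, h2⟩⟩
    · exact ⟨fun _ _ => 0, fun h => absurd h hi⟩
  choose c hc using hc
  have hf1 : ∀ i < J, ∀ z, f i z = Fc (K i) (c i) z := fun i hi => (hc i hi).2
  have hBd : ∀ φ ∈ PH J K, Bd (T ^ ((1:ℝ) / 4)) (MM J I (ext φ) * g) := by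
    intro φ hφ
    refine ((MM_Bd hR fun i hi => ext_mem hφ hi).mul hNg).mono ?_
    calc Real.exp (2 * ∑ i ∈ range J, (K i : ℝ) * Real.log (b i)) * Ng ≤
        T ^ (2 / 100 : ℝ) * T ^ (1 / 100 : ℝ) := by
          refine mul_le_mul ?_ hgN (by linarith) (by positivity)
          rw [Real.rpow_def_of_pos hT0, ← hLd]
          apply Real.exp_le_exp.mpr
          nlinarith
      _ ≤ T ^ ((1:ℝ) / 4) := by
          rw [← Real.rpow_add hT0]
          exact Real.rpow_le_rpow_of_exponent_le hT1 (by norm_num)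
  have hint : ∫ t in Set.Ioi (0:ℝ), ((wz κ T t : ℝ) : ℂ) * ((((ev t g).re : ℝ) : ℂ) *
      ∏ i ∈ range J, f i (zz I t i)) = ∑ φ ∈ PH J K, WC J c (ext φ) *
        ((∫ t in Set.Ioi (0:ℝ), wz κ T t * (ev t (MM J I (ext φ) * g)).re : ℝ) : ℂ) := by
    simp_rw [prod_reg (Rg_pr hR) hf1 (fun i hi => (hf i hi).2.2.2) g, mul_sum]
    have hi : ∀ φ ∈ PH J K, IntegrableOn (fun t => wz κ T t * (ev t (MM J I (ext φ) * g)).re) (Set.Ioi 0) :=
      fun φ hφ => wz_int κ hδ (ev_re_cont (hBd φ hφ)) (ev_re_le (hBd φ hφ))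
    have e1 : ∀ (φ : Fin J → ℕ × ℕ) (t : ℝ), ((wz κ T t : ℝ) : ℂ) * (WC J c (ext φ) *
        (((ev t (MM J I (ext φ) * g)).re : ℝ) : ℂ)) = WC J c (ext φ) *
          ((wz κ T t * (ev t (MM J I (ext φ) * g)).re : ℝ) : ℂ) := by
      intro φ t; push_cast; ring
    simp_rw [e1]
    rw [integral_finsetSum _ fun φ hφ => ((hi φ hφ).ofReal).const_mul _]
    refine sum_congr rfl fun φ hφ => ?_
    rw [integral_const_mul, integral_complex_ofReal]
  have hdj : Disjoint ((range J).biUnion I) U := by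
    rw [disjoint_biUnion_left]
    intro i _
    exact hIU i
  have hMMmem : ∀ e : ℕ → ℕ × ℕ, MM J I e ∈ SA (MI ((range J).biUnion I)) := fun e =>
    prod_mem J fun i _ => mm_mem (Rg_pr hR i) _
  have hw1 : ∀ e, lam w1 (MM J I e * g) = lam w1 (MM J I e) * lam w1 g := fun e =>
    goodW1.mul hdj (hMMmem e) hgU
  have hwl : ∀ e, lam wl (MM J I e * g) = lam wl (MM J I e) * lam w1 g + lam w1 (MM J I e) * lam wl g := fun e =>
    laml_mul hdj (hMMmem e) hgU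
  have hmain := main_eq hR hν hf1 (Real.log (Yf κ T) + Ck κ)
  set P := ∏ i ∈ range J, ∫ q, q.2 * f i q.1 ∂(ν i) with hP
  set Z := ∑ i ∈ range J, (∑ x ∈ range (K i + 1) ×ˢ range (K i + 1),
        c i x.1 x.2 * ((lam wl (mm (I i) x) : ℝ) : ℂ)) *
          ∏ j ∈ (range J).erase i, ∫ q, q.2 * f j q.1 ∂(ν j) with hZ
  have hmain2 : ∑ φ ∈ PH J K, WC J c (ext φ) * (((Real.log (Yf κ T) + Ck κ) * lam w1 (MM J I (ext φ) * g) -
      lam wl (MM J I (ext φ) * g) : ℝ) : ℂ) =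
      ((lam w1 g : ℝ) : ℂ) * (((Real.log (Yf κ T) + Ck κ : ℝ) : ℂ) * P - Z) - ((lam wl g : ℝ) : ℂ) * P := by
    rw [← hmain]
    have hPe : P = ∑ φ ∈ PH J K, WC J c (ext φ) * ((lam w1 (MM J I (ext φ)) : ℝ) : ℂ) := by
      rw [hP, prod_int hν hf1]
      refine sum_congr rfl fun φ _ => ?_
      rw [lam_MM goodW1 hR]
    rw [hPe, mul_sum, mul_sum, ← sum_sub_distrib]
    refine sum_congr rfl fun φ _ => ?_
    rw [hw1, hwl]
    push_cast
    ring
  have herr : ‖(∫ t in Set.Ioi (0:ℝ), ((wz κ T t : ℝ) : ℂ) * ((((ev t g).re : ℝ) : ℂ) *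
      ∏ i ∈ range J, f i (zz I t i))) -
      ∑ φ ∈ PH J K, WC J c (ext φ) * (((Real.log (Yf κ T) + Ck κ) * lam w1 (MM J I (ext φ) * g) -
        lam wl (MM J I (ext φ) * g) : ℝ) : ℂ)‖ ≤ T ^ (-η₀) := by
    rw [hint, ← sum_sub_distrib]
    have h1 : ∀ φ ∈ PH J K, ‖WC J c (ext φ) *
        ((∫ t in Set.Ioi (0:ℝ), wz κ T t * (ev t (MM J I (ext φ) * g)).re : ℝ) : ℂ) -
        WC J c (ext φ) * (((Real.log (Yf κ T) + Ck κ) * lam w1 (MM J I (ext φ) * g) -
        lam wl (MM J I (ext φ) * g) : ℝ) : ℂ)‖ ≤ (2 * l1 g * T ^ (-η)) * (‖WC J c (ext φ)‖ *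
          ∏ i ∈ range J, b i ^ ((ext φ i).1 + (ext φ i).2)) := by
      intro φ hφ
      rw [← mul_sub, norm_mul, ← Complex.ofReal_sub, Complex.norm_real, Real.norm_eq_abs]
      have h2 := hT κ hκ (MM J I (ext φ) * g) (hBd φ hφ)
      have h3 := (l1_mul (MM J I (ext φ)) g).trans
        (mul_le_mul_of_nonneg_right (MM_l1 hR (ext φ)) (l1_nonneg g))
      calc _ ≤ ‖WC J c (ext φ)‖ * (2 * T ^ (-η) *
            ((∏ i ∈ range J, b i ^ ((ext φ i).1 + (ext φ i).2)) * l1 g)) := by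
            refine mul_le_mul_of_nonneg_left (h2.trans ?_) (norm_nonneg _)
            exact mul_le_mul_of_nonneg_left h3 (by positivity)
        _ = _ := by ring
    refine (norm_sum_le _ _).trans ((sum_le_sum h1).trans ?_)
    rw [← mul_sum, sum_WC]
    have h4 : ∏ i ∈ range J, ∑ x ∈ range (K i + 1) ×ˢ range (K i + 1), ‖c i x.1 x.2‖ * b i ^ (x.1 + x.2) ≤
        T ^ (4 * η₀) := by
      calc _ ≤ ∏ i ∈ range J, b i ^ (4 * K i) := by
            refine prod_le_prod (fun i hi => ?_) fun i hi => ?_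
            · have := hR.b10 i (mem_range.mp hi)
              exact sum_nonneg fun x _ => by positivity
            · have hi' := mem_range.mp hi
              exact fac_bound hS (hR.b10 i hi') (hf i hi').2.1 (hc i hi').1
        _ = Real.exp (4 * ∑ i ∈ range J, (K i : ℝ) * Real.log (b i)) := by
            rw [mul_sum, Real.exp_sum]
            refine prod_congr rfl fun i hi => ?_
            have hb := hR.b10 i (mem_range.mp hi)
            rw [show 4 * ((K i : ℝ) * Real.log (b i)) = ((4 * K i : ℕ) : ℝ) * Real.log (b i) by push_cast; ring,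
              Real.exp_nat_mul, Real.exp_log (by linarith)]
        _ ≤ T ^ (4 * η₀) := by
            rw [Real.rpow_def_of_pos hT0, ← hLd]
            exact Real.exp_le_exp.mpr (by linarith)
    have hlg := l1_nonneg g
    calc _ ≤ (2 * l1 g * T ^ (-η)) * T ^ (4 * η₀) := mul_le_mul_of_nonneg_left h4 (by positivity)
      _ = (2 * l1 g * T ^ (-(η / 4))) * T ^ (-(3 * η / 4) + 4 * η₀) := by
          have e5 : T ^ (-η) * T ^ (4 * η₀) = T ^ (-(η / 4)) * T ^ (-(3 * η / 4) + 4 * η₀) := by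
            rw [← Real.rpow_add hT0, ← Real.rpow_add hT0]
            congr 1; ring
          calc (2 * l1 g * T ^ (-η)) * T ^ (4 * η₀) = 2 * l1 g * (T ^ (-η) * T ^ (4 * η₀)) := by ring
            _ = _ := by rw [e5]; ring
      _ ≤ 1 * T ^ (-η₀) := by
          refine mul_le_mul hsm ?_ (by positivity) zero_le_one
          exact Real.rpow_le_rpow_of_exponent_le hT1 (by linarith)
      _ = _ := one_mul _
  rw [hmain2] at herr
  have hP1 : ‖P‖ = ∏ i ∈ range J, ‖∫ q, q.2 * f i q.1 ∂(ν i)‖ := norm_prod _ _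
  have hY := yf_bound hk1 hT0
  have hA : |Real.log (Yf κ T) + Ck κ| ≤ 3 * L := by
    have h1 := abs_le.mp hY
    rw [abs_le]
    constructor <;> linarith [h1.1, h1.2]
  have hE : ∀ i < J, C * Real.exp (C * (vI (I i) + uI (I i))) ≤ |C| * Real.exp (|C| * (cc + cc)) := by
    intro i hi
    have h1 := hR.v i hi
    have h2 := hR.u hi
    have h3 := vI_nonneg (I i)
    have h4 := uI_nonneg (I i)
    have h5 : C * (vI (I i) + uI (I i)) ≤ |C| * (cc + cc) := by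
      calc C * (vI (I i) + uI (I i)) ≤ |C| * (vI (I i) + uI (I i)) :=
            mul_le_mul_of_nonneg_right (le_abs_self C) (by linarith)
        _ ≤ _ := mul_le_mul_of_nonneg_left (by linarith) (abs_nonneg C)
    calc C * Real.exp (C * (vI (I i) + uI (I i))) ≤ |C| * Real.exp (C * (vI (I i) + uI (I i))) :=
          mul_le_mul_of_nonneg_right (le_abs_self C) (Real.exp_pos _).le
      _ ≤ _ := mul_le_mul_of_nonneg_left (Real.exp_le_exp.mpr h5) (abs_nonneg C)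
  set E := |C| * Real.exp (|C| * (cc + cc)) with hEd
  have hE0 : 0 ≤ E := by positivity
  set X := ∑ i ∈ range J, (K i : ℝ) * Real.log (b i) *
          ∏ j ∈ (range J).erase i, ‖∫ q, q.2 * f j q.1 ∂(ν j)‖ with hX
  have hX0 : 0 ≤ X := by
    refine sum_nonneg fun i hi => ?_
    have hb := hR.b10 i (mem_range.mp hi)
    have h1 : 0 ≤ Real.log (b i) := Real.log_nonneg (by linarith)
    have h2 : 0 ≤ ∏ j ∈ (range J).erase i, ‖∫ q, q.2 * f j q.1 ∂(ν j)‖ := prod_nonneg fun _ _ => norm_nonneg _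
    positivity
  have hZX : ‖Z‖ ≤ 4 * E * X := by
    refine (norm_sum_le _ _).trans ?_
    rw [hX, mul_sum]
    refine sum_le_sum fun i hi => ?_
    have hi' := mem_range.mp hi
    have hb := hR.b10 i hi'
    have h0 : 0 ≤ Real.log (b i) := Real.log_nonneg (by linarith)
    rw [norm_mul, norm_prod]
    have h1 := ll_bound (hν i hi') hb (fun p hp => ⟨(hR.pr i p hp).1, (hR.pr i p hp).2.2⟩) hS hQ (K i) (hc i hi').1
    have h2 : 0 ≤ ∏ j ∈ (range J).erase i, ‖∫ q, q.2 * f j q.1 ∂(ν j)‖ := prod_nonneg fun _ _ => norm_nonneg _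
    calc _ ≤ (4 * (K i * Real.log (b i)) * E) * ∏ j ∈ (range J).erase i, ‖∫ q, q.2 * f j q.1 ∂(ν j)‖ := by
          refine mul_le_mul_of_nonneg_right (h1.trans ?_) h2
          exact mul_le_mul_of_nonneg_left (hE i hi') (by positivity)
      _ = _ := by ring
  set W := ∫ t in Set.Ioi (0:ℝ), ((wz κ T t : ℝ) : ℂ) * ((((ev t g).re : ℝ) : ℂ) *
      ∏ i ∈ range J, f i (zz I t i)) with hW
  have hfin : ‖W‖ ≤ ‖((lam w1 g : ℝ) : ℂ) * (((Real.log (Yf κ T) + Ck κ : ℝ) : ℂ) * P - Z) -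
      ((lam wl g : ℝ) : ℂ) * P‖ + T ^ (-η₀) := by
    have := norm_le_norm_add_norm_sub' W
      (((lam w1 g : ℝ) : ℂ) * (((Real.log (Yf κ T) + Ck κ : ℝ) : ℂ) * P - Z) - ((lam wl g : ℝ) : ℂ) * P)
    linarith
  refine hfin.trans ?_
  have h1 : ‖((Real.log (Yf κ T) + Ck κ : ℝ) : ℂ) * P - Z‖ ≤ 3 * L * ‖P‖ + 4 * E * X := by
    refine (norm_sub_le _ _).trans ?_
    rw [norm_mul, Complex.norm_real, Real.norm_eq_abs]
    exact add_le_add (mul_le_mul_of_nonneg_right hA (norm_nonneg _)) hZX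
  have h2 : ‖((lam w1 g : ℝ) : ℂ) * (((Real.log (Yf κ T) + Ck κ : ℝ) : ℂ) * P - Z) -
      ((lam wl g : ℝ) : ℂ) * P‖ ≤ lam w1 g * (3 * L * ‖P‖ + 4 * E * X) + L * lam w1 g * ‖P‖ := by
    refine (norm_sub_le _ _).trans ?_
    rw [norm_mul, norm_mul, Complex.norm_real, Complex.norm_real, Real.norm_eq_abs, Real.norm_eq_abs,
      abs_of_pos hg0]
    exact add_le_add (mul_le_mul_of_nonneg_left h1 hg0.le) (mul_le_mul_of_nonneg_right hgl (norm_nonneg _))
  rw [← hP1]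
  have h3 : 0 ≤ L * ‖P‖ := by positivity
  have h4 : 0 ≤ lam w1 g * (E * (L * ‖P‖)) := by positivity
  have h5 : 0 ≤ lam w1 g * X := by positivity
  have h6 : (4 + 4 * E) * lam w1 g * (L * ‖P‖ + X) = (lam w1 g * (3 * L * ‖P‖ + 4 * E * X) + L * lam w1 g * ‖P‖)
      + 4 * (lam w1 g * (E * (L * ‖P‖))) + 4 * (lam w1 g * X) := by ring
  linarith

end

end Pool.Agent.KS6_89.PP
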