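import Pool.Agent.KS6_89.PP.Tri3

set_option autoImplicit false

/-! The blocks of primes outside a finite set `S` (project PP). -/

namespace Pool.Agent.KS6_89.PP

open Finset Filter Topology
open Pool.Agent.W184.NZ
open Pool.Agent.TH806.LK
open Pool.Agent.TH828.LK_SET (tail)

noncomputable section

/-- the blocks of the primes at least `P` outside `S` -/
def IB (P : ℕ) (S : Finset ℕ) (y : ℝ) (i : ℕ) : Finset ℕ := (II y i).filter fun p => P ≤ p ∧ p ∉ S

/-- the sum of the reciprocals -/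
def AS (S : Finset ℕ) : ℝ := ∑ p ∈ S, 1 / (p : ℝ)

lemma AS_nonneg (S : Finset ℕ) : 0 ≤ AS S := sum_nonneg fun _ _ => by positivity

variable {S : Finset ℕ} {P : ℕ} {y : ℝ}

lemma IB_sub (i : ℕ) : IB P S y i ⊆ II y i := filter_subset _ _

lemma IB_disj (i : ℕ) : Disjoint (IB P S y i) S := by
  rw [disjoint_left]
  intro p hp
  exact (mem_filter.1 hp).2.2

lemma IB_disjU (J : ℕ) : Disjoint S ((range J).biUnion (IB P S y)) := by
  rw [disjoint_biUnion_right]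
  intro i _
  exact (IB_disj i).symm

lemma vI_IB_le (i : ℕ) : vI (IB P S y i) ≤ vI (II y i) := by
  unfold vI
  exact sum_le_sum_of_subset_of_nonneg (IB_sub i) fun _ _ _ => by positivity

lemma uI_IB_le (i : ℕ) : uI (IB P S y i) ≤ uI (II y i) := by
  unfold uI
  exact sum_le_sum_of_subset_of_nonneg (IB_sub i) fun _ _ _ => by positivity

lemma Rg_IB {c : ℝ} {J : ℕ} (h : Rg c J (II y) (bb y)) : Rg c J (IB P S y) (bb y) where
  pr i p hp := h.pr i p (IB_sub i hp)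
  dj i j hij := disjoint_of_subset_left (IB_sub i) (disjoint_of_subset_right (IB_sub j) (h.dj i j hij))
  b10 := h.b10
  v i hi := (vI_IB_le i).trans (h.v i hi)
  U := (sum_le_sum fun i _ => uI_IB_le i).trans h.U

lemma sum_uB (hy : 1 ≤ y) (J : ℕ) : ∑ i ∈ range J, uI (IB P S y i) =
    ∑ p ∈ (PF y (bb y J)).filter (fun p => P ≤ p ∧ p ∉ S), (p:ℝ) ^ (-(3 / 2 : ℝ)) := by
  unfold uI IB
  simp only [sum_filter]
  exact sum_II hy (fun p => if P ≤ p ∧ p ∉ S then (p:ℝ) ^ (-(3 / 2 : ℝ)) else 0) J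

lemma sum_vB (hy : 1 ≤ y) (J : ℕ) : ∑ i ∈ range J, vI (IB P S y i) =
    ∑ p ∈ (PF y (bb y J)).filter (fun p => P ≤ p ∧ p ∉ S), 1 / (p:ℝ) := by
  unfold vI IB
  simp only [sum_filter]
  exact sum_II hy (fun p => if P ≤ p ∧ p ∉ S then 1 / (p:ℝ) else 0) J

lemma small_sum (Q : ℕ) : ∑ p ∈ range Q, 1 / (p:ℝ) ≤ Q := by
  calc ∑ p ∈ range Q, 1 / (p:ℝ) ≤ ∑ _p ∈ range Q, (1:ℝ) := by
        refine sum_le_sum fun p _ => ?_
        rcases Nat.eq_zero_or_pos p with h | h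
        · subst h; simp
        · have : (1:ℝ) ≤ p := by exact_mod_cast h
          rw [div_le_one (by linarith)]
          exact this
    _ = Q := by simp

/-- the total variance of the blocks -/
lemma V_bound (hS : ∀ p ∈ S, p.Prime) (hSy : ∀ p ∈ S, (p:ℝ) ≤ y) (hy : 1 ≤ y) {J : ℕ} (hJ : bb y J < 144)
    {c : ℝ} (hv : |∑ i ∈ range J, vI (II y i) - Real.log (Real.log y)| ≤ c) :
    |∑ i ∈ range J, vI (IB P S y i) - (Real.log (Real.log y) - AS S)| ≤ c + (P + 144) := by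
  have hy0 : 0 ≤ y := by linarith
  rw [sum_vB hy]
  have e0 : ∑ i ∈ range J, vI (II y i) = ∑ p ∈ PF y (bb y J), 1 / (p:ℝ) := by
    unfold vI
    exact sum_II hy (fun p => 1 / (p:ℝ)) J
  rw [e0] at hv
  have e1 := sum_filter_add_sum_filter_not (PF y (bb y J)) (fun p => P ≤ p ∧ p ∉ S) (fun p : ℕ => 1 / (p:ℝ))
  obtain ⟨v1, v2⟩ := abs_le.mp hv
  -- the removed primes
  have h1 : ∑ p ∈ (PF y (bb y J)).filter (fun p => ¬ (P ≤ p ∧ p ∉ S)), 1 / (p:ℝ) ≤ P + AS S := by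
    have hsub : (PF y (bb y J)).filter (fun p => ¬ (P ≤ p ∧ p ∉ S)) ⊆ range P ∪ S := by
      intro p hp
      rw [mem_filter] at hp
      rw [mem_union, mem_range]
      by_contra hcon
      push Not at hcon
      exact hp.2 hcon
    refine (sum_le_sum_of_subset_of_nonneg hsub fun _ _ _ => by positivity).trans ?_
    have h5 := sum_union_inter (s₁ := range P) (s₂ := S) (f := fun p : ℕ => 1 / (p:ℝ))
    have h6 : 0 ≤ ∑ p ∈ range P ∩ S, 1 / (p:ℝ) := sum_nonneg fun _ _ => by positivity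
    have h7 := small_sum P
    unfold AS
    linarith
  have h2 : AS S ≤ (P + 144) + ∑ p ∈ (PF y (bb y J)).filter (fun p => ¬ (P ≤ p ∧ p ∉ S)), 1 / (p:ℝ) := by
    have hsub : S ⊆ range (P + 144) ∪ (PF y (bb y J)).filter (fun p => ¬ (P ≤ p ∧ p ∉ S)) := by
      intro p hp
      rw [mem_union, mem_range, mem_filter, mem_PF hy0]
      by_cases h : p < P + 144
      · exact Or.inl h
      · right
        have h144 : 144 ≤ p := by omega
        have h144' : (144:ℝ) ≤ p := by exact_mod_cast h144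
        exact ⟨⟨hS p hp, h144, by linarith, hSy p hp⟩, fun hc => hc.2 hp⟩
    unfold AS
    refine (sum_le_sum_of_subset_of_nonneg hsub fun _ _ _ => by positivity).trans ?_
    have h5 := sum_union_inter (s₁ := range (P + 144))
      (s₂ := (PF y (bb y J)).filter (fun p => ¬ (P ≤ p ∧ p ∉ S))) (f := fun p : ℕ => 1 / (p:ℝ))
    have h6 : 0 ≤ ∑ p ∈ range (P + 144) ∩ (PF y (bb y J)).filter (fun p => ¬ (P ≤ p ∧ p ∉ S)), 1 / (p:ℝ) :=
      sum_nonneg fun _ _ => by positivity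
    have h7 := small_sum (P + 144)
    push_cast at h7
    linarith
  have hP : (0:ℝ) ≤ P := Nat.cast_nonneg P
  rw [abs_le]
  constructor
  · linarith
  · linarith

/-- the configurations with all properties -/
theorem cfg_ex : ∃ c : ℝ, 0 ≤ c ∧ ∀ e : ℝ, 0 < e → ∃ P₁ : ℕ, ∀ P : ℕ, P₁ ≤ P → ∀ S : Finset ℕ, (∀ p ∈ S, p.Prime) →
    ∀ y : ℝ, 144 ≤ y → (∀ p ∈ S, (p:ℝ) ≤ y) → ∃ J : ℕ, Rg c J (IB P S y) (bb y) ∧
      ∑ i ∈ range J, uI (IB P S y i) ≤ e ∧ (∀ i, ∀ p ∈ IB P S y i, P ≤ p) ∧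
      |∑ i ∈ range J, vI (IB P S y i) - (Real.log (Real.log y) - AS S)| ≤ c + (P + 144) := by
  obtain ⟨c, hc0, hc⟩ := ranges
  refine ⟨c, hc0, fun e he => ?_⟩
  obtain ⟨P₁, hP₁⟩ := tail e he
  refine ⟨P₁, fun P hP S hS y hy hSy => ?_⟩
  have hy1 : 1 ≤ y := by linarith
  obtain ⟨J, hR, -, hJ, hv⟩ := hc y hy
  refine ⟨J, Rg_IB hR, ?_, fun i p hp => (mem_filter.1 hp).2.1, V_bound hS hSy hy1 hJ hv⟩
  rw [sum_uB hy1 J]
  apply hP₁
  intro p hp
  exact hP.trans (mem_filter.1 hp).2.1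

end

end Pool.Agent.KS6_89.PP
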