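import Pool.Agent.KS6_89.PP.Upp1

set_option autoImplicit false

/-! The upper bound with a factor at the primes of `S`, exponents below one (project PP). -/

namespace Pool.Agent.KS6_89.PP

open Finset Filter MeasureTheory Topology
open Pool.Agent.W184.NZ
open Pool.Agent.Y755 (GP_Bdz GP_l1z GP_logqz)
open Pool.Agent.TH806 (Xz Xz_nonneg Xz_cont)
open Pool.Agent.H306R2.SM (om cl Yf)
open Pool.Agent.H262R4.TM (Rng Ck)

noncomputable section

/-- the main order -/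
def NT (α : ℝ) (S : Finset ℕ) (T : ℝ) : ℝ := Real.exp (α ^ 2 * (Real.log (Real.log T) - AS S))

lemma NT_pos (α : ℝ) (S : Finset ℕ) (T : ℝ) : 0 < NT α S T := Real.exp_pos _

lemma NT_big {α : ℝ} (hα : 0 < α) (S : Finset ℕ) (B : ℝ) : ∀ᶠ T : ℝ in atTop, B ≤ NT α S T := by
  have h1 : Tendsto (fun T : ℝ => Real.log (Real.log T)) atTop atTop :=
    Real.tendsto_log_atTop.comp Real.tendsto_log_atTop
  have h2 : Tendsto (fun T : ℝ => α ^ 2 * (Real.log (Real.log T) - AS S)) atTop atTop := by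
    refine Tendsto.const_mul_atTop (by positivity) ?_
    exact tendsto_atTop_add_const_right _ _ h1
  exact (Real.tendsto_exp_atTop.comp h2).eventually_ge_atTop B

/-- the Euler factors -/
lemma prod_le_AS {S : Finset ℕ} (hS : ∀ p ∈ S, p.Prime) :
    0 < ∏ p ∈ S, (1 - 1 / (p:ℝ)) ∧ ∏ p ∈ S, (1 - 1 / (p:ℝ)) ≤ Real.exp (-AS S) := by
  have h0 : ∀ p ∈ S, 0 < 1 - 1 / (p:ℝ) := by
    intro p hp
    have : (2:ℝ) ≤ p := by exact_mod_cast (hS p hp).two_le
    have : 1 / (p:ℝ) ≤ 1 / 2 := one_div_le_one_div_of_le (by norm_num) this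
    linarith
  refine ⟨prod_pos h0, ?_⟩
  have e : Real.exp (-AS S) = ∏ p ∈ S, Real.exp (-(1 / (p:ℝ))) := by
    unfold AS
    rw [← sum_neg_distrib, Real.exp_sum]
  rw [e]
  refine prod_le_prod (fun p hp => (h0 p hp).le) fun p _ => ?_
  have := Real.add_one_le_exp (-(1 / (p:ℝ)))
  linarith

lemma ev_EEC {S : Finset ℕ} (hS : ∀ p ∈ S, p.Prime) (t : ℝ) (g : DA) :
    (ev t (EE S * EC S * g)).re = ‖es S (ph S t)‖ ^ 2 * (ev t g).re := by
  rw [map_mul, map_mul, ev_EE hS, ev_EC hS, Complex.mul_conj, Complex.normSq_eq_norm_sq,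
    Complex.re_ofReal_mul]

lemma es_cont {S : Finset ℕ} : Continuous (es S) := by
  unfold es
  fun_prop

lemma ph_cont {S : Finset ℕ} (hS : ∀ p ∈ S, p.Prime) : Continuous (ph S) := by
  unfold ph
  refine continuous_pi fun p => ?_
  have hp0 : ((p:ℕ):ℂ) ≠ 0 := by exact_mod_cast (hS p p.2).ne_zero
  refine Continuous.const_cpow (by fun_prop) (Or.inl hp0)

/-- the mean value of the model -/
lemma avg0g {c y : ℝ} {J Rs : ℕ} {I : ℕ → Finset ℕ} (hy : 1 ≤ y) (h : Rg c J I (bb y)) (hc : 0 ≤ c)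
    (hRs : Rok c Rs) {a : ℝ} (ha : |a| ≤ 1) {U : Finset ℕ} {g : DA} (hgU : g ∈ SA (MI U))
    (hIU : ∀ i, Disjoint (I i) U) {Ng : ℝ} (hNg : 1 ≤ Ng) (hg : Bd Ng g) (hΛ : 0 ≤ lam w0 g) {T : ℝ} (hT : 0 ≤ T) :
    ∫ t in (0:ℝ)..T, (ev t (GP J a (RR Rs) I * g)).re ≤
      T * (Real.exp (a ^ 2 * (∑ i ∈ range J, vI (I i)) + 12 * c + 2 * Bc c) * lam w0 g) +
      2 * Real.exp (Real.log y * (400 * ((Rs:ℝ) + 1))) * (Ng * l1 g) := by
  have hB := (GP_Bdz (Rs := Rs) hy h a).mul hg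
  have h1 := avg0 hB T
  have hdj : Disjoint ((range J).biUnion I) U := by
    rw [disjoint_biUnion_left]
    intro i _
    exact hIU i
  have hmem := GP_mem h a (RR Rs)
  have hw0 : lam w0 (GP J a (RR Rs) I * g) = lam w0 (GP J a (RR Rs) I) * lam w0 g := goodW0.mul hdj hmem hgU
  rw [hw0] at h1
  have h2 := GP_up goodW0 h hRs (RR_ge Rs) ha
  have h3 := (l1_mul (GP J a (RR Rs) I) g).trans
    (mul_le_mul_of_nonneg_right (GP_l1z hy h hRs.1 ha) (l1_nonneg g))
  have hB0 := Bc_pos c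
  obtain ⟨ha1, ha2⟩ := abs_le.mp ha
  have h5 : Real.exp ((2 * 0 * a + a ^ 2) * (∑ i ∈ range J, vI (I i)) + 12 * a ^ 2 * c +
      2 * Bc c * Real.exp (-(Rs:ℝ))) ≤
      Real.exp (a ^ 2 * (∑ i ∈ range J, vI (I i)) + 12 * c + 2 * Bc c) := by
    refine Real.exp_le_exp.mpr ?_
    have x1 : Real.exp (-(Rs:ℝ)) ≤ 1 := Real.exp_le_one_iff.mpr (by simp)
    have a2 : a ^ 2 ≤ 1 := by nlinarith
    have e3 : 12 * a ^ 2 * c ≤ 12 * 1 * c := by gcongr
    have e4 : 2 * Bc c * Real.exp (-(Rs:ℝ)) ≤ 2 * Bc c * 1 := by gcongr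
    rw [show (2 * 0 * a + a ^ 2) = a ^ 2 by ring]
    linarith
  have h6 := mul_le_mul_of_nonneg_right (h2.trans h5) hΛ
  have h7 := mul_le_mul_of_nonneg_left h6 hT
  have h4 : 2 * (Real.exp (Real.log y * (160 * ((Rs:ℝ) + 1))) * Ng) * l1 (GP J a (RR Rs) I * g) ≤
      2 * Real.exp (Real.log y * (400 * ((Rs:ℝ) + 1))) * (Ng * l1 g) := by
    calc _ ≤ 2 * (Real.exp (Real.log y * (160 * ((Rs:ℝ) + 1))) * Ng) *
        (Real.exp (Real.log y * (240 * ((Rs:ℝ) + 1))) * l1 g) :=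
          mul_le_mul_of_nonneg_left h3 (by positivity)
      _ = 2 * (Real.exp (Real.log y * (160 * ((Rs:ℝ) + 1))) * Real.exp (Real.log y * (240 * ((Rs:ℝ) + 1)))) *
          (Ng * l1 g) := by ring
      _ = _ := by rw [← Real.exp_add]; congr 3; ring
  have h8 := (abs_le.mp h1).2
  linarith

set_option maxHeartbeats 4000000 in
theorem upA {α : ℝ} (hα : 0 < α) (hα1 : α < 1) : ∃ C : ℝ, 0 < C ∧ ∀ (S : Finset ℕ), (∀ p ∈ S, p.Prime) →
    ∀ g : DA, g ∈ SA (MI S) → 0 < lam w0 g →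
    lam w1 (EE S * EC S * g) = (∏ p ∈ S, (1 - 1 / (p:ℝ))) * lam w0 g → (∀ t, 0 ≤ (ev t g).re) →
    ∀ᶠ T : ℝ in atTop, ∫ t in (T ^ ((3:ℝ)/4))..T, (Xz t * ‖es S (ph S t)‖) ^ (2 * α) * (ev t g).re ≤
      C * (T * (NT α S T * lam w0 g)) := by
  obtain ⟨c, hc, hcfg⟩ := cfg_ex
  obtain ⟨P, hcfg⟩ := hcfg 1 one_pos
  obtain ⟨ηm, hηm, hmono⟩ := mono_moment
  obtain ⟨Rs, hRs⟩ := Rok_ex c
  set q : ℝ := min ηm (1 / 4) with hq
  have hq0 : 0 < q := lt_min hηm (by norm_num)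
  have hq1 : q ≤ 1 / 4 := min_le_right _ _
  have hRs0 : (0:ℝ) < (Rs:ℝ) + 1 := by positivity
  set η : ℝ := q / (4000 * ((Rs:ℝ) + 1)) with hη
  have hη0 : 0 < η := by positivity
  have hηR : η * ((Rs:ℝ) + 1) = q / 4000 := by
    rw [hη]; field_simp
  obtain ⟨C1, hC1, hon⟩ := onlg hc hηm hmono hη0 hηR.le hRs
  have hB0 := Bc_pos c
  set d : ℝ := c + (P + 144) + |Real.log η| with hd
  have hd0 : 0 ≤ d := by positivity
  refine ⟨Real.exp 8 * (C1 * (Real.exp d + 1) + (Real.exp (d + 12 * c + 2 * Bc c) + 1)), by positivity, ?_⟩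
  intro S hS g hgU hg0 hg1 hgp
  obtain ⟨hE0, hE1⟩ := prod_le_AS hS
  set g' : DA := EE S * EC S * g with hg'
  have hg'U : g' ∈ SA (MI S) := Subalgebra.mul_mem _ (Subalgebra.mul_mem _ (EE_mem hS) (EC_mem hS)) hgU
  have hg'0 : 0 < lam w1 g' := by rw [hg1]; positivity
  obtain ⟨Ng, hNg1, hNg⟩ := Bd_ex hgU
  have hlogt := Real.tendsto_log_atTop
  have hlg := l1_nonneg g
  have hsm : ∀ᶠ T : ℝ in atTop, 2 * (Ng * l1 g) * T ^ (-(1 / 2) : ℝ) ≤ 1 := by
    have h1 := (tendsto_rpow_neg_atTop (y := (1 / 2 : ℝ)) (by norm_num)).const_mul (2 * (Ng * l1 g))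
    rw [mul_zero] at h1
    exact h1.eventually_le_const (by positivity)
  have hSy : ∀ᶠ T : ℝ in atTop, ∀ p ∈ S, (p:ℝ) ≤ Real.exp (η * Real.log T) := by
    rw [Finset.eventually_all]
    intro p _
    exact (Real.tendsto_exp_atTop.comp (hlogt.const_mul_atTop hη0)).eventually_ge_atTop _
  filter_upwards [hon S g' hg'U hg'0, hsm, hSy, NT_big hα S (1 / lam w0 g),
    hlogt.eventually_ge_atTop (Real.log 144 / η), hlogt.eventually_ge_atTop 10, eventually_ge_atTop 1] with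
    T hon hsm hSy hNT h5 h6 hT1
  have hT0 : 0 < T := by linarith
  set L := Real.log T with hL
  have hL0 : 0 < L := by linarith
  set y : ℝ := Real.exp (η * L) with hy
  have hly : Real.log y = η * L := Real.log_exp _
  have hy144 : 144 ≤ y := by
    rw [hy, ← Real.log_le_iff_le_exp (by norm_num)]
    rw [div_le_iff₀ hη0] at h5
    linarith
  have hy1 : 1 ≤ y := by linarith
  obtain ⟨J, hJ, -, -, hV⟩ := hcfg P le_rfl S hS y hy144 hSy
  set I := IB P S y with hI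
  set V := ∑ i ∈ range J, vI (I i) with hVd
  have hIU : ∀ i, Disjoint (I i) S := fun i => IB_disj i
  have hPr : ∀ i, ∀ p ∈ I i, p.Prime := fun i p hp => (hJ.pr i p hp).1
  have hlly : Real.log (Real.log y) = Real.log η + Real.log L := by
    rw [hly, Real.log_mul hη0.ne' hL0.ne']
  have hVd : |V - (Real.log L - AS S)| ≤ d := by
    rw [hlly] at hV
    have e1 : V - (Real.log L - AS S) = (V - (Real.log η + Real.log L - AS S)) + Real.log η := by ring
    rw [e1]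
    exact (abs_add_le _ _).trans (add_le_add hV le_rfl)
  obtain ⟨v1, v2⟩ := abs_le.mp hVd
  have hα2 : 0 ≤ α ^ 2 := sq_nonneg α
  have hα21 : α ^ 2 ≤ 1 := by nlinarith
  set N := NT α S T with hN
  have hN0 : 0 < N := NT_pos _ _ _
  have hNl : 1 ≤ N * lam w0 g := by
    rw [div_le_iff₀ hg0] at hNT
    exact hNT
  have hcα : |(-(1 - α))| ≤ 1 := by rw [abs_neg, abs_of_pos (by linarith)]; linarith
  have hcα2 : |α| ≤ 1 := by rw [abs_of_pos hα]; linarith
  -- values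
  have e1 : ∀ (a t : ℝ), (ev t (GP J a (RR Rs) I * g)).re = gp J a (RR Rs) I t * (ev t g).re := by
    intro a t
    rw [map_mul, ev_GP t J a _ hPr, Complex.re_ofReal_mul]
  have e2 : ∀ (a t : ℝ), (ev t (GP J a (RR Rs) I * g')).re =
      gp J a (RR Rs) I t * (‖es S (ph S t)‖ ^ 2 * (ev t g).re) := by
    intro a t
    rw [map_mul, ev_GP t J a _ hPr, Complex.re_ofReal_mul, ev_EEC hS]
  -- second moment
  have m2 := hon J I hJ hIU (-(1 - α)) hcα (fun t => by
    rw [e2]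
    exact mul_nonneg (gp_nonneg _ _ _ _ _) (mul_nonneg (sq_nonneg _) (hgp t)))
  simp_rw [e2] at m2
  have k2 : L * Real.exp ((2 * (-(1 - α)) + (-(1 - α)) ^ 2) * V) * lam w1 g' ≤ Real.exp d * (N * lam w0 g) := by
    rw [hg1]
    have q1 : Real.exp ((2 * (-(1 - α)) + (-(1 - α)) ^ 2) * V) ≤
        Real.exp (-(1 - α ^ 2) * (Real.log L - AS S) + d) := by
      refine Real.exp_le_exp.mpr ?_
      have : (2 * (-(1 - α)) + (-(1 - α)) ^ 2) = -(1 - α ^ 2) := by ring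
      rw [this]
      have h7 : (1 - α ^ 2) * (Real.log L - AS S - d) ≤ (1 - α ^ 2) * V :=
        mul_le_mul_of_nonneg_left (by linarith) (by linarith)
      have h8 : (1 - α ^ 2) * d ≤ 1 * d := mul_le_mul_of_nonneg_right (by linarith) hd0
      linarith
    have q2 : L * Real.exp (-(1 - α ^ 2) * (Real.log L - AS S) + d) * Real.exp (-AS S) = Real.exp d * N := by
      rw [hN]; unfold NT
      nth_rewrite 1 [← Real.exp_log hL0]
      rw [← Real.exp_add, ← Real.exp_add, ← Real.exp_add]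
      congr 1; ring
    calc L * Real.exp ((2 * (-(1 - α)) + (-(1 - α)) ^ 2) * V) * ((∏ p ∈ S, (1 - 1 / (p:ℝ))) * lam w0 g) ≤
        L * Real.exp (-(1 - α ^ 2) * (Real.log L - AS S) + d) * (Real.exp (-AS S) * lam w0 g) := by gcongr
      _ = (L * Real.exp (-(1 - α ^ 2) * (Real.log L - AS S) + d) * Real.exp (-AS S)) * lam w0 g := by ring
      _ = _ := by rw [q2]; ring
  have m2' : ∫ t in (T ^ ((3:ℝ)/4))..T, ‖riemannZeta (cl t)‖ ^ 2 * (gp J (-(1 - α)) (RR Rs) I t *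
      (‖es S (ph S t)‖ ^ 2 * (ev t g).re)) ≤ C1 * (Real.exp d + 1) * (T * (N * lam w0 g)) := by
    refine m2.trans ?_
    have : L * Real.exp ((2 * (-(1 - α)) + (-(1 - α)) ^ 2) * V) * lam w1 g' + 1 ≤
        (Real.exp d + 1) * (N * lam w0 g) := by linarith
    calc _ ≤ C1 * (T * ((Real.exp d + 1) * (N * lam w0 g))) := by gcongr
      _ = _ := by ring
  -- first moment
  have m0 := avg0g hy1 hJ hc hRs hcα2 hgU hIU hNg1 hNg hg0.le hT0.le
  simp_rw [e1] at m0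
  have k0 : Real.exp (α ^ 2 * V + 12 * c + 2 * Bc c) ≤ Real.exp (d + 12 * c + 2 * Bc c) * N := by
    rw [hN]; unfold NT
    rw [← Real.exp_add]
    refine Real.exp_le_exp.mpr ?_
    have h7 : α ^ 2 * V ≤ α ^ 2 * (Real.log L - AS S + d) := mul_le_mul_of_nonneg_left (by linarith) hα2
    have h8 : α ^ 2 * d ≤ 1 * d := mul_le_mul_of_nonneg_right hα21 hd0
    linarith
  have k1 : 2 * Real.exp (Real.log y * (400 * ((Rs:ℝ) + 1))) * (Ng * l1 g) ≤ T := by
    have q1 : Real.exp (Real.log y * (400 * ((Rs:ℝ) + 1))) ≤ T ^ (1 / 2 : ℝ) := by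
      rw [hly, Real.rpow_def_of_pos hT0]
      refine Real.exp_le_exp.mpr ?_
      have : η * L * (400 * ((Rs:ℝ) + 1)) = 400 * (η * ((Rs:ℝ) + 1)) * L := by ring
      rw [this, hηR]
      have h9 : 400 * (q / 4000) * L ≤ 1 / 2 * L := mul_le_mul_of_nonneg_right (by linarith) hL0.le
      linarith
    have q2 : T ^ (1 / 2 : ℝ) = T ^ (-(1 / 2) : ℝ) * T := by
      nth_rewrite 3 [← Real.rpow_one T]
      rw [← Real.rpow_add hT0]
      norm_num
    calc _ ≤ 2 * T ^ (1 / 2 : ℝ) * (Ng * l1 g) := by gcongr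
      _ = (2 * (Ng * l1 g) * T ^ (-(1 / 2) : ℝ)) * T := by rw [q2]; ring
      _ ≤ 1 * T := by gcongr
      _ = T := one_mul T
  have m0' : ∫ t in (0:ℝ)..T, gp J α (RR Rs) I t * (ev t g).re ≤
      (Real.exp (d + 12 * c + 2 * Bc c) + 1) * (T * (N * lam w0 g)) := by
    refine m0.trans ?_
    have q1 : T * (Real.exp (α ^ 2 * V + 12 * c + 2 * Bc c) * lam w0 g) ≤
        T * ((Real.exp (d + 12 * c + 2 * Bc c) * N) * lam w0 g) := by gcongr
    have q2 : T ≤ T * (N * lam w0 g) := le_mul_of_one_le_right hT0.le hNl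
    linarith
  -- the integrals
  set A : ℝ := T ^ ((3:ℝ)/4) with hA
  have hA0 : 0 < A := by positivity
  have hAT : A ≤ T := by
    have : T ^ ((3:ℝ)/4) ≤ T ^ (1:ℝ) := Real.rpow_le_rpow_of_exponent_le hT1 (by norm_num)
    rwa [Real.rpow_one] at this
  have cg : Continuous fun t => (ev t g).re := ev_re_cont hNg
  have cE : Continuous fun t => ‖es S (ph S t)‖ := (es_cont.comp (ph_cont hS)).norm
  have cgp : ∀ a : ℝ, Continuous fun t => gp J a (RR Rs) I t := by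
    intro a
    have := ev_re_cont (GP_Bdz (Rs := Rs) hy1 hJ a)
    refine this.congr fun t => ?_
    rw [ev_GP t J _ _ hPr, Complex.ofReal_re]
  have cX : Continuous fun t => Xz t := Xz_cont
  have cz2 : Continuous fun t => (Xz t * ‖es S (ph S t)‖) ^ (2 * α) :=
    (cX.mul cE).rpow_const fun _ => Or.inr (by positivity)
  set W : ℝ := Real.exp (-(8 * Real.exp (-(Rs:ℝ)))) with hW
  have hW0 : 0 < W := Real.exp_pos _
  have hint : W * ∫ t in A..T, (Xz t * ‖es S (ph S t)‖) ^ (2 * α) * (ev t g).re ≤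
      α * (∫ t in A..T, ‖riemannZeta (cl t)‖ ^ 2 * (gp J (-(1 - α)) (RR Rs) I t *
        (‖es S (ph S t)‖ ^ 2 * (ev t g).re))) +
      (1 - α) * ∫ t in A..T, gp J α (RR Rs) I t * (ev t g).re := by
    have i1 : IntervalIntegrable (fun t => α * (Xz t ^ 2 * (gp J (-(1 - α)) (RR Rs) I t *
        (‖es S (ph S t)‖ ^ 2 * (ev t g).re)))) volume A T :=
      (continuous_const.mul ((cX.pow 2).mul ((cgp _).mul ((cE.pow 2).mul cg)))).intervalIntegrable _ _
    have i2 : IntervalIntegrable (fun t => (1 - α) * (gp J α (RR Rs) I t * (ev t g).re))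
      volume A T := (continuous_const.mul ((cgp _).mul cg)).intervalIntegrable _ _
    rw [← intervalIntegral.integral_const_mul, ← intervalIntegral.integral_const_mul,
      ← intervalIntegral.integral_const_mul]
    change _ ≤ (∫ t in A..T, α * (Xz t ^ 2 * (gp J (-(1 - α)) (RR Rs) I t *
        (‖es S (ph S t)‖ ^ 2 * (ev t g).re)))) + _
    rw [← intervalIntegral.integral_add i1 i2]
    refine intervalIntegral.integral_mono_on hAT
      ((continuous_const.mul (cz2.mul cg)).intervalIntegrable _ _) (i1.add i2) fun t _ => ?_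
    have h7 := prod_star (J := J) hα hα1 hRs.1 I t (Xz t * ‖es S (ph S t)‖) (mul_nonneg (Xz_nonneg t) (norm_nonneg _))
    have h8 := mul_le_mul_of_nonneg_right h7 (hgp t)
    rw [mul_pow] at h8
    linarith
  have hsub : ∫ t in A..T, gp J α (RR Rs) I t * (ev t g).re ≤
      ∫ t in (0:ℝ)..T, gp J α (RR Rs) I t * (ev t g).re := by
    have := intervalIntegral.integral_add_adjacent_intervals
      (f := fun t => gp J α (RR Rs) I t * (ev t g).re) (((cgp α).mul cg).intervalIntegrable 0 A)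
      (((cgp α).mul cg).intervalIntegrable A T) (μ := volume)
    have h0 : 0 ≤ ∫ t in (0:ℝ)..A, gp J α (RR Rs) I t * (ev t g).re :=
      intervalIntegral.integral_nonneg hA0.le fun t _ => mul_nonneg (gp_nonneg J _ _ _ t) (hgp t)
    linarith
  have hI0 : 0 ≤ ∫ t in A..T, gp J α (RR Rs) I t * (ev t g).re :=
    intervalIntegral.integral_nonneg hAT fun t _ => mul_nonneg (gp_nonneg J _ _ _ t) (hgp t)
  have hI2 : 0 ≤ ∫ t in A..T, ‖riemannZeta (cl t)‖ ^ 2 * (gp J (-(1 - α)) (RR Rs) I t *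
        (‖es S (ph S t)‖ ^ 2 * (ev t g).re)) :=
    intervalIntegral.integral_nonneg hAT fun t _ => mul_nonneg (sq_nonneg _)
      (mul_nonneg (gp_nonneg J _ _ _ t) (mul_nonneg (sq_nonneg _) (hgp t)))
  set Q := T * (N * lam w0 g) with hQ
  have hQ0 : 0 ≤ Q := by positivity
  have c1 : W * ∫ t in A..T, (Xz t * ‖es S (ph S t)‖) ^ (2 * α) * (ev t g).re ≤
      (C1 * (Real.exp d + 1) + (Real.exp (d + 12 * c + 2 * Bc c) + 1)) * Q := by
    have p1 : α * (∫ t in A..T, ‖riemannZeta (cl t)‖ ^ 2 * (gp J (-(1 - α)) (RR Rs) I t *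
        (‖es S (ph S t)‖ ^ 2 * (ev t g).re))) ≤ 1 * ∫ t in A..T, ‖riemannZeta (cl t)‖ ^ 2 *
        (gp J (-(1 - α)) (RR Rs) I t * (‖es S (ph S t)‖ ^ 2 * (ev t g).re)) :=
      mul_le_mul_of_nonneg_right hα1.le hI2
    have p2 : (1 - α) * ∫ t in A..T, gp J α (RR Rs) I t * (ev t g).re ≤
        1 * ∫ t in A..T, gp J α (RR Rs) I t * (ev t g).re :=
      mul_le_mul_of_nonneg_right (by linarith) hI0
    linarith
  have hWi : W⁻¹ ≤ Real.exp 8 := by
    rw [hW, ← Real.exp_neg, neg_neg]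
    have hx1 : Real.exp (-(Rs:ℝ)) ≤ 1 := Real.exp_le_one_iff.mpr (by simp)
    exact Real.exp_le_exp.mpr (by linarith)
  have c2 : ∫ t in A..T, (Xz t * ‖es S (ph S t)‖) ^ (2 * α) * (ev t g).re ≤
      W⁻¹ * ((C1 * (Real.exp d + 1) + (Real.exp (d + 12 * c + 2 * Bc c) + 1)) * Q) := by
    rw [← div_eq_inv_mul, le_div_iff₀ hW0]
    linarith
  refine c2.trans ?_
  rw [mul_assoc]
  exact mul_le_mul_of_nonneg_right hWi (by positivity)

end

end Pool.Agent.KS6_89.PP
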