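import Pool.Agent.KS6_89.PP.To5
import Pool.Agent.KS6_89.PP.Upp2
import Pool.Agent.KS6_89.BT.Fin2

set_option autoImplicit false

/-! The upper bound for `1 ≤ α < 2` (project PP). -/

namespace Pool.Agent.KS6_89.PP

open Finset Filter Topology MeasureTheory
open Pool.Agent.W184.NZ

open Pool.Agent.TH828.LK_SET (tail)
open Pool.Agent.TH806 (Xz Xz_nonneg Xz_cont)
open Pool.Agent.Y755 (GP_Bdz)
open Pool.Agent.H306R2.SM (om cl Yf)
open Pool.Agent.H262R4.TM (Rng Ck)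

noncomputable section

/-- the configurations with the covering property -/
theorem cfg_cov : ∃ (c : ℝ) (P : ℕ), 0 ≤ c ∧ 144 ≤ P ∧ ∀ S : Finset ℕ, (∀ p ∈ S, p.Prime) →
    ∀ y : ℝ, 144 ≤ y → (∀ p ∈ S, (p:ℝ) ≤ y) → ∃ J : ℕ, BS' c P S y J (IB P S y) ∧
      |∑ i ∈ range J, vI (IB P S y i) - (Real.log (Real.log y) - AS S)| ≤ c + (P + 144) := by
  obtain ⟨c, hc0, hc⟩ := ranges
  refine ⟨c, 144, hc0, le_rfl, fun S hS y hy hSy => ?_⟩
  have hy1 : 1 ≤ y := by linarith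
  obtain ⟨J, hR, -, hJ, hv⟩ := hc y hy
  refine ⟨J, ⟨hc0, le_rfl, hy, Rg_IB hR, fun i => IB_disj i, hSy, fun p hp h1 h2 h3 => ?_⟩, V_bound hS hSy hy1 hJ hv⟩
  obtain ⟨i, hi, hpi⟩ := Pool.Agent.H998_TS.cover hy hJ p hp h1 h2
  exact ⟨i, hi, mem_filter.mpr ⟨hpi, h1, h3⟩⟩

/-- the upper bound with a nonnegative polynomial factor -/
def UB (α : ℝ) : Prop := ∃ C : ℝ, 0 < C ∧ ∀ (S : Finset ℕ), (∀ p ∈ S, p.Prime) →
    ∀ (K : Finset (S → ℤ)) (cK : (S → ℤ) → ℝ), (∀ z ∈ TT S, 0 ≤ fg K cK z) → 0 < mg K cK →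
    ∀ᶠ T : ℝ in atTop, ∫ t in (T ^ ((3:ℝ)/4))..T, (Xz t * ‖es S (ph S t)‖) ^ (2 * α) * fg K cK (ph S t) ≤
      C * (T * (NT α S T * mg K cK))

theorem UB_low {α : ℝ} (hα : 0 < α) (hα1 : α < 1) : UB α := by
  obtain ⟨C, hC, H⟩ := upA hα hα1
  refine ⟨C, hC, fun S hS K cK hfg hmg => ?_⟩
  have h1 := H S hS (GG' K cK) (GG'_mem hS K cK) (by rw [lam0_GG' hS]; exact hmg)
    (by rw [lam1_GG' hS, lam0_GG' hS]) (fun t => by rw [ev_GG' hS, Complex.ofReal_re]; exact hfg _ (ph_mem hS t))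
  simp_rw [ev_GG' hS, Complex.ofReal_re] at h1
  rw [lam0_GG' hS] at h1
  exact h1

/-- the pointwise inequality -/
lemma star2 {J Rs : ℕ} {α : ℝ} (hα : 1 ≤ α) (hα2 : α < 2) (hRs : 1 ≤ Rs) (I : ℕ → Finset ℕ) (t X : ℝ)
    (hX : 0 ≤ X) :
    Real.exp (-(8 * Real.exp (-(Rs:ℝ)))) * X ^ (2 * α) ≤
      X ^ 4 * gp J (-1 + (α - 1)) (RR Rs) I t + X ^ 2 * gp J (α - 1) (RR Rs) I t := by
  have g1 := gp_nonneg J (-1 + (α - 1)) (RR Rs) I t
  have g2 := gp_nonneg J (α - 1) (RR Rs) I t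
  rcases hα.lt_or_eq with h | h
  · have h1 := prod_star (J := J) (by linarith : 0 < α - 1) (by linarith : α - 1 < 1) hRs I t X hX
    have e1 : -(1 - (α - 1)) = -1 + (α - 1) := by ring
    rw [e1] at h1
    have h2 := mul_le_mul_of_nonneg_left h1 (sq_nonneg X)
    have e2 : X ^ 2 * (Real.exp (-(8 * Real.exp (-(Rs:ℝ)))) * X ^ (2 * (α - 1))) =
        Real.exp (-(8 * Real.exp (-(Rs:ℝ)))) * X ^ (2 * α) := by
      have e3 : X ^ (2 * α) = X ^ (2 * (α - 1)) * X ^ 2 := by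
        rw [← Real.rpow_natCast X 2, ← Real.rpow_add_of_nonneg hX (by linarith) (by norm_num)]
        congr 1; push_cast; ring
      rw [e3]; ring
    rw [e2] at h2
    have x1 : 0 ≤ X ^ 4 * gp J (-1 + (α - 1)) (RR Rs) I t := by positivity
    have x2 : 0 ≤ X ^ 2 * gp J (α - 1) (RR Rs) I t := by positivity
    have y1 : (α - 1) * (X ^ 4 * gp J (-1 + (α - 1)) (RR Rs) I t) ≤ 1 * (X ^ 4 * gp J (-1 + (α - 1)) (RR Rs) I t) :=
      mul_le_mul_of_nonneg_right (by linarith) x1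
    have y2 : (1 - (α - 1)) * (X ^ 2 * gp J (α - 1) (RR Rs) I t) ≤ 1 * (X ^ 2 * gp J (α - 1) (RR Rs) I t) :=
      mul_le_mul_of_nonneg_right (by linarith) x2
    have e4 : X ^ 2 * ((α - 1) * (X ^ 2 * gp J (-1 + (α - 1)) (RR Rs) I t) + (1 - (α - 1)) * gp J (α - 1) (RR Rs) I t) =
        (α - 1) * (X ^ 4 * gp J (-1 + (α - 1)) (RR Rs) I t) + (1 - (α - 1)) * (X ^ 2 * gp J (α - 1) (RR Rs) I t) := by
      ring
    rw [e4] at h2
    linarith
  · have h3 : 1 ≤ gp J 0 (RR Rs) I t := Pool.Agent.H998_TS.gp_zero_ge J Rs I t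
    subst h
    have e1 : (1:ℝ) - 1 = 0 := by norm_num
    rw [e1, add_zero, mul_one] at *
    have e2 : X ^ (2:ℝ) = X ^ 2 := by norm_cast
    rw [e2]
    have hW : Real.exp (-(8 * Real.exp (-(Rs:ℝ)))) ≤ 1 := by
      rw [Real.exp_le_one_iff]
      have := Real.exp_pos (-(Rs:ℝ))
      linarith
    have x1 : 0 ≤ X ^ 4 * gp J (-1) (RR Rs) I t := mul_nonneg (by positivity) (gp_nonneg _ _ _ _ _)
    calc Real.exp (-(8 * Real.exp (-(Rs:ℝ)))) * X ^ 2 ≤ 1 * X ^ 2 := mul_le_mul_of_nonneg_right hW (sq_nonneg X)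
      _ = X ^ 2 * 1 := by ring
      _ ≤ X ^ 2 * gp J 0 (RR Rs) I t := mul_le_mul_of_nonneg_left h3 (sq_nonneg X)
      _ ≤ _ := by linarith

set_option maxHeartbeats 8000000 in
theorem UB_high {α : ℝ} (hα1 : 1 ≤ α) (hα2 : α < 2) : UB α := by
  have hα : 0 < α := by linarith
  obtain ⟨c, P, hc, hP144, hcfg⟩ := cfg_cov
  obtain ⟨ηm, hηm, hmono⟩ := mono_moment
  obtain ⟨Rs, hRs⟩ := Rok_ex c
  obtain ⟨η0, hη0', h4th⟩ := onl4S hP144
  set q : ℝ := min (min ηm (1 / 4)) η0 with hq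
  have hq0 : 0 < q := lt_min (lt_min hηm (by norm_num)) hη0'
  have hq1 : q ≤ min ηm (1 / 4) := min_le_left _ _
  have hq2 : q ≤ η0 := min_le_right _ _
  have hRs0 : (0:ℝ) < (Rs:ℝ) + 1 := by positivity
  set η : ℝ := q / (4000 * ((Rs:ℝ) + 1)) with hη
  have hη0 : 0 < η := by positivity
  have hηR : η * ((Rs:ℝ) + 1) = q / 4000 := by
    rw [hη]; field_simp
  obtain ⟨C1, hC1, hon⟩ := onlg hc hηm hmono hη0 (by rw [hηR]; linarith) hRs
  obtain ⟨C4, hC4, h4th⟩ := h4th c Rs hc hRs.1 η hη0 (by rw [hηR]; linarith)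
  have hB0 := Bc_pos c
  set d : ℝ := c + (P + 144) + |Real.log η| with hd
  have hd0 : 0 ≤ d := by positivity
  refine ⟨Real.exp 8 * (C1 * (Real.exp (3 * d) + 1) + C4 * Real.exp (3 * d)), by positivity, ?_⟩
  intro S hS K cK hfg hmg
  set g := GG' K cK with hg
  have hgU : g ∈ SA (MI S) := GG'_mem hS K cK
  have hgm : lam w0 g = mg K cK := lam0_GG' hS K cK
  have hg1 : lam w1 (EE S * EC S * g) = (∏ p ∈ S, (1 - 1 / (p:ℝ))) * mg K cK := lam1_GG' hS K cK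
  have hev : ∀ t, (ev t g).re = fg K cK (ph S t) := fun t => by rw [hg, ev_GG' hS, Complex.ofReal_re]
  have hgp : ∀ t, 0 ≤ fg K cK (ph S t) := fun t => hfg _ (ph_mem hS t)
  obtain ⟨hE0, hE1⟩ := prod_le_AS hS
  set g' : DA := EE S * EC S * g with hg'
  have hg'U : g' ∈ SA (MI S) := Subalgebra.mul_mem _ (Subalgebra.mul_mem _ (EE_mem hS) (EC_mem hS)) hgU
  have hg'0 : 0 < lam w1 g' := by rw [hg1]; positivity
  obtain ⟨Ng, hNg1, hNg⟩ := Bd_ex hgU
  have hlogt := Real.tendsto_log_atTop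
  have hSy : ∀ᶠ T : ℝ in atTop, ∀ p ∈ S, (p:ℝ) ≤ Real.exp (η * Real.log T) := by
    rw [Finset.eventually_all]
    intro p _
    exact (Real.tendsto_exp_atTop.comp (hlogt.const_mul_atTop hη0)).eventually_ge_atTop _
  filter_upwards [hon S g' hg'U hg'0, h4th S hS K cK hfg hmg, hSy, NT_big hα S (1 / mg K cK),
    hlogt.eventually_ge_atTop (Real.log 144 / η), hlogt.eventually_ge_atTop 10, eventually_ge_atTop 1] with
    T hon h4th hSy hNT h5 h6 hT1
  have hT0 : 0 < T := by linarith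
  set L := Real.log T with hL
  have hL0 : 0 < L := by linarith
  set y : ℝ := Real.exp (η * L) with hy
  have hly : Real.log y = η * L := Real.log_exp _
  have hy144 : 144 ≤ y := by
    rw [hy, ← Real.log_le_iff_le_exp (by norm_num)]
    rw [div_le_iff₀ hη0] at h5
    linarith
  have hy1 : 1 ≤ y := by linarith
  obtain ⟨J, hBS, hV⟩ := hcfg S hS y hy144 hSy
  have hJ := hBS.rg
  set I := IB P S y with hI
  set V := ∑ i ∈ range J, vI (I i) with hVd
  have hIU : ∀ i, Disjoint (I i) S := fun i => IB_disj i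
  have hPr : ∀ i, ∀ p ∈ I i, p.Prime := fun i p hp => (hJ.pr i p hp).1
  have hlly : Real.log (Real.log y) = Real.log η + Real.log L := by
    rw [hly, Real.log_mul hη0.ne' hL0.ne']
  have hVd : |V - (Real.log L - AS S)| ≤ d := by
    rw [hlly] at hV
    have e1 : V - (Real.log L - AS S) = (V - (Real.log η + Real.log L - AS S)) + Real.log η := by ring
    rw [e1]
    exact (abs_add_le _ _).trans (add_le_add hV le_rfl)
  obtain ⟨v1, v2⟩ := abs_le.mp hVd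
  set N := NT α S T with hN
  have hN0 : 0 < N := NT_pos _ _ _
  have hNl : 1 ≤ N * mg K cK := by
    rw [div_le_iff₀ hmg] at hNT
    exact hNT
  have hcα : |(α - 1)| ≤ 1 := by rw [abs_of_nonneg (by linarith)]; linarith
  have hae : 0 ≤ α ^ 2 - 1 := by nlinarith
  have hae3 : α ^ 2 - 1 ≤ 3 := by nlinarith
  -- the exponent
  have kE : L * (Real.exp ((α ^ 2 - 1) * V) * ((∏ p ∈ S, (1 - 1 / (p:ℝ))) * mg K cK)) ≤
      Real.exp (3 * d) * (N * mg K cK) := by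
    have q1 : Real.exp ((α ^ 2 - 1) * V) ≤ Real.exp ((α ^ 2 - 1) * (Real.log L - AS S) + 3 * d) := by
      refine Real.exp_le_exp.mpr ?_
      have h7 : (α ^ 2 - 1) * V ≤ (α ^ 2 - 1) * (Real.log L - AS S + d) :=
        mul_le_mul_of_nonneg_left (by linarith) hae
      have h8 : (α ^ 2 - 1) * d ≤ 3 * d := mul_le_mul_of_nonneg_right hae3 hd0
      linarith
    have q2 : L * Real.exp ((α ^ 2 - 1) * (Real.log L - AS S) + 3 * d) * Real.exp (-AS S) = Real.exp (3 * d) * N := by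
      rw [hN]; unfold NT
      nth_rewrite 1 [← Real.exp_log hL0]
      rw [← Real.exp_add, ← Real.exp_add, ← Real.exp_add]
      congr 1; ring
    calc L * (Real.exp ((α ^ 2 - 1) * V) * ((∏ p ∈ S, (1 - 1 / (p:ℝ))) * mg K cK)) ≤
        L * (Real.exp ((α ^ 2 - 1) * (Real.log L - AS S) + 3 * d) * (Real.exp (-AS S) * mg K cK)) := by gcongr
      _ = (L * Real.exp ((α ^ 2 - 1) * (Real.log L - AS S) + 3 * d) * Real.exp (-AS S)) * mg K cK := by ring
      _ = _ := by rw [q2]; ring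
  -- values
  have e2 : ∀ (a t : ℝ), (ev t (GP J a (RR Rs) I * g')).re =
      gp J a (RR Rs) I t * (‖es S (ph S t)‖ ^ 2 * fg K cK (ph S t)) := by
    intro a t
    rw [map_mul, ev_GP t J a _ hPr, Complex.re_ofReal_mul, ev_EEC hS, hev]
  -- second moment
  have m2 := hon J I hJ hIU (α - 1) hcα (fun t => by
    rw [e2]
    exact mul_nonneg (gp_nonneg _ _ _ _ _) (mul_nonneg (sq_nonneg _) (hgp t)))
  simp_rw [e2] at m2
  have m2' : ∫ t in (T ^ ((3:ℝ)/4))..T, ‖riemannZeta (cl t)‖ ^ 2 * (gp J (α - 1) (RR Rs) I t *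
      (‖es S (ph S t)‖ ^ 2 * fg K cK (ph S t))) ≤ C1 * (Real.exp (3 * d) + 1) * (T * (N * mg K cK)) := by
    refine m2.trans ?_
    have e3 : 2 * (α - 1) + (α - 1) ^ 2 = α ^ 2 - 1 := by ring
    rw [e3, hg1]
    have : L * Real.exp ((α ^ 2 - 1) * V) * ((∏ p ∈ S, (1 - 1 / (p:ℝ))) * mg K cK) + 1 ≤
        (Real.exp (3 * d) + 1) * (N * mg K cK) := by linarith
    calc _ ≤ C1 * (T * ((Real.exp (3 * d) + 1) * (N * mg K cK))) := by gcongr
      _ = _ := by ring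
  -- fourth moment
  have m4 := h4th J I hBS (α - 1) (by linarith) (by linarith)
  have m4' : ∫ t in (T ^ ((3:ℝ)/4))..T, ‖riemannZeta (cl t)‖ ^ 4 * (gp J (-1 + (α - 1)) (RR Rs) I t *
      hs K cK (ph S t)) ≤ C4 * Real.exp (3 * d) * (T * (N * mg K cK)) := by
    refine m4.trans ?_
    have e3 : (α - 1) ^ 2 + 2 * (α - 1) = α ^ 2 - 1 := by ring
    rw [e3]
    calc _ ≤ C4 * (T * (Real.exp (3 * d) * (N * mg K cK))) := by gcongr
      _ = _ := by ring
  -- the integrals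
  set A : ℝ := T ^ ((3:ℝ)/4) with hA
  have hA0 : 0 < A := by positivity
  have hAT : A ≤ T := by
    have : T ^ ((3:ℝ)/4) ≤ T ^ (1:ℝ) := Real.rpow_le_rpow_of_exponent_le hT1 (by norm_num)
    rwa [Real.rpow_one] at this
  have cg : Continuous fun t => fg K cK (ph S t) := (fg_cont K cK).comp_continuous (ph_cont hS) (ph_mem hS)
  have cE : Continuous fun t => ‖es S (ph S t)‖ := (es_cont.comp (ph_cont hS)).norm
  have cgp : ∀ a : ℝ, Continuous fun t => gp J a (RR Rs) I t := by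
    intro a
    have := ev_re_cont (GP_Bdz (Rs := Rs) hy1 hJ a)
    refine this.congr fun t => ?_
    rw [ev_GP t J _ _ hPr, Complex.ofReal_re]
  have cX : Continuous fun t => Xz t := Xz_cont
  have cz2 : Continuous fun t => (Xz t * ‖es S (ph S t)‖) ^ (2 * α) :=
    (cX.mul cE).rpow_const fun _ => Or.inr (by positivity)
  set W : ℝ := Real.exp (-(8 * Real.exp (-(Rs:ℝ)))) with hW
  have hW0 : 0 < W := Real.exp_pos _
  have hint : W * ∫ t in A..T, (Xz t * ‖es S (ph S t)‖) ^ (2 * α) * fg K cK (ph S t) ≤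
      (∫ t in A..T, ‖riemannZeta (cl t)‖ ^ 4 * (gp J (-1 + (α - 1)) (RR Rs) I t * hs K cK (ph S t))) +
      ∫ t in A..T, ‖riemannZeta (cl t)‖ ^ 2 * (gp J (α - 1) (RR Rs) I t *
        (‖es S (ph S t)‖ ^ 2 * fg K cK (ph S t))) := by
    have i1 : IntervalIntegrable (fun t => Xz t ^ 4 * (gp J (-1 + (α - 1)) (RR Rs) I t * hs K cK (ph S t)))
      volume A T :=
      ((cX.pow 4).mul ((cgp _).mul ((cE.pow 4).mul cg))).intervalIntegrable _ _
    have i2 : IntervalIntegrable (fun t => Xz t ^ 2 * (gp J (α - 1) (RR Rs) I t *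
        (‖es S (ph S t)‖ ^ 2 * fg K cK (ph S t)))) volume A T :=
      ((cX.pow 2).mul ((cgp _).mul ((cE.pow 2).mul cg))).intervalIntegrable _ _
    rw [← intervalIntegral.integral_const_mul]
    change _ ≤ (∫ t in A..T, Xz t ^ 4 * (gp J (-1 + (α - 1)) (RR Rs) I t * hs K cK (ph S t))) +
      ∫ t in A..T, Xz t ^ 2 * (gp J (α - 1) (RR Rs) I t * (‖es S (ph S t)‖ ^ 2 * fg K cK (ph S t)))
    rw [← intervalIntegral.integral_add i1 i2]
    refine intervalIntegral.integral_mono_on hAT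
      ((continuous_const.mul (cz2.mul cg)).intervalIntegrable _ _) (i1.add i2) fun t _ => ?_
    have h7 := star2 (J := J) hα1 hα2 hRs.1 I t (Xz t * ‖es S (ph S t)‖) (mul_nonneg (Xz_nonneg t) (norm_nonneg _))
    have h8 := mul_le_mul_of_nonneg_right h7 (hgp t)
    have e5 : hs K cK (ph S t) = ‖es S (ph S t)‖ ^ 4 * fg K cK (ph S t) := rfl
    rw [e5]
    rw [mul_pow, mul_pow] at h8
    linarith
  set Q := T * (N * mg K cK) with hQ
  have hQ0 : 0 ≤ Q := by positivity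
  have c1 : W * ∫ t in A..T, (Xz t * ‖es S (ph S t)‖) ^ (2 * α) * fg K cK (ph S t) ≤
      (C1 * (Real.exp (3 * d) + 1) + C4 * Real.exp (3 * d)) * Q := by linarith
  have hWi : W⁻¹ ≤ Real.exp 8 := by
    rw [hW, ← Real.exp_neg, neg_neg]
    have hx1 : Real.exp (-(Rs:ℝ)) ≤ 1 := Real.exp_le_one_iff.mpr (by simp)
    exact Real.exp_le_exp.mpr (by linarith)
  have c2 : ∫ t in A..T, (Xz t * ‖es S (ph S t)‖) ^ (2 * α) * fg K cK (ph S t) ≤
      W⁻¹ * ((C1 * (Real.exp (3 * d) + 1) + C4 * Real.exp (3 * d)) * Q) := by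
    rw [← div_eq_inv_mul, le_div_iff₀ hW0]
    linarith
  refine c2.trans ?_
  rw [mul_assoc]
  exact mul_le_mul_of_nonneg_right hWi (by positivity)

theorem UB_all {α : ℝ} (hα : 0 < α) (hα2 : α < 2) : UB α := by
  rcases lt_or_ge α 1 with h | h
  · exact UB_low hα h
  · exact UB_high h hα2

end

end Pool.Agent.KS6_89.PP
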