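import Pool.Agent.KS6_89.PP.Low4
import Pool.Agent.KS6_89.PP.Up4

set_option autoImplicit false

/-! The two-sided estimate over `[0, T]` (project PP). -/

namespace Pool.Agent.KS6_89.PP

open Finset Filter Topology MeasureTheory Complex MonoidAlgebra
open Pool.Agent.W184.NZ
open Pool.Agent.TH806 Pool.Agent.TH806.LK
open Pool.Agent.H306R2.SM (om cl Yf)
open Pool.Agent.H262R4.TM (Rng Ck)

noncomputable section

theorem up_sharp {α : ℝ} (hα : 0 < α) (hα2 : α < 2) : ∃ C : ℝ, 0 < C ∧ ∀ (S : Finset ℕ),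
    (∀ p ∈ S, p.Prime) → ∀ F : (S → ℂ) → ℝ, ContinuousOn F (TT S) → (∀ z ∈ TT S, 0 ≤ F z) → 0 < E0 S F →
    ∀ᶠ T : ℝ in atTop, ∫ t in (0:ℝ)..T, ff α S F t ≤ C * (T * (NT α S T * E0 S F)) := by
  obtain ⟨C, hC, H⟩ := UB_all hα hα2
  obtain ⟨C', hC', Htot⟩ := tot_up hα hα2
  refine ⟨3 * C + 1, by positivity, fun S hS F hF hF0 hE => ?_⟩
  set E := E0 S F with hEd
  obtain ⟨K, cK, hgF, hg2, hg3⟩ := maj_ex2 hF hF0 (ε := E / 8) (by positivity)
  have hgpos : 0 < mg K cK := by linarith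
  have hg3' : mg K cK ≤ 3 * E := by linarith
  have hgp : ∀ z ∈ TT S, 0 ≤ fg K cK z := fun z hz => by
    have := hF0 z hz
    have := hgF z hz
    linarith
  obtain ⟨BE, hBE1, hBE⟩ := es_bound S
  have hBE0 : 0 < BE := by linarith
  obtain ⟨BF', hBF0, hBF⟩ := F_bound hF
  set Q : ℝ := BE ^ (2 * α) * BF' * C' with hQ
  have hQ0 : 0 ≤ Q := by positivity
  have hpow : Tendsto (fun T : ℝ => T ^ ((3:ℝ)/4)) atTop atTop := tendsto_rpow_atTop (by norm_num)
  have hsmall : ∀ᶠ T : ℝ in atTop, Q * (T ^ ((3:ℝ)/4) * Real.exp (α ^ 2 * Real.log (Real.log T))) ≤ E * T := by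
    have h1 := (isLittleO_log_rpow_rpow_atTop (α ^ 2) (by norm_num : (0:ℝ) < 1 / 4)).bound
      (show 0 < E / (Q + 1) by positivity)
    filter_upwards [h1, eventually_ge_atTop (1:ℝ), Real.tendsto_log_atTop.eventually_ge_atTop 1] with T hT hT1 hL
    have hT0 : (0:ℝ) < T := by linarith
    have hl : 0 < Real.log T := by linarith
    rw [Real.norm_of_nonneg (by positivity), Real.norm_of_nonneg (by positivity)] at hT
    have e1 : Real.exp (α ^ 2 * Real.log (Real.log T)) = Real.log T ^ (α ^ 2) := by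
      rw [Real.rpow_def_of_pos hl]; congr 1; ring
    rw [e1]
    have e2 : T ^ ((3:ℝ)/4) * T ^ ((1:ℝ)/4) = T := by
      rw [← Real.rpow_add hT0]; norm_num
    calc Q * (T ^ ((3:ℝ)/4) * Real.log T ^ (α ^ 2)) ≤
        (Q + 1) * (T ^ ((3:ℝ)/4) * (E / (Q + 1) * T ^ ((1:ℝ)/4))) := by gcongr; linarith
      _ = E * (T ^ ((3:ℝ)/4) * T ^ ((1:ℝ)/4)) := by field_simp
      _ = E * T := by rw [e2]
  have hN1 := NT_big hα S 1
  filter_upwards [H S hS K cK hgp hgpos, hpow.eventually Htot, hsmall, hN1, eventually_ge_atTop (1:ℝ),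
    hpow.eventually_ge_atTop 3, Real.tendsto_log_atTop.eventually_ge_atTop 2] with T hT Htot hsmall hN1 hT1 hp hL
  have hT0 : 0 < T := by linarith
  have hN0 : 0 < NT α S T := NT_pos _ _ _
  have cF := ff_cont hα hS hF
  have hTT : T ^ ((3:ℝ)/4) ≤ T := by
    calc T ^ ((3:ℝ)/4) ≤ T ^ (1:ℝ) := Real.rpow_le_rpow_of_exponent_le hT1 (by norm_num)
      _ = T := Real.rpow_one T
  rw [← intervalIntegral.integral_add_adjacent_intervals (cF.intervalIntegrable 0 (T ^ ((3:ℝ)/4)))
    (cF.intervalIntegrable (T ^ ((3:ℝ)/4)) T)]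
  have cX : Continuous fun t => Xz t := Xz_cont
  have cE : Continuous fun t => ‖es S (ph S t)‖ := (es_cont.comp (ph_cont hS)).norm
  have b2 : ∫ t in (T ^ ((3:ℝ)/4))..T, ff α S F t ≤ C * (T * (NT α S T * (3 * E))) := by
    refine le_trans (intervalIntegral.integral_mono_on hTT (cF.intervalIntegrable _ _) ?_ fun t _ => ?_)
      (hT.trans ?_)
    · exact (((cX.mul cE).rpow_const fun _ => Or.inr (by positivity)).mul
        ((fg_cont K cK).comp_continuous (ph_cont hS) (ph_mem hS))).intervalIntegrable _ _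
    · refine mul_le_mul_of_nonneg_left ?_ (Real.rpow_nonneg (mul_nonneg (Xz_nonneg t) (norm_nonneg _)) _)
      have := hgF _ (ph_mem hS t)
      linarith
    · gcongr
  have b1 : ∫ t in (0:ℝ)..(T ^ ((3:ℝ)/4)), ff α S F t ≤ E * T := by
    have hp0 : 0 ≤ T ^ ((3:ℝ)/4) := by positivity
    have h2 : ∫ t in (0:ℝ)..(T ^ ((3:ℝ)/4)), ff α S F t ≤
        ∫ t in (0:ℝ)..(T ^ ((3:ℝ)/4)), BE ^ (2 * α) * BF' * Xz t ^ (2 * α) := by
      refine intervalIntegral.integral_mono_on hp0 (cF.intervalIntegrable _ _) ?_ fun t _ => ?_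
      · exact (continuous_const.mul (Xz_cont.rpow_const fun _ => Or.inr (by positivity))).intervalIntegrable _ _
      · exact ff_le hα hS hF0 hBE0.le hBE hBF t
    rw [intervalIntegral.integral_const_mul] at h2
    have h3 : Real.exp (α ^ 2 * Real.log (Real.log (T ^ ((3:ℝ)/4)))) ≤ Real.exp (α ^ 2 * Real.log (Real.log T)) := by
      apply Real.exp_le_exp.mpr
      refine mul_le_mul_of_nonneg_left ?_ (sq_nonneg _)
      rw [Real.log_rpow hT0]
      exact Real.log_le_log (by positivity) (by linarith)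
    calc _ ≤ _ := h2
      _ ≤ BE ^ (2 * α) * BF' * (C' * (T ^ ((3:ℝ)/4) * Real.exp (α ^ 2 * Real.log (Real.log (T ^ ((3:ℝ)/4)))))) :=
          mul_le_mul_of_nonneg_left Htot (by positivity)
      _ ≤ BE ^ (2 * α) * BF' * (C' * (T ^ ((3:ℝ)/4) * Real.exp (α ^ 2 * Real.log (Real.log T)))) := by gcongr
      _ = Q * (T ^ ((3:ℝ)/4) * Real.exp (α ^ 2 * Real.log (Real.log T))) := by rw [hQ]; ring
      _ ≤ _ := hsmall
  have b3 : E * T ≤ 1 * (T * (NT α S T * E)) := by
    calc E * T = 1 * (T * (1 * E)) := by ring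
      _ ≤ _ := by gcongr
  calc _ ≤ E * T + C * (T * (NT α S T * (3 * E))) := add_le_add b1 b2
    _ ≤ 1 * (T * (NT α S T * E)) + C * (T * (NT α S T * (3 * E))) := by linarith
    _ = _ := by ring

/-- both bounds, over `[x, x + T]` -/
theorem both {α : ℝ} (hα : 0 < α) (hα2 : α < 2) : ∃ c C : ℝ, 0 < c ∧ 0 < C ∧ ∀ (S : Finset ℕ),
    (∀ p ∈ S, p.Prime) → ∀ F : (S → ℂ) → ℝ, ContinuousOn F (TT S) → (∀ z ∈ TT S, 0 ≤ F z) → 0 < E0 S F →
    ∀ x : ℝ, ∀ᶠ T : ℝ in atTop, c * (T * (NT α S T * E0 S F)) ≤ ∫ t in x..(x + T), ff α S F t ∧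
      ∫ t in x..(x + T), ff α S F t ≤ C * (T * (NT α S T * E0 S F)) := by
  obtain ⟨c, hc, hlow⟩ := low_sharp hα hα2
  obtain ⟨C, hC, hup⟩ := up_sharp hα hα2
  set d : ℝ := Real.exp (α ^ 2 * Real.log 2) with hd
  have hd0 : 0 < d := Real.exp_pos _
  refine ⟨c / (4 * d), 2 * C * d + 1, by positivity, by positivity, fun S hS F hF hF0 hE x => ?_⟩
  set E := E0 S F with hEd
  have cF := ff_cont hα hS hF
  have fn := ff_nonneg (α := α) hS hF0
  set K₁ : ℝ := ∫ t in (0:ℝ)..|x|, ff α S F t with hK₁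
  set K₂ : ℝ := ∫ t in (-|x|)..0, ff α S F t with hK₂
  have hK1 : 0 ≤ K₁ := intervalIntegral.integral_nonneg (abs_nonneg x) fun t _ => fn t
  have hK2 : 0 ≤ K₂ := intervalIntegral.integral_nonneg (by linarith [abs_nonneg x]) fun t _ => fn t
  obtain ⟨T₁, hT₁⟩ := eventually_atTop.1 (hlow S hS F hF hF0 hE)
  obtain ⟨T₂, hT₂⟩ := eventually_atTop.1 (hup S hS F hF hF0 hE)
  have mono : ∀ {a b a' b' : ℝ}, a ≤ b → a' ≤ a → b ≤ b' → ∫ t in a..b, ff α S F t ≤ ∫ t in a'..b', ff α S F t := by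
    intro a b a' b' h1 h2 h3
    exact intervalIntegral.integral_mono_interval h2 h1 h3 (Eventually.of_forall fn) (cF.intervalIntegrable _ _)
  filter_upwards [eventually_ge_atTop (2 * T₁), eventually_ge_atTop T₂, eventually_ge_atTop (4:ℝ),
    eventually_ge_atTop (2 * |x|), NT_big hα S 1, eventually_ge_atTop (4 * d * K₁ / (c * E)),
    eventually_ge_atTop (K₂ / E), Real.tendsto_log_atTop.eventually_ge_atTop 2] with
    T h1 h2 h4 hx hN1 hK1' hK2' hL
  have hT0 : 0 < T := by linarith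
  have hN0 : 0 < NT α S T := NT_pos _ _ _
  have hx0 := abs_nonneg x
  have hxl := neg_abs_le x
  have hxr := le_abs_self x
  have hL0 : 0 < Real.log T := by linarith
  have hNT2 : NT α S T ≤ d * NT α S (T / 2) := by
    unfold NT
    rw [hd, ← Real.exp_add]
    apply Real.exp_le_exp.mpr
    have h5 : Real.log T / 2 ≤ Real.log (T / 2) := by
      have h6 : √T ≤ T / 2 := by
        rw [Real.sqrt_le_left (by positivity)]
        nlinarith
      have h7 := Real.log_le_log (Real.sqrt_pos.mpr hT0) h6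
      rwa [Real.log_sqrt hT0.le] at h7
    have h6 : Real.log (Real.log T) - Real.log 2 ≤ Real.log (Real.log (T / 2)) := by
      rw [← Real.log_div hL0.ne' (by norm_num)]
      exact Real.log_le_log (by positivity) h5
    calc α ^ 2 * (Real.log (Real.log T) - AS S) =
        α ^ 2 * Real.log 2 + α ^ 2 * (Real.log (Real.log T) - Real.log 2 - AS S) := by ring
      _ ≤ _ := by
          refine add_le_add_right (mul_le_mul_of_nonneg_left (by linarith) (sq_nonneg _)) _
  have hNT3 : NT α S (2 * T) ≤ d * NT α S T := by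
    unfold NT
    rw [hd, ← Real.exp_add]
    apply Real.exp_le_exp.mpr
    have h5 : Real.log (2 * T) ≤ 2 * Real.log T := by
      rw [Real.log_mul (by norm_num) hT0.ne']
      have : Real.log 2 ≤ Real.log T := Real.log_le_log (by norm_num) (by linarith)
      linarith
    have h6 : Real.log (Real.log (2 * T)) ≤ Real.log 2 + Real.log (Real.log T) := by
      rw [← Real.log_mul (by norm_num) hL0.ne']
      have h7 : 0 < Real.log (2 * T) := Real.log_pos (by linarith)
      exact Real.log_le_log h7 h5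
    calc α ^ 2 * (Real.log (Real.log (2 * T)) - AS S) ≤ α ^ 2 * (Real.log 2 + Real.log (Real.log T) - AS S) :=
          mul_le_mul_of_nonneg_left (by linarith) (sq_nonneg _)
      _ = _ := by ring
  constructor
  · have q1 := hT₁ (T / 2) (by linarith)
    have q2 : (∫ t in (0:ℝ)..(T / 2), ff α S F t) ≤ (∫ t in x..(x + T), ff α S F t) + K₁ := by
      rcases le_total 0 x with h0 | h0
      · have e1 : |x| = x := abs_of_nonneg h0
        have q3 := intervalIntegral.integral_add_adjacent_intervals (cF.intervalIntegrable 0 x)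
          (cF.intervalIntegrable x (T / 2)) (μ := volume)
        have q4 : ∫ t in x..(T / 2), ff α S F t ≤ ∫ t in x..(x + T), ff α S F t :=
          mono (by rw [e1] at hx; linarith) le_rfl (by linarith)
        rw [hK₁, e1]
        linarith
      · have e1 : |x| = -x := abs_of_nonpos h0
        have q4 : ∫ t in (0:ℝ)..(T / 2), ff α S F t ≤ ∫ t in x..(x + T), ff α S F t :=
          mono (by linarith) h0 (by rw [e1] at hx; linarith)
        linarith
    have q5 : K₁ ≤ c / (4 * d) * (T * (NT α S T * E)) := by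
      rw [div_le_iff₀ (by positivity)] at hK1'
      have : c / (4 * d) * (T * (1 * E)) ≤ c / (4 * d) * (T * (NT α S T * E)) := by gcongr
      refine le_trans ?_ this
      have e2 : c / (4 * d) * (T * (1 * E)) = (T * (c * E)) / (4 * d) := by ring
      rw [e2, le_div_iff₀ (by positivity)]
      linarith
    have q6 : c / (2 * d) * (T * (NT α S T * E)) ≤ c * (T / 2 * (NT α S (T / 2) * E)) := by
      calc c / (2 * d) * (T * (NT α S T * E)) ≤ c / (2 * d) * (T * ((d * NT α S (T / 2)) * E)) := by gcongr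
        _ = _ := by field_simp
    have e3 : c / (2 * d) * (T * (NT α S T * E)) =
        c / (4 * d) * (T * (NT α S T * E)) + c / (4 * d) * (T * (NT α S T * E)) := by ring
    linarith
  · have q1 := hT₂ (2 * T) (by linarith)
    have q2 : ∫ t in x..(x + T), ff α S F t ≤ ∫ t in (-|x|)..(2 * T), ff α S F t :=
      mono (by linarith) hxl (by linarith)
    have q3 := intervalIntegral.integral_add_adjacent_intervals (cF.intervalIntegrable (-|x|) 0)
          (cF.intervalIntegrable 0 (2 * T)) (μ := volume)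
    have q4 : K₂ ≤ 1 * (T * (NT α S T * E)) := by
      rw [div_le_iff₀ hE] at hK2'
      calc K₂ ≤ 1 * (T * (1 * E)) := by linarith
        _ ≤ _ := by gcongr
    have q5 : C * (2 * T * (NT α S (2 * T) * E)) ≤ 2 * C * d * (T * (NT α S T * E)) := by
      calc C * (2 * T * (NT α S (2 * T) * E)) ≤ C * (2 * T * ((d * NT α S T) * E)) := by gcongr
        _ = _ := by ring
    calc _ ≤ _ := q2
      _ = K₂ + ∫ t in (0:ℝ)..(2 * T), ff α S F t := q3.symm
      _ ≤ 1 * (T * (NT α S T * E)) + 2 * C * d * (T * (NT α S T * E)) := by linarith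
      _ = _ := by ring

end

end Pool.Agent.KS6_89.PP
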