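import Pool.Agent.KS6_89.PP.Fin1

set_option autoImplicit false

/-! The final form of the two-sided estimate (project PP). -/

namespace Pool.Agent.KS6_89.PP

open Finset Filter Topology MeasureTheory Complex
open Pool.Agent.TH806 (Xz Xz_nonneg Xz_cont)
open Pool.Agent.H306R2.SM (om cl Yf)

noncomputable section

lemma Icc_cl (S : Finset ℕ) : Set.Icc (0 : S → ℝ) 1 ⊆ closure (interior (Set.Icc (0 : S → ℝ) 1)) := by
  have hne : (interior (Set.Icc (0 : S → ℝ) 1)).Nonempty := by
    refine ⟨fun _ => 1 / 2, ?_⟩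
    rw [show Set.Icc (0 : S → ℝ) 1 = Set.pi Set.univ fun _ => Set.Icc (0:ℝ) 1 from ?_]
    · rw [interior_pi_set Set.finite_univ]
      intro p _
      rw [interior_Icc]
      constructor <;> norm_num
    · ext θ
      simp [Pi.le_def]
  rw [(convex_Icc (𝕜 := ℝ) (0 : S → ℝ) 1).closure_interior_eq_closure_of_nonempty_interior hne]
  exact subset_closure

lemma ee_surj {S : Finset ℕ} {z : S → ℂ} (hz : z ∈ TT S) : ∃ θ ∈ Set.Icc (0 : S → ℝ) 1, ee S θ = z := by
  have h1 : ∀ p : S, ∃ r : ℝ, (0 ≤ r ∧ r ≤ 1) ∧ Complex.exp (2 * Real.pi * (r : ℂ) * I) = z p := by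
    intro p
    have h2 := Complex.norm_mul_exp_arg_mul_I (z p)
    rw [hz p, Complex.ofReal_one, one_mul] at h2
    have hpi := Real.pi_pos
    have hpi' : (Real.pi : ℂ) ≠ 0 := by exact_mod_cast hpi.ne'
    have h3 := Complex.neg_pi_lt_arg (z p)
    have h4 := Complex.arg_le_pi (z p)
    rcases le_total 0 (Complex.arg (z p)) with h | h
    · refine ⟨Complex.arg (z p) / (2 * Real.pi), ⟨by positivity, ?_⟩, ?_⟩
      · rw [div_le_one (by positivity)]; linarith
      · have e : 2 * (Real.pi : ℂ) * ((Complex.arg (z p) / (2 * Real.pi) : ℝ) : ℂ) * I = Complex.arg (z p) * I := by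
          push_cast; field_simp
        rw [e, h2]
    · refine ⟨Complex.arg (z p) / (2 * Real.pi) + 1, ⟨?_, ?_⟩, ?_⟩
      · have : -1 ≤ Complex.arg (z p) / (2 * Real.pi) := by
          rw [le_div_iff₀ (by positivity)]; linarith
        linarith
      · have : Complex.arg (z p) / (2 * Real.pi) ≤ 0 := div_nonpos_of_nonpos_of_nonneg h (by positivity)
        linarith
      · have e : 2 * (Real.pi : ℂ) * ((Complex.arg (z p) / (2 * Real.pi) + 1 : ℝ) : ℂ) * I =
            Complex.arg (z p) * I + 2 * Real.pi * I := by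
          push_cast; field_simp
        rw [e, Complex.exp_add, Complex.exp_two_pi_mul_I, mul_one, h2]
  choose θ hθ using h1
  exact ⟨θ, ⟨fun p => (hθ p).1.1, fun p => (hθ p).1.2⟩, funext fun p => (hθ p).2⟩

lemma E0_nonneg {S : Finset ℕ} {F : (S → ℂ) → ℝ} (hF0 : ∀ z ∈ TT S, 0 ≤ F z) : 0 ≤ E0 S F :=
  integral_nonneg fun θ => hF0 _ (ee_mem θ)

lemma E0_zero {S : Finset ℕ} {F : (S → ℂ) → ℝ} (hF : ContinuousOn F (TT S)) (hF0 : ∀ z ∈ TT S, 0 ≤ F z)
    (h : E0 S F = 0) : ∀ z ∈ TT S, F z = 0 := by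
  have hc : Continuous fun θ => F (ee S θ) := hF.comp_continuous ee_cont ee_mem
  unfold E0 at h
  rw [integral_eq_zero_iff_of_nonneg (fun θ => hF0 _ (ee_mem θ)) (cube_int hF)] at h
  have h1 := MeasureTheory.Measure.eqOn_of_ae_eq h hc.continuousOn (continuousOn_const) (Icc_cl S)
  intro z hz
  obtain ⟨θ, hθ, rfl⟩ := ee_surj hz
  exact h1 hθ

lemma es_ne {S : Finset ℕ} (hS : ∀ p ∈ S, p.Prime) {z : S → ℂ} (hz : z ∈ TT S) : 0 < ‖es S z‖ := by
  rw [norm_pos_iff]
  unfold es
  refine prod_ne_zero_iff.mpr fun p _ => ?_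
  intro h
  have h1 : z p / ((Real.sqrt (p : ℕ) : ℝ) : ℂ) = 1 := (sub_eq_zero.mp h).symm
  have h2 := congrArg norm h1
  rw [norm_div, hz p, Complex.norm_real, Real.norm_of_nonneg (Real.sqrt_nonneg _), norm_one] at h2
  have h3 : (2:ℝ) ≤ ((p : ℕ) : ℝ) := by exact_mod_cast (hS p p.2).two_le
  have h4 : (1:ℝ) < Real.sqrt (p : ℕ) := by
    rw [Real.lt_sqrt (by norm_num)]; linarith
  rw [div_eq_one_iff_eq (by linarith)] at h2
  linarith

/-- the weighted mean over the torus -/
def WM (β : ℝ) (S : Finset ℕ) (G : (S → ℂ) → ℝ) : ℝ := E0 S fun z => G z * ‖es S z‖ ^ (-β)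

set_option maxHeartbeats 4000000 in
theorem final {β : ℝ} (hβ : 0 < β) (hβ4 : β < 4) : ∃ c C : ℝ, 0 < c ∧ c ≤ C ∧
    ∀ S : Finset ℕ, (∀ p ∈ S, p.Prime) → ∀ G : (S → ℂ) → ℝ, ContinuousOn G (TT S) → (∀ z ∈ TT S, 0 ≤ G z) →
    ∀ x : ℝ, ∀ᶠ T : ℝ in atTop,
      c * (WM β S G / WM β S (fun _ => 1) * ∫ t in x..(x + T), Xz t ^ β) ≤
        ∫ t in x..(x + T), Xz t ^ β * G (ph S t) ∧
      ∫ t in x..(x + T), Xz t ^ β * G (ph S t) ≤
        C * (WM β S G / WM β S (fun _ => 1) * ∫ t in x..(x + T), Xz t ^ β) := by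
  obtain ⟨c, C, hc, hC, hb⟩ := both (α := β / 2) (by positivity) (by linarith)
  refine ⟨min (c / C) (C / c), C / c, lt_min (by positivity) (by positivity), min_le_right _ _, ?_⟩
  intro S hS G hG hG0 x
  have hcont : ContinuousOn (fun z => ‖es S z‖ ^ (-β)) (TT S) :=
    (es_cont.norm.continuousOn).rpow_const fun z hz => Or.inl (es_ne hS hz).ne'
  have hff : ∀ (G : (S → ℂ) → ℝ) (t : ℝ), ff (β / 2) S (fun z => G z * ‖es S z‖ ^ (-β)) t =
      Xz t ^ β * G (ph S t) := by
    intro G t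
    unfold ff
    have h1 := es_ne hS (ph_mem hS t)
    rw [show 2 * (β / 2) = β by ring, Real.mul_rpow (Xz_nonneg t) h1.le]
    have h2 : ‖es S (ph S t)‖ ^ β * ‖es S (ph S t)‖ ^ (-β) = 1 := by
      rw [← Real.rpow_add h1, add_neg_cancel, Real.rpow_zero]
    linear_combination (Xz t ^ β * G (ph S t)) * h2
  have c1 : ContinuousOn (fun z => (1:ℝ) * ‖es S z‖ ^ (-β)) (TT S) := continuousOn_const.mul hcont
  have p1 : ∀ z ∈ TT S, 0 ≤ (1:ℝ) * ‖es S z‖ ^ (-β) := fun z _ => by positivity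
  have hW1 : 0 < WM β S (fun _ => 1) := by
    rcases (E0_nonneg p1).lt_or_eq with h | h
    · exact h
    · exfalso
      have h2 := E0_zero c1 p1 h.symm (ph S 0) (ph_mem hS 0)
      have h3 := Real.rpow_pos_of_pos (es_ne hS (ph_mem hS 0)) (-β)
      simp only [one_mul] at h2
      linarith
  have cG : ContinuousOn (fun z => G z * ‖es S z‖ ^ (-β)) (TT S) := hG.mul hcont
  have pG : ∀ z ∈ TT S, 0 ≤ G z * ‖es S z‖ ^ (-β) := fun z hz => mul_nonneg (hG0 z hz) (by positivity)
  set W1 := WM β S (fun _ => 1) with hW1d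
  have B1 := hb S hS _ c1 p1 hW1 x
  have e1 : ∀ T : ℝ, ∫ t in x..(x + T), ff (β / 2) S (fun z => (1:ℝ) * ‖es S z‖ ^ (-β)) t =
      ∫ t in x..(x + T), Xz t ^ β := by
    intro T
    refine intervalIntegral.integral_congr fun t _ => ?_
    have := hff (fun _ => 1) t
    simp only [mul_one] at this
    exact this
  simp_rw [e1] at B1
  rcases (E0_nonneg pG).lt_or_eq with h | h
  · -- the main case
    have BG := hb S hS _ cG pG h x
    simp_rw [hff G] at BG
    set WG := WM β S G with hWG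
    have hWG0 : 0 < WG := h
    filter_upwards [B1, BG, eventually_gt_atTop (0:ℝ)] with T B1 BG hT
    have hN0 : 0 < NT (β / 2) S T := NT_pos _ _ _
    set Y := T * NT (β / 2) S T with hY
    have hY0 : 0 < Y := by positivity
    set I1 := ∫ t in x..(x + T), Xz t ^ β with hI1
    set IG := ∫ t in x..(x + T), Xz t ^ β * G (ph S t) with hIG
    have a1 : c * (Y * W1) ≤ I1 := by
      have := B1.1
      have e : c * (Y * W1) = c * (T * (NT (β / 2) S T * E0 S fun z => (1:ℝ) * ‖es S z‖ ^ (-β))) := by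
        rw [hY, hW1d]; unfold WM; ring
      linarith
    have a2 : I1 ≤ C * (Y * W1) := by
      have := B1.2
      have e : C * (Y * W1) = C * (T * (NT (β / 2) S T * E0 S fun z => (1:ℝ) * ‖es S z‖ ^ (-β))) := by
        rw [hY, hW1d]; unfold WM; ring
      linarith
    have b1 : c * (Y * WG) ≤ IG := by
      have := BG.1
      have e : c * (Y * WG) = c * (T * (NT (β / 2) S T * E0 S fun z => G z * ‖es S z‖ ^ (-β))) := by
        rw [hY, hWG]; unfold WM; ring
      linarith
    have b2 : IG ≤ C * (Y * WG) := by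
      have := BG.2
      have e : C * (Y * WG) = C * (T * (NT (β / 2) S T * E0 S fun z => G z * ‖es S z‖ ^ (-β))) := by
        rw [hY, hWG]; unfold WM; ring
      linarith
    have hI10 : 0 < I1 := lt_of_lt_of_le (by positivity) a1
    constructor
    · calc min (c / C) (C / c) * (WG / W1 * I1) ≤ c / C * (WG / W1 * (C * (Y * W1))) := by
            gcongr
            exact min_le_left _ _
        _ = c * (Y * WG) := by field_simp
        _ ≤ IG := b1
    · calc IG ≤ C * (Y * WG) := b2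
        _ = C / c * (WG / W1 * (c * (Y * W1))) := by field_simp
        _ ≤ C / c * (WG / W1 * I1) := by gcongr
  · -- the degenerate case
    have hz := E0_zero cG pG h.symm
    have hG1 : ∀ t, G (ph S t) = 0 := by
      intro t
      have h1 := hz _ (ph_mem hS t)

      have h2 := Real.rpow_pos_of_pos (es_ne hS (ph_mem hS t)) (-β)
      exact (mul_eq_zero.mp h1).resolve_right h2.ne'
    have hWG : WM β S G = 0 := h.symm
    refine Eventually.of_forall fun T => ?_
    simp [hG1, hWG]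

end

end Pool.Agent.KS6_89.PP
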