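import Pool.Agent.KS6_89.PP.Win

set_option autoImplicit false

/-! The moments of the truncated exponentials with a factor at the primes of `S` (project PP). -/

namespace Pool.Agent.KS6_89.PP

open Finset Filter Topology MeasureTheory Complex
open Pool.Agent.W184.NZ
open Pool.Agent.TH806 Pool.Agent.TH806.LK
open Pool.Agent.TH112.LKC (GG GG_PB exp_RR_le VV_nonneg)
open Pool.Agent.H306R2.SM (om cl Yf)
open Pool.Agent.H262R4.TM (Rng Ck)

noncomputable section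

lemma NC_zero (K : ℕ) (z : ℂ) : NC K 0 z = 1 := by
  unfold NC
  rw [sum_range_succ', sum_eq_zero]
  · simp
  · intro k _
    simp

lemma pf_zero (K : ℕ) (z : ℂ) : pf K 0 z = 1 := by
  unfold pf
  rw [Complex.ofReal_zero, zero_div, zero_mul, NC_zero, NC_zero, one_mul]

lemma BF00 (K : ℕ) (a b : ℝ) (z : ℂ) :
    LK.BF K a b 0 0 z = NC K a z * starRingEnd ℂ (NC K b z) := by
  unfold LK.BF
  rw [pf_zero, one_mul, mul_one, Pool.Agent.TH986.LK_B.NC_conj_real]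

lemma prod_BF1 (n Rs J : ℕ) (a b : ℝ) (z : ℕ → ℂ) :
    ∏ i ∈ range J, LK.BF (KK n Rs i) a b 0 0 (z i) = AZ n Rs J a z * starRingEnd ℂ (AZ n Rs J b z) := by
  unfold AZ
  rw [map_prod, ← prod_mul_distrib]
  exact prod_congr rfl fun i _ => BF00 _ _ _ _

lemma prod_BF2 (n Rs J : ℕ) (a : ℝ) (z : ℕ → ℂ) :
    ∏ i ∈ range J, LK.BF (KK n Rs i) a a 0 0 (z i) = ((‖AZ n Rs J a z‖ ^ 2 : ℝ) : ℂ) := by
  rw [prod_BF1, Complex.mul_conj, Complex.normSq_eq_norm_sq]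

/-- the penalty -/
def pen (Rs J i₀ : ℕ) (z : ℕ → ℂ) : ℝ := if i₀ < J then (‖z i₀‖ / RR Rs i₀) ^ (2 * RR Rs i₀) else 1

lemma pen_nonneg (Rs J i₀ : ℕ) (z : ℕ → ℂ) : 0 ≤ pen Rs J i₀ z := by
  unfold pen; split_ifs
  · positivity
  · exact zero_le_one

lemma prod_GG (n Rs J : ℕ) (a : ℝ) (i₀ : ℕ) (z : ℕ → ℂ) :
    ∏ i ∈ range J, GG 0 (KK n Rs) (RR Rs) a i₀ i 0 0 (z i) =
      ((pen Rs J i₀ z * ‖AZ n Rs J a z‖ ^ 2 : ℝ) : ℂ) := by
  rw [Complex.ofReal_mul, ← prod_BF2]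
  by_cases h : i₀ < J
  · have h1 := mem_range.mpr h
    rw [← mul_prod_erase (range J) _ h1, ← mul_prod_erase (range J) (fun i => LK.BF (KK n Rs i) a a 0 0 (z i)) h1]
    have e1 : ∏ i ∈ (range J).erase i₀, GG 0 (KK n Rs) (RR Rs) a i₀ i 0 0 (z i) =
        ∏ i ∈ (range J).erase i₀, LK.BF (KK n Rs i) a a 0 0 (z i) := by
      refine prod_congr rfl fun i hi => ?_
      simp only [GG, (mem_erase.mp hi).1, if_false]
    rw [e1]
    simp only [GG, if_true, BB, pen, h]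
    ring
  · have e1 : ∏ i ∈ range J, GG 0 (KK n Rs) (RR Rs) a i₀ i 0 0 (z i) =
        ∏ i ∈ range J, LK.BF (KK n Rs i) a a 0 0 (z i) := by
      refine prod_congr rfl fun i hi => ?_
      have : i ≠ i₀ := by rw [mem_range] at hi; omega
      simp only [GG, this, if_false]
    rw [e1]
    simp only [pen, h, if_false, Complex.ofReal_one, one_mul]

/-- real parts -/
lemma om_re {κ : ℕ} {δ : ℝ} (hδ : 0 < δ) {f : ℝ → ℂ} (hf : Continuous f) {B : ℝ} (hB : ∀ t, ‖f t‖ ≤ B) :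
    IntegrableOn (fun t => om κ δ t * (f t).re) (Set.Ioi 0) ∧
    ∫ t in Set.Ioi (0:ℝ), om κ δ t * (f t).re = (∫ t in Set.Ioi (0:ℝ), ((om κ δ t : ℝ) : ℂ) * f t).re := by
  have h1 : Integrable (fun t => ((om κ δ t : ℝ) : ℂ)) (volume.restrict (Set.Ioi 0)) := (om_int0 κ hδ).ofReal
  have h2 : Integrable (fun t => ((om κ δ t : ℝ) : ℂ) * f t) (volume.restrict (Set.Ioi 0)) :=
    h1.mul_bdd (c := B) hf.aestronglyMeasurable (Eventually.of_forall hB)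
  have h3 := integral_re (𝕜 := ℂ) h2
  simp only [RCLike.re_eq_complex_re, Complex.re_ofReal_mul] at h3
  refine ⟨?_, h3⟩
  have h4 := h2.re
  simp only [RCLike.re_eq_complex_re, Complex.re_ofReal_mul] at h4
  exact h4

lemma wz_re {κ : ℕ} {T : ℝ} (hδ : 0 < (κ:ℝ) / T) {f : ℝ → ℂ} (hf : Continuous f) {B : ℝ} (hB : ∀ t, ‖f t‖ ≤ B) :
    IntegrableOn (fun t => wz κ T t * (f t).re) (Set.Ioi 0) ∧
    ∫ t in Set.Ioi (0:ℝ), wz κ T t * (f t).re = (∫ t in Set.Ioi (0:ℝ), ((wz κ T t : ℝ) : ℂ) * f t).re := by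
  have h0 : IntegrableOn (fun t => wz κ T t) (Set.Ioi 0) := Pool.Agent.H262R4.TM.TTW.int2 κ hδ
  have h1 : Integrable (fun t => ((wz κ T t : ℝ) : ℂ)) (volume.restrict (Set.Ioi 0)) := h0.ofReal
  have h2 : Integrable (fun t => ((wz κ T t : ℝ) : ℂ) * f t) (volume.restrict (Set.Ioi 0)) :=
    h1.mul_bdd (c := B) hf.aestronglyMeasurable (Eventually.of_forall hB)
  have h3 := integral_re (𝕜 := ℂ) h2
  simp only [RCLike.re_eq_complex_re, Complex.re_ofReal_mul] at h3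
  refine ⟨?_, h3⟩
  have h4 := h2.re
  simp only [RCLike.re_eq_complex_re, Complex.re_ofReal_mul] at h4
  exact h4

/-- the configurations -/
structure Con (n Rs : ℕ) (c : ℝ) (P : ℕ) (e : ℝ) (S : Finset ℕ) (η T y : ℝ) (J : ℕ) (I : ℕ → Finset ℕ) : Prop where
  rg : Rg c J I (bb y)
  U : ∑ i ∈ range J, uI (I i) ≤ e
  P : ∀ i, ∀ p ∈ I i, P ≤ p
  dS : ∀ i, Disjoint (I i) S
  y1 : 144 ≤ y
  len : n * ((Rs:ℝ) + 1) * Real.log y ≤ η * Real.log T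

lemma Con.mono {n Rs : ℕ} {c : ℝ} {P P' : ℕ} {e e' : ℝ} {S : Finset ℕ} {η η' T y : ℝ} {J : ℕ} {I : ℕ → Finset ℕ}
    (h : Con n Rs c P e S η T y J I) (hP : P' ≤ P) (he : e ≤ e') (hη : η ≤ η') (hT : 0 ≤ Real.log T) :
    Con n Rs c P' e' S η' T y J I :=
  ⟨h.rg, h.U.trans he, fun i p hp => hP.trans (h.P i p hp), h.dS, h.y1,
    h.len.trans (mul_le_mul_of_nonneg_right hη hT)⟩

lemma len4 {n Rs : ℕ} {y η T : ℝ} (hy : 1 ≤ y) (J : ℕ)
    (h : n * ((Rs:ℝ) + 1) * Real.log y ≤ η * Real.log T) :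
    ∑ i ∈ range J, ((4 * KK n Rs i : ℕ) : ℝ) * Real.log (bb y i) ≤ 320 * η * Real.log T := by
  have h1 : ∀ i ∈ range J, ((4 * KK n Rs i : ℕ) : ℝ) * Real.log (bb y i) =
      160 * n * Real.log y * (((Rs:ℝ) + i) * (1 / 4) ^ i) := by
    intro i _
    rw [log_bb]; unfold KK RR; push_cast; ring
  rw [sum_congr rfl h1, ← mul_sum]
  have h2 := geo_sum Rs J
  have h3 := Real.log_nonneg hy
  calc 160 * n * Real.log y * ∑ i ∈ range J, ((Rs:ℝ) + i) * (1 / 4) ^ i ≤ 160 * n * Real.log y * (2 * ((Rs:ℝ) + 1)) :=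
        mul_le_mul_of_nonneg_left h2 (by positivity)
    _ = 320 * (n * ((Rs:ℝ) + 1) * Real.log y) := by ring
    _ ≤ 320 * (η * Real.log T) := by linarith
    _ = _ := by ring

lemma KK_big {n Rs : ℕ} (hn : 1 ≤ n) (hRs : 1 ≤ Rs) (i : ℕ) : n + 1 ≤ KK n Rs i ∧ 1 ≤ 4 * KK n Rs i := by
  have hR : 2 ≤ RR Rs i := by unfold RR; omega
  have hK0 : n * RR Rs i * 20 = KK n Rs i := by unfold KK; ring
  have hK2 : n * 2 ≤ n * RR Rs i := Nat.mul_le_mul_left _ hR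
  omega

/-- mean values without zeta -/
theorem m0 (n : ℕ) (c : ℝ) (hn : 1 ≤ n) (hc : 0 ≤ c) : ∃ (P₀ : ℕ) (C : ℝ), 0 < C ∧ ∀ Rs : ℕ, 1 ≤ Rs →
    ∀ (S : Finset ℕ) (g : DA), g ∈ SA (MI S) → 0 < lam w0 g → ∀ᶠ T : ℝ in atTop, ∀ κ : ℕ, Rng T κ →
    ∀ (y : ℝ) (J : ℕ) (I : ℕ → Finset ℕ), Con n Rs c P₀ 1 S (1 / 32000) T y J I → ∀ a : ℝ, |a| ≤ n →
      (∫ t in Set.Ioi (0:ℝ), om κ (κ / T) t * (‖AZ n Rs J a (zz I t)‖ ^ 2 * (ev t g).re) ≤
        C * (Real.exp (a ^ 2 * VV I J) * lam w0 g)) ∧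
      ∀ i < J, ∫ t in Set.Ioi (0:ℝ), om κ (κ / T) t * (pen Rs J i (zz I t) *
        (‖AZ n Rs J a (zz I t)‖ ^ 2 * (ev t g).re)) ≤
          C * Real.exp (-(RR Rs i : ℝ)) * (Real.exp (a ^ 2 * VV I J) * lam w0 g) := by
  have hn0 : (1:ℝ) ≤ n := by exact_mod_cast hn
  obtain ⟨P₀, C, hP144, hC1, hLaw⟩ := a_LAW (8 * n + 8) (by linarith)
  obtain ⟨C₃, hC3, e₀, he0, R₀, hprd⟩ := a_PRD n c C hn hc
  refine ⟨P₀, C₃ + 1, by positivity, fun Rs hRs S g hgS hg0 => ?_⟩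
  obtain ⟨N, L, hst⟩ := exw_start (w := w0) (S := S) ({()} : Finset Unit) (fun _ => 1) (fun _ => g)
    (fun _ _ => hgS)
  have hav := av0g hst
  have hsm : ∀ᶠ T : ℝ in atTop, Real.exp (2 * Rs) * Real.log T ^ 2 * T ^ (-(1 / 2) : ℝ) ≤ lam w0 g := by
    have h1 := (isLittleO_log_rpow_rpow_atTop (2:ℝ) (by norm_num : (0:ℝ) < 1 / 2)).bound
      (show 0 < lam w0 g / Real.exp (2 * Rs) by positivity)
    filter_upwards [h1, eventually_ge_atTop (1:ℝ)] with T hT hT1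
    have hT0 : (0:ℝ) < T := by linarith
    have hl : 0 ≤ Real.log T := Real.log_nonneg hT1
    rw [Real.norm_of_nonneg (by positivity), Real.norm_of_nonneg (by positivity)] at hT
    have e1 : Real.log T ^ (2:ℝ) = Real.log T ^ 2 := by
      rw [show (2:ℝ) = ((2:ℕ):ℝ) by norm_num, Real.rpow_natCast]
    rw [e1] at hT
    have e2 : T ^ (1 / 2 : ℝ) * T ^ (-(1 / 2) : ℝ) = 1 := by
      rw [← Real.rpow_add hT0]; norm_num
    calc Real.exp (2 * Rs) * Real.log T ^ 2 * T ^ (-(1 / 2) : ℝ) ≤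
        Real.exp (2 * Rs) * (lam w0 g / Real.exp (2 * Rs) * T ^ (1 / 2 : ℝ)) * T ^ (-(1 / 2) : ℝ) := by gcongr
      _ = lam w0 g * (T ^ (1 / 2 : ℝ) * T ^ (-(1 / 2) : ℝ)) := by field_simp
      _ = lam w0 g := by rw [e2, mul_one]
  obtain ⟨Ng, hNg1, hNg⟩ := Bd_ex hgS
  filter_upwards [hav, hsm, eventually_gt_atTop (3:ℝ), Real.tendsto_log_atTop.eventually_ge_atTop 1] with
    T hav hsm hT3 hL1 κ hκ y J I hCon a ha
  have hT0 : 0 < T := by linarith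
  have hκ0 : (0:ℝ) < κ := lt_of_lt_of_le (by positivity) hκ.1
  have hδ : 0 < (κ:ℝ) / T := by positivity
  have hI : ∀ i, ∀ p ∈ I i, p.Prime := fun i p hp => (hCon.rg.pr i p hp).1
  have hIP : ∀ i, ∀ p ∈ I i, p.Prime ∧ P₀ ≤ p := fun i p hp => ⟨hI i p hp, hCon.P i p hp⟩
  choose ν hν using fun i => (hLaw (I i) (hIP i)).1
  have hy1 : 1 ≤ y := by linarith [hCon.y1]
  have hlen := len4 hy1 J hCon.len
  have hV0 := VV_nonneg I J
  have hE1 : 1 ≤ Real.exp (a ^ 2 * VV I J) := Real.one_le_exp (by positivity)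
  have hhc : Continuous hh := by unfold hh; fun_prop
  obtain ⟨cA, -, cz, B, hB⟩ := Pool.Agent.TH126.LK_PT.t_PT.1 n Rs J I a 0 hh hI hhc
  -- the bound for all factors
  have key : ∀ (i₀ : ℕ) (M : ℝ), ∏ i ∈ range J, ‖∫ q, q.2 * GG 0 (KK n Rs) (RR Rs) a i₀ i 0 0 q.1 ∂(ν i)‖ ≤ M →
      ∫ t in Set.Ioi (0:ℝ), om κ (κ / T) t * (pen Rs J i₀ (zz I t) * (‖AZ n Rs J a (zz I t)‖ ^ 2 * (ev t g).re)) ≤
        lam w0 g * M + T ^ (-(1 / 2) : ℝ) := by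
    intro i₀ M hM
    have h1 := hav κ hκ c (8 * n + 8) C J I (bb y) (fun i => 4 * KK n Rs i)
      (fun i => GG 0 (KK n Rs) (RR Rs) a i₀ i 0 0) ν hCon.rg (fun i => (hCon.dS i).symm) (fun i _ => hν i)
      (fun i _ => ⟨(KK_big hn hRs i).2, (GG_PB (θ₁ := 0) (θ₂ := 0) a_ALG hn hRs ha 0 i₀ i (by simp) (by simp)).1⟩)
      (by
        refine hlen.trans (le_of_eq ?_)
        ring)
    simp only [prod_GG, sum_singleton, one_mul] at h1
    set f : ℝ → ℂ := fun t => ev t g * ((pen Rs J i₀ (zz I t) * ‖AZ n Rs J a (zz I t)‖ ^ 2 : ℝ) : ℂ) with hf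
    have hpc : Continuous fun t => pen Rs J i₀ (zz I t) := by
      unfold pen
      by_cases h : i₀ < J
      · simp only [h, if_true]
        exact ((cz i₀).norm.div_const _).pow _
      · simp only [h, if_false]
        exact continuous_const
    have hfc : Continuous f := (Pool.Agent.TH263.LK_AV1.ev_cont hNg).mul
      (Complex.continuous_ofReal.comp (hpc.mul (cA.norm.pow 2)))
    have hpb : ∀ t, pen Rs J i₀ (zz I t) ≤ 1 + (|B| / RR Rs i₀) ^ (2 * RR Rs i₀) := by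
      intro t
      unfold pen
      by_cases h : i₀ < J
      · simp only [h, if_true]
        have h2 := ((hB t).2.2 i₀ h).trans (le_abs_self B)
        have h3 : (‖zz I t i₀‖ / RR Rs i₀) ^ (2 * RR Rs i₀) ≤ (|B| / RR Rs i₀) ^ (2 * RR Rs i₀) := by gcongr
        linarith
      · simp only [h, if_false]
        have : 0 ≤ (|B| / RR Rs i₀) ^ (2 * RR Rs i₀) := by positivity
        linarith
    have hfb : ∀ t, ‖f t‖ ≤ l1 g * ((1 + (|B| / RR Rs i₀) ^ (2 * RR Rs i₀)) * |B| ^ 2) := by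
      intro t
      rw [hf]
      simp only
      rw [norm_mul, Complex.norm_real, Real.norm_eq_abs, abs_of_nonneg (mul_nonneg (pen_nonneg _ _ _ _) (sq_nonneg _))]
      refine mul_le_mul (Pool.Agent.TH263.LK_AV1.ev_le hNg t) ?_ (mul_nonneg (pen_nonneg _ _ _ _) (sq_nonneg _))
        (l1_nonneg _)
      refine mul_le_mul (hpb t) ?_ (sq_nonneg _) (by positivity)
      exact pow_le_pow_left₀ (norm_nonneg _) ((hB t).1.trans (le_abs_self B)) 2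
    obtain ⟨-, h2⟩ := om_re (κ := κ) hδ hfc hfb
    have e1 : ∀ t, (f t).re = pen Rs J i₀ (zz I t) * (‖AZ n Rs J a (zz I t)‖ ^ 2 * (ev t g).re) := by
      intro t
      rw [hf]
      simp only
      rw [Complex.re_mul_ofReal]; ring
    simp_rw [e1] at h2
    rw [h2]
    refine (Complex.re_le_norm _).trans ?_
    have h3 := norm_le_norm_add_norm_sub' (∫ t in Set.Ioi (0:ℝ), ((om κ (κ / T) t : ℝ) : ℂ) * f t)
      (((lam w0 g : ℝ) : ℂ) * ∏ i ∈ range J, ∫ q, q.2 * GG 0 (KK n Rs) (RR Rs) a i₀ i 0 0 q.1 ∂(ν i))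
    have h4 : ‖((lam w0 g : ℝ) : ℂ) * ∏ i ∈ range J, ∫ q, q.2 * GG 0 (KK n Rs) (RR Rs) a i₀ i 0 0 q.1 ∂(ν i)‖ ≤
        lam w0 g * M := by
      rw [norm_mul, Complex.norm_real, Real.norm_eq_abs, abs_of_pos hg0, norm_prod]
      exact mul_le_mul_of_nonneg_left hM hg0.le
    linarith
  have hP1 := (hprd J Rs I (bb y) ν hCon.rg hRs).1 w0 0 le_rfl zero_le_one (fun i _ => hν i) a 0 0 ha
    (by simp) (by simp)
  have e0 : (2 * 0 * a + a ^ 2 - ((0:ℝ) + 0) ^ 2 / 4) = a ^ 2 := by ring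
  rw [e0] at hP1
  set E := Real.exp (a ^ 2 * VV I J) with hE
  have hly : 0 ≤ Real.log y := Real.log_nonneg hy1
  have hRs0 : (0:ℝ) ≤ Rs := Nat.cast_nonneg _
  have hlyT : Real.log y ≤ Real.log T := by
    have e1 : 1 * Real.log y ≤ n * ((Rs:ℝ) + 1) * Real.log y := by
      refine mul_le_mul_of_nonneg_right ?_ hly
      nlinarith
    have := hCon.len
    linarith
  have hrr : ∀ i < J, T ^ (-(1 / 2) : ℝ) ≤ Real.exp (-(RR Rs i : ℝ)) * (E * lam w0 g) := by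
    intro i hi
    have h5 := exp_RR_le (Rs := Rs) hCon.rg hi
    have h6 : Real.exp (RR Rs i : ℝ) ≤ Real.exp (2 * Rs) * Real.log T ^ 2 := h5.trans (by gcongr)
    have h7 : Real.exp (RR Rs i : ℝ) * T ^ (-(1 / 2) : ℝ) ≤ lam w0 g :=
      (mul_le_mul_of_nonneg_right h6 (by positivity)).trans hsm
    have h8 : T ^ (-(1 / 2) : ℝ) ≤ Real.exp (-(RR Rs i : ℝ)) * lam w0 g := by
      rw [Real.exp_neg, ← div_eq_inv_mul, le_div_iff₀ (Real.exp_pos _)]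
      linarith
    refine h8.trans (mul_le_mul_of_nonneg_left ?_ (Real.exp_pos _).le)
    nlinarith
  constructor
  · have h1 := key J (C₃ * E) (by
      refine le_trans (le_of_eq ?_) hP1.1
      refine prod_congr rfl fun i hi => ?_
      have hne : i ≠ J := (mem_range.mp hi).ne
      simp only [GG, hne, if_false])
    have e1 : ∀ t, pen Rs J J (zz I t) = 1 := by
      intro t; unfold pen; rw [if_neg (lt_irrefl J)]
    simp_rw [e1, one_mul] at h1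
    have h2 : T ^ (-(1 / 2) : ℝ) ≤ E * lam w0 g := by
      have h3 : (1:ℝ) * T ^ (-(1 / 2) : ℝ) ≤ Real.exp (2 * Rs) * Real.log T ^ 2 * T ^ (-(1 / 2) : ℝ) := by
        refine mul_le_mul_of_nonneg_right ?_ (by positivity)
        have h4 : (1:ℝ) ≤ Real.exp (2 * Rs) := Real.one_le_exp (by positivity)
        nlinarith
      nlinarith
    calc _ ≤ _ := h1
      _ ≤ lam w0 g * (C₃ * E) + E * lam w0 g := by linarith
      _ = _ := by ring
  · intro i hi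
    have h1 := key i (Real.exp (-(RR Rs i : ℝ)) * (C₃ * E)) (by
      obtain ⟨-, h4⟩ := hP1
      obtain ⟨-, h5, -⟩ := h4 i hi
      have e1 : ∏ j ∈ (range J).erase i, ‖∫ q, q.2 * GG 0 (KK n Rs) (RR Rs) a i j 0 0 q.1 ∂(ν j)‖ =
          ∏ j ∈ (range J).erase i, ‖∫ q, q.2 * LK.BF (KK n Rs j) a a 0 0 q.1 ∂(ν j)‖ := by
        refine prod_congr rfl fun j hj => ?_
        simp only [GG, (mem_erase.mp hj).1, if_false]
      rw [← mul_prod_erase (range J) _ (mem_range.mpr hi), e1]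
      simp only [GG, if_true]
      exact h5)
    have h2 := hrr i hi
    calc _ ≤ _ := h1
      _ ≤ lam w0 g * (Real.exp (-(RR Rs i : ℝ)) * (C₃ * E)) + Real.exp (-(RR Rs i : ℝ)) * (E * lam w0 g) := by linarith
      _ = _ := by ring

/-- the twisted second moment -/
theorem m2 (n : ℕ) (c : ℝ) (hn : 1 ≤ n) (hc : 0 ≤ c) : ∃ (P₀ : ℕ) (C η : ℝ), 0 < C ∧ 0 < η ∧ η ≤ 1 / 32000 ∧
    ∀ Rs : ℕ, 1 ≤ Rs → ∀ (S : Finset ℕ) (g : DA), g ∈ SA (MI S) → 0 < lam w1 g → ∀ᶠ T : ℝ in atTop,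
    ∀ κ : ℕ, Rng T κ → ∀ (y : ℝ) (J : ℕ) (I : ℕ → Finset ℕ), Con n Rs c P₀ 1 S η T y J I → ∀ a : ℝ, |a| ≤ n →
      ∫ t in Set.Ioi (0:ℝ), wz κ T t * (‖AZ n Rs J a (zz I t)‖ ^ 2 * (ev t g).re) ≤
        C * (Real.log T * Real.exp ((2 * a + a ^ 2) * VV I J) * lam w1 g) + T ^ (-η) := by
  have hn0 : (1:ℝ) ≤ n := by exact_mod_cast hn
  obtain ⟨P₀, C, hP144, hC1, hLaw⟩ := a_LAW (8 * n + 8) (by linarith)
  obtain ⟨C₃, hC3, e₀, he0, R₀, hprd⟩ := a_PRD n c C hn hc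
  obtain ⟨η₀, hη0, hη1, hav⟩ := av2g
  obtain ⟨C₂, hC2, hav⟩ := hav c (8 * n + 8) C (n + 1) hc (by linarith) (by linarith)
  refine ⟨P₀, 2 * C₂ * C₃, η₀ / 320, by positivity, by positivity, by linarith, fun Rs hRs S g hgS hg0 => ?_⟩
  obtain ⟨Ng, hNg1, hNg⟩ := Bd_ex hgS
  filter_upwards [hav S g hgS hg0, eventually_gt_atTop (3:ℝ), Real.tendsto_log_atTop.eventually_ge_atTop 1] with
    T hT hT3 hL1 κ hκ y J I hCon a ha
  have hT0 : 0 < T := by linarith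
  have hL0 : 0 < Real.log T := by linarith
  have hκ0 : (0:ℝ) < κ := lt_of_lt_of_le (by positivity) hκ.1
  have hδ : 0 < (κ:ℝ) / T := by positivity
  have hI : ∀ i, ∀ p ∈ I i, p.Prime := fun i p hp => (hCon.rg.pr i p hp).1
  have hIP : ∀ i, ∀ p ∈ I i, p.Prime ∧ P₀ ≤ p := fun i p hp => ⟨hI i p hp, hCon.P i p hp⟩
  choose ν hν using fun i => (hLaw (I i) (hIP i)).2.1
  have hy1 : 1 ≤ y := by linarith [hCon.y1]
  have hlen2 : ∑ i ∈ range J, ((4 * KK n Rs i : ℕ) : ℝ) * Real.log (bb y i) ≤ η₀ * Real.log T := by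
    refine (len4 hy1 J hCon.len).trans (le_of_eq ?_)
    ring
  have hhc : Continuous hh := by unfold hh; fun_prop
  obtain ⟨cA, -, cz, B, hB⟩ := Pool.Agent.TH126.LK_PT.t_PT.1 n Rs J I a 0 hh hI hhc
  have hb := hT κ hκ J I (bb y) (fun i => 4 * KK n Rs i) (fun i => LK.BF (KK n Rs i) a a 0 0) ν hCon.rg hCon.dS
      (fun i _ => hν i) (fun i _ => by
        have hKn := (KK_big hn hRs i).1
        obtain ⟨q1, _, _, q4, _, _⟩ := a_ALG.2.2.2 n (KK n Rs i) 1 a a 0 0 hn hKn le_rfl ha ha (by simp) (by simp)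
        refine ⟨by omega, ?_, a_ALG.2.1 _ _ _ _ (by omega) (by positivity) q1, q4⟩
        have : ((n + 1 : ℕ) : ℝ) ≤ KK n Rs i := by exact_mod_cast hKn
        push_cast at this ⊢
        linarith) hlen2
  simp only [prod_BF2] at hb
  have hpr := (hprd J Rs I (bb y) ν hCon.rg hRs).1 w1 1 zero_le_one le_rfl (fun i _ => hν i) a 0 0 ha
    (by simp) (by simp)
  have e0 : (2 * 1 * a + a ^ 2 - ((0:ℝ) + 0) ^ 2 / 4) = 2 * a + a ^ 2 := by ring
  rw [e0] at hpr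
  set E := Real.exp ((2 * a + a ^ 2) * VV I J) with hE
  have hE0 : 0 < E := Real.exp_pos _
  have e1 : Real.log T * ∏ i ∈ range J, ‖∫ q, q.2 * LK.BF (KK n Rs i) a a 0 0 q.1 ∂(ν i)‖ ≤
      Real.log T * (C₃ * E) := mul_le_mul_of_nonneg_left hpr.1 hL0.le
  have e2 : ∑ i ∈ range J, ((4 * KK n Rs i : ℕ) : ℝ) * Real.log (bb y i) *
        ∏ j ∈ (range J).erase i, ‖∫ q, q.2 * LK.BF (KK n Rs j) a a 0 0 q.1 ∂(ν j)‖ ≤
      Real.log T * (C₃ * E) := by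
    calc _ ≤ ∑ i ∈ range J, ((4 * KK n Rs i : ℕ) : ℝ) * Real.log (bb y i) * (C₃ * E) := by
          refine sum_le_sum fun i hi => ?_
          rw [mem_range] at hi
          refine mul_le_mul_of_nonneg_left (hpr.2 i hi).1 ?_
          have hb1 : 0 ≤ Real.log (bb y i) := Real.log_nonneg (by linarith [hCon.rg.b10 i hi])
          positivity
      _ = (∑ i ∈ range J, ((4 * KK n Rs i : ℕ) : ℝ) * Real.log (bb y i)) * (C₃ * E) := by rw [sum_mul]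
      _ ≤ (η₀ * Real.log T) * (C₃ * E) := mul_le_mul_of_nonneg_right hlen2 (by positivity)
      _ ≤ (1 * Real.log T) * (C₃ * E) := by
          refine mul_le_mul_of_nonneg_right (mul_le_mul_of_nonneg_right (by linarith) hL0.le) (by positivity)
      _ = _ := by ring
  -- real part
  set f : ℝ → ℂ := fun t => (((ev t g).re : ℝ) : ℂ) * ((‖AZ n Rs J a (zz I t)‖ ^ 2 : ℝ) : ℂ) with hf
  have hfc : Continuous f := (Complex.continuous_ofReal.comp (ev_re_cont hNg)).mul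
    (Complex.continuous_ofReal.comp (cA.norm.pow 2))
  have hfb : ∀ t, ‖f t‖ ≤ l1 g * |B| ^ 2 := by
    intro t
    rw [hf]
    simp only
    rw [norm_mul, Complex.norm_real, Complex.norm_real, Real.norm_eq_abs, Real.norm_eq_abs,
      abs_of_nonneg (sq_nonneg ‖_‖)]
    refine mul_le_mul (ev_re_le hNg t) ?_ (sq_nonneg _) (l1_nonneg _)
    exact pow_le_pow_left₀ (norm_nonneg _) ((hB t).1.trans (le_abs_self B)) 2
  obtain ⟨-, h2⟩ := wz_re (κ := κ) hδ hfc hfb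
  have e3 : ∀ t, (f t).re = ‖AZ n Rs J a (zz I t)‖ ^ 2 * (ev t g).re := by
    intro t
    rw [hf]
    simp only
    rw [Complex.re_ofReal_mul, Complex.ofReal_re]; ring
  simp_rw [e3] at h2
  rw [h2]
  refine (Complex.re_le_norm _).trans (hb.trans ?_)
  have hTη : T ^ (-η₀) ≤ T ^ (-(η₀ / 320)) := Real.rpow_le_rpow_of_exponent_le (by linarith) (by linarith)
  have e4 : C₂ * lam w1 g * (Real.log T * ∏ i ∈ range J, ‖∫ q, q.2 * LK.BF (KK n Rs i) a a 0 0 q.1 ∂(ν i)‖ +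
        ∑ i ∈ range J, ((4 * KK n Rs i : ℕ) : ℝ) * Real.log (bb y i) *
          ∏ j ∈ (range J).erase i, ‖∫ q, q.2 * LK.BF (KK n Rs j) a a 0 0 q.1 ∂(ν j)‖) ≤
      C₂ * lam w1 g * (Real.log T * (C₃ * E) + Real.log T * (C₃ * E)) :=
    mul_le_mul_of_nonneg_left (add_le_add e1 e2) (by positivity)
  calc _ ≤ C₂ * lam w1 g * (Real.log T * (C₃ * E) + Real.log T * (C₃ * E)) + T ^ (-(η₀ / 320)) :=
        add_le_add e4 hTη
    _ = _ := by ring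

/-- the twisted first moment -/
theorem m1 (n : ℕ) (c : ℝ) (hn : 1 ≤ n) (hc : 0 ≤ c) : ∃ (P₀ R₀ : ℕ) (e₀ : ℝ), 0 < e₀ ∧ e₀ ≤ 1 ∧
    ∀ Rs : ℕ, R₀ ≤ Rs → 1 ≤ Rs → ∀ (S : Finset ℕ) (N L : ℝ) (F : ℝ → ℂ) (A : ℂ), ExW wF N L S F A →
    ∀ᶠ T : ℝ in atTop, ∀ κ : ℕ, Rng T κ → ∀ (y : ℝ) (J : ℕ) (I : ℕ → Finset ℕ),
      Con n Rs c P₀ e₀ S (1 / 32000) T y J I → ∀ k : ℝ, |k| + 1 ≤ n →
      3 / 4 * Real.exp (k ^ 2 * VV I J) * ‖A‖ - T ^ (-(1 / 2) : ℝ) ≤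
        ‖∫ t in Set.Ioi (0:ℝ), ((om κ (κ / T) t : ℝ) : ℂ) * (riemannZeta (cl t) *
          (F t * (AZ n Rs J (k - 1) (zz I t) * starRingEnd ℂ (AZ n Rs J k (zz I t)))))‖ := by
  have hn0 : (1:ℝ) ≤ n := by exact_mod_cast hn
  obtain ⟨P₀, C, hP144, hC1, hLaw⟩ := a_LAW (8 * n + 8) (by linarith)
  obtain ⟨C₃, hC3, e₀, he0, R₀, hprd⟩ := a_PRD n c C hn hc
  refine ⟨P₀, R₀, min e₀ 1, lt_min he0 one_pos, min_le_right _ _, fun Rs hR0 hRs S N L F A hst => ?_⟩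
  filter_upwards [av1g hst, eventually_gt_atTop (3:ℝ), Real.tendsto_log_atTop.eventually_ge_atTop 1] with
    T hT hT3 hL1 κ hκ y J I hCon k hk
  have hT0 : 0 < T := by linarith
  have hI : ∀ i, ∀ p ∈ I i, p.Prime := fun i p hp => (hCon.rg.pr i p hp).1
  have hIP : ∀ i, ∀ p ∈ I i, p.Prime ∧ P₀ ≤ p := fun i p hp => ⟨hI i p hp, hCon.P i p hp⟩
  choose ν hν using fun i => (hLaw (I i) (hIP i)).2.2
  have hy1 : 1 ≤ y := by linarith [hCon.y1]
  have hkn : |k| ≤ n := by linarith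
  have hkn1 : |k - 1| ≤ n := by
    have := abs_sub k 1
    rw [abs_one] at this
    linarith
  have hb := hT κ hκ c (8 * n + 8) C J I (bb y) (fun i => 4 * KK n Rs i)
      (fun i => LK.BF (KK n Rs i) (k - 1) k 0 0) ν hCon.rg (fun i => (hCon.dS i).symm)
      (fun i _ => hν i) (fun i _ => by
        have hKn := (KK_big hn hRs i).1
        obtain ⟨q1, _, _, _, _, _⟩ := a_ALG.2.2.2 n (KK n Rs i) 1 (k - 1) k 0 0 hn hKn le_rfl hkn1 hkn (by simp)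
          (by simp)
        refine ⟨by omega, a_ALG.2.2.1 (3 * KK n Rs i) _ _ (by omega) (a_ALG.1 _ _ _ (by positivity) ?_ q1)⟩
        have : ((n + 1 : ℕ) : ℝ) ≤ KK n Rs i := by exact_mod_cast hKn
        push_cast at this ⊢
        linarith) (by
        refine (len4 hy1 J hCon.len).trans (le_of_eq ?_)
        ring)
  obtain ⟨ε, hε, hpr⟩ := (hprd J Rs I (bb y) ν hCon.rg hRs).2 (fun i _ => hν i) hR0
      (hCon.U.trans (min_le_left _ _)) k 0 0 hk (by simp) (by simp)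
  rw [hpr] at hb
  simp only [prod_BF1] at hb
  have e1 : Complex.exp (((k:ℂ) + (((0:ℝ):ℂ) + ((0:ℝ):ℂ)) / 2 * Complex.I) ^ 2 * ((VV I J : ℝ) : ℂ)) =
      ((Real.exp (k ^ 2 * VV I J) : ℝ) : ℂ) := by
    rw [Complex.ofReal_exp]
    congr 1
    push_cast
    ring
  rw [e1] at hb
  set E := Real.exp (k ^ 2 * VV I J) with hE
  have hE0 : 0 < E := Real.exp_pos _
  set X := ∫ t in Set.Ioi (0:ℝ), ((om κ (κ / T) t : ℝ) : ℂ) * (riemannZeta (cl t) *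
          (F t * (AZ n Rs J (k - 1) (zz I t) * starRingEnd ℂ (AZ n Rs J k (zz I t))))) with hX
  have h1 : 3 / 4 ≤ ‖1 + ε‖ := by
    have h2 := norm_sub_norm_le (1:ℂ) (-ε)
    rw [norm_one, norm_neg, sub_neg_eq_add] at h2
    linarith
  have h2 : ‖A * (((E : ℝ) : ℂ) * (1 + ε))‖ = ‖A‖ * (E * ‖1 + ε‖) := by
    rw [norm_mul, norm_mul, Complex.norm_real, Real.norm_eq_abs, abs_of_pos hE0]
  have h3 := norm_sub_norm_le (A * (((E : ℝ) : ℂ) * (1 + ε))) X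
  rw [norm_sub_rev] at h3
  have h4 : 3 / 4 * E * ‖A‖ ≤ ‖A * (((E : ℝ) : ℂ) * (1 + ε))‖ := by
    rw [h2]
    calc 3 / 4 * E * ‖A‖ = ‖A‖ * (E * (3 / 4)) := by ring
      _ ≤ _ := by gcongr
  linarith

end

end Pool.Agent.KS6_89.PP
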