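import Pool.Agent.KS6_89.PP.Low1

set_option autoImplicit false

/-! The lower bound in the smooth windows (project PP). -/

namespace Pool.Agent.KS6_89.PP

open Finset Filter Topology MeasureTheory Complex MonoidAlgebra
open Pool.Agent.W184.NZ
open Pool.Agent.TH806 Pool.Agent.TH806.LK
open Pool.Agent.TH112.LKC (GG GG_PB exp_RR_le VV_nonneg)
open Pool.Agent.H306R2.SM (om cl Yf)
open Pool.Agent.H262R4.TM (Rng Ck)

noncomputable section

/-- the mean value over the cube -/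
def E0 (S : Finset ℕ) (F : (S → ℂ) → ℝ) : ℝ := ∫ θ in Set.Icc (0 : S → ℝ) 1, F (ee S θ)

lemma ee_conj {S : Finset ℕ} (θ : S → ℝ) : (fun p => starRingEnd ℂ (ee S θ p)) = ee S (1 - θ) := by
  funext p
  unfold ee
  rw [← Complex.exp_conj]
  have e1 : (starRingEnd ℂ) (2 * (Real.pi:ℂ) * (θ p : ℂ) * I) = -(2 * Real.pi * (θ p : ℂ) * I) := by
    rw [map_mul, map_mul, map_mul, Complex.conj_I, Complex.conj_ofReal, Complex.conj_ofReal, map_ofNat]
    ring
  rw [e1, Complex.exp_eq_exp_iff_exists_int]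
  refine ⟨-1, ?_⟩
  simp only [Pi.sub_apply, Pi.one_apply]
  push_cast
  ring

lemma E0_conj {S : Finset ℕ} (F : (S → ℂ) → ℝ) : E0 S (fun z => F (fun p => starRingEnd ℂ (z p))) = E0 S F := by
  unfold E0
  simp only [ee_conj]
  rw [← integral_indicator measurableSet_Icc, ← integral_indicator measurableSet_Icc,
    ← integral_sub_left_eq_self (μ := (volume : Measure (S → ℝ)))
      (fun θ => (Set.Icc (0 : S → ℝ) 1).indicator (fun θ => F (ee S θ)) θ) 1]
  refine integral_congr_ae (Eventually.of_forall fun θ => ?_)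
  simp only [Set.indicator]
  have : (1 - θ ∈ Set.Icc (0 : S → ℝ) 1) ↔ θ ∈ Set.Icc (0 : S → ℝ) 1 := by
    rw [Set.mem_Icc, Set.mem_Icc]
    constructor
    · rintro ⟨h1, h2⟩
      refine ⟨?_, ?_⟩
      · have := sub_le_comm.mp h2
        simpa using this
      · exact sub_nonneg.mp h1
    · rintro ⟨h1, h2⟩
      refine ⟨sub_nonneg.mpr h2, ?_⟩
      have : 1 - θ ≤ 1 - 0 := sub_le_sub_left h1 1
      simpa using this
  by_cases h : θ ∈ Set.Icc (0 : S → ℝ) 1
  · rw [if_pos h, if_pos (this.mpr h)]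
  · rw [if_neg h, if_neg (fun hh => h (this.mp hh))]

/-- the pointwise inequality -/
lemma pw2 {X A A' : ℝ} (hX : 0 ≤ X) (hA : 0 ≤ A) (hA' : 0 ≤ A') {x α lam δ bad : ℝ} (hα : 0 < α)
    (hlam : 0 < lam) (hδ : 0 < δ) (hbad : 0 ≤ bad) {good : Prop} (h1 : ¬ good → 1 ≤ bad)
    (h2 : good → Real.exp (α * x) / 2 ≤ A ∧ A ≤ 2 * Real.exp (α * x) ∧ Real.exp ((α - 1) * x) / 2 ≤ A' ∧
      A' ≤ 2 * Real.exp ((α - 1) * x)) :
    X * (A * A') ≤ 4 * δ ^ (-(1 + 2 * α)) * X ^ (2 * α) + (16 * δ + lam / 2) * (X ^ 2 * A' ^ 2) +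
      16 * δ * A ^ 2 + 1 / (2 * lam) * (bad * A ^ 2) := by
  set M := δ ^ (-(1 + 2 * α)) with hM
  have hM0 : 0 < M := Real.rpow_pos_of_pos hδ _
  have t0 : 0 ≤ M * X ^ (2 * α) := by positivity
  have t1 : 0 ≤ δ * (X ^ 2 * A' ^ 2) := by positivity
  have t2 : 0 ≤ lam * (X ^ 2 * A' ^ 2) := by positivity
  have t3 : 0 ≤ δ * A ^ 2 := by positivity
  have t4 : 0 ≤ 1 / (2 * lam) * (bad * A ^ 2) := by positivity
  by_cases hg : good
  · obtain ⟨a1, a2, a3, a4⟩ := h2 hg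
    set r := X * Real.exp (-x) with hr
    have hr0 : 0 ≤ r := by positivity
    have hXr : X = r * Real.exp x := by
      rw [hr, mul_assoc, ← Real.exp_add, neg_add_cancel, Real.exp_zero, mul_one]
    have key : r ≤ M * r ^ (2 * α) + δ * (r ^ 2 + 1) := by
      by_cases c1 : r ≤ δ
      · have : 0 ≤ M * r ^ (2 * α) + δ * r ^ 2 := by positivity
        linarith
      · push Not at c1
        by_cases c2 : 1 / δ ≤ r
        · have c3 : 1 ≤ δ * r := by
            rw [div_le_iff₀ hδ] at c2; linarith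
          have : r ≤ δ * r ^ 2 := by nlinarith
          have : 0 ≤ M * r ^ (2 * α) := by positivity
          linarith
        · push Not at c2
          have c3 : δ ^ (2 * α) ≤ r ^ (2 * α) := Real.rpow_le_rpow hδ.le c1.le (by positivity)
          have c4 : M * δ ^ (2 * α) = 1 / δ := by
            rw [hM, ← Real.rpow_add hδ, show -(1 + 2 * α) + 2 * α = -1 by ring, Real.rpow_neg_one, one_div]
          have c5 : 1 / δ ≤ M * r ^ (2 * α) := by
            rw [← c4]; exact mul_le_mul_of_nonneg_left c3 hM0.le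
          have : 0 ≤ δ * (r ^ 2 + 1) := by positivity
          linarith
    set e := Real.exp (2 * α * x) with he
    have he0 : 0 < e := Real.exp_pos _
    have b1 : X * (A * A') ≤ 4 * (r * e) := by
      calc X * (A * A') ≤ X * ((2 * Real.exp (α * x)) * (2 * Real.exp ((α - 1) * x))) := by gcongr
        _ = 4 * (X * (Real.exp (α * x) * Real.exp ((α - 1) * x))) := by ring
        _ = 4 * (r * (Real.exp x * (Real.exp (α * x) * Real.exp ((α - 1) * x)))) := by rw [hXr]; ring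
        _ = 4 * (r * e) := by
            rw [← Real.exp_add, ← Real.exp_add, he]; congr 3; ring
    have b2 : r ^ (2 * α) * e = X ^ (2 * α) := by
      rw [hXr, Real.mul_rpow hr0 (Real.exp_pos _).le, he, ← Real.exp_mul]; congr 2; ring
    have b3 : r ^ 2 * e ≤ 4 * (X ^ 2 * A' ^ 2) := by
      have q : r ^ 2 * e = X ^ 2 * Real.exp ((α - 1) * x) ^ 2 := by
        have q1 : e = Real.exp x ^ 2 * Real.exp ((α - 1) * x) ^ 2 := by
          rw [← mul_pow, ← Real.exp_add, ← Real.exp_nat_mul, he]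
          congr 1; push_cast; ring
        have q2 : X ^ 2 = r ^ 2 * Real.exp x ^ 2 := by
          conv_lhs => rw [hXr]
          rw [mul_pow]
        rw [q1, q2]; ring
      rw [q]
      have : Real.exp ((α - 1) * x) ^ 2 ≤ (2 * A') ^ 2 := pow_le_pow_left₀ (Real.exp_pos _).le (by linarith) 2
      calc X ^ 2 * Real.exp ((α - 1) * x) ^ 2 ≤ X ^ 2 * (2 * A') ^ 2 := by gcongr
        _ = _ := by ring
    have b4 : e ≤ 4 * A ^ 2 := by
      have q : e = Real.exp (α * x) ^ 2 := by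
        rw [he, ← Real.exp_nat_mul]; congr 1; push_cast; ring
      rw [q]
      have : Real.exp (α * x) ^ 2 ≤ (2 * A) ^ 2 := pow_le_pow_left₀ (Real.exp_pos _).le (by linarith) 2
      calc _ ≤ _ := this
        _ = _ := by ring
    have b5 := mul_le_mul_of_nonneg_right key he0.le
    have b6 : (M * r ^ (2 * α) + δ * (r ^ 2 + 1)) * e = M * X ^ (2 * α) + δ * (r ^ 2 * e) + δ * e := by
      rw [← b2]; ring
    rw [b6] at b5
    have b7 := mul_le_mul_of_nonneg_left b3 hδ.le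
    have b8 := mul_le_mul_of_nonneg_left b4 hδ.le
    linarith
  · have h5 := h1 hg
    have hAM := amgm (X := X) (A := A) (A' := A') hlam
    have h6 : 1 / (2 * lam) * A ^ 2 ≤ 1 / (2 * lam) * (bad * A ^ 2) := by
      refine mul_le_mul_of_nonneg_left ?_ (by positivity)
      nlinarith [sq_nonneg A]
    linarith

lemma bd_pen (Rs J : ℕ) (I : ℕ → Finset ℕ) (t : ℝ) : bd Rs J I t = ∑ i ∈ range J, pen Rs J i (zz I t) := by
  unfold bd
  refine sum_congr rfl fun i hi => ?_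
  unfold pen
  rw [if_pos (mem_range.mp hi)]

lemma TT_compact (S : Finset ℕ) : IsCompact (TT S) := by
  have : TT S = Set.pi Set.univ fun _ => Metric.sphere (0:ℂ) 1 := by
    ext z
    simp [TT, Set.mem_pi]
  rw [this]
  exact isCompact_univ_pi fun _ => isCompact_sphere _ _

set_option maxHeartbeats 4000000 in
/-- the integrated pointwise inequality -/
lemma int_key2 {n Rs J : ℕ} {I : ℕ → Finset ℕ} {S : Finset ℕ} (hS : ∀ p ∈ S, p.Prime)
    (hI : ∀ i, ∀ p ∈ I i, p.Prime) (hn : 1 ≤ n) (hRs : 1 ≤ Rs) {κ : ℕ} {T : ℝ} (hδ' : 0 < (κ:ℝ) / T)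
    {α lam δ ε : ℝ} (hα : 0 < α) (hαn : |α| + 1 ≤ n) (hlam : 0 < lam) (hδ : 0 < δ) (hε : 0 ≤ ε)
    {F : (S → ℂ) → ℝ} (hF : ContinuousOn F (TT S)) (hF0 : ∀ z ∈ TT S, 0 ≤ F z)
    {g : DA} (hgS : g ∈ SA (MI S)) (hgF : ∀ t, F (ph S t) + ε ≤ (ev t g).re)
    {q : ℝ → ℂ} (hqF : ∀ t, ‖q t - F (ph S t)‖ ≤ ε) :
    ‖∫ t in Set.Ioi (0:ℝ), ((om κ (κ / T) t : ℝ) : ℂ) * (riemannZeta (cl t) *
          ((es S (ph S t) * q t) * (AZ n Rs J (α - 1) (zz I t) * starRingEnd ℂ (AZ n Rs J α (zz I t)))))‖ ≤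
      4 * δ ^ (-(1 + 2 * α)) * (∫ t in Set.Ioi (0:ℝ), om κ (κ / T) t *
        ((Xz t * ‖es S (ph S t)‖) ^ (2 * α) * (F (ph S t) + ε))) +
      (16 * δ + lam / 2) * (∫ t in Set.Ioi (0:ℝ), wz κ T t * (‖AZ n Rs J (α - 1) (zz I t)‖ ^ 2 *
        (ev t (EE S * EC S * g)).re)) +
      16 * δ * (∫ t in Set.Ioi (0:ℝ), om κ (κ / T) t * (‖AZ n Rs J α (zz I t)‖ ^ 2 * (ev t g).re)) +
      1 / (2 * lam) * (∑ i ∈ range J, ∫ t in Set.Ioi (0:ℝ), om κ (κ / T) t * (pen Rs J i (zz I t) *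
        (‖AZ n Rs J α (zz I t)‖ ^ 2 * (ev t g).re))) := by
  classical
  obtain ⟨hP1, hP2⟩ := Pool.Agent.TH126.LK_PT.t_PT
  have hhc : Continuous hh := by unfold hh; fun_prop
  obtain ⟨cA, -, cz, Bk, hBk⟩ := hP1 n Rs J I α 0 hh hI hhc
  obtain ⟨cA', -, -, Bm, hBm⟩ := hP1 n Rs J I (α - 1) 0 hh hI hhc
  obtain ⟨Ng, hNg1, hNg⟩ := Bd_ex hgS
  have hg'S : EE S * EC S * g ∈ SA (MI S) := Subalgebra.mul_mem _ (Subalgebra.mul_mem _ (EE_mem hS) (EC_mem hS)) hgS
  obtain ⟨Ng', hNg1', hNg'⟩ := Bd_ex hg'S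
  have cg : Continuous fun t => (ev t g).re := ev_re_cont hNg
  have cg' : Continuous fun t => (ev t (EE S * EC S * g)).re := ev_re_cont hNg'
  have cF : Continuous fun t => F (ph S t) := hF.comp_continuous (ph_cont hS) (ph_mem hS)
  have cE : Continuous fun t => ‖es S (ph S t)‖ := (es_cont.comp (ph_cont hS)).norm
  have hgp : ∀ t, 0 ≤ (ev t g).re := fun t => by
    have := hF0 _ (ph_mem hS t)
    have := hgF t
    linarith
  obtain ⟨BF', hBF'⟩ := (TT_compact S).exists_bound_of_continuousOn hF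
  obtain ⟨BE', hBE'⟩ := (TT_compact S).exists_bound_of_continuousOn (es_cont (S := S)).norm.continuousOn
  have hBF : ∀ t, F (ph S t) ≤ |BF'| := fun t => (le_abs_self _).trans ((hBF' _ (ph_mem hS t)).trans (le_abs_self _))
  have hBE : ∀ t, ‖es S (ph S t)‖ ≤ |BE'| := fun t => by
    have := hBE' _ (ph_mem hS t)
    rw [norm_norm] at this
    exact this.trans (le_abs_self _)
  -- integrability
  have iom : IntegrableOn (fun t => om κ (κ / T) t) (Set.Ioi 0) := om_int0 _ hδ'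
  have iF : ∀ {F : ℝ → ℝ} {C : ℝ}, Continuous F → (∀ t, |F t| ≤ C) →
      IntegrableOn (fun t => om κ (κ / T) t * F t) (Set.Ioi 0) := by
    intro F C hF hC
    refine iom.mul_bdd (c := C) hF.aestronglyMeasurable (Eventually.of_forall fun t => ?_)
    rw [Real.norm_eq_abs]; exact hC t
  have j1 : IntegrableOn (fun t => wz κ T t * (‖AZ n Rs J (α - 1) (zz I t)‖ ^ 2 *
        (ev t (EE S * EC S * g)).re)) (Set.Ioi 0) :=
    wz_int κ hδ' ((cA'.norm.pow 2).mul cg') (C := |Bm| ^ 2 * l1 (EE S * EC S * g)) fun t => by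
      rw [abs_mul, abs_of_nonneg (sq_nonneg ‖_‖)]
      refine mul_le_mul ?_ (ev_re_le hNg' t) (abs_nonneg _) (by positivity)
      exact pow_le_pow_left₀ (norm_nonneg _) ((hBm t).1.trans (le_abs_self _)) 2
  have j4 : IntegrableOn (fun t => om κ (κ / T) t * (‖AZ n Rs J α (zz I t)‖ ^ 2 * (ev t g).re)) (Set.Ioi 0) :=
    iF ((cA.norm.pow 2).mul cg) (C := |Bk| ^ 2 * l1 g) fun t => by
      rw [abs_mul, abs_of_nonneg (sq_nonneg ‖_‖)]
      refine mul_le_mul ?_ (ev_re_le hNg t) (abs_nonneg _) (by positivity)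
      exact pow_le_pow_left₀ (norm_nonneg _) ((hBk t).1.trans (le_abs_self _)) 2
  have j2 : ∀ i ∈ range J, IntegrableOn (fun t => om κ (κ / T) t * (pen Rs J i (zz I t) *
        (‖AZ n Rs J α (zz I t)‖ ^ 2 * (ev t g).re))) (Set.Ioi 0) := by
    intro i hi
    have hi' := mem_range.mp hi
    have cp : Continuous fun t => pen Rs J i (zz I t) := by
      unfold pen
      simp only [hi', if_true]
      exact ((cz i).norm.div_const _).pow _
    refine iF (cp.mul ((cA.norm.pow 2).mul cg))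
      (C := (|Bk| / RR Rs i) ^ (2 * RR Rs i) * (|Bk| ^ 2 * l1 g)) fun t => ?_
    rw [abs_mul, abs_mul, abs_of_nonneg (sq_nonneg ‖_‖), abs_of_nonneg (pen_nonneg _ _ _ _)]
    refine mul_le_mul ?_ ?_ (by positivity) (by positivity)
    · unfold pen
      simp only [hi', if_true]
      have h2 := ((hBk t).2.2 i hi').trans (le_abs_self Bk)
      gcongr
    · refine mul_le_mul ?_ (ev_re_le hNg t) (abs_nonneg _) (by positivity)
      exact pow_le_pow_left₀ (norm_nonneg _) ((hBk t).1.trans (le_abs_self _)) 2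
  obtain ⟨m, hm⟩ := exists_nat_ge (2 * α)
  have hfg : ∀ t, 0 ≤ t → (Xz t * ‖es S (ph S t)‖) ^ (2 * α) * (F (ph S t) + ε) ≤
      ((24 * (|BE'| + 1)) ^ m * (|BF'| + ε)) * (1 + t) ^ (2 * m) := by
    intro t ht
    have h1 : Xz t * ‖es S (ph S t)‖ ≤ 24 * (|BE'| + 1) * (1 + t) ^ 2 := by
      calc Xz t * ‖es S (ph S t)‖ ≤ (24 * (1 + t) ^ 2) * (|BE'| + 1) :=
            mul_le_mul (Xz_le ht) ((hBE t).trans (by linarith)) (norm_nonneg _) (by positivity)
        _ = _ := by ring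
    have h2 : 1 ≤ 24 * (|BE'| + 1) * (1 + t) ^ 2 := by
      have h3 : (1:ℝ) ≤ (1 + t) ^ 2 := one_le_pow₀ (by linarith)
      have h4 : (1:ℝ) ≤ 24 * (|BE'| + 1) := by have := abs_nonneg BE'; linarith
      calc (1:ℝ) = 1 * 1 := (one_mul 1).symm
        _ ≤ _ := mul_le_mul h4 h3 zero_le_one (by linarith)
    have h5 : (Xz t * ‖es S (ph S t)‖) ^ (2 * α) ≤ (24 * (|BE'| + 1) * (1 + t) ^ 2) ^ m := by
      calc (Xz t * ‖es S (ph S t)‖) ^ (2 * α) ≤ (24 * (|BE'| + 1) * (1 + t) ^ 2) ^ (2 * α) :=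
            Real.rpow_le_rpow (mul_nonneg (Xz_nonneg t) (norm_nonneg _)) h1 (by positivity)
        _ ≤ (24 * (|BE'| + 1) * (1 + t) ^ 2) ^ (m : ℝ) := Real.rpow_le_rpow_of_exponent_le h2 hm
        _ = _ := Real.rpow_natCast _ _
    have hF1 : 0 ≤ F (ph S t) + ε := add_nonneg (hF0 _ (ph_mem hS t)) hε
    calc _ ≤ (24 * (|BE'| + 1) * (1 + t) ^ 2) ^ m * (|BF'| + ε) :=
          mul_le_mul h5 (by linarith [hBF t]) hF1 (by positivity)
      _ = _ := by rw [mul_pow, ← pow_mul]; ring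
  have cX : Continuous fun t => Xz t := Xz_cont
  have cf : Continuous fun t => (Xz t * ‖es S (ph S t)‖) ^ (2 * α) * (F (ph S t) + ε) :=
    ((cX.mul cE).rpow_const fun _ => Or.inr (by positivity)).mul (cF.add continuous_const)
  have j0 : IntegrableOn (fun t => om κ (κ / T) t * ((Xz t * ‖es S (ph S t)‖) ^ (2 * α) * (F (ph S t) + ε)))
      (Set.Ioi 0) := om_poly_int hδ' cf (2 * m) fun t ht => by
    rw [abs_of_nonneg (mul_nonneg (Real.rpow_nonneg (mul_nonneg (Xz_nonneg t) (norm_nonneg _)) _)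
      (add_nonneg (hF0 _ (ph_mem hS t)) hε))]
    exact hfg t ht
  set M := δ ^ (-(1 + 2 * α)) with hM
  -- pointwise
  have hpt : ∀ t ∈ Set.Ioi (0:ℝ), ‖((om κ (κ / T) t : ℝ) : ℂ) * (riemannZeta (cl t) *
          ((es S (ph S t) * q t) * (AZ n Rs J (α - 1) (zz I t) * starRingEnd ℂ (AZ n Rs J α (zz I t)))))‖ ≤
      4 * M * (om κ (κ / T) t * ((Xz t * ‖es S (ph S t)‖) ^ (2 * α) * (F (ph S t) + ε))) +
      (16 * δ + lam / 2) * (wz κ T t * (‖AZ n Rs J (α - 1) (zz I t)‖ ^ 2 * (ev t (EE S * EC S * g)).re)) +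
      16 * δ * (om κ (κ / T) t * (‖AZ n Rs J α (zz I t)‖ ^ 2 * (ev t g).re)) +
      1 / (2 * lam) * (∑ i ∈ range J, om κ (κ / T) t * (pen Rs J i (zz I t) *
        (‖AZ n Rs J α (zz I t)‖ ^ 2 * (ev t g).re))) := by
    intro t ht
    have hom : 0 ≤ om κ (κ / T) t := om_nn κ hδ' (le_of_lt ht)
    have hαn1 : |α| ≤ n := by linarith
    have hαn2 : |α - 1| ≤ n := (abs_sub _ _).trans (by simpa using hαn)
    set A := ‖AZ n Rs J α (zz I t)‖ with hA
    set A' := ‖AZ n Rs J (α - 1) (zz I t)‖ with hA'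
    set X := Xz t * ‖es S (ph S t)‖ with hX
    have hX0 : 0 ≤ X := mul_nonneg (Xz_nonneg t) (norm_nonneg _)
    have h1 := pw2 (X := X) (A := A) (A' := A') hX0 (norm_nonneg _) (norm_nonneg _) (x := xx I J t)
      (α := α) hα hlam hδ (bd_nonneg Rs J I t) (good := gd Rs J I t) (fun h => bd_one hRs h) (fun hg => by
        obtain ⟨ha, _⟩ := hP2 n Rs J (zz I t) hn hRs hg
        have b1 := ha α hαn1
        have b2 := ha (α - 1) hαn2
        exact ⟨b1.1, b1.2, b2.1, b2.2⟩)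
    have hq : ‖q t‖ ≤ F (ph S t) + ε := by
      have h2 := norm_le_norm_add_norm_sub' (q t) ((F (ph S t) : ℝ) : ℂ)
      rw [Complex.norm_real, Real.norm_eq_abs, abs_of_nonneg (hF0 _ (ph_mem hS t))] at h2
      have := hqF t
      linarith
    have hFε : 0 ≤ F (ph S t) + ε := add_nonneg (hF0 _ (ph_mem hS t)) hε
    set Q := (ev t g).re with hQ
    have hQ0 : 0 ≤ Q := hgp t
    have e1 : ‖((om κ (κ / T) t : ℝ) : ℂ) * (riemannZeta (cl t) *
          ((es S (ph S t) * q t) * (AZ n Rs J (α - 1) (zz I t) * starRingEnd ℂ (AZ n Rs J α (zz I t)))))‖ =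
        om κ (κ / T) t * ((X * (A * A')) * ‖q t‖) := by
      rw [norm_mul, norm_mul, norm_mul, norm_mul, norm_mul, RCLike.norm_conj, Complex.norm_real,
        Real.norm_of_nonneg hom, hX, hA, hA']
      unfold Xz; ring
    have e2 : (ev t (EE S * EC S * g)).re = ‖es S (ph S t)‖ ^ 2 * Q := ev_EEC hS t g
    have e3 : wz κ T t = om κ (κ / T) t * Xz t ^ 2 := rfl
    rw [e1, e2, e3]
    have h3 : (X * (A * A')) * ‖q t‖ ≤ (X * (A * A')) * (F (ph S t) + ε) :=
      mul_le_mul_of_nonneg_left hq (by positivity)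
    have h4 : (X * (A * A')) * (F (ph S t) + ε) ≤ 4 * M * (X ^ (2 * α) * (F (ph S t) + ε)) +
        ((16 * δ + lam / 2) * (X ^ 2 * A' ^ 2) + 16 * δ * A ^ 2 +
          1 / (2 * lam) * (bd Rs J I t * A ^ 2)) * (F (ph S t) + ε) := by
      have := mul_le_mul_of_nonneg_right h1 hFε
      linarith
    have h5 : ((16 * δ + lam / 2) * (X ^ 2 * A' ^ 2) + 16 * δ * A ^ 2 +
          1 / (2 * lam) * (bd Rs J I t * A ^ 2)) * (F (ph S t) + ε) ≤
        ((16 * δ + lam / 2) * (X ^ 2 * A' ^ 2) + 16 * δ * A ^ 2 +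
          1 / (2 * lam) * (bd Rs J I t * A ^ 2)) * Q := by
      refine mul_le_mul_of_nonneg_left (hgF t) ?_
      have := bd_nonneg Rs J I t
      positivity
    have h6 := mul_le_mul_of_nonneg_left (h3.trans (h4.trans (add_le_add_right h5 _))) hom
    refine h6.trans (le_of_eq ?_)
    rw [← mul_sum, ← sum_mul, ← bd_pen, hX]
    ring
  refine (norm_integral_le_integral_norm _).trans ?_
  have i1 := j0.const_mul (4 * M)
  have i2 := j1.const_mul (16 * δ + lam / 2)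
  have i3 := j4.const_mul (16 * δ)
  have i4 := (integrable_finsetSum _ j2).const_mul (1 / (2 * lam))
  have hle := integral_mono_of_nonneg (μ := volume.restrict (Set.Ioi (0:ℝ)))
    (Eventually.of_forall fun t => norm_nonneg _) (((i1.add i2).add i3).add i4)
    ((ae_restrict_iff' measurableSet_Ioi).mpr (Eventually.of_forall fun t ht => by
      simpa only [Pi.add_apply] using hpt t ht))
  refine hle.trans (le_of_eq ?_)
  rw [integral_add' ((i1.add i2).add i3) i4, integral_add' (i1.add i2) i3, integral_add' i1 i2,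
    integral_const_mul, integral_const_mul, integral_const_mul, integral_const_mul, integral_finsetSum _ j2]

end

end Pool.Agent.KS6_89.PP
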