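import Pool.Agent.KS6_89.PP.Low2

set_option autoImplicit false

/-! The lower bound in the smooth windows, final form (project PP). -/

namespace Pool.Agent.KS6_89.PP

open Finset Filter Topology MeasureTheory Complex MonoidAlgebra
open Pool.Agent.W184.NZ
open Pool.Agent.TH806 Pool.Agent.TH806.LK
open Pool.Agent.TH112.LKC (GG GG_PB exp_RR_le VV_nonneg)
open Pool.Agent.H306R2.SM (om cl Yf)
open Pool.Agent.H262R4.TM (Rng Ck)

noncomputable section

lemma E0_add {S : Finset ℕ} {F G : (S → ℂ) → ℝ} (hF : ContinuousOn F (TT S)) (hG : ContinuousOn G (TT S)) :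
    E0 S (fun z => F z + G z) = E0 S F + E0 S G := by
  unfold E0
  exact integral_add (cube_int hF) (cube_int hG)

lemma E0_const {S : Finset ℕ} (c : ℝ) : E0 S (fun _ => c) = c := by
  unfold E0
  simp

lemma conj_cont {S : Finset ℕ} {F : (S → ℂ) → ℝ} (hF : ContinuousOn F (TT S)) :
    ContinuousOn (fun z => F (fun p => starRingEnd ℂ (z p))) (TT S) := by
  refine hF.comp (t := TT S) ?_ fun z hz => conj_mem hz
  exact (continuous_pi fun p => Complex.continuous_conj.comp (continuous_apply p)).continuousOn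

lemma conj_conj_fun {S : Finset ℕ} (z : S → ℂ) :
    (fun p => starRingEnd ℂ ((fun q => starRingEnd ℂ (z q)) p)) = z := by
  funext p; simp

/-- the even majorant -/
theorem maj_ex {S : Finset ℕ} (hS : ∀ p ∈ S, p.Prime) {F : (S → ℂ) → ℝ} (hF : ContinuousOn F (TT S))
    (hF0 : ∀ z ∈ TT S, 0 ≤ F z) {ε : ℝ} (hε : 0 < ε) :
    ∃ g : DA, g ∈ SA (MI S) ∧ (∀ t, F (ph S t) + ε ≤ (ev t g).re) ∧
      lam w1 (EE S * EC S * g) = (∏ p ∈ S, (1 - 1 / (p:ℝ))) * lam w0 g ∧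
      2 * E0 S F + ε ≤ lam w0 g ∧ lam w0 g ≤ 2 * E0 S F + 3 * ε := by
  have hFc := conj_cont hF
  set F' : (S → ℂ) → ℝ := fun z => (F z + F (fun p => starRingEnd ℂ (z p))) + 2 * ε with hF'
  have hcont : ContinuousOn F' (TT S) := (hF.add hFc).add continuousOn_const
  obtain ⟨g, hg⟩ := apxR hS hcont (fun z _ => by
    simp only [hF', conj_conj_fun]; ring) hε
  have hE : (∫ θ in Set.Icc (0 : S → ℝ) 1, F' (ee S θ)) = 2 * E0 S F + 2 * ε := by
    have h1 := E0_add (S := S) (hF.add hFc) (G := fun _ => 2 * ε) continuousOn_const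
    have h2 := E0_add (S := S) hF hFc
    rw [E0_conj] at h2
    rw [E0_const] at h1
    have h3 : E0 S (fun z => (fun z => F z + F (fun p => starRingEnd ℂ (z p))) z) = E0 S F + E0 S F := h2
    change E0 S F' = _
    have h4 : E0 S F' = E0 S (fun z => F z + F (fun p => starRingEnd ℂ (z p))) + 2 * ε := h1
    rw [h4, h2]; ring
  have hm0 := hg.m0
  rw [hE, abs_le] at hm0
  refine ⟨g, hg.mem, fun t => ?_, hg.m1, by linarith [hm0.1], by linarith [hm0.2]⟩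
  have h1 := abs_le.mp (hg.app t)
  have h2 : F' (ph S t) = (F (ph S t) + F (fun p => starRingEnd ℂ (ph S t p))) + 2 * ε := rfl
  have h3 := hF0 _ (conj_mem (ph_mem hS t))
  linarith [h1.1]

set_option maxHeartbeats 4000000 in
theorem low_smooth {α : ℝ} (hα : 0 < α) : ∃ c₀ : ℝ, 0 < c₀ ∧ ∀ (S : Finset ℕ), (∀ p ∈ S, p.Prime) →
    ∀ F : (S → ℂ) → ℝ, ContinuousOn F (TT S) → (∀ z ∈ TT S, 0 ≤ F z) → 0 < E0 S F →
    ∀ ε : ℝ, 0 < ε → ε ≤ E0 S F / 8 → ∀ᶠ T : ℝ in atTop, ∀ κ : ℕ, Rng T κ →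
      c₀ * (NT α S T * E0 S F) ≤ ∫ t in Set.Ioi (0:ℝ), om κ (κ / T) t *
        ((Xz t * ‖es S (ph S t)‖) ^ (2 * α) * (F (ph S t) + ε)) := by
  classical
  set n : ℕ := ⌈α⌉₊ + 1 with hn
  have hn1 : 1 ≤ n := by omega
  have hαn : |α| + 1 ≤ n := by
    rw [abs_of_pos hα, hn]; push_cast
    linarith [Nat.le_ceil α]
  have hαn1 : |α| ≤ n := by linarith
  have hαn2 : |α - 1| ≤ n := (abs_sub _ _).trans (by simpa using hαn)
  have hn0 : (1:ℝ) ≤ n := by exact_mod_cast hn1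
  obtain ⟨c, hc, hcfg⟩ := cfg_ex
  obtain ⟨P₁, C₁, hC₁, H0⟩ := m0 n c hn1 hc
  obtain ⟨P₂, C₂, η, hC₂, hη, hη1, H2⟩ := m2 n c hn1 hc
  obtain ⟨P₃, R₃, e₃, he₃, he₃1, H1⟩ := m1 n c hn1 hc
  obtain ⟨P₄, hP₄⟩ := hcfg e₃ he₃
  set P := P₁ + P₂ + P₃ + P₄ with hP
  set CV : ℝ := c + (P + 144) with hCV
  have hCV0 : 0 < CV := by positivity
  obtain ⟨Rs, hR3, hRs, hRsK⟩ := LK.Rs_ex (32 * 144 * C₁ * C₂ * Real.exp CV * n / η) R₃
  have hRs0 : (0:ℝ) < (Rs:ℝ) + 1 := by positivity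
  set cc : ℝ := η / (n * (Rs + 1)) with hcc
  have hcc0 : 0 < cc := by positivity
  set Λ : ℝ := Real.exp CV / cc with hΛ
  have hΛ0 : 0 < Λ := by positivity
  set lam' : ℝ := 1 / (48 * C₂ * Λ) with hlam
  have hlam0 : 0 < lam' := by positivity
  set δ : ℝ := 1 / (1536 * (C₂ * Λ + C₁)) with hδ
  have hδ0 : 0 < δ := by positivity
  set M : ℝ := δ ^ (-(1 + 2 * α)) with hM
  have hM0 : 0 < M := Real.rpow_pos_of_pos hδ0 _
  set c' : ℝ := Real.exp (-(α ^ 2 * (CV + |Real.log cc|))) with hc'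
  refine ⟨c' / (8 * M), by positivity, fun S hS F hF hF0 hE ε hε hε1 => ?_⟩
  set E := E0 S F with hEd
  obtain ⟨g, hgS, hgF, hg1, hg2, hg3⟩ := maj_ex hS hF hF0 hε
  have hgpos : 0 < lam w0 g := by linarith
  have hg3' : lam w0 g ≤ 3 * E := by linarith
  obtain ⟨hPr0, hPr1⟩ := prod_le_AS hS
  have hg'S : EE S * EC S * g ∈ SA (MI S) := Subalgebra.mul_mem _ (Subalgebra.mul_mem _ (EE_mem hS) (EC_mem hS)) hgS
  have hg'pos : 0 < lam w1 (EE S * EC S * g) := by rw [hg1]; positivity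
  obtain ⟨K, ck, hq1, hq2⟩ := apxF hS hF hε
  obtain ⟨N, L, hst⟩ := exw_start (w := wF) (S := S) K ck (fun k => EE S * MZ k)
    (fun k _ => Subalgebra.mul_mem _ (EE_mem hS) (MZ_mem hS k))
  set A : ℂ := ∑ k ∈ K, ck k * ((lam wF (EE S * MZ k) : ℝ) : ℂ) with hA
  have hA1 : 7 / 8 * E ≤ ‖A‖ := by
    have h1 := norm_sub_norm_le ((E : ℝ) : ℂ) A
    rw [norm_sub_rev, Complex.norm_real, Real.norm_of_nonneg hE.le] at h1
    have h2 : ‖A - ((E : ℝ) : ℂ)‖ ≤ ε := hq2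
    linarith
  have hev : ∀ t, (∑ k ∈ K, ck k * ev t (EE S * MZ k)) = es S (ph S t) * ∑ k ∈ K, ck k * ev t (MZ k) := by
    intro t
    rw [mul_sum]
    refine sum_congr rfl fun k _ => ?_
    rw [map_mul, ev_EE hS]; ring
  have hy : ∀ᶠ T : ℝ in atTop, 144 ≤ Real.exp (cc * Real.log T) ∧ ∀ p ∈ S, (p:ℝ) ≤ Real.exp (cc * Real.log T) := by
    have h5 : Tendsto (fun T : ℝ => Real.exp (cc * Real.log T)) atTop atTop :=
      Real.tendsto_exp_atTop.comp (Real.tendsto_log_atTop.const_mul_atTop hcc0)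
    have h6 : ∀ᶠ T : ℝ in atTop, ∀ p ∈ S, (p:ℝ) ≤ Real.exp (cc * Real.log T) := by
      rw [eventually_all_finset]
      exact fun p _ => h5.eventually_ge_atTop _
    exact (h5.eventually_ge_atTop 144).and h6
  have hs1 : ∀ᶠ T : ℝ in atTop, T ^ (-(1 / 2) : ℝ) ≤ E / 32 :=
    (tendsto_rpow_neg_atTop (by norm_num : (0:ℝ) < 1 / 2)).eventually_le_const (by positivity)
  have hs2 : ∀ᶠ T : ℝ in atTop, (16 * δ + lam' / 2) * T ^ (-η) ≤ E / 32 := by
    have h5 : Tendsto (fun T : ℝ => (16 * δ + lam' / 2) * T ^ (-η)) atTop (𝓝 ((16 * δ + lam' / 2) * 0)) :=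
      (tendsto_rpow_neg_atTop hη).const_mul _
    rw [mul_zero] at h5
    exact h5.eventually_le_const (by positivity)
  filter_upwards [H0 Rs hRs S g hgS hgpos, H2 Rs hRs S _ hg'S hg'pos, H1 Rs hR3 hRs S N L _ A hst, hy, hs1, hs2,
    eventually_gt_atTop (3:ℝ), Real.tendsto_log_atTop.eventually_ge_atTop 1] with
    T H0 H2 H1 hy hs1 hs2 hT3 hL1 κ hκ
  have hT0 : 0 < T := by linarith
  have hL0 : 0 < Real.log T := by linarith
  have hκ0 : (0:ℝ) < κ := lt_of_lt_of_le (by positivity) hκ.1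
  have hκT : 0 < (κ:ℝ) / T := by positivity
  obtain ⟨hy1, hy2⟩ := hy
  set y := Real.exp (cc * Real.log T) with hyd
  have hlogy : Real.log y = cc * Real.log T := Real.log_exp _
  obtain ⟨J, hRg, hU, hPI, hV⟩ := hP₄ P (by omega) S hS y hy1 hy2
  set I := IB P S y with hI
  have hCon : Con n Rs c P e₃ S η T y J I :=
    ⟨hRg, hU, hPI, fun i => IB_disj i, hy1, by rw [hlogy, hcc]; apply le_of_eq; field_simp⟩
  have hVV : VV I J = ∑ i ∈ range J, vI (I i) := rfl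
  rw [← hVV, hlogy, Real.log_mul hcc0.ne' hL0.ne'] at hV
  set V := VV I J with hVd
  have hV0 : 0 ≤ V := VV_nonneg I J
  obtain ⟨hV1, hV2⟩ := abs_le.mp hV
  have hIp : ∀ i, ∀ p ∈ I i, p.Prime := fun i p hp => (hRg.pr i p hp).1
  have r0 := (H0 κ hκ y J I (hCon.mono (by omega) he₃1 hη1 hL0.le) α hαn1)
  have r2 := H2 κ hκ y J I (hCon.mono (by omega) he₃1 le_rfl hL0.le) (α - 1) hαn2
  have r1 := H1 κ hκ y J I (hCon.mono (by omega) le_rfl hη1 hL0.le) α hαn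
  simp_rw [hev] at r1
  have key := int_key2 (n := n) (Rs := Rs) (J := J) (I := I) hS hIp hn1 hRs hκT hα hαn hlam0 hδ0 hε.le hF hF0
    hgS hgF hq1
  set Int := ∫ t in Set.Ioi (0:ℝ), om κ (κ / T) t * ((Xz t * ‖es S (ph S t)‖) ^ (2 * α) * (F (ph S t) + ε)) with hInt
  rw [← hM] at key
  set W := Real.exp (α ^ 2 * V) * E with hW
  have hE1 : 1 ≤ Real.exp (α ^ 2 * V) := Real.one_le_exp (by positivity)
  have hEW : E ≤ W := by rw [hW]; nlinarith
  have hW0 : 0 < W := by linarith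
  -- the second moment
  have s2 : ∫ t in Set.Ioi (0:ℝ), wz κ T t * (‖AZ n Rs J (α - 1) (zz I t)‖ ^ 2 * (ev t (EE S * EC S * g)).re) ≤
      3 * (C₂ * Λ * W) + T ^ (-η) := by
    refine r2.trans (add_le_add_left ?_ _)
    have e1 : Real.exp ((2 * (α - 1) + (α - 1) ^ 2) * V) = Real.exp (-V) * Real.exp (α ^ 2 * V) := by
      rw [← Real.exp_add]; congr 1; ring
    have e2 : Real.log T * (Real.exp (-V) * ∏ p ∈ S, (1 - 1 / (p:ℝ))) ≤ Λ := by
      have h2 : Real.exp (-V) ≤ Real.exp CV * Real.exp (AS S) * (Real.exp (-(Real.log cc + Real.log (Real.log T)))) := by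
        rw [← Real.exp_add, ← Real.exp_add]
        apply Real.exp_le_exp.mpr
        linarith
      have h3 : Real.exp (-(Real.log cc + Real.log (Real.log T))) = (cc * Real.log T)⁻¹ := by
        rw [Real.exp_neg, Real.exp_add, Real.exp_log hcc0, Real.exp_log hL0]
      rw [h3] at h2
      calc Real.log T * (Real.exp (-V) * ∏ p ∈ S, (1 - 1 / (p:ℝ))) ≤
          Real.log T * ((Real.exp CV * Real.exp (AS S) * (cc * Real.log T)⁻¹) * Real.exp (-AS S)) := by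
            gcongr
        _ = Real.exp CV / cc * (Real.exp (AS S) * Real.exp (-AS S)) := by field_simp
        _ = Λ := by rw [← Real.exp_add, add_neg_cancel, Real.exp_zero, mul_one]
    rw [e1, hg1]
    calc C₂ * (Real.log T * (Real.exp (-V) * Real.exp (α ^ 2 * V)) * ((∏ p ∈ S, (1 - 1 / (p:ℝ))) * lam w0 g)) =
        C₂ * ((Real.log T * (Real.exp (-V) * ∏ p ∈ S, (1 - 1 / (p:ℝ)))) * (Real.exp (α ^ 2 * V) * lam w0 g)) := by ring
      _ ≤ C₂ * (Λ * (Real.exp (α ^ 2 * V) * (3 * E))) := by gcongr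
      _ = 3 * (C₂ * Λ * W) := by rw [hW]; ring
  have s0 : ∫ t in Set.Ioi (0:ℝ), om κ (κ / T) t * (‖AZ n Rs J α (zz I t)‖ ^ 2 * (ev t g).re) ≤ 3 * (C₁ * W) := by
    refine r0.1.trans ?_
    calc C₁ * (Real.exp (α ^ 2 * V) * lam w0 g) ≤ C₁ * (Real.exp (α ^ 2 * V) * (3 * E)) := by gcongr
      _ = _ := by rw [hW]; ring
  have s3 : ∑ i ∈ range J, ∫ t in Set.Ioi (0:ℝ), om κ (κ / T) t * (pen Rs J i (zz I t) *
        (‖AZ n Rs J α (zz I t)‖ ^ 2 * (ev t g).re)) ≤ 6 * (C₁ * Real.exp (-(Rs:ℝ)) * W) := by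
    refine (sum_le_sum fun i hi => r0.2 i (mem_range.mp hi)).trans ?_
    rw [← sum_mul, ← mul_sum]
    have h6 := sum_exp_le J Rs (RR_ge Rs)
    calc C₁ * (∑ i ∈ range J, Real.exp (-(RR Rs i : ℝ))) * (Real.exp (α ^ 2 * V) * lam w0 g) ≤
        C₁ * (2 * Real.exp (-(Rs:ℝ))) * (Real.exp (α ^ 2 * V) * (3 * E)) := by gcongr
      _ = _ := by rw [hW]; ring
  have t0 : 21 / 32 * W - T ^ (-(1 / 2) : ℝ) ≤ 3 / 4 * Real.exp (α ^ 2 * V) * ‖A‖ - T ^ (-(1 / 2) : ℝ) := by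
    refine sub_le_sub_right ?_ _
    calc 21 / 32 * W = 3 / 4 * Real.exp (α ^ 2 * V) * (7 / 8 * E) := by rw [hW]; ring
      _ ≤ _ := by gcongr
  have t2 : (16 * δ + lam' / 2) * (∫ t in Set.Ioi (0:ℝ), wz κ T t * (‖AZ n Rs J (α - 1) (zz I t)‖ ^ 2 *
        (ev t (EE S * EC S * g)).re)) ≤ 48 * δ * (C₂ * Λ) * W + W / 32 + E / 32 := by
    calc _ ≤ (16 * δ + lam' / 2) * (3 * (C₂ * Λ * W) + T ^ (-η)) := mul_le_mul_of_nonneg_left s2 (by positivity)
      _ = 48 * δ * (C₂ * Λ) * W + (lam' / 2) * (3 * (C₂ * Λ * W)) + (16 * δ + lam' / 2) * T ^ (-η) := by ring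
      _ = 48 * δ * (C₂ * Λ) * W + W / 32 + (16 * δ + lam' / 2) * T ^ (-η) := by
          rw [hlam]; field_simp; ring
      _ ≤ _ := by linarith
  have t3 : 16 * δ * (∫ t in Set.Ioi (0:ℝ), om κ (κ / T) t * (‖AZ n Rs J α (zz I t)‖ ^ 2 * (ev t g).re)) ≤
      48 * δ * C₁ * W := by
    calc _ ≤ 16 * δ * (3 * (C₁ * W)) := mul_le_mul_of_nonneg_left s0 (by positivity)
      _ = _ := by ring
  have t23 : 48 * δ * (C₂ * Λ) * W + 48 * δ * C₁ * W = W / 32 := by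
    rw [hδ]; field_simp; ring
  have t4 : 1 / (2 * lam') * (∑ i ∈ range J, ∫ t in Set.Ioi (0:ℝ), om κ (κ / T) t * (pen Rs J i (zz I t) *
        (‖AZ n Rs J α (zz I t)‖ ^ 2 * (ev t g).re))) ≤ W / 32 := by
    calc _ ≤ 1 / (2 * lam') * (6 * (C₁ * Real.exp (-(Rs:ℝ)) * W)) := mul_le_mul_of_nonneg_left s3 (by positivity)
      _ = (32 * 144 * C₁ * C₂ * Real.exp CV * n / η * ((Rs:ℝ) + 1) * Real.exp (-(Rs:ℝ))) * (W / 32) := by
          rw [hlam, hΛ, hcc]; field_simp; ring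
      _ ≤ 1 * (W / 32) := mul_le_mul_of_nonneg_right hRsK (by positivity)
      _ = _ := one_mul _
  have fin : W / 2 ≤ 4 * M * Int := by
    have h1 := r1.trans key
    linarith
  have hNT : c' * NT α S T ≤ Real.exp (α ^ 2 * V) := by
    rw [hc']; unfold NT
    rw [← Real.exp_add]
    apply Real.exp_le_exp.mpr
    have h1 := neg_abs_le (Real.log cc)
    have h2 : -(CV + |Real.log cc|) + (Real.log (Real.log T) - AS S) ≤ V := by linarith
    calc -(α ^ 2 * (CV + |Real.log cc|)) + α ^ 2 * (Real.log (Real.log T) - AS S) =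
        α ^ 2 * (-(CV + |Real.log cc|) + (Real.log (Real.log T) - AS S)) := by ring
      _ ≤ α ^ 2 * V := mul_le_mul_of_nonneg_left h2 (sq_nonneg _)
  calc c' / (8 * M) * (NT α S T * E) = (c' * NT α S T) * E / (8 * M) := by ring
    _ ≤ Real.exp (α ^ 2 * V) * E / (8 * M) := by gcongr
    _ = W / (8 * M) := by rw [hW]
    _ ≤ Int := by
        rw [div_le_iff₀ (by positivity)]
        linarith

end

end Pool.Agent.KS6_89.PP
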