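import Pool.Agent.KS6_89.PP.Low3
import Pool.Agent.KS6_89.BT.Fin2

set_option autoImplicit false

/-! The lower bound over `[0, T]` (project PP). -/

namespace Pool.Agent.KS6_89.PP

open Finset Filter Topology MeasureTheory Complex MonoidAlgebra
open Pool.Agent.W184.NZ
open Pool.Agent.TH806 Pool.Agent.TH806.LK
open Pool.Agent.KS6_89.BT (all2 FB)
open Pool.Agent.H306R2.SM (om cl Yf)
open Pool.Agent.H262R4.TM (Rng Ck)

noncomputable section

/-- the total moment -/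
theorem tot_up {α : ℝ} (hα : 0 < α) (hα2 : α < 2) : ∃ C : ℝ, 0 < C ∧ ∀ᶠ T : ℝ in atTop,
    ∫ t in (0:ℝ)..T, Xz t ^ (2 * α) ≤ C * (T * Real.exp (α ^ 2 * Real.log (Real.log T))) := by
  obtain ⟨η1, hη1, H⟩ := all2 (β := 2 * α) (by linarith) (by linarith) 0
  obtain ⟨C, hC, H⟩ := H η1 hη1 le_rfl
  refine ⟨C, hC, ?_⟩
  filter_upwards [H 0, Real.tendsto_log_atTop.eventually_ge_atTop 1] with T hT hL
  have h1 := hT (fun _ => 0) (by simp)
  have hL0 : 0 < Real.log T := by linarith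
  rw [add_zero, pow_zero, mul_one] at h1
  have e1 : Real.log T ^ ((2 * α) ^ 2 / 4) = Real.exp (α ^ 2 * Real.log (Real.log T)) := by
    rw [Real.rpow_def_of_pos hL0]; congr 1; ring
  rw [e1] at h1
  refine le_trans (le_of_eq ?_) h1
  refine intervalIntegral.integral_congr fun t _ => ?_
  simp only [FB, pow_zero, mul_one]
  rfl

lemma es_bound (S : Finset ℕ) : ∃ B : ℝ, 1 ≤ B ∧ ∀ z ∈ TT S, ‖es S z‖ ≤ B := by
  obtain ⟨BE', hBE'⟩ := (TT_compact S).exists_bound_of_continuousOn (es_cont (S := S)).norm.continuousOn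
  refine ⟨max 1 BE', le_max_left _ _, fun z hz => ?_⟩
  have := hBE' z hz
  rw [norm_norm] at this
  exact this.trans (le_max_right _ _)

lemma F_bound {S : Finset ℕ} {F : (S → ℂ) → ℝ} (hF : ContinuousOn F (TT S)) :
    ∃ B : ℝ, 0 ≤ B ∧ ∀ z ∈ TT S, F z ≤ B := by
  obtain ⟨B, hB⟩ := (TT_compact S).exists_bound_of_continuousOn hF
  refine ⟨max 0 B, le_max_left _ _, fun z hz => ?_⟩
  exact (le_abs_self _).trans ((hB z hz).trans (le_max_right _ _))

/-- the integrand -/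
def ff (α : ℝ) (S : Finset ℕ) (F : (S → ℂ) → ℝ) (t : ℝ) : ℝ :=
  (Xz t * ‖es S (ph S t)‖) ^ (2 * α) * F (ph S t)

lemma ff_nonneg {α : ℝ} {S : Finset ℕ} (hS : ∀ p ∈ S, p.Prime) {F : (S → ℂ) → ℝ} (hF0 : ∀ z ∈ TT S, 0 ≤ F z)
    (t : ℝ) : 0 ≤ ff α S F t :=
  mul_nonneg (Real.rpow_nonneg (mul_nonneg (Xz_nonneg t) (norm_nonneg _)) _) (hF0 _ (ph_mem hS t))

lemma ff_cont {α : ℝ} (hα : 0 < α) {S : Finset ℕ} (hS : ∀ p ∈ S, p.Prime) {F : (S → ℂ) → ℝ}
    (hF : ContinuousOn F (TT S)) : Continuous (ff α S F) := by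
  have cE : Continuous fun t => ‖es S (ph S t)‖ := (es_cont.comp (ph_cont hS)).norm
  have cX : Continuous fun t => Xz t := Xz_cont
  exact ((cX.mul cE).rpow_const fun _ => Or.inr (by positivity)).mul (hF.comp_continuous (ph_cont hS) (ph_mem hS))

lemma ff_poly {α : ℝ} (hα : 0 < α) {S : Finset ℕ} (hS : ∀ p ∈ S, p.Prime) {F : (S → ℂ) → ℝ}
    (hF : ContinuousOn F (TT S)) (hF0 : ∀ z ∈ TT S, 0 ≤ F z) :
    ∃ (D : ℝ) (m : ℕ), ∀ t, 0 ≤ t → ff α S F t ≤ D * (1 + t) ^ m := by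
  obtain ⟨BE, hBE1, hBE⟩ := es_bound S
  obtain ⟨BF', hBF0, hBF⟩ := F_bound hF
  obtain ⟨m, hm⟩ := exists_nat_ge (2 * α)
  refine ⟨(24 * BE) ^ m * BF', 2 * m, fun t ht => ?_⟩
  have h1 : Xz t * ‖es S (ph S t)‖ ≤ 24 * BE * (1 + t) ^ 2 := by
    calc Xz t * ‖es S (ph S t)‖ ≤ (24 * (1 + t) ^ 2) * BE :=
          mul_le_mul (Xz_le ht) (hBE _ (ph_mem hS t)) (norm_nonneg _) (by positivity)
      _ = _ := by ring
  have h2 : 1 ≤ 24 * BE * (1 + t) ^ 2 := by
    have h3 : (1:ℝ) ≤ (1 + t) ^ 2 := one_le_pow₀ (by linarith)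
    have h4 : (1:ℝ) ≤ 24 * BE := by linarith
    calc (1:ℝ) = 1 * 1 := (one_mul 1).symm
      _ ≤ _ := mul_le_mul h4 h3 zero_le_one (by linarith)
  have h5 : (Xz t * ‖es S (ph S t)‖) ^ (2 * α) ≤ (24 * BE * (1 + t) ^ 2) ^ m := by
    calc (Xz t * ‖es S (ph S t)‖) ^ (2 * α) ≤ (24 * BE * (1 + t) ^ 2) ^ (2 * α) :=
          Real.rpow_le_rpow (mul_nonneg (Xz_nonneg t) (norm_nonneg _)) h1 (by positivity)
      _ ≤ (24 * BE * (1 + t) ^ 2) ^ (m : ℝ) := Real.rpow_le_rpow_of_exponent_le h2 hm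
      _ = _ := Real.rpow_natCast _ _
  calc ff α S F t ≤ (24 * BE * (1 + t) ^ 2) ^ m * BF' :=
        mul_le_mul h5 (hBF _ (ph_mem hS t)) (hF0 _ (ph_mem hS t)) (by positivity)
    _ = _ := by rw [mul_pow, ← pow_mul]; ring

/-- comparison with the total moment -/
lemma ff_le {α : ℝ} (hα : 0 < α) {S : Finset ℕ} (hS : ∀ p ∈ S, p.Prime) {F : (S → ℂ) → ℝ}
    (hF0 : ∀ z ∈ TT S, 0 ≤ F z) {BE BF' : ℝ} (hBE0 : 0 ≤ BE) (hBE : ∀ z ∈ TT S, ‖es S z‖ ≤ BE)
    (hBF : ∀ z ∈ TT S, F z ≤ BF') (t : ℝ) : ff α S F t ≤ BE ^ (2 * α) * BF' * Xz t ^ (2 * α) := by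
  unfold ff
  rw [Real.mul_rpow (Xz_nonneg t) (norm_nonneg _)]
  have h1 : ‖es S (ph S t)‖ ^ (2 * α) ≤ BE ^ (2 * α) :=
    Real.rpow_le_rpow (norm_nonneg _) (hBE _ (ph_mem hS t)) (by positivity)
  have h2 := hBF _ (ph_mem hS t)
  have h3 := hF0 _ (ph_mem hS t)
  have h4 : 0 ≤ Xz t ^ (2 * α) := Real.rpow_nonneg (Xz_nonneg t) _
  calc Xz t ^ (2 * α) * ‖es S (ph S t)‖ ^ (2 * α) * F (ph S t) =
        ‖es S (ph S t)‖ ^ (2 * α) * F (ph S t) * Xz t ^ (2 * α) := by ring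
    _ ≤ BE ^ (2 * α) * BF' * Xz t ^ (2 * α) := by
        refine mul_le_mul_of_nonneg_right ?_ h4
        exact mul_le_mul h1 h2 h3 (Real.rpow_nonneg hBE0 _)

set_option maxHeartbeats 4000000 in
/-- the lower bound -/
theorem low_sharp {α : ℝ} (hα : 0 < α) (hα2 : α < 2) : ∃ c : ℝ, 0 < c ∧ ∀ (S : Finset ℕ),
    (∀ p ∈ S, p.Prime) → ∀ F : (S → ℂ) → ℝ, ContinuousOn F (TT S) → (∀ z ∈ TT S, 0 ≤ F z) → 0 < E0 S F →
    ∀ᶠ T : ℝ in atTop, c * (T * (NT α S T * E0 S F)) ≤ ∫ t in (0:ℝ)..T, ff α S F t := by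
  obtain ⟨c₀, hc₀, H⟩ := low_smooth hα
  obtain ⟨C', hC', Htot⟩ := tot_up hα hα2
  set d : ℝ := c₀ * Real.exp (-(α ^ 2 * Real.log 2)) with hd
  have hd0 : 0 < d := by positivity
  refine ⟨d / 8, by positivity, fun S hS F hF hF0 hE => ?_⟩
  set E := E0 S F with hEd
  obtain ⟨BE, hBE1, hBE⟩ := es_bound S
  have hBE0 : 0 < BE := by linarith
  set Q : ℝ := BE ^ (2 * α) * C' * Real.exp (α ^ 2 * AS S) with hQ
  have hQ0 : 0 < Q := by positivity
  set ε : ℝ := min (E / 8) (d * E / (16 * Q)) with hε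
  have hε0 : 0 < ε := lt_min (by positivity) (by positivity)
  have hε2 : ε * Q ≤ d * E / 16 := by
    have h1 : ε ≤ d * E / (16 * Q) := min_le_right _ _
    calc ε * Q ≤ d * E / (16 * Q) * Q := mul_le_mul_of_nonneg_right h1 hQ0.le
      _ = _ := by field_simp
  have hFε : ContinuousOn (fun z => F z + ε) (TT S) := hF.add continuousOn_const
  have hFε0 : ∀ z ∈ TT S, 0 ≤ F z + ε := fun z hz => add_nonneg (hF0 z hz) hε0.le
  obtain ⟨D, m, hD⟩ := ff_poly hα hS hFε hFε0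
  have hwin := low_win (ff_cont hα hS hFε) (ff_nonneg hS hFε0) hD
  obtain ⟨T₁, hT₁⟩ := eventually_atTop.1 (H S hS F hF hF0 hE ε hε0 (min_le_left _ _))
  filter_upwards [hwin, Htot, eventually_ge_atTop (4 * T₁), eventually_ge_atTop (16:ℝ),
    Real.tendsto_log_atTop.eventually_ge_atTop 1, NT_big hα S (32 / (d * E)), eventually_ge_atTop (1:ℝ)] with
    T hwin Htot hTT hT16 hL hNT hT1
  have hT0 : 0 < T := by linarith
  have hL0 : 0 < Real.log T := by linarith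
  set N := NT α S T with hN
  have hN0 : 0 < N := NT_pos _ _ _
  have h1 := hwin (d * (N * E)) (by positivity) (fun x hx κ hκ => by
    have hx1 : T / 4 < x := hx.1
    have h2 := hT₁ x (by linarith) κ hκ
    refine le_trans ?_ h2
    have h3 : Real.exp (-(α ^ 2 * Real.log 2)) * N ≤ NT α S x := by
      rw [hN]; unfold NT
      rw [← Real.exp_add]
      apply Real.exp_le_exp.mpr
      have hx4 : √T ≤ x := by
        have : √T ≤ T / 4 := by
          rw [Real.sqrt_le_left (by positivity)]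
          nlinarith
        linarith
      have h5 : Real.log T / 2 ≤ Real.log x := by
        have h6 := Real.log_le_log (Real.sqrt_pos.mpr hT0) hx4
        rwa [Real.log_sqrt hT0.le] at h6
      have h6 : Real.log (Real.log T) - Real.log 2 ≤ Real.log (Real.log x) := by
        rw [← Real.log_div hL0.ne' (by norm_num)]
        exact Real.log_le_log (by positivity) h5
      calc -(α ^ 2 * Real.log 2) + α ^ 2 * (Real.log (Real.log T) - AS S) =
          α ^ 2 * (Real.log (Real.log T) - Real.log 2 - AS S) := by ring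
        _ ≤ α ^ 2 * (Real.log (Real.log x) - AS S) := by
            refine mul_le_mul_of_nonneg_left (by linarith) (sq_nonneg _)
    calc d * (N * E) = c₀ * ((Real.exp (-(α ^ 2 * Real.log 2)) * N) * E) := by rw [hd]; ring
      _ ≤ c₀ * (NT α S x * E) := by gcongr)
  -- separate the constant
  have cF := ff_cont hα hS hF
  have c1 := ff_cont hα hS (F := fun _ => ε) continuousOn_const
  have e1 : ∫ t in (0:ℝ)..T, ff α S (fun z => F z + ε) t =
      (∫ t in (0:ℝ)..T, ff α S F t) + ∫ t in (0:ℝ)..T, ff α S (fun _ => ε) t := by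
    rw [← intervalIntegral.integral_add (cF.intervalIntegrable _ _) (c1.intervalIntegrable _ _)]
    refine intervalIntegral.integral_congr fun t _ => ?_
    simp only [ff]; ring
  have e2 : ∫ t in (0:ℝ)..T, ff α S (fun _ => ε) t ≤ d * E / 16 * (T * N) := by
    have h2 : ∫ t in (0:ℝ)..T, ff α S (fun _ => ε) t ≤
        ∫ t in (0:ℝ)..T, BE ^ (2 * α) * ε * Xz t ^ (2 * α) := by
      refine intervalIntegral.integral_mono_on hT0.le (c1.intervalIntegrable _ _) ?_ fun t _ => ?_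
      · exact (continuous_const.mul (Xz_cont.rpow_const fun _ => Or.inr (by positivity))).intervalIntegrable _ _
      · exact ff_le hα hS (fun _ _ => hε0.le) hBE0.le hBE (fun _ _ => le_rfl) t
    rw [intervalIntegral.integral_const_mul] at h2
    have e3 : Real.exp (α ^ 2 * Real.log (Real.log T)) = Real.exp (α ^ 2 * AS S) * N := by
      rw [hN]; unfold NT
      rw [← Real.exp_add]; congr 1; ring
    rw [e3] at Htot
    calc _ ≤ _ := h2
      _ ≤ BE ^ (2 * α) * ε * (C' * (T * (Real.exp (α ^ 2 * AS S) * N))) :=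
          mul_le_mul_of_nonneg_left Htot (by positivity)
      _ = (ε * Q) * (T * N) := by rw [hQ]; ring
      _ ≤ _ := mul_le_mul_of_nonneg_right hε2 (by positivity)
  have e4 : 2 ≤ d * E / 16 * (T * N) := by
    rw [div_le_iff₀ (by positivity)] at hNT
    nlinarith [mul_pos hd0 hE, mul_pos (mul_pos hd0 hE) hN0]
  rw [e1] at h1
  calc d / 8 * (T * (N * E)) = d * (N * E) * (T / 4) - d * E / 16 * (T * N) - d * E / 16 * (T * N) := by ring
    _ ≤ _ := by linarith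

end

end Pool.Agent.KS6_89.PP
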