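import Pool.Agent.KS6_89.PP.Low3
import Pool.Graph.R_seed8.TH806.Tor8

set_option autoImplicit false

/-! Real trigonometric polynomials in the phases, evaluation on the torus (project PP). -/

namespace Pool.Agent.KS6_89.PP

open Finset MonoidAlgebra Complex MeasureTheory
open Pool.Agent.W184.NZ
open Pool.Agent.TH806 (Ix evt mt mt_apply evt_single natCast_half chi_norm chi_pow chi_one)

noncomputable section

variable {S : Finset ℕ} {N : ℕ}

/-- the phases on the torus -/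
def tz (S : Finset ℕ) (θ : Ix N → ℝ) : S → ℂ := fun p => Pool.Agent.TH806.chi θ (p : ℕ)

lemma tz_mem (θ : Ix N → ℝ) : tz S θ ∈ TT S := fun p => chi_norm θ _

lemma evt_mz {p : ℕ} (hp : p.Prime) (n : ℤ) (θ : Ix N → ℝ) :
    evt θ (mz p n) = (Pool.Agent.TH806.chi θ p) ^ n := by
  have hpR : (0:ℝ) < p := by exact_mod_cast hp.pos
  unfold mz
  rw [evt_single, mt_apply]
  set a := n.toNat with ha
  set b := (-n).toNat with hb
  have hn : n = (a : ℤ) - (b : ℤ) := by omega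
  simp only
  rw [natCast_half (pow_ne_zero a hp.ne_zero), natCast_half (pow_ne_zero b hp.ne_zero),
    chi_pow θ hp.ne_zero, chi_pow θ hp.ne_zero]
  set u := Pool.Agent.TH806.chi θ p with hu
  have hu1 : ‖u‖ = 1 := chi_norm θ p
  have hu0 : u ≠ 0 := by rw [← norm_pos_iff, hu1]; norm_num
  have e3 : (starRingEnd ℂ) u = u⁻¹ := by
    rw [Complex.inv_def, Complex.normSq_eq_norm_sq, hu1]; simp
  have e1 : ((((p : ℝ) ^ (1 / 2 : ℝ)) ^ (a + b) : ℝ) : ℂ) * ((((Real.exp (-(1 / 2) * Real.log ((p ^ a : ℕ) : ℝ)) : ℝ) : ℂ)) *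
      (((Real.exp (-(1 / 2) * Real.log ((p ^ b : ℕ) : ℝ)) : ℝ) : ℂ))) = 1 := by
    rw [← Complex.ofReal_mul, ← Complex.ofReal_mul, ← Complex.ofReal_one]
    congr 1
    rw [← Real.exp_add, ← Real.rpow_natCast, ← Real.rpow_mul hpR.le, Real.rpow_def_of_pos hpR, ← Real.exp_add]
    push_cast
    rw [Real.log_pow, Real.log_pow, Real.exp_eq_one_iff]
    ring
  have e2 : u ^ a * (starRingEnd ℂ) (u ^ b) = u ^ n := by
    rw [map_pow, e3, hn, zpow_sub₀ hu0, zpow_natCast, zpow_natCast, inv_pow, div_eq_mul_inv]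
  calc _ = (((((p : ℝ) ^ (1 / 2 : ℝ)) ^ (a + b) : ℝ) : ℂ) * ((((Real.exp (-(1 / 2) * Real.log ((p ^ a : ℕ) : ℝ)) : ℝ) : ℂ)) *
      (((Real.exp (-(1 / 2) * Real.log ((p ^ b : ℕ) : ℝ)) : ℝ) : ℂ)))) * (u ^ a * (starRingEnd ℂ) (u ^ b)) := by ring
    _ = _ := by rw [e1, e2, one_mul]

lemma evt_MZ (hS : ∀ p ∈ S, p.Prime) (k : S → ℤ) (θ : Ix N → ℝ) : evt θ (MZ k) = chi k (tz S θ) := by
  unfold MZ chi tz
  rw [map_prod, ← prod_xt k (fun p n => (Pool.Agent.TH806.chi θ p) ^ n)]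
  exact prod_congr rfl fun p hp => evt_mz (hS p hp) _ θ

lemma half_sqrt {p : ℕ} (hp : p.Prime) : (p : ℂ) ^ (-(1 / 2) : ℂ) = (((Real.sqrt p : ℝ) : ℂ))⁻¹ := by
  rw [natCast_half hp.ne_zero, ← Complex.ofReal_inv]
  congr 1
  have hpR : (0:ℝ) < p := by exact_mod_cast hp.pos
  rw [Real.sqrt_eq_rpow, ← Real.rpow_neg hpR.le, Real.rpow_def_of_pos hpR]
  congr 1; ring

lemma evt_EE (hS : ∀ p ∈ S, p.Prime) (θ : Ix N → ℝ) : evt θ (EE S) = es S (tz S θ) := by
  unfold EE es tz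
  rw [map_prod, Finset.prod_coe_sort S (fun p : ℕ => 1 - Pool.Agent.TH806.chi θ p / ((Real.sqrt p : ℝ) : ℂ))]
  refine prod_congr rfl fun p hp => ?_
  unfold EP
  rw [map_sub, map_one, evt_single, mt_apply]
  simp only [Nat.cast_one, Complex.one_cpow, mul_one, chi_one, map_one, Complex.ofReal_one, one_mul]
  rw [half_sqrt (hS p hp)]
  ring

lemma evt_EC (hS : ∀ p ∈ S, p.Prime) (θ : Ix N → ℝ) : evt θ (EC S) = starRingEnd ℂ (es S (tz S θ)) := by
  unfold EC es tz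
  rw [map_prod, map_prod, Finset.prod_coe_sort S
    (fun p : ℕ => (starRingEnd ℂ) (1 - Pool.Agent.TH806.chi θ p / ((Real.sqrt p : ℝ) : ℂ)))]
  refine prod_congr rfl fun p hp => ?_
  unfold EQ
  rw [map_sub, map_one, evt_single, mt_apply, map_sub, map_one, map_div₀, Complex.conj_ofReal]
  simp only [Nat.cast_one, Complex.one_cpow, mul_one, chi_one, map_one, Complex.ofReal_one, one_mul]
  rw [half_sqrt (hS p hp)]
  ring

lemma chi_neg (k : S → ℤ) {z : S → ℂ} (hz : z ∈ TT S) : chi (-k) z = starRingEnd ℂ (chi k z) := by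
  rw [← chi_conj]
  unfold chi
  refine prod_congr rfl fun p _ => ?_
  have e3 : (starRingEnd ℂ) (z p) = (z p)⁻¹ := by
    rw [Complex.inv_def, Complex.normSq_eq_norm_sq, hz p]; simp
  change z p ^ (-k) p = (starRingEnd ℂ (z p)) ^ k p
  rw [e3, Pi.neg_apply, inv_zpow, zpow_neg]

/-- the symmetric monomial -/
def SZ (k : S → ℤ) : DA := (1 / 2 : ℝ) • (MZ k + MZ (-k))

lemma SZ_mem (hS : ∀ p ∈ S, p.Prime) (k : S → ℤ) : SZ k ∈ SA (MI S) :=
  Subalgebra.smul_mem _ (Subalgebra.add_mem _ (MZ_mem hS k) (MZ_mem hS (-k))) _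

lemma half_re {w : ℂ} : ((1 / 2 : ℝ) : ℂ) * (w + starRingEnd ℂ w) = ((w.re : ℝ) : ℂ) := by
  rw [Complex.add_conj]; push_cast; ring

lemma ev_SZ (hS : ∀ p ∈ S, p.Prime) (k : S → ℤ) (t : ℝ) : ev t (SZ k) = (((chi k (ph S t)).re : ℝ) : ℂ) := by
  unfold SZ
  rw [map_smul, map_add, ev_MZ hS, ev_MZ hS, chi_neg k (ph_mem hS t), Complex.real_smul, half_re]

lemma evt_SZ (hS : ∀ p ∈ S, p.Prime) (k : S → ℤ) (θ : Ix N → ℝ) :
    evt θ (SZ k) = (((chi k (tz S θ)).re : ℝ) : ℂ) := by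
  unfold SZ
  rw [map_smul, map_add, evt_MZ hS, evt_MZ hS, chi_neg k (tz_mem θ), Complex.real_smul, half_re]

lemma lam0_SZ (hS : ∀ p ∈ S, p.Prime) (k : S → ℤ) : lam w0 (SZ k) = if k = 0 then 1 else 0 := by
  unfold SZ
  rw [map_smul, map_add, lam0_MZ hS, lam0_MZ hS, smul_eq_mul]
  by_cases h : k = 0
  · rw [if_pos h, if_pos (by rw [h, neg_zero])]; norm_num
  · rw [if_neg h, if_neg (by rwa [neg_eq_zero])]; norm_num

lemma lam1_SZ (hS : ∀ p ∈ S, p.Prime) (k : S → ℤ) : lam w1 (EE S * EC S * SZ k) =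
    (∏ p ∈ S, (1 - 1 / (p:ℝ))) * if k = 0 then 1 else 0 := by
  unfold SZ
  rw [mul_smul_comm, map_smul, mul_add, map_add, lam1_MZ hS, lam1_MZ hS, smul_eq_mul]
  by_cases h : k = 0
  · rw [if_pos h, if_pos (by rw [h, neg_zero])]; ring
  · rw [if_neg h, if_neg (by rwa [neg_eq_zero])]; ring

/-- the value of a real trigonometric polynomial -/
def fg (K : Finset (S → ℤ)) (c : (S → ℤ) → ℝ) (z : S → ℂ) : ℝ := ∑ k ∈ K, c k * (chi k z).re

/-- the element of the algebra -/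
def GG' (K : Finset (S → ℤ)) (c : (S → ℤ) → ℝ) : DA := ∑ k ∈ K, c k • SZ k

lemma GG'_mem (hS : ∀ p ∈ S, p.Prime) (K : Finset (S → ℤ)) (c : (S → ℤ) → ℝ) : GG' K c ∈ SA (MI S) :=
  Subalgebra.sum_mem _ fun k _ => Subalgebra.smul_mem _ (SZ_mem hS k) _

lemma ev_GG' (hS : ∀ p ∈ S, p.Prime) (K : Finset (S → ℤ)) (c : (S → ℤ) → ℝ) (t : ℝ) :
    ev t (GG' K c) = ((fg K c (ph S t) : ℝ) : ℂ) := by
  unfold GG' fg
  rw [map_sum, Complex.ofReal_sum]
  refine sum_congr rfl fun k _ => ?_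
  rw [map_smul, ev_SZ hS, Complex.real_smul, Complex.ofReal_mul]

lemma evt_GG' (hS : ∀ p ∈ S, p.Prime) (K : Finset (S → ℤ)) (c : (S → ℤ) → ℝ) (θ : Ix N → ℝ) :
    evt θ (GG' K c) = ((fg K c (tz S θ) : ℝ) : ℂ) := by
  unfold GG' fg
  rw [map_sum, Complex.ofReal_sum]
  refine sum_congr rfl fun k _ => ?_
  rw [map_smul, evt_SZ hS, Complex.real_smul, Complex.ofReal_mul]

/-- the mean -/
def mg (K : Finset (S → ℤ)) (c : (S → ℤ) → ℝ) : ℝ := ∑ k ∈ K, c k * if k = 0 then 1 else 0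

lemma lam0_GG' (hS : ∀ p ∈ S, p.Prime) (K : Finset (S → ℤ)) (c : (S → ℤ) → ℝ) : lam w0 (GG' K c) = mg K c := by
  unfold GG' mg
  rw [map_sum]
  exact sum_congr rfl fun k _ => by rw [map_smul, lam0_SZ hS, smul_eq_mul]

lemma lam1_GG' (hS : ∀ p ∈ S, p.Prime) (K : Finset (S → ℤ)) (c : (S → ℤ) → ℝ) :
    lam w1 (EE S * EC S * GG' K c) = (∏ p ∈ S, (1 - 1 / (p:ℝ))) * mg K c := by
  unfold GG' mg
  rw [mul_sum, map_sum, mul_sum]
  refine sum_congr rfl fun k _ => ?_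
  rw [mul_smul_comm, map_smul, lam1_SZ hS, smul_eq_mul]; ring

lemma fg_cont (K : Finset (S → ℤ)) (c : (S → ℤ) → ℝ) : ContinuousOn (fg K c) (TT S) :=
  continuousOn_finsetSum _ fun k _ => continuousOn_const.mul
    (Complex.continuous_re.comp_continuousOn (chi_cont k))

lemma mg_eq (K : Finset (S → ℤ)) (c : (S → ℤ) → ℝ) : mg K c = E0 S (fg K c) := by
  unfold mg E0 fg
  rw [integral_finsetSum]
  · refine sum_congr rfl fun k _ => ?_
    rw [integral_const_mul]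
    congr 1
    have h1 := int_chi k
    have h2 := integral_re (𝕜 := ℂ) (cube_int (f := chi k) (chi_cont k))
    simp only [RCLike.re_eq_complex_re] at h2
    rw [h2, h1]
    split_ifs <;> simp
  · intro k _
    exact (cube_int (f := fun z => (chi k z).re)
      (Complex.continuous_re.comp_continuousOn (chi_cont k))).const_mul _

/-- the even majorant -/
theorem maj_ex2 {F : (S → ℂ) → ℝ} (hF : ContinuousOn F (TT S))
    (hF0 : ∀ z ∈ TT S, 0 ≤ F z) {ε : ℝ} (hε : 0 < ε) :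
    ∃ (K : Finset (S → ℤ)) (c : (S → ℤ) → ℝ), (∀ z ∈ TT S, F z + ε ≤ fg K c z) ∧
      2 * E0 S F + ε ≤ mg K c ∧ mg K c ≤ 2 * E0 S F + 3 * ε := by
  have hFc := conj_cont hF
  set F' : (S → ℂ) → ℝ := fun z => (F z + F (fun p => starRingEnd ℂ (z p))) + 2 * ε with hF'
  have hcont : ContinuousOn F' (TT S) := (hF.add hFc).add continuousOn_const
  have hev : ∀ z ∈ TT S, F' (fun p => starRingEnd ℂ (z p)) = F' z := fun z _ => by
    simp only [hF', conj_conj_fun]; ring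
  have hF'' : ContinuousOn (fun z => (F' z : ℂ)) (TT S) := Complex.continuous_ofReal.comp_continuousOn hcont
  obtain ⟨K, c, hc⟩ := apxC hF'' hε
  have key : ∀ z ∈ TT S, |fg K (fun k => (c k).re) z - F' z| ≤ ε := by
    intro z hz
    have h1 := hc z hz
    have h2 := hc _ (conj_mem hz)
    rw [hev z hz] at h2
    have e1 : fg K (fun k => (c k).re) z - F' z =
        ((((∑ k ∈ K, c k * chi k z) - F' z) +
          ((∑ k ∈ K, c k * chi k (fun p => starRingEnd ℂ (z p))) - F' z)) / 2).re := by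
      have e2 : (((∑ k ∈ K, c k * chi k z) - F' z) +
          ((∑ k ∈ K, c k * chi k (fun p => starRingEnd ℂ (z p))) - F' z)) / 2 =
          (∑ k ∈ K, c k * (((chi k z).re : ℝ) : ℂ)) - F' z := by
        have e3 : ∑ k ∈ K, c k * chi k (fun p => starRingEnd ℂ (z p)) =
            2 * (∑ k ∈ K, c k * (((chi k z).re : ℝ) : ℂ)) - ∑ k ∈ K, c k * chi k z := by
          rw [mul_sum, ← sum_sub_distrib]
          refine sum_congr rfl fun k _ => ?_
          have h := Complex.add_conj (chi k z)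
          rw [chi_conj]
          push_cast at h ⊢
          linear_combination (c k) * h
        rw [e3]; ring
      rw [e2, Complex.sub_re, Complex.re_sum, Complex.ofReal_re]
      unfold fg
      congr 1
      refine sum_congr rfl fun k _ => ?_
      rw [Complex.re_mul_ofReal]
    rw [e1]
    refine (Complex.abs_re_le_norm _).trans ?_
    rw [norm_div]
    have h3 := norm_add_le ((∑ k ∈ K, c k * chi k z) - F' z)
      ((∑ k ∈ K, c k * chi k (fun p => starRingEnd ℂ (z p))) - F' z)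
    have h4 : ‖(2:ℂ)‖ = 2 := by norm_num
    rw [h4, div_le_iff₀ (by norm_num)]
    linarith
  have hE : E0 S F' = 2 * E0 S F + 2 * ε := by
    have h1 : E0 S F' = E0 S (fun z => F z + F (fun p => starRingEnd ℂ (z p))) + E0 S (fun _ => 2 * ε) :=
      E0_add (S := S) (hF.add hFc) continuousOn_const
    have h2 := E0_add (S := S) hF hFc
    rw [E0_conj] at h2
    rw [E0_const, h2] at h1
    rw [h1]; ring
  have hm : |mg K (fun k => (c k).re) - E0 S F'| ≤ ε := by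
    rw [mg_eq]
    have := cube_diff (fg_cont K fun k => (c k).re) hcont (fun z hz => by
      rw [Real.norm_eq_abs]; exact key z hz)
    rw [← Real.norm_eq_abs]
    exact this
  rw [hE, abs_le] at hm
  refine ⟨K, fun k => (c k).re, fun z hz => ?_, by linarith [hm.1], by linarith [hm.2]⟩
  have h1 := abs_le.mp (key z hz)
  have h2 : F' z = (F z + F (fun p => starRingEnd ℂ (z p))) + 2 * ε := rfl
  have h3 := hF0 _ (conj_mem hz)
  linarith [h1.1]

end

end Pool.Agent.KS6_89.PP
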