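import Pool.Agent.KS6_89.PP.Sy

set_option autoImplicit false

/-! Averages over the torus with a factor at the primes of `S` (project PP). -/

namespace Pool.Agent.KS6_89.PP

open Finset MeasureTheory Complex
open Pool.Agent.W184.NZ
open Pool.Agent.TH806 (Ix ec ec_norm ec_cont ec_zero ec_add uu int_ec integrable_uu Pk Pk_bdd Pk_cont geo_bdd geo_cont
  Hf Hf_nonneg Hf_cont Hf_bdd Hf_int_nonneg ap ub PT PT_eq cc gt gt_nonneg gt_le cf Af Af_nonneg PP ZT chi_prime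
  one_sub_ge one_sub_ne)

noncomputable section

variable {N : ℕ} {S : Finset ℕ}

/-- the product over the primes outside `S` -/
def RF (S : Finset ℕ) (z w : ℂ) (θ : Ix N → ℝ) : ℝ :=
  ∏ p : Ix N, if p.1 ∈ S then 1 else ‖Pk (ap N z p) (θ p)‖ * ‖(1 - ub N w p * ec (θ p))⁻¹‖ ^ 2

/-- the local integrand -/
def Hs (S : Finset ℕ) (z w : ℂ) (J : ℕ) (a : ℝ) (I : ℕ → Finset ℕ) (s : Fin J → Fin 5) (p : Ix N) (x : ℝ) : ℝ :=
  if p.1 ∈ S then 1 else Hf (ap N z p) (ub N w p) (cc J a I s p) x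

lemma Hs_nonneg (z w : ℂ) (J : ℕ) (a : ℝ) (I : ℕ → Finset ℕ) (s : Fin J → Fin 5) (p : Ix N) (x : ℝ) :
    0 ≤ Hs S z w J a I s p x := by
  unfold Hs; split_ifs
  · exact zero_le_one
  · exact Hf_nonneg _ _ _ _

lemma Hs_cont {z w : ℂ} (hz : ∀ p : Ix N, ‖ap N z p‖ < 1) (hw : ∀ p : Ix N, ‖ub N w p‖ < 1)
    (J : ℕ) (a : ℝ) (I : ℕ → Finset ℕ) (s : Fin J → Fin 5) (p : Ix N) : Continuous (Hs S z w J a I s p) := by
  unfold Hs
  by_cases h : p.1 ∈ S
  · simp only [h, if_true]; exact continuous_const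
  · simp only [h, if_false]; exact Hf_cont (hz p) (hw p) _

lemma prod_Hs (z w : ℂ) (J : ℕ) (a : ℝ) {I : ℕ → Finset ℕ} (hI : ∀ i < J, I i ⊆ Nat.primesBelow N)
    (hIS : ∀ i < J, Disjoint (I i) S) (s : Fin J → Fin 5) (θ : Ix N → ℝ) :
    ∏ p : Ix N, Hs S z w J a I s p (θ p) =
      RF S z w θ * Real.exp (∑ i : Fin J, (cf a (s i) * PT θ (I i)).re) := by
  have h1 : ∀ p : Ix N, (cc J a I s p * ec (θ p)).re = ∑ i : Fin J,
      (cf a (s i) * (if p.1 ∈ I i then ((p.1 : ℕ) : ℂ) ^ (-(1 / 2) : ℂ) * ec (θ p) else 0)).re := by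
    intro p
    unfold cc
    rw [sum_mul, Complex.re_sum]
    refine sum_congr rfl fun i _ => ?_
    split_ifs
    · rw [mul_assoc]
    · simp
  have h2 : ∑ p : Ix N, (cc J a I s p * ec (θ p)).re = ∑ i : Fin J, (cf a (s i) * PT θ (I i)).re := by
    rw [sum_congr rfl fun p _ => h1 p, sum_comm]
    refine sum_congr rfl fun i _ => ?_
    rw [PT_eq θ (hI i i.2), mul_sum, Complex.re_sum]
  rw [← h2, Real.exp_sum]
  unfold RF
  rw [← prod_mul_distrib]
  refine prod_congr rfl fun p _ => ?_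
  unfold Hs
  by_cases h : p.1 ∈ S
  · have hc : cc J a I s p = 0 := by
      unfold cc
      refine sum_eq_zero fun i _ => if_neg fun hh => ?_
      exact disjoint_left.mp (hIS i i.2) hh h
    rw [if_pos h, if_pos h, hc]; simp
  · rw [if_neg h, if_neg h]
    rfl

lemma int_ec_pow (n : ℤ) : ∫ x, ec x ^ n ∂uu = if n = 0 then 1 else 0 := by
  have h : ∀ x : ℝ, ec x ^ n = ec (n * x) := by
    intro x
    unfold ec
    rw [← Complex.exp_int_mul]
    congr 1
    push_cast; ring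
  simp_rw [h]
  exact int_ec n

lemma chi_tz (hSN : S ⊆ Nat.primesBelow N) (k : S → ℤ) (θ : Ix N → ℝ) :
    chi k (tz S θ) = ∏ p : Ix N, ec (θ p) ^ xt k p.1 := by
  have e1 : ∀ p : Ix N, ec (θ p) ^ xt k p.1 = (fun q : ℕ => (Pool.Agent.TH806.chi θ q) ^ xt k q) p.1 := by
    intro p
    simp only
    rw [chi_prime]
  rw [prod_congr rfl fun p _ => e1 p, Finset.prod_coe_sort (Nat.primesBelow N)
    (fun q : ℕ => (Pool.Agent.TH806.chi θ q) ^ xt k q)]
  have e2 : ∏ q ∈ S, (Pool.Agent.TH806.chi θ q) ^ xt k q = ∏ q ∈ Nat.primesBelow N, (Pool.Agent.TH806.chi θ q) ^ xt k q := by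
    refine prod_subset hSN fun q _ hq => ?_
    have : xt k q = 0 := by unfold xt; rw [dif_neg hq]
    rw [this, zpow_zero]
  rw [← e2]
  unfold chi tz
  exact (prod_xt k (fun q n => (Pool.Agent.TH806.chi θ q) ^ n)).symm

lemma tz_cont : Continuous fun θ : Ix N → ℝ => tz S θ :=
  continuous_pi fun p => Pool.Agent.TH806.chi_cont _

lemma fg_tz_cont (K : Finset (S → ℤ)) (c : (S → ℤ) → ℝ) : Continuous fun θ : Ix N → ℝ => fg K c (tz S θ) :=
  (fg_cont K c).comp_continuous tz_cont tz_mem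

/-- the average for one choice -/
lemma int_one_choice (hSN : S ⊆ Nat.primesBelow N) {z w : ℂ} (hz : ∀ p : Ix N, ‖ap N z p‖ < 1)
    (hw : ∀ p : Ix N, ‖ub N w p‖ < 1) (J : ℕ) (a : ℝ) (I : ℕ → Finset ℕ) (s : Fin J → Fin 5)
    (K : Finset (S → ℤ)) (c : (S → ℤ) → ℝ) :
    Integrable (fun θ : Ix N → ℝ => fg K c (tz S θ) * ∏ p : Ix N, Hs S z w J a I s p (θ p)) (Pool.Agent.TH806.TT N) ∧
    ∫ θ : Ix N → ℝ, fg K c (tz S θ) * ∏ p : Ix N, Hs S z w J a I s p (θ p) ∂(Pool.Agent.TH806.TT N) =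
      mg K c * ∏ p : Ix N, ∫ x, Hs S z w J a I s p x ∂uu := by
  have hHc : Continuous fun θ : Ix N → ℝ => ∏ p : Ix N, Hs S z w J a I s p (θ p) :=
    continuous_finsetProd _ fun p _ => (Hs_cont hz hw J a I s p).comp (continuous_apply p)
  set B : ℝ := ∏ p : Ix N, (1 + 2 * (1 - ‖ap N z p‖)⁻¹ * (1 - ‖ub N w p‖)⁻¹ ^ 2 *
      Real.exp ‖cc J a I s p‖) with hB
  have hBp : ∀ p : Ix N, 0 ≤ 2 * (1 - ‖ap N z p‖)⁻¹ * (1 - ‖ub N w p‖)⁻¹ ^ 2 * Real.exp ‖cc J a I s p‖ := by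
    intro p
    have h3 : 0 < (1 - ‖ap N z p‖)⁻¹ := inv_pos.mpr (by linarith [hz p])
    positivity
  have hHb : ∀ θ : Ix N → ℝ, |∏ p : Ix N, Hs S z w J a I s p (θ p)| ≤ B := by
    intro θ
    rw [abs_prod]
    refine prod_le_prod (fun p _ => abs_nonneg _) fun p _ => ?_
    rw [abs_of_nonneg (Hs_nonneg _ _ _ _ _ _ _ _)]
    unfold Hs
    split_ifs
    · linarith [hBp p]
    · have := Hf_bdd (hz p) (hw p) (cc J a I s p) (θ p)
      linarith
  have hB0 : 0 ≤ B := (abs_nonneg _).trans (hHb 0)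
  have hk : ∀ k : S → ℤ, ∫ θ : Ix N → ℝ, chi k (tz S θ) * ((∏ p : Ix N, Hs S z w J a I s p (θ p) : ℝ) : ℂ)
      ∂(Pool.Agent.TH806.TT N) = ((if k = 0 then 1 else 0 : ℝ) : ℂ) *
        ((∏ p : Ix N, ∫ x, Hs S z w J a I s p x ∂uu : ℝ) : ℂ) := by
    intro k
    have e1 : ∀ θ : Ix N → ℝ, chi k (tz S θ) * ((∏ p : Ix N, Hs S z w J a I s p (θ p) : ℝ) : ℂ) =
        ∏ p : Ix N, (ec (θ p) ^ xt k p.1 * ((Hs S z w J a I s p (θ p) : ℝ) : ℂ)) := by
      intro θ
      rw [chi_tz hSN, Complex.ofReal_prod, ← prod_mul_distrib]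
    simp_rw [e1]
    unfold Pool.Agent.TH806.TT
    rw [integral_fintype_prod_eq_prod (𝕜 := ℂ) (f := fun (p : Ix N) (x : ℝ) =>
      ec x ^ xt k p.1 * ((Hs S z w J a I s p x : ℝ) : ℂ))]
    have e2 : ∀ p : Ix N, ∫ x, ec x ^ xt k p.1 * ((Hs S z w J a I s p x : ℝ) : ℂ) ∂uu =
        ((if xt k p.1 = 0 then 1 else 0 : ℝ) : ℂ) * ((∫ x, Hs S z w J a I s p x ∂uu : ℝ) : ℂ) := by
      intro p
      by_cases h : p.1 ∈ S
      · unfold Hs
        simp only [h, if_true, Complex.ofReal_one, mul_one]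
        rw [int_ec_pow]
        split_ifs <;> simp
      · have hx : xt k p.1 = 0 := by unfold xt; rw [dif_neg h]
        rw [hx, if_pos rfl]
        simp only [zpow_zero, one_mul, Complex.ofReal_one]
        exact integral_ofReal
    rw [prod_congr rfl fun p _ => e2 p, prod_mul_distrib, ← Complex.ofReal_prod, ← Complex.ofReal_prod]
    congr 2
    have e3 : (∏ p : Ix N, if xt k p.1 = 0 then (1:ℝ) else 0) =
        ∏ p ∈ Nat.primesBelow N, if xt k p = 0 then (1:ℝ) else 0 :=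
      Finset.prod_coe_sort (Nat.primesBelow N) (fun p => if xt k p = 0 then (1:ℝ) else 0)
    rw [e3, ← prod_subset hSN (fun q _ hq => by
      have : xt k q = 0 := by unfold xt; rw [dif_neg hq]
      rw [if_pos this])]
    exact delta_prod k
  have hint : ∀ k : S → ℤ, Integrable (fun θ : Ix N → ℝ => chi k (tz S θ) *
      ((∏ p : Ix N, Hs S z w J a I s p (θ p) : ℝ) : ℂ)) (Pool.Agent.TH806.TT N) := by
    intro k
    refine Integrable.of_bound (C := 1 * B) ?_ (Filter.Eventually.of_forall fun θ => ?_)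
    · exact (((chi_cont k).comp_continuous tz_cont tz_mem).mul
        (Complex.continuous_ofReal.comp hHc)).aestronglyMeasurable
    · rw [norm_mul, Complex.norm_real, Real.norm_eq_abs]
      refine mul_le_mul ?_ (hHb θ) (abs_nonneg _) zero_le_one
      unfold chi
      rw [norm_prod]
      refine le_of_eq (prod_eq_one fun p _ => ?_)
      rw [norm_zpow, tz_mem θ p, one_zpow]
  have hre : ∀ k : S → ℤ, ∀ θ : Ix N → ℝ, (chi k (tz S θ)).re * ∏ p : Ix N, Hs S z w J a I s p (θ p) =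
      (chi k (tz S θ) * ((∏ p : Ix N, Hs S z w J a I s p (θ p) : ℝ) : ℂ)).re := by
    intro k θ
    rw [Complex.re_mul_ofReal]
  have hint2 : ∀ k : S → ℤ, Integrable (fun θ : Ix N → ℝ => (chi k (tz S θ)).re *
      ∏ p : Ix N, Hs S z w J a I s p (θ p)) (Pool.Agent.TH806.TT N) := by
    intro k
    simp_rw [hre k]
    exact (hint k).re
  have e0 : ∀ θ : Ix N → ℝ, fg K c (tz S θ) * ∏ p : Ix N, Hs S z w J a I s p (θ p) =
      ∑ k ∈ K, c k * ((chi k (tz S θ)).re * ∏ p : Ix N, Hs S z w J a I s p (θ p)) := by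
    intro θ
    unfold fg
    rw [sum_mul]
    exact sum_congr rfl fun k _ => by ring
  simp_rw [e0]
  refine ⟨integrable_finsetSum _ fun k _ => (hint2 k).const_mul _, ?_⟩
  rw [integral_finsetSum _ fun k _ => (hint2 k).const_mul _]
  unfold mg
  rw [sum_mul]
  refine sum_congr rfl fun k _ => ?_
  rw [integral_const_mul, mul_assoc]
  congr 1
  simp_rw [hre k]
  have h2 := integral_re (𝕜 := ℂ) (hint k)
  simp only [RCLike.re_eq_complex_re] at h2
  rw [h2, hk k, ← Complex.ofReal_mul, Complex.ofReal_re]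

/-- the average of the product -/
theorem tor_boundS (hSN : S ⊆ Nat.primesBelow N) {z w : ℂ} (hz : ∀ p : Ix N, ‖ap N z p‖ < 1)
    (hw : ∀ p : Ix N, ‖ub N w p‖ < 1) {K : Finset (S → ℤ)} {c : (S → ℤ) → ℝ}
    (hfg : ∀ z ∈ TT S, 0 ≤ fg K c z) (hmg : 0 ≤ mg K c)
    {J : ℕ} {a : ℝ} (ha : |a| ≤ 9 / 8) {R : ℕ → ℕ} (hR : ∀ i, 1 ≤ R i) {I : ℕ → Finset ℕ}
    (hI : ∀ i < J, I i ⊆ Nat.primesBelow N) (hIS : ∀ i < J, Disjoint (I i) S)
    (hd : ∀ i j, i < j → Disjoint (I i) (I j))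
    {u0 : ℕ → ℝ} {u1 : ℕ → Fin 5 → ℝ}
    (h0 : ∀ p : Ix N, (∀ i < J, p.1 ∉ I i) → ∫ x, Hf (ap N z p) (ub N w p) 0 x ∂uu ≤ Real.exp (u0 p.1))
    (h1 : ∀ p : Ix N, ∀ i < J, p.1 ∈ I i → ∀ j : Fin 5,
      ∫ x, Hf (ap N z p) (ub N w p) (cf a j * ((p.1 : ℕ) : ℂ) ^ (-(1 / 2) : ℂ)) x ∂uu ≤ Real.exp (u1 p.1 j)) :
    ∫ θ, fg K c (tz S θ) * (RF S z w θ * gt J a R I θ) ∂(Pool.Agent.TH806.TT N) ≤
      mg K c * (Real.exp (∑ p ∈ (Nat.primesBelow N).filter (fun p => p ∉ S ∧ ∀ i < J, p ∉ I i), u0 p) *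
      ∏ i ∈ range J, ∑ j : Fin 5, Af (R i) j * Real.exp (∑ p ∈ I i, u1 p j)) := by
  have hRF0 : ∀ θ : Ix N → ℝ, 0 ≤ RF S z w θ := fun θ => by
    unfold RF
    refine prod_nonneg fun p _ => ?_
    split_ifs
    · exact zero_le_one
    · positivity
  have hch := fun s => int_one_choice (S := S) hSN hz hw J a I s K c
  have step1 : ∫ θ, fg K c (tz S θ) * (RF S z w θ * gt J a R I θ) ∂(Pool.Agent.TH806.TT N) ≤
      ∫ θ, ∑ s : Fin J → Fin 5, (∏ i : Fin J, Af (R i) (s i)) *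
        (fg K c (tz S θ) * ∏ p : Ix N, Hs S z w J a I s p (θ p)) ∂(Pool.Agent.TH806.TT N) := by
    refine integral_mono_of_nonneg (Filter.Eventually.of_forall fun θ => ?_)
      (integrable_finsetSum _ fun s _ => (hch s).1.const_mul _) (Filter.Eventually.of_forall fun θ => ?_)
    · exact mul_nonneg (hfg _ (tz_mem θ)) (mul_nonneg (hRF0 θ) (gt_nonneg _ _ _ _ _))
    · simp only
      calc fg K c (tz S θ) * (RF S z w θ * gt J a R I θ) ≤ fg K c (tz S θ) * (RF S z w θ *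
          ∑ s : Fin J → Fin 5, (∏ i : Fin J, Af (R i) (s i)) *
            Real.exp (∑ i : Fin J, (cf a (s i) * PT θ (I i)).re)) :=
            mul_le_mul_of_nonneg_left (mul_le_mul_of_nonneg_left (gt_le ha hR I θ) (hRF0 θ)) (hfg _ (tz_mem θ))
        _ = _ := by
            rw [mul_sum, mul_sum]
            refine sum_congr rfl fun s _ => ?_
            rw [prod_Hs z w J a hI hIS s θ]; ring
  refine step1.trans ?_
  rw [integral_finsetSum _ fun s _ => (hch s).1.const_mul _]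
  have step2 : ∀ s : Fin J → Fin 5, ∫ θ, (∏ i : Fin J, Af (R i) (s i)) *
        (fg K c (tz S θ) * ∏ p : Ix N, Hs S z w J a I s p (θ p)) ∂(Pool.Agent.TH806.TT N) ≤
      mg K c * (Real.exp (∑ p ∈ (Nat.primesBelow N).filter (fun p => p ∉ S ∧ ∀ i < J, p ∉ I i), u0 p) *
        ∏ i : Fin J, (Af (R i) (s i) * Real.exp (∑ p ∈ I i, u1 p (s i)))) := by
    intro s
    rw [integral_const_mul, (hch s).2]
    -- exponent at p
    set V : ℕ → ℝ := fun q => (∑ i : Fin J, if q ∈ I i then u1 q (s i) else 0) +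
      (if (q ∉ S ∧ ∀ i < J, q ∉ I i) then u0 q else 0) with hV
    have hp : ∀ p : Ix N, ∫ x, Hs S z w J a I s p x ∂uu ≤ Real.exp (V p.1) := by
      intro p
      by_cases hpS : p.1 ∈ S
      · have e2 : V p.1 = 0 := by
          rw [hV]; simp only
          rw [sum_eq_zero fun (i : Fin J) _ => if_neg (fun hh => disjoint_left.mp (hIS i i.2) hh hpS),
            if_neg (fun hh => hh.1 hpS), zero_add]
        rw [e2, Real.exp_zero]
        unfold Hs
        simp only [hpS, if_true]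
        simp
      by_cases hex : ∀ i < J, p.1 ∉ I i
      · have e1 : cc J a I s p = 0 := by
          unfold cc
          exact sum_eq_zero fun i _ => if_neg (hex i i.2)
        have e2 : V p.1 = u0 p.1 := by
          rw [hV]; simp only
          rw [sum_eq_zero fun (i : Fin J) _ => if_neg (hex i i.2), if_pos ⟨hpS, hex⟩, zero_add]
        unfold Hs
        simp only [hpS, if_false]
        rw [e1, e2]; exact h0 p hex
      · push Not at hex
        obtain ⟨i, hi, hpi⟩ := hex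
        have huniq : ∀ j : Fin J, j ≠ ⟨i, hi⟩ → p.1 ∉ I j := by
          intro j hj hpj
          have hne : (j : ℕ) ≠ i := fun h => hj (Fin.ext h)
          rcases lt_or_gt_of_ne hne with h | h
          · exact disjoint_left.mp (hd _ _ h) hpj hpi
          · exact disjoint_left.mp (hd _ _ h) hpi hpj
        have e1 : cc J a I s p = cf a (s ⟨i, hi⟩) * ((p.1 : ℕ) : ℂ) ^ (-(1 / 2) : ℂ) := by
          unfold cc
          rw [sum_eq_single ⟨i, hi⟩ (fun j _ hj => if_neg (huniq j hj)) (fun h => absurd (mem_univ _) h)]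
          exact if_pos hpi
        have e2 : V p.1 = u1 p.1 (s ⟨i, hi⟩) := by
          rw [hV]; simp only
          rw [sum_eq_single ⟨i, hi⟩ (fun j _ hj => if_neg (huniq j hj)) (fun h => absurd (mem_univ _) h),
            if_pos hpi, if_neg (fun hh => hh.2 i hi hpi), add_zero]
        unfold Hs
        simp only [hpS, if_false]
        rw [e1, e2]; exact h1 p i hi hpi _
    have hprod : ∏ p : Ix N, ∫ x, Hs S z w J a I s p x ∂uu ≤ Real.exp (∑ p : Ix N, V p.1) := by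
      rw [Real.exp_sum]
      exact prod_le_prod (fun p _ => integral_nonneg fun x => Hs_nonneg _ _ _ _ _ _ _ _) fun p _ => hp p
    have hsum : ∑ p : Ix N, V p.1 = (∑ p ∈ (Nat.primesBelow N).filter (fun p => p ∉ S ∧ ∀ i < J, p ∉ I i), u0 p) +
        ∑ i : Fin J, ∑ p ∈ I i, u1 p (s i) := by
      rw [Finset.sum_coe_sort (Nat.primesBelow N) V, hV]
      simp only
      rw [sum_add_distrib, sum_comm, add_comm, sum_filter]
      congr 1
      refine sum_congr rfl fun i _ => ?_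
      rw [← sum_filter]
      refine sum_congr ?_ fun _ _ => rfl
      ext q
      rw [mem_filter]
      exact ⟨fun h => h.2, fun h => ⟨hI i i.2 h, h⟩⟩
    have hA : 0 ≤ ∏ i : Fin J, Af (R i) (s i) := prod_nonneg fun i _ => Af_nonneg _ _
    refine (mul_le_mul_of_nonneg_left (mul_le_mul_of_nonneg_left hprod hmg) hA).trans (le_of_eq ?_)
    have e3 : Real.exp (∑ i : Fin J, ∑ p ∈ I i, u1 p (s i)) =
        ∏ i : Fin J, Real.exp (∑ p ∈ I i, u1 p (s i)) := Real.exp_sum _ _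
    rw [hsum, Real.exp_add, e3, prod_mul_distrib]
    ring
  refine (sum_le_sum fun s _ => step2 s).trans (le_of_eq ?_)
  rw [← mul_sum, ← mul_sum, Finset.prod_range, Fintype.prod_sum]

end

end Pool.Agent.KS6_89.PP
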