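import Pool.Agent.KS6_89.PP.To1

set_option autoImplicit false

/-! The factors at the primes of `S` (project PP). -/

namespace Pool.Agent.KS6_89.PP

open Finset MeasureTheory Complex
open Pool.Agent.W184.NZ
open Pool.Agent.TH806 (Ix ec ec_norm Pk Pk_norm ap ub ap_lt ub_lt ap_eq ub_eq xh xh_pos xh_sq xh_two ix_two ix_lt Par wp
  PP ZT chi_prime one_sub_ge one_sub_ne)

noncomputable section

variable {N : ℕ} {S : Finset ℕ} {L δ τ : ℝ} {z : ℂ}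

lemma cmp1 {a e : ℂ} {x : ℝ} (he : ‖e‖ = 1) {r κ : ℝ} (ha : ‖a‖ ≤ 1 - r) (hr : 0 < r) (hκ : 1 ≤ κ * r) (hκ0 : 0 ≤ κ) :
    ‖1 - (x : ℂ) * e‖ * ‖(1 - a * e)⁻¹‖ ≤ 1 + κ * ‖a - x‖ := by
  have h1 : r ≤ ‖1 - a * e‖ := by
    have := one_sub_ge (a := a) he
    linarith
  have h0 : 0 < ‖1 - a * e‖ := by linarith
  rw [norm_inv, ← div_eq_mul_inv, div_le_iff₀ h0]
  have h2 : ‖1 - (x : ℂ) * e‖ ≤ ‖1 - a * e‖ + ‖a - x‖ := by
    have e1 : 1 - (x : ℂ) * e = (1 - a * e) + (a - x) * e := by ring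
    rw [e1]
    refine (norm_add_le _ _).trans ?_
    rw [norm_mul, he, mul_one]
  have h3 : ‖a - x‖ ≤ κ * ‖a - x‖ * ‖1 - a * e‖ := by
    have h4 : 1 ≤ κ * ‖1 - a * e‖ := hκ.trans (mul_le_mul_of_nonneg_left h1 hκ0)
    have h5 := mul_le_mul_of_nonneg_left h4 (norm_nonneg (a - x))
    linarith
  linarith

lemma ap_dist (h : Par L N z δ τ) (p : Ix N) : ‖ap N z p - ((xh p.1 : ℝ) : ℂ)‖ ≤ p.1 / (10 * L) := by
  have hL := h.L1
  obtain ⟨z1, z2, z3⟩ := h.zl (ix_lt p) (by have := ix_two p; omega)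
  have hx := xh_pos p.1
  have hx1 : xh p.1 ≤ 1 := (xh_two (ix_two p)).trans (by norm_num)
  have hp : (1:ℝ) ≤ (p.1 : ℝ) := by exact_mod_cast (by have := ix_two p; omega : 1 ≤ p.1)
  have hlp : Real.log p.1 ≤ p.1 := (Real.log_le_sub_one_of_pos (by linarith)).trans (by linarith)
  rw [ap_eq]
  have e1 : ((xh p.1 : ℝ) : ℂ) * Complex.exp (-(z * (Real.log p.1 : ℝ))) - ((xh p.1 : ℝ) : ℂ) =
      ((xh p.1 : ℝ) : ℂ) * (Complex.exp (-(z * (Real.log p.1 : ℝ))) - 1) := by ring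
  rw [e1, norm_mul, Complex.norm_real, Real.norm_of_nonneg hx.le]
  have h2 := Complex.norm_exp_sub_one_le (x := -(z * (Real.log p.1 : ℝ))) (by rw [norm_neg]; linarith)
  rw [norm_neg] at h2
  calc xh p.1 * ‖Complex.exp (-(z * (Real.log p.1 : ℝ))) - 1‖ ≤ 1 * (2 * (1 / 20 * (Real.log p.1 / L))) :=
        mul_le_mul hx1 (h2.trans (by linarith)) (norm_nonneg _) zero_le_one
    _ = Real.log p.1 / (10 * L) := by field_simp; ring
    _ ≤ _ := by gcongr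

lemma ub_dist (h : Par L N z δ τ) (p : Ix N) :
    ‖ub N (wp δ τ) p - ((xh p.1 : ℝ) : ℂ)‖ ≤ p.1 * (2 / L + |τ|) := by
  have hL := h.L1
  have hx := xh_pos p.1
  have hx1 : xh p.1 ≤ 1 := (xh_two (ix_two p)).trans (by norm_num)
  have hp : (1:ℝ) ≤ (p.1 : ℝ) := by exact_mod_cast (by have := ix_two p; omega : 1 ≤ p.1)
  have hlp : Real.log p.1 ≤ p.1 := (Real.log_le_sub_one_of_pos (by linarith)).trans (by linarith)
  have hl0 : 0 ≤ Real.log p.1 := Real.log_nonneg hp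
  rw [ub_eq]
  set D := Real.exp (-(δ * Real.log p.1)) with hD
  set W := Complex.exp (((-(τ * Real.log p.1) : ℝ) : ℂ) * I) with hW
  have e1 : ((xh p.1 : ℝ) : ℂ) * (((D : ℝ) : ℂ) * W) - ((xh p.1 : ℝ) : ℂ) =
      ((xh p.1 : ℝ) : ℂ) * (((D - 1 : ℝ) : ℂ) * W + (W - 1)) := by push_cast; ring
  rw [e1, norm_mul, Complex.norm_real, Real.norm_of_nonneg hx.le]
  have hWn : ‖W‖ = 1 := Complex.norm_exp_ofReal_mul_I _
  have h1 : |D - 1| ≤ 2 / L * Real.log p.1 := by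
    have h5 : D ≤ 1 := Real.exp_le_one_iff.mpr (by have := mul_nonneg h.d0 hl0; linarith)
    have h7 : 1 - δ * Real.log p.1 ≤ D := by have := Real.add_one_le_exp (-(δ * Real.log p.1)); linarith
    rw [abs_of_nonpos (by linarith)]
    have := mul_le_mul_of_nonneg_right h.d1 hl0
    linarith
  have h2 : ‖W - 1‖ ≤ |τ| * Real.log p.1 := by
    have := Real.norm_exp_I_mul_ofReal_sub_one_le (x := -(τ * Real.log p.1))
    rw [mul_comm, Real.norm_eq_abs, abs_neg, abs_mul, abs_of_nonneg hl0] at this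
    exact this
  have h3 : ‖((D - 1 : ℝ) : ℂ) * W + (W - 1)‖ ≤ (2 / L + |τ|) * Real.log p.1 := by
    refine (norm_add_le _ _).trans ?_
    rw [norm_mul, hWn, mul_one, Complex.norm_real, Real.norm_eq_abs]
    linarith
  have h4 : 0 ≤ 2 / L + |τ| := by positivity
  calc xh p.1 * ‖((D - 1 : ℝ) : ℂ) * W + (W - 1)‖ ≤ 1 * ((2 / L + |τ|) * Real.log p.1) :=
        mul_le_mul hx1 h3 (norm_nonneg _) zero_le_one
    _ ≤ 1 * ((2 / L + |τ|) * p.1) := by gcongr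
    _ = _ := by ring

/-- one prime of `S` -/
lemma s_prime (h : Par L N z δ τ) (p : Ix N) (x : ℝ) :
    ‖Pk (ap N z p) x‖ * ‖(1 - ub N (wp δ τ) p * ec x)⁻¹‖ ^ 2 * ‖1 - ((xh p.1 : ℝ) : ℂ) * ec x‖ ^ 4 ≤
      (1 - 1 / (p.1:ℝ)) * Real.exp (2 * p.1 / L) * min 49 (Real.exp (8 * (p.1 * (2 / L + |τ|)))) := by
  have hL := h.L1
  have ha := ap_lt h p
  have hu := ub_lt h p
  have hx0 := xh_pos p.1
  have hx7 := xh_two (ix_two p)
  have hp0 : p.1 ≠ 0 := by have := ix_two p; omega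
  have hx2 := xh_sq hp0
  have hx12 : xh p.1 ^ 2 ≤ 1 / 2 := by
    rw [hx2]
    have : (2:ℝ) ≤ p.1 := by exact_mod_cast ix_two p
    exact one_div_le_one_div_of_le (by norm_num) this
  set r : ℝ := xh p.1 with hr
  set e := ec x with he
  have hen : ‖e‖ = 1 := ec_norm x
  set q := ‖ap N z p - (r : ℂ)‖ with hq
  have hq0 : 0 ≤ q := norm_nonneg _
  have hqd : q ≤ p.1 / (10 * L) := ap_dist h p
  -- first factor
  have f1 : ‖1 - (r : ℂ) * e‖ * ‖(1 - ap N z p * e)⁻¹‖ ≤ 1 + 7 * q :=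
    cmp1 hen (r := 16 / 100) (by linarith) (by norm_num) (by norm_num) (by norm_num)
  have f2 : ‖1 - (r : ℂ) * e‖ * ‖(1 - (starRingEnd ℂ) (ap N z p) * e)⁻¹‖ ≤ 1 + 7 * q := by
    have h1 := cmp1 (x := r) (a := (starRingEnd ℂ) (ap N z p)) hen (r := 16 / 100) (κ := 7)
      (by rw [Complex.norm_conj]; linarith) (by norm_num) (by norm_num) (by norm_num)
    have h2 : ‖(starRingEnd ℂ) (ap N z p) - (r : ℂ)‖ = q := by
      rw [hq, ← Complex.norm_conj (ap N z p - (r : ℂ)), map_sub, Complex.conj_ofReal]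
    rwa [h2] at h1
  have f0 : ‖1 - ap N z p ^ 2‖ ≤ (1 - r ^ 2) * (1 + 4 * q) := by
    have e1 : 1 - ap N z p ^ 2 = ((1 - r ^ 2 : ℝ) : ℂ) + ((r : ℂ) - ap N z p) * ((r : ℂ) + ap N z p) := by
      push_cast; ring
    have h2 : ‖(r : ℂ) + ap N z p‖ ≤ 2 := by
      refine (norm_add_le _ _).trans ?_
      rw [Complex.norm_real, Real.norm_of_nonneg hx0.le]
      linarith
    rw [e1]
    refine (norm_add_le _ _).trans ?_
    rw [norm_mul, norm_sub_rev, Complex.norm_real, Real.norm_of_nonneg (by linarith)]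
    have h3 : q * ‖(r : ℂ) + ap N z p‖ ≤ q * 2 := mul_le_mul_of_nonneg_left h2 hq0
    nlinarith
  have g1 : ‖Pk (ap N z p) x‖ * ‖1 - (r : ℂ) * e‖ ^ 2 ≤ (1 - r ^ 2) * Real.exp (2 * p.1 / L) := by
    rw [Pk_norm]
    have h1 : ‖1 - ap N z p ^ 2‖ * ‖(1 - ap N z p * ec x)⁻¹‖ * ‖(1 - (starRingEnd ℂ) (ap N z p) * ec x)⁻¹‖ *
        ‖1 - (r : ℂ) * e‖ ^ 2 = ‖1 - ap N z p ^ 2‖ * ((‖1 - (r : ℂ) * e‖ * ‖(1 - ap N z p * e)⁻¹‖) *
          (‖1 - (r : ℂ) * e‖ * ‖(1 - (starRingEnd ℂ) (ap N z p) * e)⁻¹‖)) := by rw [he]; ring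
    rw [h1]
    have h7 : 0 ≤ 1 + 7 * q := by positivity
    have hr1 : 0 ≤ 1 - r ^ 2 := by linarith
    calc _ ≤ ((1 - r ^ 2) * (1 + 4 * q)) * ((1 + 7 * q) * (1 + 7 * q)) := by gcongr
      _ ≤ ((1 - r ^ 2) * Real.exp (4 * q)) * (Real.exp (7 * q) * Real.exp (7 * q)) := by
          have a1 := Real.add_one_le_exp (4 * q)
          have a2 := Real.add_one_le_exp (7 * q)
          gcongr <;> linarith
      _ = (1 - r ^ 2) * Real.exp (18 * q) := by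
          rw [mul_assoc, ← Real.exp_add, ← Real.exp_add]; congr 2; ring
      _ ≤ _ := by
          refine mul_le_mul_of_nonneg_left (Real.exp_le_exp.mpr ?_) hr1
          have : (0:ℝ) ≤ p.1 / L := by positivity
          calc 18 * q ≤ 18 * (p.1 / (10 * L)) := by linarith
            _ = 9 / 5 * (p.1 / L) := by field_simp; norm_num
            _ ≤ 2 * (p.1 / L) := by linarith
            _ = _ := by ring
  -- second factor
  set w := ‖ub N (wp δ τ) p - (r : ℂ)‖ with hw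
  have hw0 : 0 ≤ w := norm_nonneg _
  have f3 : ‖1 - (r : ℂ) * e‖ * ‖(1 - ub N (wp δ τ) p * e)⁻¹‖ ≤ 1 + 4 * w :=
    cmp1 hen (r := 29 / 100) (by linarith) (by norm_num) (by norm_num) (by norm_num)
  have f4 : ‖1 - (r : ℂ) * e‖ * ‖(1 - ub N (wp δ τ) p * e)⁻¹‖ ≤ 7 := by
    have h1 : ‖1 - (r : ℂ) * e‖ ≤ 2 := by
      refine (norm_sub_le _ _).trans ?_
      rw [norm_one, norm_mul, hen, mul_one, Complex.norm_real, Real.norm_of_nonneg hx0.le]
      linarith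
    have h2 : ‖(1 - ub N (wp δ τ) p * e)⁻¹‖ ≤ 7 / 2 := by
      have h3 : 29 / 100 ≤ ‖1 - ub N (wp δ τ) p * e‖ := by
        have := one_sub_ge (a := ub N (wp δ τ) p) hen
        linarith
      rw [norm_inv]
      refine (inv_anti₀ (by norm_num) h3).trans (by norm_num)
    calc _ ≤ 2 * (7 / 2 : ℝ) := mul_le_mul h1 h2 (norm_nonneg _) (by norm_num)
      _ = 7 := by norm_num
  have hn0 : 0 ≤ ‖1 - (r : ℂ) * e‖ * ‖(1 - ub N (wp δ τ) p * e)⁻¹‖ := by positivity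
  have g2 : ‖(1 - ub N (wp δ τ) p * e)⁻¹‖ ^ 2 * ‖1 - (r : ℂ) * e‖ ^ 2 ≤
      min 49 (Real.exp (8 * (p.1 * (2 / L + |τ|)))) := by
    rw [← mul_pow, mul_comm ‖(1 - ub N (wp δ τ) p * e)⁻¹‖]
    refine le_min ?_ ?_
    · calc _ ≤ (7:ℝ) ^ 2 := pow_le_pow_left₀ hn0 f4 2
        _ = 49 := by norm_num
    · calc _ ≤ (1 + 4 * w) ^ 2 := pow_le_pow_left₀ hn0 f3 2
        _ ≤ Real.exp (4 * w) ^ 2 := by
            have := Real.add_one_le_exp (4 * w)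
            refine pow_le_pow_left₀ (by positivity) (by linarith) 2
        _ = Real.exp (8 * w) := by rw [← Real.exp_nat_mul]; congr 1; push_cast; ring
        _ ≤ _ := Real.exp_le_exp.mpr (by have := ub_dist h p; linarith)
  have e9 : ‖Pk (ap N z p) x‖ * ‖(1 - ub N (wp δ τ) p * ec x)⁻¹‖ ^ 2 * ‖1 - (r : ℂ) * ec x‖ ^ 4 =
      (‖Pk (ap N z p) x‖ * ‖1 - (r : ℂ) * e‖ ^ 2) * (‖(1 - ub N (wp δ τ) p * e)⁻¹‖ ^ 2 * ‖1 - (r : ℂ) * e‖ ^ 2) := by
    rw [he]; ring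
  have hr2 : 1 - r ^ 2 = 1 - 1 / (p.1 : ℝ) := by rw [hx2]
  rw [e9, ← hr2]
  have hr1 : 0 ≤ 1 - r ^ 2 := by linarith
  exact mul_le_mul g1 g2 (by positivity) (by positivity)

/-- the product of the factors at `S` -/
def SFac (S : Finset ℕ) (z w : ℂ) (θ : Ix N → ℝ) : ℝ :=
  ∏ p : Ix N, if p.1 ∈ S then ‖Pk (ap N z p) (θ p)‖ * ‖(1 - ub N w p * ec (θ p))⁻¹‖ ^ 2 *
    ‖1 - ((xh p.1 : ℝ) : ℂ) * ec (θ p)‖ ^ 4 else 1

lemma prod_in (hSN : S ⊆ Nat.primesBelow N) {R : Type*} [CommMonoid R] (f : ℕ → R) :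
    (∏ p : Ix N, if p.1 ∈ S then f p.1 else 1) = ∏ p ∈ S, f p := by
  rw [Finset.prod_coe_sort (Nat.primesBelow N) (fun p => if p ∈ S then f p else 1)]
  rw [← prod_subset hSN (fun q _ hq => if_neg hq)]
  exact prod_congr rfl fun p hp => if_pos hp

lemma SFac_eq (hSN : S ⊆ Nat.primesBelow N) (z w : ℂ) (θ : Ix N → ℝ) :
    ‖PP (ap N z) θ‖ * ‖ZT w θ‖ ^ 2 * ‖es S (tz S θ)‖ ^ 4 = RF S z w θ * SFac S z w θ := by
  have e1 : ‖es S (tz S θ)‖ ^ 4 = ∏ p : Ix N, if p.1 ∈ S then ‖1 - ((xh p.1 : ℝ) : ℂ) * ec (θ p)‖ ^ 4 else 1 := by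
    have e2 : ∀ p : Ix N, (if p.1 ∈ S then ‖1 - ((xh p.1 : ℝ) : ℂ) * ec (θ p)‖ ^ 4 else 1) =
        if p.1 ∈ S then (fun q : ℕ => ‖1 - ((xh q : ℝ) : ℂ) * Pool.Agent.TH806.chi θ q‖ ^ 4) p.1 else 1 := by
      intro p
      simp only
      rw [chi_prime]
    rw [prod_congr rfl fun p _ => e2 p, prod_in hSN (fun q : ℕ => ‖1 - ((xh q : ℝ) : ℂ) * Pool.Agent.TH806.chi θ q‖ ^ 4)]
    unfold es tz
    rw [norm_prod, ← prod_pow, Finset.prod_coe_sort S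
      (fun q : ℕ => ‖1 - Pool.Agent.TH806.chi θ q / ((Real.sqrt q : ℝ) : ℂ)‖ ^ 4)]
    refine prod_congr rfl fun q hq => ?_
    have hqp : q.Prime := (Nat.mem_primesBelow.mp (hSN hq)).2
    have e3 : ((xh q : ℝ) : ℂ) = (((Real.sqrt q : ℝ) : ℂ))⁻¹ := by
      rw [← half_sqrt hqp, Pool.Agent.TH806.half_eq hqp.ne_zero]
    rw [e3]
    congr 3
    rw [div_eq_mul_inv, mul_comm]
  rw [e1]
  unfold PP ZT RF SFac
  rw [norm_prod, norm_prod, ← prod_pow, ← prod_mul_distrib, ← prod_mul_distrib, ← prod_mul_distrib]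
  refine prod_congr rfl fun p _ => ?_
  by_cases h : p.1 ∈ S
  · simp only [h, if_true, one_mul]
  · simp only [h, if_false, mul_one]

lemma SFac_le (S : Finset ℕ) (hSp : ∀ p ∈ S, p.Prime) : ∃ L₀ : ℝ, 1 ≤ L₀ ∧ ∀ (N : ℕ) (L δ τ : ℝ) (z : ℂ), L₀ ≤ L →
    S ⊆ Nat.primesBelow N → Par L N z δ τ → ∀ θ : Ix N → ℝ,
    SFac S z (wp δ τ) θ ≤ 4 * (∏ p ∈ S, (1 - 1 / (p:ℝ))) * (1 + L * |τ|) := by
  set P : ℝ := ∑ p ∈ S, (p:ℝ) with hP
  have hP0 : 0 ≤ P := sum_nonneg fun p _ => Nat.cast_nonneg p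
  set M : ℝ := 49 ^ S.card with hM
  have hM0 : 0 < M := by positivity
  refine ⟨max (40 * P + 1) (M * (80 * P)), (by linarith : (1:ℝ) ≤ 40 * P + 1).trans (le_max_left _ _), ?_⟩
  intro N L δ τ z hL hSN h θ
  have hL1 := h.L1
  have hLa : 40 * P + 1 ≤ L := (le_max_left _ _).trans hL
  have hLb : M * (80 * P) ≤ L := (le_max_right _ _).trans hL
  have hL0 : 0 < L := by linarith
  set X := ∏ p ∈ S, (1 - 1 / (p:ℝ)) with hX
  have hX0 : 0 < X := (prod_le_AS hSp).1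
  have h1 : SFac S z (wp δ τ) θ ≤ ∏ p ∈ S, ((1 - 1 / (p:ℝ)) * Real.exp (2 * p / L) *
      min 49 (Real.exp (8 * (p * (2 / L + |τ|))))) := by
    rw [← prod_in hSN (fun p : ℕ => (1 - 1 / (p:ℝ)) * Real.exp (2 * p / L) *
      min 49 (Real.exp (8 * (p * (2 / L + |τ|)))))]
    unfold SFac
    refine prod_le_prod (fun p _ => ?_) fun p _ => ?_
    · split_ifs
      · positivity
      · exact zero_le_one
    · split_ifs
      · exact s_prime h p (θ p)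
      · exact le_rfl
  rw [prod_mul_distrib, prod_mul_distrib, ← Real.exp_sum] at h1
  have e1 : ∑ p ∈ S, 2 * (p:ℝ) / L = 2 * P / L := by
    rw [hP, mul_sum, sum_div]
  rw [e1] at h1
  have h2 : Real.exp (2 * P / L) ≤ 3 / 2 := by
    have h3 : 2 * P / L ≤ 1 / 20 := by
      rw [div_le_iff₀ hL0]; linarith
    refine (Real.exp_le_exp.mpr h3).trans ?_
    have h4 := Real.exp_bound_div_one_sub_of_interval (x := 1 / 20) (by norm_num) (by norm_num)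
    refine h4.trans (by norm_num)
  have m0 : 0 ≤ ∏ p ∈ S, min 49 (Real.exp (8 * ((p:ℝ) * (2 / L + |τ|)))) :=
    prod_nonneg fun p _ => le_min (by norm_num) (Real.exp_pos _).le
  have m1 : ∏ p ∈ S, min 49 (Real.exp (8 * ((p:ℝ) * (2 / L + |τ|)))) ≤ M := by
    rw [hM, ← prod_const]
    exact prod_le_prod (fun p _ => le_min (by norm_num) (Real.exp_pos _).le) fun p _ => min_le_left _ _
  have m2 : ∏ p ∈ S, min 49 (Real.exp (8 * ((p:ℝ) * (2 / L + |τ|)))) ≤ Real.exp (8 * (P * (2 / L + |τ|))) := by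
    have e2 : 8 * (P * (2 / L + |τ|)) = ∑ p ∈ S, 8 * ((p:ℝ) * (2 / L + |τ|)) := by
      rw [hP, sum_mul, mul_sum]
    rw [e2, Real.exp_sum]
    exact prod_le_prod (fun p _ => le_min (by norm_num) (Real.exp_pos _).le) fun p _ => min_le_right _ _
  have key : ∏ p ∈ S, min 49 (Real.exp (8 * ((p:ℝ) * (2 / L + |τ|)))) ≤ 2 * (1 + L * |τ|) := by
    have hLτ : 0 ≤ L * |τ| := by positivity
    by_cases hc : 8 * (P * |τ|) ≤ 1 / 10
    · refine m2.trans ?_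
      have h3 : 8 * (P * (2 / L + |τ|)) ≤ 1 / 2 := by
        have : P * (2 / L) ≤ 1 / 20 := by
          rw [mul_div_assoc', div_le_iff₀ hL0]; linarith
        linarith [mul_add P (2 / L) |τ|]
      refine (Real.exp_le_exp.mpr h3).trans ?_
      have h4 := Real.exp_bound_div_one_sub_of_interval (x := 1 / 2) (by norm_num) (by norm_num)
      have h5 : (1:ℝ) / (1 - 1 / 2) = 2 := by norm_num
      rw [h5] at h4
      linarith
    · push Not at hc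
      refine m1.trans ?_
      have hPτ : 1 ≤ 80 * (P * |τ|) := by linarith
      have h3 : M * 1 ≤ M * (80 * (P * |τ|)) := mul_le_mul_of_nonneg_left hPτ hM0.le
      have h4 : (M * (80 * P)) * |τ| ≤ L * |τ| := mul_le_mul_of_nonneg_right hLb (abs_nonneg _)
      have h5 : M * (80 * (P * |τ|)) = (M * (80 * P)) * |τ| := by ring
      linarith
  calc SFac S z (wp δ τ) θ ≤ X * Real.exp (2 * P / L) * ∏ p ∈ S, min 49 (Real.exp (8 * ((p:ℝ) * (2 / L + |τ|)))) := h1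
    _ ≤ X * (3 / 2) * (2 * (1 + L * |τ|)) := by gcongr
    _ ≤ 4 * X * (1 + L * |τ|) := by
        have : 0 ≤ X * (1 + L * |τ|) := by positivity
        linarith

end

end Pool.Agent.KS6_89.PP
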