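import Pool.Agent.KS6_89.PP.To2
import Pool.Graph.R_seed8.Y755.Fm4

set_option autoImplicit false

/-! The average over the torus and the quadratic form, with a factor at `S` (project PP). -/

namespace Pool.Agent.KS6_89.PP

open Finset MeasureTheory Complex
open Pool.Agent.W184.NZ
open Pool.Agent.TH806 (Ix PP ap ZT wp gt Par cf cf_norm Af Af_nonneg uE uE_main uE_far uE_zero u0 small_prime big_prime
  ap_lt ub_lt gap_sum err_sum QS MS SF SF_sq PP_bdd PP_cont evt evt_GP evt_cont evt_norm_le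
  QS_int fub_int gt_nonneg uu)
open Pool.Agent.Y755 (block_bound4)
open Pool.Agent.H448R2.GC (cu ker cs Ps scale_integral scale_integrable cu_nonneg cu_le_one)

noncomputable section

/-- the data of the ranges of primes -/
structure BS' (c : ℝ) (z : ℕ) (S : Finset ℕ) (y : ℝ) (J : ℕ) (I : ℕ → Finset ℕ) : Prop where
  c0 : 0 ≤ c
  z1 : 144 ≤ z
  y1 : 144 ≤ y
  rg : Rg c J I (bb y)
  dS : ∀ i, Disjoint (I i) S
  sy : ∀ p ∈ S, (p:ℝ) ≤ y
  cover : ∀ p : ℕ, p.Prime → z ≤ p → (p:ℝ) ≤ y → p ∉ S → ∃ i < J, p ∈ I i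

/-- the bound for the average over the torus -/
theorem tor_fin (c A : ℝ) (z0 : ℕ) : ∃ C : ℝ, 0 < C ∧ ∀ (S : Finset ℕ), (∀ p ∈ S, p.Prime) →
    ∀ (K : Finset (S → ℤ)) (cK : (S → ℤ) → ℝ), (∀ z ∈ TT S, 0 ≤ fg K cK z) → 0 ≤ mg K cK →
    ∀ (y L δ τ α : ℝ) (z : ℂ) (N J Rs : ℕ) (I : ℕ → Finset ℕ),
    BS' c z0 S y J I → 1 ≤ Rs → Par L N z δ τ → 0 ≤ α → α ≤ 1 → Real.log y ≤ L → L ≤ A * Real.log y → y < N →
    ∫ θ, fg K cK (tz S θ) * (RF S z (wp δ τ) θ * gt J (-1 + α) (RR Rs) I θ) ∂(Pool.Agent.TH806.TT N) ≤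
      mg K cK * (C * Real.exp ((α ^ 2 + 2 * α) * ∑ i ∈ range J, vI (I i))) := by
  obtain ⟨C2, hC20, hC2⟩ := gap_sum
  obtain ⟨C3, hC30, hC3⟩ := err_sum
  refine ⟨Real.exp ((8 * z0 + C3) + (3 * (Real.log (3 * A) + C2) + C3) + C3 +
    (3 + 8 * Real.exp (25 * c)) * 2), Real.exp_pos _, ?_⟩
  intro S hS K cK hfg hmg y L δ τ α z N J Rs I hB hRs hP hα0 hα1 hyL hLy hyN
  have ha : |(-1 + α)| ≤ 9 / 8 := by rw [abs_le]; constructor <;> linarith
  have hy := hB.y1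
  have hL := hP.L1
  have hR1 : ∀ i, 1 ≤ RR Rs i := fun i => by unfold RR; omega
  have hIsub : ∀ i < J, I i ⊆ Nat.primesBelow N := by
    intro i hi p hp
    obtain ⟨a1, a2, a3⟩ := hB.rg.pr i p hp
    rw [Nat.mem_primesBelow]
    refine ⟨?_, a1⟩
    have h1 : (p:ℝ) ≤ y := a3.trans (bb_le (by linarith) i)
    have h2 : (p:ℝ) < N := lt_of_le_of_lt h1 hyN
    exact_mod_cast h2
  have hSN : S ⊆ Nat.primesBelow N := by
    intro p hp
    rw [Nat.mem_primesBelow]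
    refine ⟨?_, hS p hp⟩
    have h2 : (p:ℝ) < N := lt_of_le_of_lt (hB.sy p hp) hyN
    exact_mod_cast h2
  have hmain := tor_boundS (S := S) (N := N) (z := z) (w := wp δ τ) hSN (fun p => by linarith [ap_lt hP p])
    (fun p => by linarith [ub_lt hP p]) hfg hmg (J := J) ha hR1 hIsub (fun i _ => hB.dS i) hB.rg.dj
    (u0 := u0 L τ) (u1 := fun p j => uE L τ (cf (-1 + α) j) p)
    (fun p _ => by
      unfold u0
      split_ifs with h144
      · exact small_prime hP p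
      · have := big_prime hP p (by omega) (c := 0) (by simp)
        rwa [zero_mul] at this)
    (fun p i hi hpi j => by
      have h144 : 144 ≤ p.1 := (hB.rg.pr i p.1 hpi).2.1
      exact big_prime hP p h144 (cf_norm ha j))
  refine hmain.trans (mul_le_mul_of_nonneg_left ?_ hmg)
  -- first factor
  have F1 : ∑ p ∈ (Nat.primesBelow N).filter (fun p => p ∉ S ∧ ∀ i < J, p ∉ I i), u0 L τ p ≤
      (8 * z0 + C3) + (3 * (Real.log (3 * A) + C2) + C3) := by
    rw [← sum_filter_add_sum_filter_not _ (fun p : ℕ => p < z0)]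
    refine add_le_add ?_ ?_
    · set S' := ((Nat.primesBelow N).filter (fun p => p ∉ S ∧ ∀ i < J, p ∉ I i)).filter (fun p => p < z0) with hS'
      have hSm : ∀ p ∈ S', p ∈ Nat.primesBelow N ∧ p < z0 := by
        intro p hp
        rw [hS', mem_filter, mem_filter] at hp
        exact ⟨hp.1.1, hp.2⟩
      have h5 := hC3 N L hL hP.hN S' (fun p hp => (hSm p hp).1)
      have h6 : ∑ p ∈ S', Pool.Agent.TH806.er L p ≤ C3 := h5
      have h7 : ∑ p ∈ S', u0 L τ p ≤ ∑ p ∈ S', (8 + Pool.Agent.TH806.er L p) := by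
        refine sum_le_sum fun p hp => ?_
        have hpp := (Nat.mem_primesBelow.mp (hSm p hp).1).2
        have hp1 : 1 ≤ p := hpp.one_lt.le
        have he := Pool.Agent.TH806.er_nonneg hL hp1
        unfold u0
        split_ifs
        · linarith
        · refine (uE_zero p).trans ?_
          have : (1:ℝ) / p ≤ 1 := by
            rw [div_le_one (by exact_mod_cast hp1)]; exact_mod_cast hp1
          linarith
      have h8 : (S'.card : ℝ) ≤ z0 := by
        have : S'.card ≤ (range z0).card := card_le_card fun p hp => mem_range.mpr (hSm p hp).2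
        rw [card_range] at this
        exact_mod_cast this
      rw [sum_add_distrib, sum_const, nsmul_eq_mul] at h7
      linarith
    · set S' := ((Nat.primesBelow N).filter (fun p => p ∉ S ∧ ∀ i < J, p ∉ I i)).filter (fun p : ℕ => ¬ p < z0) with hS'
      have hSm : ∀ p ∈ S', p ∈ Nat.primesBelow N ∧ y < (p:ℝ) ∧ z0 ≤ p := by
        intro p hp
        rw [hS', mem_filter, mem_filter] at hp
        refine ⟨hp.1.1, ?_, by omega⟩
        by_contra hcon
        push Not at hcon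
        obtain ⟨i, hi, hpi⟩ := hB.cover p (Nat.mem_primesBelow.mp hp.1.1).2 (by omega) hcon hp.1.2.1
        exact hp.1.2.2 i hi hpi
      have hz1 := hB.z1
      have h1 : ∑ p ∈ S', u0 L τ p ≤ ∑ p ∈ S', (3 * (1 / (p:ℝ)) + Pool.Agent.TH806.er L p) := by
        refine sum_le_sum fun p hp => ?_
        unfold u0
        rw [if_neg (by have := (hSm p hp).2.2; omega)]
        exact uE_zero p
      refine h1.trans ?_
      rw [sum_add_distrib, ← mul_sum]
      have h2 : ∑ p ∈ S', 1 / (p:ℝ) ≤ ∑ p ∈ (Nat.primesBelow N).filter (fun p : ℕ => y < (p:ℝ)), (1:ℝ) / p := by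
        refine sum_le_sum_of_subset_of_nonneg (fun p hp => ?_) fun p _ _ => by positivity
        rw [mem_filter]; exact ⟨(hSm p hp).1, (hSm p hp).2.1⟩
      have h3 := hC2 y (by linarith) N L hL hP.hN (by linarith)
      have hly : 0 < Real.log y := Real.log_pos (by linarith)
      have h4 : Real.log (3 * L) - Real.log (Real.log y) ≤ Real.log (3 * A) := by
        rw [← Real.log_div (by positivity) hly.ne']
        refine Real.log_le_log (by positivity) ?_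
        rw [div_le_iff₀ hly]; linarith
      have h5 := hC3 N L hL hP.hN S' (fun p hp => (hSm p hp).1)
      have h6 : ∑ p ∈ S', Pool.Agent.TH806.er L p ≤ C3 := h5
      linarith
  -- blocks
  have F2 : ∏ i ∈ range J, ∑ j : Fin 5, Af (RR Rs i) j * Real.exp (∑ p ∈ I i, uE L τ (cf (-1 + α) j) p) ≤
      Real.exp (∑ i ∈ range J, ∑ p ∈ I i, uE L τ (cf (-1 + α) 0) p) *
        Real.exp ((3 + 8 * Real.exp (25 * c)) * 2) := by
    calc _ ≤ ∏ i ∈ range J, (Real.exp (∑ p ∈ I i, uE L τ (cf (-1 + α) 0) p) *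
        Real.exp ((3 + 8 * Real.exp (25 * c)) * Real.exp (-(RR Rs i:ℝ)))) := by
          refine prod_le_prod (fun i _ => sum_nonneg fun j _ => mul_nonneg (Af_nonneg _ _) (Real.exp_pos _).le) ?_
          intro i hi
          exact block_bound4 hα0 hα1 (hB.rg.v i (mem_range.mp hi)) _
      _ = Real.exp (∑ i ∈ range J, ∑ p ∈ I i, uE L τ (cf (-1 + α) 0) p) *
          Real.exp ((3 + 8 * Real.exp (25 * c)) * ∑ i ∈ range J, Real.exp (-(RR Rs i:ℝ))) := by
          rw [prod_mul_distrib, ← Real.exp_sum, ← Real.exp_sum, mul_sum]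
      _ ≤ _ := by
          refine mul_le_mul_of_nonneg_left (Real.exp_le_exp.mpr ?_) (Real.exp_pos _).le
          have h1 := sum_exp_le J Rs (RR_ge Rs)
          have h2 : Real.exp (-(Rs:ℝ)) ≤ 1 := Real.exp_le_one_iff.mpr (by simp)
          refine mul_le_mul_of_nonneg_left (by linarith) (by positivity)
  have F3 : ∑ i ∈ range J, ∑ p ∈ I i, uE L τ (cf (-1 + α) 0) p ≤
      (α ^ 2 + 2 * α) * (∑ i ∈ range J, vI (I i)) + C3 := by
    have h1 : ∑ i ∈ range J, ∑ p ∈ I i, uE L τ (cf (-1 + α) 0) p ≤ ∑ i ∈ range J, ∑ p ∈ I i,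
        ((α ^ 2 + 2 * α) * (1 / (p:ℝ)) + Pool.Agent.TH806.er L p) := by
      refine sum_le_sum fun i _ => sum_le_sum fun p _ => ?_
      rw [uE_main]
      have c2 := Real.cos_le_one (τ * Real.log p)
      have h5 : (0:ℝ) ≤ 1 / p := by positivity
      have h6 : α ^ 2 + 2 * α * Real.cos (τ * Real.log p) ≤ α ^ 2 + 2 * α := by nlinarith
      have h7 := mul_le_mul_of_nonneg_right h6 h5
      linarith
    refine h1.trans ?_
    simp_rw [sum_add_distrib, ← mul_sum]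
    have h8 : ∑ i ∈ range J, ∑ p ∈ I i, Pool.Agent.TH806.er L p ≤ C3 := by
      rw [← sum_biUnion]
      · refine hC3 N L hL hP.hN _ fun p hp => ?_
        rw [mem_biUnion] at hp
        obtain ⟨i, hi, hpi⟩ := hp
        exact hIsub i (mem_range.mp hi) hpi
      · intro i _ j _ hij
        rcases lt_or_gt_of_ne hij with h | h
        · exact hB.rg.dj i j h
        · exact (hB.rg.dj j i h).symm
    refine add_le_add (le_of_eq ?_) h8
    unfold vI
    rfl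
  have key : Real.exp (∑ p ∈ (Nat.primesBelow N).filter (fun p => p ∉ S ∧ ∀ i < J, p ∉ I i), u0 L τ p) *
      ∏ i ∈ range J, ∑ j : Fin 5, Af (RR Rs i) j * Real.exp (∑ p ∈ I i, uE L τ (cf (-1 + α) j) p) ≤
      Real.exp ((8 * z0 + C3) + (3 * (Real.log (3 * A) + C2) + C3)) *
      (Real.exp ((α ^ 2 + 2 * α) * (∑ i ∈ range J, vI (I i)) + C3) *
        Real.exp ((3 + 8 * Real.exp (25 * c)) * 2)) := by
    refine mul_le_mul (Real.exp_le_exp.mpr F1) (F2.trans ?_) ?_ (Real.exp_pos _).le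
    · exact mul_le_mul_of_nonneg_right (Real.exp_le_exp.mpr F3) (Real.exp_pos _).le
    · exact prod_nonneg fun i _ => sum_nonneg fun j _ => mul_nonneg (Af_nonneg _ _) (Real.exp_pos _).le
  refine key.trans (le_of_eq ?_)
  rw [← Real.exp_add, ← Real.exp_add, ← Real.exp_add]
  congr 1
  ring

/-- the factor of the algebra -/
def HS {S : Finset ℕ} (K : Finset (S → ℤ)) (c : (S → ℤ) → ℝ) : DA := (EE S * EC S) ^ 2 * GG' K c

/-- its values -/
def hs {S : Finset ℕ} (K : Finset (S → ℤ)) (c : (S → ℤ) → ℝ) (z : S → ℂ) : ℝ := ‖es S z‖ ^ 4 * fg K c z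

lemma HS_mem {S : Finset ℕ} (hS : ∀ p ∈ S, p.Prime) (K : Finset (S → ℤ)) (c : (S → ℤ) → ℝ) :
    HS K c ∈ SA (MI S) :=
  Subalgebra.mul_mem _ (Subalgebra.pow_mem _ (Subalgebra.mul_mem _ (EE_mem hS) (EC_mem hS)) 2) (GG'_mem hS K c)

lemma sq4 (w : ℂ) : (w * starRingEnd ℂ w) ^ 2 = ((‖w‖ ^ 4 : ℝ) : ℂ) := by
  rw [Complex.mul_conj, Complex.normSq_eq_norm_sq]
  push_cast; ring

lemma ev_HS {S : Finset ℕ} (hS : ∀ p ∈ S, p.Prime) (K : Finset (S → ℤ)) (c : (S → ℤ) → ℝ) (t : ℝ) :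
    ev t (HS K c) = ((hs K c (ph S t) : ℝ) : ℂ) := by
  unfold HS hs
  rw [map_mul, map_pow, map_mul, ev_EE hS, ev_EC hS, ev_GG' hS, sq4, Complex.ofReal_mul]

lemma evt_HS {N : ℕ} {S : Finset ℕ} (hS : ∀ p ∈ S, p.Prime) (K : Finset (S → ℤ)) (c : (S → ℤ) → ℝ) (θ : Ix N → ℝ) :
    evt θ (HS K c) = ((hs K c (tz S θ) : ℝ) : ℂ) := by
  unfold HS hs
  rw [map_mul, map_pow, map_mul, evt_EE hS, evt_EC hS, evt_GG' hS, sq4, Complex.ofReal_mul]

/-- a bound for the product on the torus -/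
lemma GP_Bdz' {c y : ℝ} {J : ℕ} {I : ℕ → Finset ℕ} (hy : 1 ≤ y) (h : Rg c J I (bb y)) (a : ℝ) (Rs : ℕ) :
    ∃ B : ℝ, ∀ (N : ℕ) (θ : Ix N → ℝ), ‖gt J a (RR Rs) I θ‖ ≤ B := by
  refine ⟨l1 (GP J a (RR Rs) I), fun N θ => ?_⟩
  have hpr : ∀ i, ∀ p ∈ I i, p.Prime := fun i p hp => (h.pr i p hp).1
  have h1 := evt_norm_le (Pool.Agent.Y755.GP_Bdz (Rs := Rs) hy h a) θ
  rw [evt_GP θ J _ _ hpr, Complex.norm_real] at h1
  exact h1

/-- the bound for the quadratic form -/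
theorem QS_fin (c A η B : ℝ) (z0 : ℕ) (k : ℕ) (hη : 0 < η) (hB : 1 ≤ B) (hk : 2 ≤ k) :
    ∃ C : ℝ, 0 < C ∧ ∀ (S : Finset ℕ), (∀ p ∈ S, p.Prime) → ∃ L₀ : ℝ, 1 ≤ L₀ ∧
    ∀ (K : Finset (S → ℤ)) (cK : (S → ℤ) → ℝ), (∀ z ∈ TT S, 0 ≤ fg K cK z) → 0 ≤ mg K cK →
    ∀ (y L ρ t α D : ℝ) (z : ℂ) (N J Rs M : ℕ) (I : ℕ → Finset ℕ), L₀ ≤ L →
    BS' c z0 S y J I → 1 ≤ Rs → (∀ p : ℕ, p < N → Real.log p ≤ 3 * L) → 1 ≤ L → ‖z‖ ≤ 1 / (20 * L) → 0 ≤ α → α ≤ 1 →
    Real.log y ≤ L → L ≤ A * Real.log y → y < N → |D| ≤ B * L → 0 ≤ ρ → ρ ≤ 1 / L →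
    Bd M (GP J (-1 + α) (RR Rs) I * HS K cK) → MS k (η * L / k) D * M < N → MS k (η * L / k) D < N →
    ‖QS z k (η * L / k) D (((1 / 2 + ρ : ℝ) : ℂ) + (t : ℂ) * Complex.I) (GP J (-1 + α) (RR Rs) I * HS K cK)‖ ≤
      C * Real.exp ((α ^ 2 + 2 * α) * ∑ i ∈ range J, vI (I i)) * ((∏ p ∈ S, (1 - 1 / (p:ℝ))) * mg K cK) *
        (1 + L * |t|) := by
  obtain ⟨C1, hC10, hC1⟩ := SF_sq η B k hη hB (by omega)
  obtain ⟨C2, hC20, hC2⟩ := tor_fin c A z0
  refine ⟨C1 * (4 * C2 * 2), by positivity, fun S hS => ?_⟩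
  obtain ⟨L₀, hL₀, hSF'⟩ := SFac_le S hS
  refine ⟨L₀, hL₀, ?_⟩
  intro K cK hfg hmg y L ρ t α D z N J Rs M I hLL hBL hRs hN hL hz hα0 hα1 hyL hLy hyN hD hρ0 hρ1 hBd hMN hMN'
  set w : ℂ := ((1 / 2 + ρ : ℝ) : ℂ) + (t : ℂ) * Complex.I with hw
  set G := GP J (-1 + α) (RR Rs) I * HS K cK with hG
  have hwre : w.re = 1 / 2 + ρ := by rw [hw]; simp
  have hL0 : 0 < L := by linarith
  have hLinv : 0 < 1 / L := by positivity
  have hSN : S ⊆ Nat.primesBelow N := by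
    intro p hp
    rw [Nat.mem_primesBelow]
    refine ⟨?_, hS p hp⟩
    have h2 : (p:ℝ) < N := lt_of_le_of_lt (hBL.sy p hp) hyN
    exact_mod_cast h2
  set X := ∏ p ∈ S, (1 - 1 / (p:ℝ)) with hX
  have hX0 : 0 < X := (prod_le_AS hS).1
  have hPar : ∀ τ : ℝ, Par L N z (ρ + 1 / L) τ := fun τ =>
    ⟨hL, hN, hz, by positivity, by have : 2 / L = 1 / L + 1 / L := by ring
                                   linarith⟩
  have hzp : ∀ p : Ix N, ‖ap N z p‖ < 1 := fun p => by linarith [ap_lt (hPar 0) p]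
  have hpr : ∀ i, ∀ p ∈ I i, p.Prime := fun i p hp => (hBL.rg.pr i p hp).1
  have hev : ∀ θ : Ix N → ℝ, evt θ G = ((gt J (-1 + α) (RR Rs) I θ * hs K cK (tz S θ) : ℝ) : ℂ) := fun θ => by
    rw [hG, map_mul, evt_GP θ J _ _ hpr, evt_HS hS, Complex.ofReal_mul]
  have hhs0 : ∀ θ : Ix N → ℝ, 0 ≤ hs K cK (tz S θ) := fun θ =>
    mul_nonneg (by positivity) (hfg _ (tz_mem θ))
  have hgh0 : ∀ θ : Ix N → ℝ, 0 ≤ gt J (-1 + α) (RR Rs) I θ * hs K cK (tz S θ) := fun θ =>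
    mul_nonneg (gt_nonneg _ _ _ _ _) (hhs0 θ)
  obtain ⟨BP, hBP0, hBP⟩ := PP_bdd hzp
  set Φ : (Ix N → ℝ) → ℝ := fun θ => ‖PP (ap N z) θ‖ * (gt J (-1 + α) (RR Rs) I θ * hs K cK (tz S θ)) with hΦ
  have hgtc : Continuous fun θ : Ix N → ℝ => gt J (-1 + α) (RR Rs) I θ * hs K cK (tz S θ) := by
    have h1 := Complex.continuous_re.comp (evt_cont (N := N) G)
    refine h1.congr fun θ => ?_
    simp only [Function.comp]
    rw [hev θ, Complex.ofReal_re]
  have hgtb : ∀ θ : Ix N → ℝ, |gt J (-1 + α) (RR Rs) I θ * hs K cK (tz S θ)| ≤ l1 G := by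
    intro θ
    have h1 := evt_norm_le hBd θ
    rw [hev θ, Complex.norm_real, Real.norm_eq_abs] at h1
    exact h1
  have hΦc : Continuous Φ := (PP_cont hzp).norm.mul hgtc
  have hΦb : ∀ θ, |Φ θ| ≤ BP * l1 G := by
    intro θ
    rw [hΦ]; simp only
    rw [abs_mul, abs_norm]
    exact mul_le_mul (hBP θ) (hgtb θ) (abs_nonneg _) hBP0
  have hΦ0 : ∀ θ, 0 ≤ Φ θ := fun θ => mul_nonneg (norm_nonneg _) (hgh0 θ)
  rw [QS_int hzp k _ D w hBd hMN]
  have hw1 : 0 < (w + ((1 / L : ℝ) : ℂ)).re := by rw [Complex.add_re, Complex.ofReal_re, hwre]; linarith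
  have hfub := fub_int hL (k := k) (by omega) hw1 hΦc hΦb
  have hSF : ∀ θ : Ix N → ℝ, ‖SF k (η * L / k) D w θ‖ ^ 2 ≤ C1 * ∫ v : ℝ, L / (1 + L * |v|) ^ (k + 1) *
      ‖ZT (w + ((1 / L : ℝ) : ℂ) + (v : ℂ) * Complex.I) θ‖ ^ 2 := by
    intro θ
    have hkk : (k:ℝ) * (η * L / k) = η * L := by
      have : (k:ℝ) ≠ 0 := by exact_mod_cast (by omega : k ≠ 0)
      field_simp
    have h1 := hC1 L D w N θ hL hD (by rw [hwre]; linarith) (by unfold MS at hMN'; rwa [hkk] at hMN')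
    simp_rw [add_assoc w]
    exact h1
  have step1 : ‖∫ θ, ((‖SF k (η * L / k) D w θ‖ ^ 2 : ℝ) : ℂ) * evt θ G * PP (ap N z) θ ∂(Pool.Agent.TH806.TT N)‖ ≤
      ∫ θ, (C1 * (∫ v : ℝ, Φ θ * (L / (1 + L * |v|) ^ (k + 1) *
        ‖ZT (w + ((1 / L : ℝ) : ℂ) + (v : ℂ) * Complex.I) θ‖ ^ 2))) ∂(Pool.Agent.TH806.TT N) := by
    refine norm_integral_le_of_norm_le (hfub.integral_prod_left.const_mul _)
      (Filter.Eventually.of_forall fun θ => ?_)
    rw [norm_mul, norm_mul, hev θ, Complex.norm_real, Complex.norm_real, Real.norm_eq_abs, Real.norm_eq_abs,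
      abs_of_nonneg (sq_nonneg _), abs_of_nonneg (hgh0 θ), integral_const_mul]
    calc ‖SF k (η * L / k) D w θ‖ ^ 2 * (gt J (-1 + α) (RR Rs) I θ * hs K cK (tz S θ)) * ‖PP (ap N z) θ‖ =
        Φ θ * ‖SF k (η * L / k) D w θ‖ ^ 2 := by rw [hΦ]; ring
      _ ≤ Φ θ * (C1 * ∫ v : ℝ, L / (1 + L * |v|) ^ (k + 1) *
          ‖ZT (w + ((1 / L : ℝ) : ℂ) + (v : ℂ) * Complex.I) θ‖ ^ 2) := mul_le_mul_of_nonneg_left (hSF θ) (hΦ0 θ)
      _ = _ := by ring
  refine step1.trans ?_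
  rw [integral_const_mul, mul_assoc, mul_assoc, mul_assoc]
  refine mul_le_mul_of_nonneg_left ?_ hC10.le
  rw [integral_integral_swap hfub]
  set E := Real.exp ((α ^ 2 + 2 * α) * ∑ i ∈ range J, vI (I i)) with hE
  have hE0 : 0 < E := Real.exp_pos _
  have step2 : ∀ v : ℝ, ∫ θ, Φ θ * (L / (1 + L * |v|) ^ (k + 1) *
        ‖ZT (w + ((1 / L : ℝ) : ℂ) + (v : ℂ) * Complex.I) θ‖ ^ 2) ∂(Pool.Agent.TH806.TT N) ≤
      (4 * C2 * (E * (X * mg K cK)) * (1 + L * |t|)) * (L / (1 + L * |v|) ^ k) := by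
    intro v
    have h0 : 0 ≤ L * |v| := by positivity
    have e1 : ∀ θ : Ix N → ℝ, Φ θ * (L / (1 + L * |v|) ^ (k + 1) * ‖ZT (w + ((1 / L : ℝ) : ℂ) + (v : ℂ) * Complex.I) θ‖ ^ 2) =
        (L / (1 + L * |v|) ^ (k + 1)) * (‖PP (ap N z) θ‖ * ‖ZT (wp (ρ + 1 / L) (t + v)) θ‖ ^ 2 *
          (gt J (-1 + α) (RR Rs) I θ * hs K cK (tz S θ))) := by
      intro θ
      have : w + ((1 / L : ℝ) : ℂ) + (v : ℂ) * Complex.I = wp (ρ + 1 / L) (t + v) := by
        rw [hw]; unfold wp; push_cast; ring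
      rw [this, hΦ]; ring
    simp_rw [e1]
    rw [integral_const_mul]
    have h1 := hC2 S hS K cK hfg hmg y L (ρ + 1 / L) (t + v) α z N J Rs I hBL hRs (hPar _) hα0 hα1 hyL hLy hyN
    have h2 : 1 + L * |t + v| ≤ (1 + L * |t|) * (1 + L * |v|) := by
      have a1 : |t + v| ≤ |t| + |v| := abs_add_le _ _
      have a2 : 0 ≤ L * |t| := by positivity
      nlinarith
    have h3 : 0 ≤ L / (1 + L * |v|) ^ (k + 1) := by positivity
    have h4 : 0 ≤ 4 * X * (1 + L * |t + v|) := by positivity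
    -- pointwise
    have hRF0 : ∀ θ : Ix N → ℝ, 0 ≤ RF S z (wp (ρ + 1 / L) (t + v)) θ := fun θ => by
      unfold RF
      refine prod_nonneg fun p _ => ?_
      split_ifs
      · exact zero_le_one
      · positivity
    have h5 : ∀ θ : Ix N → ℝ, ‖PP (ap N z) θ‖ * ‖ZT (wp (ρ + 1 / L) (t + v)) θ‖ ^ 2 *
          (gt J (-1 + α) (RR Rs) I θ * hs K cK (tz S θ)) ≤ (4 * X * (1 + L * |t + v|)) *
          (fg K cK (tz S θ) * (RF S z (wp (ρ + 1 / L) (t + v)) θ * gt J (-1 + α) (RR Rs) I θ)) := by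
      intro θ
      have e2 : ‖PP (ap N z) θ‖ * ‖ZT (wp (ρ + 1 / L) (t + v)) θ‖ ^ 2 *
          (gt J (-1 + α) (RR Rs) I θ * hs K cK (tz S θ)) = SFac S z (wp (ρ + 1 / L) (t + v)) θ *
          (fg K cK (tz S θ) * (RF S z (wp (ρ + 1 / L) (t + v)) θ * gt J (-1 + α) (RR Rs) I θ)) := by
        have e3 := SFac_eq hSN z (wp (ρ + 1 / L) (t + v)) θ
        unfold hs
        calc _ = (‖PP (ap N z) θ‖ * ‖ZT (wp (ρ + 1 / L) (t + v)) θ‖ ^ 2 * ‖es S (tz S θ)‖ ^ 4) *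
              (gt J (-1 + α) (RR Rs) I θ * fg K cK (tz S θ)) := by ring
          _ = _ := by rw [e3]; ring
      rw [e2]
      refine mul_le_mul_of_nonneg_right (hSF' N L _ _ z hLL hSN (hPar _) θ) ?_
      exact mul_nonneg (hfg _ (tz_mem θ)) (mul_nonneg (hRF0 θ) (gt_nonneg _ _ _ _ _))
    -- continuity of the majorant
    have hRFc : Continuous fun θ : Ix N → ℝ => fg K cK (tz S θ) *
        (RF S z (wp (ρ + 1 / L) (t + v)) θ * gt J (-1 + α) (RR Rs) I θ) := by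
      have c1 : Continuous fun θ : Ix N → ℝ => RF S z (wp (ρ + 1 / L) (t + v)) θ := by
        unfold RF
        refine continuous_finsetProd _ fun p _ => ?_
        by_cases h : p.1 ∈ S
        · simp only [h, if_true]; exact continuous_const
        · simp only [h, if_false]
          have hu : ‖Pool.Agent.TH806.ub N (wp (ρ + 1 / L) (t + v)) p‖ < 1 := by linarith [ub_lt (hPar (t + v)) p]
          have g1 := (Pool.Agent.TH806.Pk_cont (hzp p)).comp (continuous_apply (A := fun _ : Ix N => ℝ) p)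
          have g2 := (Pool.Agent.TH806.geo_cont hu continuous_id).comp (continuous_apply (A := fun _ : Ix N => ℝ) p)
          exact g1.norm.mul (g2.norm.pow 2)
      have c2 : Continuous fun θ : Ix N → ℝ => gt J (-1 + α) (RR Rs) I θ := by
        have h1 := Complex.continuous_re.comp (evt_cont (N := N) (GP J (-1 + α) (RR Rs) I))
        refine h1.congr fun θ => ?_
        simp only [Function.comp]
        rw [evt_GP θ J _ _ hpr, Complex.ofReal_re]
      exact (fg_tz_cont K cK).mul (c1.mul c2)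
    have hRFi : Integrable (fun θ : Ix N → ℝ => fg K cK (tz S θ) *
        (RF S z (wp (ρ + 1 / L) (t + v)) θ * gt J (-1 + α) (RR Rs) I θ)) (Pool.Agent.TH806.TT N) := by
      obtain ⟨Bf, hBf⟩ := (TT_compact S).exists_bound_of_continuousOn (fg_cont K cK)
      have hBd2 := GP_Bdz' (y := y) (J := J) (I := I) (c := c) (by linarith [hBL.y1]) hBL.rg (-1 + α) Rs
      obtain ⟨Bg, hBg⟩ := hBd2
      refine Integrable.of_bound (C := |Bf| * ((∏ p : Ix N, (1 + 2 * (1 - ‖ap N z p‖)⁻¹ *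
        (1 - ‖Pool.Agent.TH806.ub N (wp (ρ + 1 / L) (t + v)) p‖)⁻¹ ^ 2)) * Bg)) hRFc.aestronglyMeasurable
        (Filter.Eventually.of_forall fun θ => ?_)
      rw [norm_mul, norm_mul]
      refine mul_le_mul ((hBf _ (tz_mem θ)).trans (le_abs_self _)) ?_ (by positivity) (abs_nonneg _)
      refine mul_le_mul ?_ ?_ (norm_nonneg _) ?_
      · rw [Real.norm_of_nonneg (hRF0 θ)]
        unfold RF
        refine prod_le_prod (fun p _ => ?_) fun p _ => ?_
        · split_ifs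
          · exact zero_le_one
          · positivity
        · have ha1 := hzp p
          have hu : ‖Pool.Agent.TH806.ub N (wp (ρ + 1 / L) (t + v)) p‖ < 1 := by linarith [ub_lt (hPar (t + v)) p]
          have b3 : 0 < (1 - ‖ap N z p‖)⁻¹ := inv_pos.mpr (by linarith)
          have b4 : 0 < (1 - ‖Pool.Agent.TH806.ub N (wp (ρ + 1 / L) (t + v)) p‖)⁻¹ := inv_pos.mpr (by linarith)
          have b5 : 0 ≤ 2 * (1 - ‖ap N z p‖)⁻¹ *
            (1 - ‖Pool.Agent.TH806.ub N (wp (ρ + 1 / L) (t + v)) p‖)⁻¹ ^ 2 := by positivity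
          split_ifs
          · linarith
          · have b1 := Pool.Agent.TH806.Pk_bdd ha1 (θ p)
            have b2 := Pool.Agent.TH806.geo_bdd hu (θ p)
            have : ‖Pool.Agent.TH806.Pk (ap N z p) (θ p)‖ * ‖(1 - Pool.Agent.TH806.ub N (wp (ρ + 1 / L) (t + v)) p *
                Pool.Agent.TH806.ec (θ p))⁻¹‖ ^ 2 ≤ 2 * (1 - ‖ap N z p‖)⁻¹ *
                (1 - ‖Pool.Agent.TH806.ub N (wp (ρ + 1 / L) (t + v)) p‖)⁻¹ ^ 2 := by
              gcongr
            linarith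
      · exact hBg N θ
      · refine prod_nonneg fun p _ => ?_
        have b3 : 0 < (1 - ‖ap N z p‖)⁻¹ := inv_pos.mpr (by linarith [hzp p])
        positivity
    have h6 : ∫ θ, ‖PP (ap N z) θ‖ * ‖ZT (wp (ρ + 1 / L) (t + v)) θ‖ ^ 2 *
          (gt J (-1 + α) (RR Rs) I θ * hs K cK (tz S θ)) ∂(Pool.Agent.TH806.TT N) ≤
        (4 * X * (1 + L * |t + v|)) * (mg K cK * (C2 * E)) := by
      refine (integral_mono_of_nonneg (Filter.Eventually.of_forall fun θ => ?_) (hRFi.const_mul _)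
        (Filter.Eventually.of_forall h5)).trans ?_
      · exact mul_nonneg (mul_nonneg (norm_nonneg _) (sq_nonneg _)) (hgh0 θ)
      · rw [integral_const_mul]
        exact mul_le_mul_of_nonneg_left h1 h4
    calc L / (1 + L * |v|) ^ (k + 1) * _ ≤ L / (1 + L * |v|) ^ (k + 1) *
          ((4 * X * (1 + L * |t + v|)) * (mg K cK * (C2 * E))) := mul_le_mul_of_nonneg_left h6 h3
      _ ≤ L / (1 + L * |v|) ^ (k + 1) * ((4 * X * ((1 + L * |t|) * (1 + L * |v|))) * (mg K cK * (C2 * E))) := by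
          gcongr
      _ = _ := by
          rw [pow_succ]
          field_simp
  have hgk := scale_integrable L k hL hk
  have hg2 := scale_integral L k hL hk
  calc ∫ v : ℝ, ∫ θ, Φ θ * (L / (1 + L * |v|) ^ (k + 1) *
        ‖ZT (w + ((1 / L : ℝ) : ℂ) + (v : ℂ) * Complex.I) θ‖ ^ 2) ∂(Pool.Agent.TH806.TT N) ≤
      ∫ v : ℝ, (4 * C2 * (E * (X * mg K cK)) * (1 + L * |t|)) * (L / (1 + L * |v|) ^ k) := by
        refine integral_mono_of_nonneg (Filter.Eventually.of_forall fun v => ?_) (hgk.const_mul _)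
          (Filter.Eventually.of_forall step2)
        refine integral_nonneg fun θ => mul_nonneg (hΦ0 θ) (mul_nonneg ?_ (sq_nonneg _))
        have h0 : 0 ≤ L * |v| := by positivity
        positivity
    _ ≤ (4 * C2 * (E * (X * mg K cK)) * (1 + L * |t|)) * 2 := by
        rw [integral_const_mul]
        refine mul_le_mul_of_nonneg_left hg2 ?_
        have a2 : 0 ≤ L * |t| := by positivity
        positivity
    _ = _ := by ring

end

end Pool.Agent.KS6_89.PP
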