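import Pool.Graph.R_seed8.TH806.LK.Fin

set_option autoImplicit false

/-! Monomials in the phases of a finite set of primes (project PP). -/

namespace Pool.Agent.KS6_89.PP

open Finset MonoidAlgebra Complex
open Pool.Agent.W184.NZ
open Pool.Agent.TH806.LK (wF P_WF a_WF)

noncomputable section

/-- multiplicative weights -/
structure Mlt (w : ℕ × ℕ → ℝ) : Prop where
  one : w (1, 1) = 1
  mul : ∀ {I J : Finset ℕ}, Disjoint I J → ∀ {f g : DA}, f ∈ SA (MI I) → g ∈ SA (MI J) →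
    lam w (f * g) = lam w f * lam w g

lemma mlt0 : Mlt w0 := ⟨goodW0.one, fun h _ _ hf hg => goodW0.mul h hf hg⟩

lemma mlt1 : Mlt w1 := ⟨goodW1.one, fun h _ _ hf hg => goodW1.mul h hf hg⟩

lemma mltF : Mlt wF := ⟨by unfold wF; simp, fun h f g hf hg => a_WF _ _ h f g hf hg⟩

lemma lam_oneM {w : ℕ × ℕ → ℝ} (h : Mlt w) : lam w 1 = 1 := by
  rw [MonoidAlgebra.one_def, lam_single, one_mul]
  exact h.one

lemma prod_memS {S : Finset ℕ} {f : ℕ → DA} (hf : ∀ p ∈ S, f p ∈ SA (MI {p})) :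
    ∏ p ∈ S, f p ∈ SA (MI S) := by
  refine Subalgebra.prod_mem _ fun p hp => ?_
  exact SA_mono (singleton_subset_iff.mpr hp) (hf p hp)

lemma lam_fprod {w : ℕ × ℕ → ℝ} (hw : Mlt w) (S : Finset ℕ) (f : ℕ → DA)
    (hf : ∀ p ∈ S, f p ∈ SA (MI {p})) : lam w (∏ p ∈ S, f p) = ∏ p ∈ S, lam w (f p) := by
  induction S using Finset.induction with
  | empty => rw [prod_empty, prod_empty, lam_oneM hw]
  | insert a s ha ih =>
    have hf' : ∀ p ∈ s, f p ∈ SA (MI {p}) := fun p hp => hf p (mem_insert_of_mem hp)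
    rw [prod_insert ha, prod_insert ha, hw.mul (I := {a}) (J := s) (by simpa using ha)
      (hf a (mem_insert_self _ _)) (prod_memS hf'), ih hf']

/-- the unimodular monomial `p^{-int}` -/
def mz (p : ℕ) (n : ℤ) : DA :=
  single (p ^ n.toNat, p ^ (-n).toNat) (((p : ℝ) ^ (1 / 2 : ℝ)) ^ (n.toNat + (-n).toNat))

lemma pow_mem_MI {p : ℕ} (hp : p.Prime) (a b : ℕ) : ((p ^ a, p ^ b) : ℕ × ℕ) ∈ MI {p} := by
  refine ⟨pow_ne_zero _ hp.ne_zero, pow_ne_zero _ hp.ne_zero, fun q hq h => ?_⟩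
  rw [mem_singleton]
  rcases h with h | h
  · exact (Nat.prime_dvd_prime_iff_eq hq hp).mp (hq.dvd_of_dvd_pow h)
  · exact (Nat.prime_dvd_prime_iff_eq hq hp).mp (hq.dvd_of_dvd_pow h)

lemma mz_mem {p : ℕ} (hp : p.Prime) (n : ℤ) : mz p n ∈ SA (MI {p}) :=
  single_mem_SA (pow_mem_MI hp _ _) _

/-- the local factors -/
def EP (p : ℕ) : DA := 1 - single (p, 1) 1

/-- the conjugate local factors -/
def EQ (p : ℕ) : DA := 1 - single (1, p) 1

lemma EP_mem {p : ℕ} (hp : p.Prime) : EP p ∈ SA (MI {p}) := by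
  have h := pow_mem_MI hp 1 0
  rw [pow_one, pow_zero] at h
  exact Subalgebra.sub_mem _ (Subalgebra.one_mem _) (single_mem_SA h 1)

lemma EQ_mem {p : ℕ} (hp : p.Prime) : EQ p ∈ SA (MI {p}) := by
  have h := pow_mem_MI hp 0 1
  rw [pow_one, pow_zero] at h
  exact Subalgebra.sub_mem _ (Subalgebra.one_mem _) (single_mem_SA h 1)

lemma toNat_cases (n : ℤ) : (n = 0 ∧ n.toNat = 0 ∧ (-n).toNat = 0) ∨
    (n ≠ 0 ∧ 0 < n.toNat ∧ (-n).toNat = 0) ∨ (n ≠ 0 ∧ n.toNat = 0 ∧ 0 < (-n).toNat) := by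
  omega

lemma l0_mz {p : ℕ} (hp : p.Prime) (n : ℤ) : lam w0 (mz p n) = if n = 0 then 1 else 0 := by
  unfold mz
  rw [lam_single, goodW0.loc p hp]
  rcases toNat_cases n with ⟨h1, h2, h3⟩ | ⟨h1, h2, h3⟩ | ⟨h1, h2, h3⟩
  · rw [if_pos h1, h2, h3]; simp
  · rw [if_neg h1, h3, Nat.max_zero, Nat.min_zero, Nat.sub_zero, zero_div, zero_pow (by omega)]; ring
  · rw [if_neg h1, h2, Nat.zero_max, Nat.zero_min, Nat.sub_zero, zero_div, zero_pow (by omega)]; ring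

lemma EP_mul (p a b : ℕ) (c : ℝ) : EP p * single (p ^ a, p ^ b) c =
    single (p ^ a, p ^ b) c - single (p ^ (a + 1), p ^ b) c := by
  unfold EP
  rw [sub_mul, one_mul, MonoidAlgebra.single_mul_single, one_mul, Prod.mk_mul_mk, one_mul, pow_succ,
    mul_comm p]

lemma EQ_mul (p a b : ℕ) (c : ℝ) : EQ p * single (p ^ a, p ^ b) c =
    single (p ^ a, p ^ b) c - single (p ^ a, p ^ (b + 1)) c := by
  unfold EQ
  rw [sub_mul, one_mul, MonoidAlgebra.single_mul_single, one_mul, Prod.mk_mul_mk, one_mul, pow_succ,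
    mul_comm p]

lemma wF_loc {p : ℕ} (hp : p.Prime) (a b : ℕ) : wF (p ^ a, p ^ b) = if a ≤ b then 1 / (p:ℝ) ^ b else 0 := by
  unfold wF
  simp only [Nat.pow_dvd_pow_iff_le_right hp.one_lt]
  push_cast
  rfl

lemma lF_mz {p : ℕ} (hp : p.Prime) (n : ℤ) : lam wF (EP p * mz p n) = if n = 0 then 1 else 0 := by
  unfold mz
  rw [EP_mul, map_sub, lam_single, lam_single, wF_loc hp, wF_loc hp]
  rcases toNat_cases n with ⟨h1, h2, h3⟩ | ⟨h1, h2, h3⟩ | ⟨h1, h2, h3⟩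
  · rw [if_pos h1, h2, h3]; simp
  · rw [if_neg h1, h3, if_neg (by omega), if_neg (by omega)]; ring
  · rw [if_neg h1, h2, if_pos (by omega), if_pos (by omega)]; ring

lemma w1_loc {p : ℕ} (hp : p.Prime) (a b : ℕ) : w1 (p ^ a, p ^ b) = (1 / (p:ℝ)) ^ (max a b) := by
  rw [goodW1.loc p hp, ← pow_add]
  congr 1
  omega

lemma l1_mz {p : ℕ} (hp : p.Prime) (n : ℤ) :
    lam w1 (EP p * EQ p * mz p n) = (1 - 1 / (p:ℝ)) * if n = 0 then 1 else 0 := by
  unfold mz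
  rw [mul_assoc, EQ_mul, mul_sub, EP_mul, EP_mul, map_sub, map_sub, map_sub, lam_single, lam_single,
    lam_single, lam_single, w1_loc hp, w1_loc hp, w1_loc hp, w1_loc hp]
  rcases toNat_cases n with ⟨h1, h2, h3⟩ | ⟨h1, h2, h3⟩ | ⟨h1, h2, h3⟩
  · rw [if_pos h1, h2, h3]; simp
  · rw [if_neg h1, h3]
    have e1 : max n.toNat 0 = n.toNat := by omega
    have e2 : max (n.toNat + 1) 0 = n.toNat + 1 := by omega
    have e3 : max n.toNat (0 + 1) = n.toNat := by omega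
    have e4 : max (n.toNat + 1) (0 + 1) = n.toNat + 1 := by omega
    rw [e1, e2, e3, e4]; ring
  · rw [if_neg h1, h2]
    set b := (-n).toNat
    have e1 : max 0 b = b := by omega
    have e2 : max (0 + 1) b = b := by omega
    have e3 : max 0 (b + 1) = b + 1 := by omega
    have e4 : max (0 + 1) (b + 1) = b + 1 := by omega
    rw [e1, e2, e3, e4]; ring

/-- evaluation of a monomial -/
lemma ev_mz {p : ℕ} (hp : p.Prime) (n : ℤ) (t : ℝ) :
    ev t (mz p n) = ((p : ℂ) ^ (-(t : ℂ) * I)) ^ n := by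
  have hp0 : (p:ℂ) ≠ 0 := by exact_mod_cast hp.ne_zero
  have hpR : (0:ℝ) < p := by exact_mod_cast hp.pos
  unfold mz
  rw [ev_single]
  set a := n.toNat with ha
  set b := (-n).toNat with hb
  have hn : (n : ℂ) = (a : ℂ) - (b : ℂ) := by
    have : n = (a : ℤ) - (b : ℤ) := by omega
    rw [this]; push_cast; rfl
  have e1 : mh t (p ^ a, p ^ b) = ((p ^ a : ℕ) : ℂ) ^ (-(1 / 2 + t * Complex.I)) *
      ((p ^ b : ℕ) : ℂ) ^ (-(1 / 2 - t * Complex.I)) := rfl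
  have q : ∀ (m : ℕ) (s : ℂ), ((p ^ m : ℕ) : ℂ) ^ s = Complex.exp (m * (Complex.log p * s)) := by
    intro m s
    have h0 : ((p ^ m : ℕ) : ℂ) ≠ 0 := by exact_mod_cast pow_ne_zero _ hp.ne_zero
    rw [Complex.cpow_def_of_ne_zero h0, ← Complex.natCast_log]
    congr 1
    push_cast
    rw [Real.log_pow, ← Complex.natCast_log]
    push_cast
    ring
  rw [e1, q, q]
  have e2 : ((((p : ℝ) ^ (1 / 2 : ℝ)) ^ (a + b) : ℝ) : ℂ) =
      Complex.exp (((a:ℂ) + b) * (Complex.log p * (1 / 2))) := by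
    rw [← Real.rpow_natCast, ← Real.rpow_mul hpR.le, Real.rpow_def_of_pos hpR, ← Complex.natCast_log]
    push_cast
    congr 1
    ring
  rw [e2, Complex.cpow_def_of_ne_zero hp0, ← Complex.exp_int_mul, ← Complex.exp_add, ← Complex.exp_add, hn]
  congr 1
  ring

end

end Pool.Agent.KS6_89.PP
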