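import Pool.Agent.KS6_89.PP.Tri

set_option autoImplicit false

/-! Trigonometric polynomials in the phases of a finite set of primes (project PP). -/

namespace Pool.Agent.KS6_89.PP

open Finset MonoidAlgebra Complex MeasureTheory
open Pool.Agent.W184.NZ
open Pool.Agent.TH806.LK (wF P_WF a_WF)

noncomputable section

variable {S : Finset ℕ}

/-- extension by zero -/
def xt (k : S → ℤ) (p : ℕ) : ℤ := if h : p ∈ S then k ⟨p, h⟩ else 0

lemma xt_coe (k : S → ℤ) (p : S) : xt k p = k p := by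
  unfold xt; rw [dif_pos p.2]

lemma prod_xt {R : Type*} [CommMonoid R] (k : S → ℤ) (F : ℕ → ℤ → R) :
    ∏ p ∈ S, F p (xt k p) = ∏ p : S, F p (k p) := by
  rw [← Finset.prod_coe_sort S (fun p => F p (xt k p))]
  exact prod_congr rfl fun p _ => by rw [xt_coe]

/-- the monomial of the phases -/
def MZ (k : S → ℤ) : DA := ∏ p ∈ S, mz p (xt k p)

/-- the Euler product over `S` -/
def EE (S : Finset ℕ) : DA := ∏ p ∈ S, EP p

/-- its conjugate -/
def EC (S : Finset ℕ) : DA := ∏ p ∈ S, EQ p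

/-- the phases -/
def ph (S : Finset ℕ) (t : ℝ) : S → ℂ := fun p => ((p : ℕ) : ℂ) ^ (-(t : ℂ) * I)

/-- the point of the torus -/
def ee (S : Finset ℕ) (θ : S → ℝ) : S → ℂ := fun p => Complex.exp (2 * Real.pi * (θ p : ℂ) * I)

/-- the inverse Euler product as a function of the phases -/
def es (S : Finset ℕ) (z : S → ℂ) : ℂ := ∏ p : S, (1 - z p / ((Real.sqrt (p : ℕ) : ℝ) : ℂ))

/-- the characters -/
def chi (k : S → ℤ) (z : S → ℂ) : ℂ := ∏ p : S, z p ^ k p

/-- the torus -/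
def TT (S : Finset ℕ) : Set (S → ℂ) := {z | ∀ p, ‖z p‖ = 1}

lemma ph_norm {p : ℕ} (hp : p.Prime) (t : ℝ) : ‖(p : ℂ) ^ (-(t : ℂ) * I)‖ = 1 := by
  rw [Complex.norm_natCast_cpow_of_pos hp.pos]
  simp

lemma ph_mem (hS : ∀ p ∈ S, p.Prime) (t : ℝ) : ph S t ∈ TT S := fun p => ph_norm (hS p p.2) t

lemma ee_mem (θ : S → ℝ) : ee S θ ∈ TT S := fun p => by
  unfold ee
  rw [show 2 * (Real.pi : ℂ) * (θ p : ℂ) * I = ((2 * Real.pi * θ p : ℝ) : ℂ) * I by push_cast; ring,
    Complex.norm_exp_ofReal_mul_I]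

lemma conj_mem {z : S → ℂ} (hz : z ∈ TT S) : (fun p => starRingEnd ℂ (z p)) ∈ TT S := fun p => by
  rw [RCLike.norm_conj]; exact hz p

lemma ev_MZ (hS : ∀ p ∈ S, p.Prime) (k : S → ℤ) (t : ℝ) : ev t (MZ k) = chi k (ph S t) := by
  unfold MZ chi ph
  rw [map_prod, ← prod_xt k (fun p n => ((p : ℂ) ^ (-(t : ℂ) * I)) ^ n)]
  exact prod_congr rfl fun p hp => ev_mz (hS p hp) _ t

lemma sqrt_cpow {p : ℕ} (hp : p.Prime) (t : ℝ) :
    (p : ℂ) ^ (-(1 / 2 + t * Complex.I)) = (p : ℂ) ^ (-(t : ℂ) * I) / ((Real.sqrt p : ℝ) : ℂ) := by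
  have hp0 : (p:ℂ) ≠ 0 := by exact_mod_cast hp.ne_zero
  have e1 : ((Real.sqrt p : ℝ) : ℂ) = (p : ℂ) ^ (1 / 2 : ℂ) := by
    rw [Real.sqrt_eq_rpow, Complex.ofReal_cpow (Nat.cast_nonneg p)]
    push_cast
    rfl
  rw [e1, ← Complex.cpow_sub _ _ hp0]
  congr 1
  ring

lemma ev_EE (hS : ∀ p ∈ S, p.Prime) (t : ℝ) : ev t (EE S) = es S (ph S t) := by
  unfold EE es ph
  rw [map_prod, Finset.prod_coe_sort S (fun p : ℕ => 1 - (p : ℂ) ^ (-(t : ℂ) * I) / ((Real.sqrt p : ℝ) : ℂ))]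
  refine prod_congr rfl fun p hp => ?_
  unfold EP
  rw [map_sub, map_one, ev_single, ← sqrt_cpow (hS p hp)]
  simp [mh]

lemma ev_EC (hS : ∀ p ∈ S, p.Prime) (t : ℝ) : ev t (EC S) = starRingEnd ℂ (es S (ph S t)) := by
  rw [← ev_EE hS]
  unfold EE EC
  rw [map_prod, map_prod, map_prod]
  refine prod_congr rfl fun p hp => ?_
  unfold EP EQ
  rw [map_sub, map_sub, map_one, ev_single, ev_single, map_sub, map_one, map_mul]
  congr 1
  have hp0 := (hS p hp).ne_zero
  simp only [mh, MonoidHom.coe_mk, OneHom.coe_mk, Nat.cast_one, Complex.one_cpow, mul_one, one_mul,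
    Complex.ofReal_one, map_one]
  rw [← natCast_cpow_conj p hp0]
  congr 1
  rw [map_neg, map_add, map_mul, Complex.conj_ofReal, Complex.conj_I, map_div₀, map_one, map_ofNat]
  ring

lemma MZ_mem (hS : ∀ p ∈ S, p.Prime) (k : S → ℤ) : MZ k ∈ SA (MI S) :=
  prod_memS fun p hp => mz_mem (hS p hp) _

lemma EE_mem (hS : ∀ p ∈ S, p.Prime) : EE S ∈ SA (MI S) := prod_memS fun p hp => EP_mem (hS p hp)

lemma EC_mem (hS : ∀ p ∈ S, p.Prime) : EC S ∈ SA (MI S) := prod_memS fun p hp => EQ_mem (hS p hp)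

lemma delta_prod (k : S → ℤ) : ∏ p ∈ S, (if xt k p = 0 then (1:ℝ) else 0) = if k = 0 then 1 else 0 := by
  rw [prod_xt k (fun _ n => if n = 0 then (1:ℝ) else 0), Finset.prod_ite_zero, prod_const_one]
  congr 1
  simp only [mem_univ, forall_true_left, eq_iff_iff]
  exact funext_iff.symm

lemma lam0_MZ (hS : ∀ p ∈ S, p.Prime) (k : S → ℤ) : lam w0 (MZ k) = if k = 0 then 1 else 0 := by
  unfold MZ
  rw [lam_fprod mlt0 S _ fun p hp => mz_mem (hS p hp) _, ← delta_prod]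
  exact prod_congr rfl fun p hp => l0_mz (hS p hp) _

lemma lamF_MZ (hS : ∀ p ∈ S, p.Prime) (k : S → ℤ) : lam wF (EE S * MZ k) = if k = 0 then 1 else 0 := by
  unfold MZ EE
  rw [← prod_mul_distrib, lam_fprod mltF S _ fun p hp => Subalgebra.mul_mem _ (EP_mem (hS p hp))
    (mz_mem (hS p hp) _), ← delta_prod]
  exact prod_congr rfl fun p hp => lF_mz (hS p hp) _

lemma lam1_MZ (hS : ∀ p ∈ S, p.Prime) (k : S → ℤ) : lam w1 (EE S * EC S * MZ k) =
    (∏ p ∈ S, (1 - 1 / (p:ℝ))) * if k = 0 then 1 else 0 := by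
  unfold MZ EE EC
  rw [← prod_mul_distrib, ← prod_mul_distrib, lam_fprod mlt1 S _ fun p hp => Subalgebra.mul_mem _
    (Subalgebra.mul_mem _ (EP_mem (hS p hp)) (EQ_mem (hS p hp))) (mz_mem (hS p hp) _), ← delta_prod,
    ← prod_mul_distrib]
  exact prod_congr rfl fun p hp => l1_mz (hS p hp) _

/-! ### integrals over the cube -/

lemma chi_cont (k : S → ℤ) : ContinuousOn (chi k) (TT S) := by
  unfold chi
  refine continuousOn_finsetProd _ fun p _ => ?_
  refine ContinuousOn.zpow₀ (continuous_apply p).continuousOn _ fun z hz => Or.inl ?_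
  intro h
  have := hz p
  rw [h, norm_zero] at this
  exact zero_ne_one this

lemma ee_cont : Continuous (ee S) := by
  unfold ee
  fun_prop

lemma int_one {n : ℤ} : ∫ x in Set.Icc (0:ℝ) 1, Complex.exp (2 * Real.pi * (x : ℂ) * I) ^ n =
    if n = 0 then 1 else 0 := by
  rw [integral_Icc_eq_integral_Ioc, ← intervalIntegral.integral_of_le zero_le_one]
  by_cases h : n = 0
  · rw [if_pos h, h]; simp
  · rw [if_neg h]
    have e : ∀ x : ℝ, Complex.exp (2 * Real.pi * (x : ℂ) * I) ^ n =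
        Complex.exp ((2 * Real.pi * n * I) * x) := by
      intro x
      rw [← Complex.exp_int_mul]; congr 1; ring
    simp_rw [e]
    have h0 : (2 * Real.pi * n * I : ℂ) ≠ 0 := by
      refine mul_ne_zero (mul_ne_zero (mul_ne_zero two_ne_zero ?_) ?_) I_ne_zero
      · exact_mod_cast Real.pi_ne_zero
      · exact_mod_cast h
    rw [integral_exp_mul_complex h0]
    have e1 : Complex.exp (2 * Real.pi * n * I * ((1:ℝ):ℂ)) = 1 := by
      rw [Complex.exp_eq_one_iff]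
      exact ⟨n, by push_cast; ring⟩
    rw [e1]
    simp

lemma cube_restrict : (volume : Measure (S → ℝ)).restrict (Set.Icc 0 1) =
    Measure.pi fun _ : S => (volume : Measure ℝ).restrict (Set.Icc 0 1) := by
  rw [← Set.pi_univ_Icc, volume_pi, Measure.restrict_pi_pi]
  rfl

lemma int_chi (k : S → ℤ) : ∫ θ in Set.Icc (0 : S → ℝ) 1, chi k (ee S θ) = if k = 0 then 1 else 0 := by
  rw [cube_restrict]
  unfold chi ee
  rw [integral_fintype_prod_eq_prod (fun (p : S) (x : ℝ) => Complex.exp (2 * Real.pi * (x : ℂ) * I) ^ k p)]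
  simp_rw [int_one]
  rw [Finset.prod_ite_zero, prod_const_one]
  congr 1
  simp only [mem_univ, forall_true_left, eq_iff_iff]
  exact funext_iff.symm

lemma cube_vol : (volume : Measure (S → ℝ)) (Set.Icc 0 1) = 1 := by
  rw [← Set.pi_univ_Icc, volume_pi_pi]
  simp

instance : IsProbabilityMeasure ((volume : Measure (S → ℝ)).restrict (Set.Icc 0 1)) :=
  ⟨by rw [Measure.restrict_apply_univ, cube_vol]⟩

end

end Pool.Agent.KS6_89.PP
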