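import Pool.Agent.KS6_89.PP.Tri2

set_option autoImplicit false

/-! Approximation of continuous functions of the phases (project PP). -/

namespace Pool.Agent.KS6_89.PP

open Finset MonoidAlgebra Complex MeasureTheory
open Pool.Agent.W184.NZ
open Pool.Agent.TH806.LK (wF P_WF a_WF)

noncomputable section

variable {S : Finset ℕ}

/-- from the additive torus to the phases -/
def tc (S : Finset ℕ) (x : UnitAddTorus S) : S → ℂ := fun p => (AddCircle.toCircle (x p) : ℂ)

lemma tc_cont : Continuous (tc S) := by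
  unfold tc
  refine continuous_pi fun p => ?_
  exact continuous_induced_dom.comp (AddCircle.continuous_toCircle.comp (continuous_apply p))

lemma tc_mem (x : UnitAddTorus S) : tc S x ∈ TT S := fun p => Circle.norm_coe _

lemma tc_surj {z : S → ℂ} (hz : z ∈ TT S) : ∃ x : UnitAddTorus S, tc S x = z := by
  refine ⟨fun p => ((Complex.arg (z p) / (2 * Real.pi) : ℝ) : UnitAddCircle), ?_⟩
  funext p
  unfold tc
  rw [AddCircle.toCircle_apply_mk, Circle.coe_exp]
  have h1 := Complex.norm_mul_exp_arg_mul_I (z p)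
  rw [hz p, Complex.ofReal_one, one_mul] at h1
  rw [← h1]
  congr 2
  have := Real.pi_ne_zero
  rw [h1]
  congr 1
  field_simp

lemma mF_chi (k : S → ℤ) (x : UnitAddTorus S) : UnitAddTorus.mFourier k x = chi k (tc S x) := by
  unfold UnitAddTorus.mFourier chi tc
  simp only [ContinuousMap.coe_mk]
  refine prod_congr rfl fun p _ => ?_
  rw [fourier_apply, AddCircle.toCircle_zsmul, Circle.coe_zpow]

/-- uniform approximation by trigonometric polynomials -/
theorem apxC {F : (S → ℂ) → ℂ} (hF : ContinuousOn F (TT S)) {ε : ℝ} (hε : 0 < ε) :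
    ∃ (K : Finset (S → ℤ)) (c : (S → ℤ) → ℂ), ∀ z ∈ TT S, ‖(∑ k ∈ K, c k * chi k z) - F z‖ ≤ ε := by
  have hcont : Continuous fun x => F (tc S x) := hF.comp_continuous tc_cont tc_mem
  set f : C(UnitAddTorus S, ℂ) := ⟨fun x => F (tc S x), hcont⟩ with hf
  have h1 : f ∈ (Submodule.span ℂ (Set.range <| UnitAddTorus.mFourier (d := S))).topologicalClosure := by
    rw [UnitAddTorus.span_mFourier_closure_eq_top]; trivial
  rw [← SetLike.mem_coe, Submodule.topologicalClosure_coe, Metric.mem_closure_iff] at h1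
  obtain ⟨g, hg, hd⟩ := h1 ε hε
  rw [SetLike.mem_coe, Finsupp.mem_span_range_iff_exists_finsupp] at hg
  obtain ⟨c, hc⟩ := hg
  refine ⟨c.support, c, fun z hz => ?_⟩
  obtain ⟨x, rfl⟩ := tc_surj hz
  have h2 : g x = ∑ k ∈ c.support, c k * chi k (tc S x) := by
    rw [← hc, Finsupp.sum, ContinuousMap.coe_sum, Finset.sum_apply]
    refine sum_congr rfl fun k _ => ?_
    rw [ContinuousMap.coe_smul, Pi.smul_apply, smul_eq_mul, mF_chi]
  rw [← h2]
  have h3 := (ContinuousMap.dist_apply_le_dist (f := f) (g := g) x).trans hd.le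
  rw [dist_comm, dist_eq_norm] at h3
  exact h3

/-- real approximants -/
structure RA (S : Finset ℕ) (F : (S → ℂ) → ℝ) (ε : ℝ) (g : DA) : Prop where
  mem : g ∈ SA (MI S)
  app : ∀ t, |(ev t g).re - F (ph S t)| ≤ ε
  m0 : |lam w0 g - ∫ θ in Set.Icc (0 : S → ℝ) 1, F (ee S θ)| ≤ ε
  m1 : lam w1 (EE S * EC S * g) = (∏ p ∈ S, (1 - 1 / (p:ℝ))) * lam w0 g

lemma cube_int {E : Type*} [NormedAddCommGroup E] {f : (S → ℂ) → E}
    (hf : ContinuousOn f (TT S)) : Integrable (fun θ => f (ee S θ))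
      ((volume : Measure (S → ℝ)).restrict (Set.Icc 0 1)) := by
  have : Continuous fun θ => f (ee S θ) := hf.comp_continuous ee_cont ee_mem
  exact (this.continuousOn.integrableOn_compact isCompact_Icc)

lemma cube_diff {E : Type*} [NormedAddCommGroup E] [NormedSpace ℝ E] {f g : (S → ℂ) → E}
    (hf : ContinuousOn f (TT S)) (hg : ContinuousOn g (TT S)) {ε : ℝ} (h : ∀ z ∈ TT S, ‖f z - g z‖ ≤ ε) :
    ‖(∫ θ in Set.Icc (0 : S → ℝ) 1, f (ee S θ)) - ∫ θ in Set.Icc (0 : S → ℝ) 1, g (ee S θ)‖ ≤ ε := by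
  rw [← integral_sub (cube_int hf) (cube_int hg)]
  have h1 := norm_integral_le_of_norm_le_const (μ := (volume : Measure (S → ℝ)).restrict (Set.Icc 0 1))
    (f := fun θ => f (ee S θ) - g (ee S θ)) (C := ε) (Filter.Eventually.of_forall fun θ => h _ (ee_mem θ))
  rwa [probReal_univ, mul_one] at h1

lemma chi_conj (k : S → ℤ) (z : S → ℂ) : chi k (fun p => starRingEnd ℂ (z p)) = starRingEnd ℂ (chi k z) := by
  unfold chi
  rw [map_prod]
  exact prod_congr rfl fun p _ => (map_zpow₀ _ _ _).symm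

theorem apxR (hS : ∀ p ∈ S, p.Prime) {F : (S → ℂ) → ℝ} (hF : ContinuousOn F (TT S))
    (hev : ∀ z ∈ TT S, F (fun p => starRingEnd ℂ (z p)) = F z) {ε : ℝ} (hε : 0 < ε) :
    ∃ g, RA S F ε g := by
  have hF' : ContinuousOn (fun z => (F z : ℂ)) (TT S) := Complex.continuous_ofReal.comp_continuousOn hF
  obtain ⟨K, c, hc⟩ := apxC hF' hε
  have key : ∀ z ∈ TT S, |(∑ k ∈ K, (c k).re * (chi k z).re) - F z| ≤ ε := by
    intro z hz
    have h1 := hc z hz
    have h2 := hc _ (conj_mem hz)
    rw [hev z hz] at h2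
    have e1 : (∑ k ∈ K, (c k).re * (chi k z).re) - F z =
        ((((∑ k ∈ K, c k * chi k z) - F z) +
          ((∑ k ∈ K, c k * chi k (fun p => starRingEnd ℂ (z p))) - F z)) / 2).re := by
      have e2 : (((∑ k ∈ K, c k * chi k z) - F z) +
          ((∑ k ∈ K, c k * chi k (fun p => starRingEnd ℂ (z p))) - F z)) / 2 =
          (∑ k ∈ K, c k * (((chi k z).re : ℝ) : ℂ)) - F z := by
        have e3 : ∑ k ∈ K, c k * chi k (fun p => starRingEnd ℂ (z p)) =
            2 * (∑ k ∈ K, c k * (((chi k z).re : ℝ) : ℂ)) - ∑ k ∈ K, c k * chi k z := by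
          rw [mul_sum, ← sum_sub_distrib]
          refine sum_congr rfl fun k _ => ?_
          have h := Complex.add_conj (chi k z)
          rw [chi_conj]
          push_cast at h ⊢
          linear_combination (c k) * h
        rw [e3]; ring
      rw [e2, Complex.sub_re, Complex.re_sum, Complex.ofReal_re]
      congr 1
      refine sum_congr rfl fun k _ => ?_
      rw [Complex.re_mul_ofReal]
    rw [e1]
    refine (Complex.abs_re_le_norm _).trans ?_
    rw [norm_div]
    have h3 := norm_add_le ((∑ k ∈ K, c k * chi k z) - F z)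
      ((∑ k ∈ K, c k * chi k (fun p => starRingEnd ℂ (z p))) - F z)
    have h4 : ‖(2:ℂ)‖ = 2 := by norm_num
    rw [h4, div_le_iff₀ (by norm_num)]
    linarith
  have hcr : ContinuousOn (fun z => ∑ k ∈ K, (c k).re * (chi k z).re) (TT S) := by
    refine continuousOn_finsetSum _ fun k _ => ?_
    exact continuousOn_const.mul (Complex.continuous_re.comp_continuousOn (chi_cont k))
  refine ⟨∑ k ∈ K, (c k).re • MZ k, ?_, ?_, ?_, ?_⟩
  · exact Subalgebra.sum_mem _ fun k _ => Subalgebra.smul_mem _ (MZ_mem hS k) _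
  · intro t
    have e1 : (ev t (∑ k ∈ K, (c k).re • MZ k)).re = ∑ k ∈ K, (c k).re * (chi k (ph S t)).re := by
      rw [map_sum, Complex.re_sum]
      refine sum_congr rfl fun k _ => ?_
      rw [map_smul, ev_MZ hS, Complex.real_smul, Complex.re_ofReal_mul]
    rw [e1]
    exact key _ (ph_mem hS t)
  · have e1 : lam w0 (∑ k ∈ K, (c k).re • MZ k) =
        ∫ θ in Set.Icc (0 : S → ℝ) 1, ∑ k ∈ K, (c k).re * (chi k (ee S θ)).re := by
      rw [integral_finsetSum]
      · rw [map_sum]
        refine sum_congr rfl fun k _ => ?_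
        rw [map_smul, smul_eq_mul, lam0_MZ hS, integral_const_mul]
        congr 1
        have h1 := int_chi k
        have h2 := integral_re (𝕜 := ℂ) (cube_int (f := chi k) (chi_cont k))
        simp only [RCLike.re_eq_complex_re] at h2
        rw [h2, h1]
        split_ifs <;> simp
      · intro k _
        exact (cube_int (f := fun z => (chi k z).re)
          (Complex.continuous_re.comp_continuousOn (chi_cont k))).const_mul _
    rw [e1, ← Real.norm_eq_abs]
    exact cube_diff hcr hF key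
  · rw [mul_sum, map_sum, map_sum, mul_sum]
    refine sum_congr rfl fun k _ => ?_
    rw [mul_smul_comm, map_smul, map_smul, smul_eq_mul, smul_eq_mul, lam1_MZ hS, lam0_MZ hS]
    ring

theorem apxF (hS : ∀ p ∈ S, p.Prime) {F : (S → ℂ) → ℝ} (hF : ContinuousOn F (TT S)) {ε : ℝ} (hε : 0 < ε) :
    ∃ (K : Finset (S → ℤ)) (c : (S → ℤ) → ℂ),
      (∀ t, ‖(∑ k ∈ K, c k * ev t (MZ k)) - F (ph S t)‖ ≤ ε) ∧
      ‖(∑ k ∈ K, c k * ((lam wF (EE S * MZ k) : ℝ) : ℂ)) -
        ((∫ θ in Set.Icc (0 : S → ℝ) 1, F (ee S θ) : ℝ) : ℂ)‖ ≤ ε := by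
  have hF' : ContinuousOn (fun z => (F z : ℂ)) (TT S) := Complex.continuous_ofReal.comp_continuousOn hF
  obtain ⟨K, c, hc⟩ := apxC hF' hε
  refine ⟨K, c, fun t => ?_, ?_⟩
  · have := hc _ (ph_mem hS t)
    simp_rw [ev_MZ hS]
    exact this
  · have e1 : ∑ k ∈ K, c k * ((lam wF (EE S * MZ k) : ℝ) : ℂ) =
        ∫ θ in Set.Icc (0 : S → ℝ) 1, ∑ k ∈ K, c k * chi k (ee S θ) := by
      rw [integral_finsetSum]
      · refine sum_congr rfl fun k _ => ?_
        rw [integral_const_mul, int_chi, lamF_MZ hS]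
        split_ifs <;> simp
      · intro k _
        exact (cube_int (f := chi k) (chi_cont k)).const_mul _
    rw [e1, ← integral_complex_ofReal]
    refine cube_diff (f := fun z => ∑ k ∈ K, c k * chi k z) (g := fun z => (F z : ℂ)) ?_ hF' hc
    exact continuousOn_finsetSum _ fun k _ => continuousOn_const.mul (chi_cont k)

end

end Pool.Agent.KS6_89.PP
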