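import Pool.Agent.KS6_89.PP.Av2
import Pool.Graph.R_seed8.Y755.OnL

set_option autoImplicit false

/-! The twisted second moment over a window with a factor at the primes of `S` (project PP). -/

namespace Pool.Agent.KS6_89.PP

open Finset Filter MeasureTheory
open Pool.Agent.W184.NZ
open Pool.Agent.Y755 (GP_Bdz GP_l1z GP_logqz)
open Pool.Agent.H306R2.SM (om cl Yf)
open Pool.Agent.H262R4.TM (Rng Ck)

noncomputable section

section
variable {c y : ℝ} {J Rs : ℕ} {I : ℕ → Finset ℕ}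

lemma GP_mem (h : Rg c J I (bb y)) (a : ℝ) (R : ℕ → ℕ) : GP J a R I ∈ SA (MI ((range J).biUnion I)) :=
  prod_mem J fun i _ => gE_mem (fun p hp => (h.pr i p hp).1) _ _ _

/-- the smooth second average -/
lemma G_avgg (hc : 0 ≤ c) (hy : 1 ≤ y) (h : Rg c J I (bb y)) (hRs : Rok c Rs) {a : ℝ} (ha : |a| ≤ 1)
    {k : ℕ} {Y e Ng D : ℝ} (hY : 0 < Y) (hk : 1 ≤ k) (he : 0 ≤ e) {U : Finset ℕ} {g : DA} (hgU : g ∈ SA (MI U))
    (hIU : ∀ i, Disjoint (I i) U) (hNg : 1 ≤ Ng) (hg : Bd Ng g) (hΛ : 0 ≤ lam w1 g)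
    (hD : |lam wl g| ≤ D * lam w1 g)
    (hm : ∀ x : ℕ × ℕ, x.1 ≠ 0 → x.2 ≠ 0 → (x.1 : ℝ) ≤ Real.exp (Real.log y * (160 * ((Rs:ℝ) + 1))) * Ng →
      (x.2 : ℝ) ≤ Real.exp (Real.log y * (160 * ((Rs:ℝ) + 1))) * Ng → |Zm k Y x - Mn k Y x| ≤ e) :
    ∫ t in Set.Ioi (0:ℝ), wz k Y t * (ev t (GP J a (RR Rs) I * g)).re ≤
      (|Real.log (Yf k Y) + Ck k| + 320 * ((Rs:ℝ) + 1) * Cl2 c * Real.log y + D) *
        Real.exp ((2 * a + a ^ 2) * (∑ i ∈ range J, vI (I i)) + 12 * c + 2 * Bc c) * lam w1 g +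
      e * (Real.exp (Real.log y * (240 * ((Rs:ℝ) + 1))) * l1 g) := by
  have hB := (GP_Bdz (Rs := Rs) hy h a).mul hg
  have h1 := avg1 hY hk hm hB
  have hdj : Disjoint ((range J).biUnion I) U := by
    rw [disjoint_biUnion_left]
    intro i _
    exact hIU i
  have hmem := GP_mem h a (RR Rs)
  have hw1 : lam w1 (GP J a (RR Rs) I * g) = lam w1 (GP J a (RR Rs) I) * lam w1 g := goodW1.mul hdj hmem hgU
  have hwl : lam wl (GP J a (RR Rs) I * g) =
      lam wl (GP J a (RR Rs) I) * lam w1 g + lam w1 (GP J a (RR Rs) I) * lam wl g := laml_mul hdj hmem hgU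
  rw [hw1, hwl] at h1
  have h2 := GP_up goodW1 h hRs (RR_ge Rs) ha
  have h3 := (l1_mul (GP J a (RR Rs) I) g).trans
    (mul_le_mul_of_nonneg_right (GP_l1z hy h hRs.1 ha) (l1_nonneg g))
  have h4 := GP_logqz hc hy h hRs ha
  have h0 := GP_nonneg goodW1 h hRs (RR_ge Rs) ha
  have hB0 := Bc_pos c
  obtain ⟨ha1, ha2⟩ := abs_le.mp ha
  have h5 : Real.exp ((2 * 1 * a + a ^ 2) * (∑ i ∈ range J, vI (I i)) + 12 * a ^ 2 * c +
      2 * Bc c * Real.exp (-(Rs:ℝ))) ≤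
      Real.exp ((2 * a + a ^ 2) * (∑ i ∈ range J, vI (I i)) + 12 * c + 2 * Bc c) := by
    refine Real.exp_le_exp.mpr ?_
    have x1 : Real.exp (-(Rs:ℝ)) ≤ 1 := Real.exp_le_one_iff.mpr (by simp)
    have a2 : a ^ 2 ≤ 1 := by nlinarith
    have e3 : 12 * a ^ 2 * c ≤ 12 * 1 * c := by gcongr
    have e4 : 2 * Bc c * Real.exp (-(Rs:ℝ)) ≤ 2 * Bc c * 1 := by gcongr
    rw [show (2 * 1 * a + a ^ 2) = (2 * a + a ^ 2) by ring]
    linarith
  have h6 := h2.trans h5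
  have h7 := mul_le_mul_of_nonneg_left h3 he
  set A := lam w1 (GP J a (RR Rs) I) with hA
  set Λ := lam w1 g with hΛd
  set X := Real.exp ((2 * a + a ^ 2) * (∑ i ∈ range J, vI (I i)) + 12 * c + 2 * Bc c) with hX
  set M := |Real.log (Yf k Y) + Ck k| with hM
  set N := 320 * ((Rs:ℝ) + 1) * Cl2 c * Real.log y with hN
  have hAΛ : 0 ≤ A * Λ := mul_nonneg h0 hΛ
  have h8 : (Real.log (Yf k Y) + Ck k) * (A * Λ) ≤ M * (A * Λ) :=
    mul_le_mul_of_nonneg_right (le_abs_self _) hAΛ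
  have h9 : - (lam wl (GP J a (RR Rs) I) * Λ) ≤ N * (A * Λ) := by
    have := mul_le_mul_of_nonneg_right ((neg_le_abs _).trans h4) hΛ
    linarith
  have h10 : - (A * lam wl g) ≤ D * (A * Λ) := by
    have := mul_le_mul_of_nonneg_left ((neg_le_abs _).trans hD) h0
    linarith
  have hl := Real.log_nonneg hy
  have hC := Cl2_pos c
  rcases hΛ.eq_or_lt with h00 | h00
  · rw [← h00] at h8 h9 h10 h1 ⊢
    have hwl0 : lam wl g = 0 := by
      rw [← h00, mul_zero] at hD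
      exact abs_eq_zero.mp (le_antisymm hD (abs_nonneg _))
    rw [hwl0] at h1
    simp only [mul_zero, sub_zero, add_zero, zero_add] at h1 ⊢
    linarith
  · have hD0 : 0 ≤ D := by
      have := (abs_nonneg (lam wl g)).trans hD
      exact nonneg_of_mul_nonneg_left this h00
    have hMN : 0 ≤ M + N + D := by positivity
    have h11 : (M + N + D) * (A * Λ) ≤ (M + N + D) * (X * Λ) :=
      mul_le_mul_of_nonneg_left (mul_le_mul_of_nonneg_right h6 hΛ) hMN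
    have e1 : (M + N + D) * X * Λ = (M + N + D) * (X * Λ) := by ring
    rw [e1]
    have e2 : (M + N + D) * (A * Λ) = M * (A * Λ) + N * (A * Λ) + D * (A * Λ) := by ring
    linarith

end

/-- the twisted second moment on the line, with a factor -/
theorem onlg {c ηm η : ℝ} {Rs : ℕ} (hc : 0 ≤ c) (hηm : 0 < ηm)
    (hmono : ∀ᶠ Y : ℝ in atTop, ∀ k : ℕ, Rng Y k → ∀ x : ℕ × ℕ,
      x.1 ≠ 0 → x.2 ≠ 0 → (x.1 : ℝ) ≤ Y ^ ((1:ℝ) / 4) → (x.2 : ℝ) ≤ Y ^ ((1:ℝ) / 4) →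
      |Zm k Y x - Mn k Y x| ≤ 2 * Y ^ (-ηm)) (hη : 0 < η) (hη1 : η * ((Rs:ℝ) + 1) ≤ min ηm (1 / 4) / 4000)
    (hRs : Rok c Rs) :
    ∃ C : ℝ, 0 < C ∧ ∀ (U : Finset ℕ) (g : DA), g ∈ SA (MI U) → 0 < lam w1 g → ∀ᶠ T : ℝ in atTop,
      ∀ (J : ℕ) (I : ℕ → Finset ℕ),
      Rg c J I (bb (Real.exp (η * Real.log T))) → (∀ i, Disjoint (I i) U) →
      ∀ a : ℝ, |a| ≤ 1 → (∀ t, 0 ≤ (ev t (GP J a (RR Rs) I * g)).re) →
      ∫ t in (T ^ ((3:ℝ)/4))..T, ‖riemannZeta (cl t)‖ ^ 2 * (ev t (GP J a (RR Rs) I * g)).re ≤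
        C * (T * (Real.log T * Real.exp ((2 * a + a ^ 2) * ∑ i ∈ range J, vI (I i)) * lam w1 g + 1)) := by
  set q : ℝ := min ηm (1 / 4) with hq
  have hq0 : 0 < q := lt_min hηm (by norm_num)
  have hq1 : q ≤ 1 / 4 := min_le_right _ _
  have hq2 : q ≤ ηm := min_le_left _ _
  have hRs0 : (0:ℝ) < (Rs:ℝ) + 1 := by positivity
  have hη1' : η ≤ 1 := by
    have : η * 1 ≤ η * ((Rs:ℝ) + 1) := mul_le_mul_of_nonneg_left (by
      have : (0:ℝ) ≤ Rs := Nat.cast_nonneg _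
      linarith) hη.le
    linarith
  have hB0 := Bc_pos c
  have hCl := Cl2_pos c
  set C6 : ℝ := (9 + 320 * ((Rs:ℝ) + 1) * Cl2 c) * Real.exp (12 * c + 2 * Bc c) with hC6
  have hC60 : 0 < C6 := by positivity
  refine ⟨16 * (C6 + 2), by positivity, fun U g hgU hg0 => ?_⟩
  obtain ⟨Ng, hNg1, hNg⟩ := Bd_ex hgU
  have ev1 : ∀ᶠ T : ℝ in atTop, ∀ x : ℝ, T ^ ((3:ℝ)/4) / 2 < x → ∀ k : ℕ, Rng x k → ∀ z : ℕ × ℕ,
      z.1 ≠ 0 → z.2 ≠ 0 → (z.1 : ℝ) ≤ x ^ ((1:ℝ) / 4) → (z.2 : ℝ) ≤ x ^ ((1:ℝ) / 4) →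
      |Zm k x z - Mn k x z| ≤ 2 * x ^ (-ηm) := by
    rw [eventually_atTop] at hmono
    obtain ⟨Y0, hY0⟩ := hmono
    have : Tendsto (fun T : ℝ => T ^ ((3:ℝ)/4) / 2) atTop atTop :=
      (tendsto_rpow_atTop (by norm_num)).atTop_div_const (by norm_num)
    filter_upwards [this.eventually_ge_atTop Y0] with T hT x hx
    exact hY0 x (hT.trans hx.le)
  have hlogt := Real.tendsto_log_atTop
  filter_upwards [ev1, TC_ev ηm q Rs, hlogt.eventually_ge_atTop 10,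
    eventually_ge_atTop 1, hlogt.eventually_ge_atTop (|lam wl g| / lam w1 g),
    hlogt.eventually_ge_atTop (Real.log Ng / (1 / 100)),
    hlogt.eventually_ge_atTop (Real.log (1 + l1 g) / (ηm / 4))] with T h1 h4 h6 hT1 hgl hgN hgl1 J I hJ hIU a ha hpos
  obtain ⟨k, hk⟩ := h4
  have hT0 : 0 < T := by linarith
  set L := Real.log T with hL
  have hL0 : 0 < L := by linarith
  set y : ℝ := Real.exp (η * L) with hy
  have hly : Real.log y = η * L := Real.log_exp _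
  have hy1 : 1 ≤ y := Real.one_le_exp (by positivity)
  set V := ∑ i ∈ range J, vI (I i) with hVd
  rw [div_le_iff₀ hg0] at hgl
  rw [div_le_iff₀ (by norm_num)] at hgN
  rw [div_le_iff₀ (by positivity)] at hgl1
  set A : ℝ := T ^ ((3:ℝ)/4) with hA
  have hA0 : 0 < A := by positivity
  have hAT : A ≤ T := by
    have : T ^ ((3:ℝ)/4) ≤ T ^ (1:ℝ) := Real.rpow_le_rpow_of_exponent_le hT1 (by norm_num)
    rwa [Real.rpow_one] at this
  have hgB := (GP_Bdz (Rs := Rs) hy1 hJ a).mul hNg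
  have hgc := ev_re_cont hgB
  have hgb := fun t => ev_re_le hgB t
  set P := L * Real.exp ((2 * a + a ^ 2) * V) * lam w1 g with hP
  have hP0 : 0 ≤ P := by positivity
  have hS : ∀ x ∈ Set.Ioc (A / 2) (8 * T), ∫ t in Set.Ioi (0:ℝ), wz k x t * (ev t (GP J a (RR Rs) I * g)).re ≤
      (C6 + 2) * (P + 1) := by
    intro x hx
    have hx0 : 0 < x := by have := hx.1; linarith
    have hlx := hk.lg x hx
    have hm := h1 x hx.1 k (hk.rng x hx)
    have hxl : Real.exp (Real.log y * (160 * ((Rs:ℝ) + 1))) * Ng ≤ x ^ ((1:ℝ)/4) := by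
      rw [Real.rpow_def_of_pos hx0]
      have e0 : Ng ≤ Real.exp (1 / 100 * L) := by
        rw [← Real.log_le_iff_le_exp (by linarith)]
        linarith
      refine (mul_le_mul_of_nonneg_left e0 (Real.exp_pos _).le).trans ?_
      rw [← Real.exp_add]
      refine Real.exp_le_exp.mpr ?_
      rw [hly]
      have : η * L * (160 * ((Rs:ℝ) + 1)) = 160 * (η * ((Rs:ℝ) + 1)) * L := by ring
      rw [this]
      have h9 : 160 * (η * ((Rs:ℝ) + 1)) * L ≤ 1 / 10 * L := mul_le_mul_of_nonneg_right (by linarith) hL0.le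
      linarith
    have hG := G_avgg hc hy1 hJ hRs ha hx0 (by have := hk.k8; omega) (e := 2 * x ^ (-ηm)) (D := L) (by positivity)
      hgU hIU hNg1 hNg hg0.le hgl
      (fun z z1 z2 z3 z4 => hm z z1 z2 (z3.trans hxl) (z4.trans hxl))
    refine hG.trans ?_
    have g1 : (|Real.log (Yf k x) + Ck k| + 320 * ((Rs:ℝ) + 1) * Cl2 c * Real.log y + L) *
        Real.exp ((2 * a + a ^ 2) * V + 12 * c + 2 * Bc c) * lam w1 g ≤ C6 * P := by
      have g2 : |Real.log (Yf k x) + Ck k| + 320 * ((Rs:ℝ) + 1) * Cl2 c * Real.log y + L ≤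
          (9 + 320 * ((Rs:ℝ) + 1) * Cl2 c) * L := by
        rw [hly]
        have := hk.yf x hx
        have g3 : 320 * ((Rs:ℝ) + 1) * Cl2 c * (η * L) ≤ 320 * ((Rs:ℝ) + 1) * Cl2 c * (1 * L) := by gcongr
        linarith
      have e1 : Real.exp ((2 * a + a ^ 2) * V + 12 * c + 2 * Bc c) =
          Real.exp ((2 * a + a ^ 2) * V) * Real.exp (12 * c + 2 * Bc c) := by
        rw [← Real.exp_add]; congr 1; ring
      rw [e1]
      calc _ ≤ (9 + 320 * ((Rs:ℝ) + 1) * Cl2 c) * L *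
            (Real.exp ((2 * a + a ^ 2) * V) * Real.exp (12 * c + 2 * Bc c)) * lam w1 g := by
              refine mul_le_mul_of_nonneg_right (mul_le_mul_of_nonneg_right g2 (by positivity)) hg0.le
        _ = C6 * P := by rw [hC6, hP]; ring
    have g4 : 2 * x ^ (-ηm) * (Real.exp (Real.log y * (240 * ((Rs:ℝ) + 1))) * l1 g) ≤ 2 := by
      have e0 : l1 g ≤ Real.exp (ηm / 4 * L) := by
        have h1l := l1_nonneg g
        have : 1 + l1 g ≤ Real.exp (ηm / 4 * L) := by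
          rw [← Real.log_le_iff_le_exp (by linarith)]
          linarith
        linarith
      have g5 : x ^ (-ηm) * (Real.exp (Real.log y * (240 * ((Rs:ℝ) + 1))) * l1 g) ≤ 1 := by
        refine (mul_le_mul_of_nonneg_left (mul_le_mul_of_nonneg_left e0 (Real.exp_pos _).le)
          (by positivity)).trans ?_
        rw [Real.rpow_def_of_pos hx0, ← Real.exp_add, ← Real.exp_add]
        refine Real.exp_le_one_iff.mpr ?_
        rw [hly]
        have : η * L * (240 * ((Rs:ℝ) + 1)) = 240 * (η * ((Rs:ℝ) + 1)) * L := by ring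
        rw [this]
        have g6 : ηm * (1 / 2 * L) ≤ ηm * Real.log x := mul_le_mul_of_nonneg_left hlx hηm.le
        have g7 : 240 * (η * ((Rs:ℝ) + 1)) * L ≤ ηm * (1 / 4) * L := mul_le_mul_of_nonneg_right (by linarith) hL0.le
        linarith
      calc 2 * x ^ (-ηm) * (Real.exp (Real.log y * (240 * ((Rs:ℝ) + 1))) * l1 g) =
          2 * (x ^ (-ηm) * (Real.exp (Real.log y * (240 * ((Rs:ℝ) + 1))) * l1 g)) := by ring
        _ ≤ 2 * 1 := by linarith
        _ = 2 := by norm_num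
    nlinarith
  have hw := win hgc hpos hgb hk.k8 hA0 hAT (by positivity) hS
  refine hw.trans (le_of_eq ?_)
  ring

end

end Pool.Agent.KS6_89.PP
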