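import Pool.Agent.KS6_89.PP.Upp2

set_option autoImplicit false

/-! From the smooth windows to the interval, lower bounds for functions of polynomial growth (project PP). -/

namespace Pool.Agent.KS6_89.PP

open Finset Filter MeasureTheory Topology
open Pool.Agent.H306R2.SM (om)
open Pool.Agent.H262R4.TM (Rng)
open Pool.Agent.H965R2.SMT1 (Ph Ph_nonneg Ph_le_one om_nonneg)
open Pool.Agent.TH73.N4_FIN (SS ss_swap kk kk_ev)
open Pool.Agent.TH73.N4_SHT (phR phL)
open Pool.Agent.TH806 (om_poly_int)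
open Pool.Agent.TH959.LK_SH (ss_up)

noncomputable section

lemma inner_p {f : ℝ → ℝ} (hf : Continuous f) (hf0 : ∀ t, 0 ≤ f t) {D : ℝ} {m : ℕ}
    (hD : ∀ t, 0 ≤ t → f t ≤ D * (1 + t) ^ m) {k : ℕ} (hk : 1 ≤ k) {x : ℝ} (hx : 0 < x) :
    ∫⁻ t in Set.Ioi (0:ℝ), ENNReal.ofReal (om k (k / x) t * f t) =
      ENNReal.ofReal (∫ t in Set.Ioi (0:ℝ), om k (k / x) t * f t) := by
  have hk0 : (0:ℝ) < k := by exact_mod_cast hk
  have hi : IntegrableOn (fun t => om k (k / x) t * f t) (Set.Ioi 0) :=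
    om_poly_int (by positivity) hf (C := D) m (fun t ht => by
      rw [abs_of_nonneg (hf0 t)]
      exact hD t ht)
  rw [← ofReal_integral_eq_lintegral_ofReal hi]
  filter_upwards [ae_restrict_mem measurableSet_Ioi] with t ht
  exact mul_nonneg (om_nonneg (by positivity) (le_of_lt ht)) (hf0 t)

lemma ss_dnp {f : ℝ → ℝ} (hf : Continuous f) (hf0 : ∀ t, 0 ≤ f t) {D : ℝ} {m : ℕ}
    (hD : ∀ t, 0 ≤ t → f t ≤ D * (1 + t) ^ m) {k : ℕ} (hk : 1 ≤ k)
    {a b w : ℝ} (ha : 0 < a) (hw : 0 ≤ w)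
    (h : ∀ x ∈ Set.Ioc a b, w ≤ ∫ t in Set.Ioi (0:ℝ), om k (k / x) t * f t) :
    ENNReal.ofReal (w * (b - a)) ≤ SS k a b f := by
  unfold SS
  have e2 : ∫⁻ _ in Set.Ioc a b, ENNReal.ofReal w = ENNReal.ofReal (w * (b - a)) := by
    rw [setLIntegral_const, Real.volume_Ioc, ← ENNReal.ofReal_mul hw]
  rw [← e2]
  apply setLIntegral_mono' measurableSet_Ioc
  intro x hx
  have hx0 : 0 < x := ha.trans hx.1
  rw [inner_p hf hf0 hD hk hx0]
  exact ENNReal.ofReal_le_ofReal (h x hx)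

theorem low_win {f : ℝ → ℝ} (hf : Continuous f) (hf0 : ∀ t, 0 ≤ f t) {D : ℝ} {m : ℕ}
    (hD : ∀ t, 0 ≤ t → f t ≤ D * (1 + t) ^ m) : ∀ᶠ T : ℝ in atTop, ∀ w : ℝ, 0 ≤ w →
    (∀ x ∈ Set.Ioc (T / 4) (T / 2), ∀ κ : ℕ, Rng x κ → w ≤ ∫ t in Set.Ioi (0:ℝ), om κ (κ / x) t * f t) →
    w * (T / 4) ≤ (∫ t in (0:ℝ)..T, f t) + 2 := by
  have hD1 : 0 ≤ |D| + 1 := by positivity
  have hlogt := Real.tendsto_log_atTop
  filter_upwards [kk_ev, eventually_ge_atTop 16, hlogt.eventually_ge_atTop (32 * ((m:ℝ) + 4)),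
    eventually_ge_atTop (|D| + 1)] with T hk hT16 hL hTD w hw hwin
  obtain ⟨hk1, hk2, hk3⟩ := hk
  have hT : 0 < T := by linarith
  have hT1 : 1 ≤ T := by linarith
  set L := Real.log T with hLd
  have hm0 : (0:ℝ) ≤ m := Nat.cast_nonneg m
  have hL1 : 128 ≤ L := by linarith
  have h9 : T ^ ((9:ℝ)/10) ≤ T / 2 := by
    have h1 : (2:ℝ) ≤ T ^ ((1:ℝ)/10) := by
      rw [Real.rpow_def_of_pos hT]
      have : (1:ℝ) + 1 ≤ Real.exp (Real.log T * (1 / 10)) := by
        have h := Real.add_one_le_exp (Real.log T * (1 / 10))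
        linarith
      linarith
    have h2 : T ^ ((9:ℝ)/10) * T ^ ((1:ℝ)/10) = T := by
      rw [← Real.rpow_add hT]; norm_num
    have h3 : 0 < T ^ ((9:ℝ)/10) := by positivity
    nlinarith
  have hrng : ∀ x ∈ Set.Ioc (T / 4) (T / 2), Rng x (kk T) := fun x hx =>
    (hk3 x ⟨by linarith [hx.1], by linarith [hx.2]⟩).1
  have h2 := ss_dnp hf hf0 hD hk1 (a := T / 4) (b := T / 2) (by positivity) hw
    (fun x hx => hwin x hx _ (hrng x hx))
  -- the exponential gain
  have hexp : ∀ v : ℝ, 1 ≤ v → (|D| + 1) * (2 * v * T) ^ m * (T * v ^ 2) * Real.exp (-(1 / 8 * v * (kk T : ℝ))) ≤ 1 := by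
    intro v hv
    have hv0 : 0 < v := by linarith
    have hvT : 0 < v * T := by positivity
    have q1 : (2 * v * T) ^ m ≤ (v * T) ^ (2 * m) := by
      rw [pow_mul]
      refine pow_le_pow_left₀ (by positivity) ?_ m
      have h2v : 2 ≤ v * T := by nlinarith
      calc 2 * v * T = 2 * (v * T) := by ring
        _ ≤ (v * T) * (v * T) := mul_le_mul_of_nonneg_right h2v hvT.le
        _ = (v * T) ^ 2 := by ring
    have q2 : (|D| + 1) * (T * v ^ 2) ≤ (v * T) ^ 2 := by
      have : (|D| + 1) * (T * v ^ 2) ≤ T * (T * v ^ 2) := mul_le_mul_of_nonneg_right hTD (by positivity)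
      calc _ ≤ _ := this
        _ = _ := by ring
    have q3 : (|D| + 1) * (2 * v * T) ^ m * (T * v ^ 2) ≤ (v * T) ^ (2 * m + 2) := by
      calc _ = ((|D| + 1) * (T * v ^ 2)) * (2 * v * T) ^ m := by ring
        _ ≤ (v * T) ^ 2 * (v * T) ^ (2 * m) := mul_le_mul q2 q1 (by positivity) (by positivity)
        _ = _ := by rw [← pow_add]; congr 1; ring
    have q4 : (v * T) ^ (2 * m + 2) = Real.exp ((2 * m + 2) * (Real.log v + L)) := by
      rw [← Real.log_mul hv0.ne' hT.ne', ← Real.exp_log hvT, ← Real.exp_nat_mul, Real.exp_log hvT]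
      push_cast; rfl
    have q5 : Real.log v ≤ v := (Real.log_le_sub_one_of_pos hv0).trans (by linarith)
    refine (mul_le_mul_of_nonneg_right q3 (Real.exp_pos _).le).trans ?_
    rw [q4, ← Real.exp_add]
    refine Real.exp_le_one_iff.mpr ?_
    have q6 : (2 * (m:ℝ) + 2) * (Real.log v + L) ≤ (2 * (m:ℝ) + 2) * (2 * v * L) := by
      refine mul_le_mul_of_nonneg_left ?_ (by positivity)
      nlinarith
    have q7 : (2 * (m:ℝ) + 2) * (2 * v * L) ≤ 1 / 8 * v * (3 * L ^ 2) := by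
      have : (2 * (m:ℝ) + 2) * 2 ≤ 3 / 8 * L := by linarith
      calc (2 * (m:ℝ) + 2) * (2 * v * L) = ((2 * (m:ℝ) + 2) * 2) * (v * L) := by ring
        _ ≤ (3 / 8 * L) * (v * L) := mul_le_mul_of_nonneg_right this (by positivity)
        _ = _ := by ring
    have q8 : 1 / 8 * v * (3 * L ^ 2) ≤ 1 / 8 * v * (kk T : ℝ) := mul_le_mul_of_nonneg_left hk2 (by positivity)
    linarith
  have hfb : ∀ t, 0 < t → ∀ v : ℝ, 1 ≤ v → t ≤ v * T → f t ≤ (|D| + 1) * (2 * v * T) ^ m := by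
    intro t ht v hv htv
    refine (hD t ht.le).trans ?_
    have h1 : (1 + t) ^ m ≤ (2 * v * T) ^ m := by
      refine pow_le_pow_left₀ (by linarith) ?_ m
      nlinarith
    calc D * (1 + t) ^ m ≤ (|D| + 1) * (1 + t) ^ m :=
          mul_le_mul_of_nonneg_right (by linarith [le_abs_self D]) (by positivity)
      _ ≤ _ := mul_le_mul_of_nonneg_left h1 hD1
  have h3 := ss_up hf hf0 hk1 (a := T / 4) (b := T / 2) (A := T / 8) (B := T) (E := 1 / T)
    (by positivity) (by linarith) (by positivity) (by linarith) (by positivity)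
    (fun t ht0 htT => by
      have p1 := phR (ρ := 1) one_pos le_rfl (kk T) ht0 (b := T / 4) (by linarith)
      have p2 : 0 ≤ 1 - Ph (kk T) ((kk T : ℕ) * t / (T / 4)) := by
        have := Ph_le_one (kk T) (u := (kk T : ℕ) * t / (T / 4)) (by positivity)
        linarith
      have p3 := hfb t ht0 1 le_rfl (by linarith)
      have p4 := hexp 1 le_rfl
      have p5 : Real.exp (-(1 ^ 2 / 8 * (kk T : ℝ))) = Real.exp (-(1 / 8 * 1 * (kk T : ℝ))) := by
        congr 1; ring
      rw [p5] at p1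
      calc f t * (1 - Ph (kk T) ((kk T : ℕ) * t / (T / 4))) ≤
          ((|D| + 1) * (2 * 1 * T) ^ m) * Real.exp (-(1 / 8 * 1 * (kk T : ℝ))) :=
            mul_le_mul p3 p1 p2 (by positivity)
        _ = ((|D| + 1) * (2 * 1 * T) ^ m * (T * 1 ^ 2) * Real.exp (-(1 / 8 * 1 * (kk T : ℝ)))) / T := by
            field_simp
        _ ≤ 1 / T := by gcongr)
    (fun t ht => by
      have ht0 : 0 < t := by linarith
      have p1 := phL (ρ := 1) one_pos le_rfl (kk T) (a := T / 2) (t := t) (by positivity) (by linarith)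
      have p0 := Ph_nonneg (kk T) (u := (kk T : ℕ) * t / (T / 2)) (by positivity)
      set v := t / (T / 2) with hv
      have hv1 : 1 ≤ v := by rw [hv, le_div_iff₀ (by positivity)]; linarith
      have hv0 : 0 < v := by linarith
      have htv : t = v * T / 2 := by rw [hv]; field_simp
      have p3 := hfb t ht0 v hv1 (by rw [htv]; nlinarith)
      have p4 := hexp v hv1
      have p5 : Real.exp (-(1 ^ 2 / 8 * v * (kk T : ℝ))) = Real.exp (-(1 / 8 * v * (kk T : ℝ))) := by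
        congr 1; ring
      rw [p5] at p1
      have e2 : t ^ (-2 : ℝ) = (t ^ 2)⁻¹ := by
        rw [Real.rpow_neg ht0.le]; congr 1
        rw [← Real.rpow_natCast]; norm_num
      calc f t * Ph (kk T) ((kk T : ℕ) * t / (T / 2)) ≤
          ((|D| + 1) * (2 * v * T) ^ m) * Real.exp (-(1 / 8 * v * (kk T : ℝ))) :=
            mul_le_mul p3 p1 p0 (by positivity)
        _ = ((|D| + 1) * (2 * v * T) ^ m * (T * v ^ 2) * Real.exp (-(1 / 8 * v * (kk T : ℝ)))) / (T * v ^ 2) := by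
            field_simp
        _ ≤ 1 / (T * v ^ 2) := by gcongr
        _ ≤ 1 / T * T ^ 2 * t ^ (-2 : ℝ) := by
            rw [e2, htv]
            rw [div_le_iff₀ (by positivity)]
            have : 1 / T * T ^ 2 * ((v * T / 2) ^ 2)⁻¹ * (T * v ^ 2) = 4 := by
              field_simp
              norm_num
            rw [this]; norm_num)
  have h4 := h2.trans h3
  have hi0 : 0 ≤ ∫ t in (T / 8)..T, f t := intervalIntegral.integral_nonneg (by linarith)
    fun t _ => hf0 t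
  rw [ENNReal.ofReal_le_ofReal_iff (by positivity)] at h4
  have h5 : ∫ t in (T / 8)..T, f t ≤ ∫ t in (0:ℝ)..T, f t := by
    have := intervalIntegral.integral_add_adjacent_intervals (f := f) (hf.intervalIntegrable 0 (T / 8))
      (hf.intervalIntegrable (T / 8) T) (μ := volume)
    have h0 : 0 ≤ ∫ t in (0:ℝ)..(T / 8), f t := intervalIntegral.integral_nonneg (by positivity) fun t _ => hf0 t
    linarith
  have e1 : 1 / T * (T / 8) = 1 / 8 := by field_simp
  have e2 : 1 / T * T = 1 := by field_simp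
  rw [e1, e2] at h4
  have e3 : w * (T / 2 - T / 4) = w * (T / 4) := by ring
  rw [e3] at h4
  linarith

end

end Pool.Agent.KS6_89.PP
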